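import Pool.Agent.MP_477625_lc.H75.Lib2

/-! Recursively enumerable relations are uniformly definable. -/

namespace Pool.Agent.MP_477625_lc.H75
open ZFSet

universe u v

set_option linter.unusedVariables false
set_option synthInstance.maxSize 100000

def N2 (R : ℕ → ℕ → Prop) (x y : ZF) : Prop := ∃ a b, x = nat a ∧ y = nat b ∧ R a b
def N3 (R : ℕ → ℕ → ℕ → Prop) (x y z : ZF) : Prop :=
  ∃ a b c, x = nat a ∧ y = nat b ∧ z = nat c ∧ R a b c
def N4 (R : ℕ → ℕ → ℕ → ℕ → Prop) (x y z w : ZF) : Prop :=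
  ∃ a b c d, x = nat a ∧ y = nat b ∧ z = nat c ∧ w = nat d ∧ R a b c d

@[simp] theorem n2_nat {R a b} : N2 R (nat a) (nat b) ↔ R a b := by simp [N2]
@[simp] theorem n3_nat {R a b c} : N3 R (nat a) (nat b) (nat c) ↔ R a b c := by simp [N3]
@[simp] theorem n4_nat {R a b c d} : N4 R (nat a) (nat b) (nat c) (nat d) ↔ R a b c d := by
  simp [N4]

class ND2 (R : ℕ → ℕ → Prop) : Prop where
  out : Df ℕ fun _ _ v => N2 R (v 0) (v 1)
class ND3 (R : ℕ → ℕ → ℕ → Prop) : Prop where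
  out : Df ℕ fun _ _ v => N3 R (v 0) (v 1) (v 2)
class ND4 (R : ℕ → ℕ → ℕ → ℕ → Prop) : Prop where
  out : Df ℕ fun _ _ v => N4 R (v 0) (v 1) (v 2) (v 3)

section
variable {K : Type u} {a b c d : Set ZF → Set ZF → (K → ZF) → ZF}

instance Df.n2 {R} [h : ND2 R] [DT K a] [DT K b] :
    Df K fun M U v => N2 R (a M U v) (b M U v) := Df.sub2 (R := fun _ _ => N2 R) h.out _ _
instance Df.n3 {R} [h : ND3 R] [DT K a] [DT K b] [DT K c] :
    Df K fun M U v => N3 R (a M U v) (b M U v) (c M U v) :=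
  Df.sub3 (R := fun _ _ => N3 R) h.out _ _ _
instance Df.n4 {R} [h : ND4 R] [DT K a] [DT K b] [DT K c] [DT K d] :
    Df K fun M U v => N4 R (a M U v) (b M U v) (c M U v) (d M U v) :=
  Df.sub4 (R := fun _ _ => N4 R) h.out _ _ _ _
end

theorem ND2.of {R : ℕ → ℕ → Prop} (P : ZF → ZF → Prop)
    [hP : Df ℕ fun _ _ v => P (v 0) (v 1)] (h : ∀ a b, P (nat a) (nat b) ↔ R a b) : ND2 R :=
  ⟨(inferInstance : Df ℕ fun _ _ v => v 0 ∈ om ∧ v 1 ∈ om ∧ P (v 0) (v 1)).congr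
    fun M U _ v _ => by
      simp only [mem_om]
      constructor
      · rintro ⟨a, b, e1, e2, h'⟩
        exact ⟨⟨a, e1⟩, ⟨b, e2⟩, by rw [e1, e2, h]; exact h'⟩
      · rintro ⟨⟨a, e1⟩, ⟨b, e2⟩, h'⟩
        exact ⟨a, b, e1, e2, by rw [e1, e2, h] at h'; exact h'⟩⟩

theorem ND3.of {R : ℕ → ℕ → ℕ → Prop} (P : ZF → ZF → ZF → Prop)
    [hP : Df ℕ fun _ _ v => P (v 0) (v 1) (v 2)]
    (h : ∀ a b c, P (nat a) (nat b) (nat c) ↔ R a b c) : ND3 R :=
  ⟨(inferInstance : Df ℕ fun _ _ v => v 0 ∈ om ∧ v 1 ∈ om ∧ v 2 ∈ om ∧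
    P (v 0) (v 1) (v 2)).congr fun M U _ v _ => by
      simp only [mem_om]
      constructor
      · rintro ⟨a, b, c, e1, e2, e3, h'⟩
        exact ⟨⟨a, e1⟩, ⟨b, e2⟩, ⟨c, e3⟩, by rw [e1, e2, e3, h]; exact h'⟩
      · rintro ⟨⟨a, e1⟩, ⟨b, e2⟩, ⟨c, e3⟩, h'⟩
        exact ⟨a, b, c, e1, e2, e3, by rw [e1, e2, e3, h] at h'; exact h'⟩⟩

theorem ND4.of {R : ℕ → ℕ → ℕ → ℕ → Prop} (P : ZF → ZF → ZF → ZF → Prop)
    [hP : Df ℕ fun _ _ v => P (v 0) (v 1) (v 2) (v 3)]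
    (h : ∀ a b c d, P (nat a) (nat b) (nat c) (nat d) ↔ R a b c d) : ND4 R :=
  ⟨(inferInstance : Df ℕ fun _ _ v => v 0 ∈ om ∧ v 1 ∈ om ∧ v 2 ∈ om ∧ v 3 ∈ om ∧
    P (v 0) (v 1) (v 2) (v 3)).congr fun M U _ v _ => by
      simp only [mem_om]
      constructor
      · rintro ⟨a, b, c, d, e1, e2, e3, e4, h'⟩
        exact ⟨⟨a, e1⟩, ⟨b, e2⟩, ⟨c, e3⟩, ⟨d, e4⟩, by rw [e1, e2, e3, e4, h]; exact h'⟩
      · rintro ⟨⟨a, e1⟩, ⟨b, e2⟩, ⟨c, e3⟩, ⟨d, e4⟩, h'⟩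
        exact ⟨a, b, c, d, e1, e2, e3, e4, by rw [e1, e2, e3, e4, h] at h'; exact h'⟩⟩

def It (B : ℕ → ℕ → Prop) (S : ℕ → ℕ → ℕ → ℕ → Prop) (a : ℕ) : ℕ → ℕ → Prop
  | 0, z => B a z
  | y + 1, z' => ∃ z, It B S a y z ∧ S a y z z'

def ItS (B : ℕ → ℕ → Prop) (S : ℕ → ℕ → ℕ → ℕ → Prop) (a t w : ZF) : Prop :=
  ∃ z ∈ om, (w = pair ∅ z ∧ N2 B a z) ∨
    ∃ y ∈ om, ∃ z' ∈ om, w = pair (insert y y) z ∧ pair y z' ∈ t ∧ N4 S a y z' z

theorem nd_it (B : ℕ → ℕ → Prop) (S : ℕ → ℕ → ℕ → ℕ → Prop) [ND2 B] [ND4 S] : ND3 (It B S) := by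
  refine ⟨Df.congr (P := fun M U v => v 0 ∈ om ∧ Wit M (ItS B S (v 0)) (pair (v 1) (v 2)))
    (by unfold Wit ItS; infer_instance) fun M U hM v hv => ⟨?_, ?_⟩⟩
  · rintro ⟨a, y, z, e1, e2, e3, h⟩
    rw [e1, e2, e3]
    refine ⟨nat_mem_om _, ?_⟩
    clear e2 e3
    induction y generalizing z with
    | zero =>
      exact Wit.intro0 hM (hM.pair (hM.nat _) (hM.nat _)) fun _ =>
        ⟨_, nat_mem_om z, Or.inl ⟨rfl, n2_nat.2 h⟩⟩
    | succ y ih =>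
      obtain ⟨z', h1, h2⟩ := h
      refine Wit.intro1 hM ?_ (hM.pair (hM.nat _) (hM.nat _)) (ih z' h1) fun t ht =>
        ⟨_, nat_mem_om z, Or.inr ⟨_, nat_mem_om y, _, nat_mem_om z', rfl, ht, n4_nat.2 h2⟩⟩
      rintro t t' w h ⟨z, hz, h' | ⟨y, hy, z', hz', e, h1, h2⟩⟩
      · exact ⟨z, hz, Or.inl h'⟩
      · exact ⟨z, hz, Or.inr ⟨y, hy, z', hz', e, h h1, h2⟩⟩
  · rintro ⟨h0, t, -, h1, h2⟩
    obtain ⟨a, e⟩ := mem_om.1 h0
    rw [e] at h2 ⊢
    generalize v 1 = y at h1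
    generalize v 2 = z at h1
    induction y using ZFSet.inductionOn generalizing z with
    | h y ih =>
      obtain ⟨z', hz', ⟨e, h⟩ | ⟨y', hy', z'', hz'', e, h3, h4⟩⟩ := h2 _ h1
      · obtain ⟨rfl, rfl⟩ := pair_inj.1 e
        obtain ⟨z, rfl⟩ := mem_om.1 hz'
        exact (n3_nat (b := 0)).2 ((n2_nat (R := B)).1 h)
      · obtain ⟨rfl, rfl⟩ := pair_inj.1 e
        have := ih y' (mem_insert _ _) _ h3
        obtain ⟨z, rfl⟩ := mem_om.1 hz'
        obtain ⟨y, rfl⟩ := mem_om.1 hy'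
        obtain ⟨z'', rfl⟩ := mem_om.1 hz''
        exact (n3_nat (b := y + 1)).2 ⟨z'', n3_nat.1 this, n4_nat.1 h4⟩

theorem ND3.congr {R R' : ℕ → ℕ → ℕ → Prop} (h : ND3 R) (e : ∀ a b c, R a b c ↔ R' a b c) :
    ND3 R' := by
  have : R = R' := by funext a b c; exact propext (e a b c)
  exact this ▸ h

theorem nat_succ_eq {a b : ℕ} : nat a = insert (nat b) (nat b) ↔ a = b + 1 := nat_inj (n := b + 1)

def RAdd (a b c : ℕ) : Prop := a + b = c
def RMul (a b c : ℕ) : Prop := a * b = c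
def RPair (a b c : ℕ) : Prop := Nat.pair a b = c
def RCd (n r c : ℕ) : Prop := n = 6 * c + r

instance : ND3 RAdd := by
  have h1 : ND2 fun a z => z = a := ND2.of (fun a z => z = a) fun _ _ => nat_inj
  have h2 : ND4 fun a y z z' => z' = z + 1 :=
    ND4.of (fun a y z z' => z' = insert z z) fun _ _ _ _ => nat_succ_eq
  refine (nd_it (fun a z => z = a) fun a y z z' => z' = z + 1).congr fun a b => ?_
  induction b with
  | zero => intro c; simp [It, RAdd, eq_comm]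
  | succ b ih => intro c; simp only [It, ih, RAdd]; grind

instance : ND3 RMul := by
  have h1 : ND2 fun a z => z = 0 := ND2.of (fun a z => z = ∅) fun _ _ => nat_eq_empty
  have h2 : ND4 fun a y z z' => z + a = z' :=
    ND4.of (fun a y z z' => N3 RAdd z a z') fun _ _ _ _ => n3_nat
  refine (nd_it (fun a z => z = 0) fun a y z z' => z + a = z').congr fun a b => ?_
  induction b with
  | zero => intro c; simp [It, RMul, eq_comm]
  | succ b ih => intro c; simp only [It, ih, RMul, Nat.mul_succ]; simp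

instance : ND3 RPair :=
  ND3.of (fun a b c => (a ∈ b ∧ ∃ m ∈ om, N3 RMul b b m ∧ N3 RAdd m a c) ∨
    (a ∉ b ∧ ∃ m ∈ om, ∃ m' ∈ om, N3 RMul a a m ∧ N3 RAdd m a m' ∧ N3 RAdd m' b c)) fun a b c => by
    simp only [ex_om, n3_nat, nat_mem_nat, RMul, RAdd, RPair, Nat.pair]
    split_ifs with h <;> simp [h]

instance : ND3 RCd :=
  ND3.of (fun n r c => ∃ m ∈ om, N3 RMul (nat 6) c m ∧ N3 RAdd m r n) fun a b c => by
    simp only [ex_om, n3_nat, RMul, RAdd, RCd]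
    simp [eq_comm]

theorem nd_partrec {f : ℕ →. ℕ} (hf : Nat.Partrec f) : ND2 fun n m => m ∈ f n := by
  induction hf with
  | zero => exact ND2.of (fun a z => z = ∅) fun _ _ => by simp [nat_eq_empty, Pure.pure, PFun.pure]
  | succ => exact ND2.of (fun a z => z = insert a a) fun _ _ => by simp [nat_succ_eq]
  | left =>
    refine ND2.of (fun a z => ∃ b ∈ om, N3 RPair z b a) fun a z => ?_
    simp only [ex_om, n3_nat, RPair, PFun.coe_val, Part.mem_some_iff]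
    exact ⟨fun ⟨b, h⟩ => by simp [← h], fun h => ⟨a.unpair.2, by simp [h]⟩⟩
  | right =>
    refine ND2.of (fun a z => ∃ b ∈ om, N3 RPair b z a) fun a z => ?_
    simp only [ex_om, n3_nat, RPair, PFun.coe_val, Part.mem_some_iff]
    exact ⟨fun ⟨b, h⟩ => by simp [← h], fun h => ⟨a.unpair.1, by simp [h]⟩⟩
  | @pair f g _ _ ih1 ih2 =>
    refine ND2.of (fun a z => ∃ b ∈ om, ∃ c ∈ om, N2 (fun n m => m ∈ f n) a b ∧
      N2 (fun n m => m ∈ g n) a c ∧ N3 RPair b c z) fun a z => ?_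
    simp [ex_om, RPair, Seq.seq]
  | @comp f g _ _ ih1 ih2 =>
    refine ND2.of (fun a z => ∃ b ∈ om, N2 (fun n m => m ∈ g n) a b ∧
      N2 (fun n m => m ∈ f n) b z) fun a z => ?_
    simp [ex_om]
  | @prec f g _ _ ih1 ih2 =>
    have h2 : ND4 fun a y z z' => z' ∈ g (Nat.pair a (Nat.pair y z)) :=
      ND4.of (fun a y z z' => ∃ b ∈ om, ∃ c ∈ om, N3 RPair y z b ∧ N3 RPair a b c ∧
        N2 (fun n m => m ∈ g n) c z') fun _ _ _ _ => by simp [ex_om, RPair]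
    have h3 := nd_it (fun n m => m ∈ f n) fun a y z z' => z' ∈ g (Nat.pair a (Nat.pair y z))
    refine ND2.of (fun n z => ∃ a ∈ om, ∃ y ∈ om, N3 RPair a y n ∧ N3 (It (fun n m => m ∈ f n)
      fun a y z z' => z' ∈ g (Nat.pair a (Nat.pair y z))) a y z) fun n z => ?_
    have key : ∀ a y z, It (fun n m => m ∈ f n)
        (fun a y z z' => z' ∈ g (Nat.pair a (Nat.pair y z))) a y z ↔
        z ∈ (y.rec (f a) fun y IH => do let i ← IH; g (Nat.pair a (Nat.pair y i)) : Part ℕ) := by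
      intro a y
      induction y with
      | zero => intro z; rfl
      | succ y ih => intro z; simp [It, ih]
    simp only [ex_om, n3_nat, RPair, key, Nat.unpaired]
    exact ⟨fun ⟨a, y, e, h⟩ => by simpa [← e] using h,
      fun h => ⟨n.unpair.1, n.unpair.2, by simp, h⟩⟩
  | @rfind f _ ih =>
    refine ND2.of (fun a z => (∃ b ∈ om, N3 RPair a z b ∧ N2 (fun n m => m ∈ f n) b ∅) ∧
      ∀ k ∈ z, ∃ b ∈ om, ∃ c ∈ om, N3 RPair a k b ∧ N2 (fun n m => m ∈ f n) b c ∧ c ≠ ∅)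
      fun a z => ?_
    have : ∀ p : ZF → Prop, (∀ k ∈ nat z, p k) ↔ ∀ k < z, p (nat k) := fun p =>
      ⟨fun h k hk => h _ (nat_mem_nat.2 hk), fun h k hk => by
        obtain ⟨m, hm, rfl⟩ := mem_nat.1 hk; exact h m hm⟩
    rw [this, show (∅ : ZF) = nat 0 from rfl]
    simp only [ex_om, n3_nat, n2_nat, RPair, Nat.mem_rfind, ne_eq, nat_inj]
    simp [eq_comm]

theorem nd_computable {p : ℕ → Prop} (hp : ComputablePred p) : ND2 fun n _ => p n := by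
  have h : ND2 fun n m => m ∈ (Part.assert (p n) fun _ => Part.some ()).map fun _ => 0 :=
    nd_partrec (Partrec.nat_iff.1 (hp.to_re.map (Computable.const 0).to₂))
  refine ND2.of (fun a _ => N2 (fun n m => m ∈ (Part.assert (p n) fun _ => Part.some ()).map
    fun _ => 0) a (nat 0)) (hP := Df.n2 (h := h)) fun a _ => ?_
  simp [Part.mem_assert_iff]

end Pool.Agent.MP_477625_lc.H75
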