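import Pool.Agent.MP_477625_lc.H75.HC

/-! Second order definable properties of structures. -/

namespace Pool.Agent.MP_477625_lc.H75
open ZFSet Cardinal

universe u v

set_option linter.unusedVariables false
set_option linter.unusedSectionVars false
set_option synthInstance.maxSize 100000

abbrev SP (K J : Type) : Type 1 :=
  ∀ A : Type, (K → A) → (J → A → A → Prop) → (ℕ → Set (List A)) → Prop

class SD (I : Type → Prop) (σ : List ℕ) (K J : Type) (P : SP K J) : Prop where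
  out : ∀ (n : ℕ) (Γ : List ℕ) (p : K → ℕ) (q : J → ℕ) (m : ℕ), (∀ k, p k < n) →
    (∀ j, Γ[q j]? = some 2) → (∀ r, Γ[r + m]? = σ[r]?) → ∃ φ : SO, φ.WF n Γ ∧
      ∀ A, I A → ∀ (v : ℕ → A) (ρ : ℕ → Set (List A)), (φ.Sat v ρ ↔
        P A (fun k => v (p k)) (fun j a b => [a, b] ∈ ρ (q j)) fun r => ρ (r + m))

def exN : ℕ → SO → SO
  | 0, φ => φ
  | N + 1, φ => .ex1 (exN N φ)

theorem wf_exN {φ : SO} {Γ : List ℕ} : ∀ {N n : ℕ}, φ.WF (n + N) Γ → (exN N φ).WF n Γ
  | 0, _, h => h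
  | N + 1, n, h => wf_exN (N := N) (n := n + 1) (by rwa [Nat.add_right_comm])

theorem sat_exN {A : Type} {φ : SO} {ρ : ℕ → Set (List A)} : ∀ {N : ℕ} {v : ℕ → A},
    (exN N φ).Sat v ρ ↔ ∃ w : ℕ → A, (∀ i, w (i + N) = v i) ∧ φ.Sat w ρ
  | 0, v => ⟨fun h => ⟨v, fun _ => rfl, h⟩, fun ⟨w, h1, h2⟩ => (funext h1 : w = v) ▸ h2⟩
  | N + 1, v => by
    simp only [exN, SO.Sat, sat_exN (N := N)]
    constructor
    · rintro ⟨a, w, h1, h2⟩
      exact ⟨w, fun i => by rw [← Nat.add_assoc, Nat.add_right_comm]; exact h1 (i + 1), h2⟩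
    · rintro ⟨w, h1, h2⟩
      refine ⟨w N, w, fun i => ?_, h2⟩
      cases i with
      | zero => simp
      | succ i => rw [Nat.add_right_comm, Nat.add_assoc]; exact h1 i

namespace SD
variable {I : Type → Prop} {σ : List ℕ} {K J : Type} {P Q : SP K J}

theorem congr (h : SD I σ K J P) (e : ∀ A, I A → ∀ v E ρ, (Q A v E ρ ↔ P A v E ρ)) :
    SD I σ K J Q := ⟨fun n Γ p q m h1 h2 h3 =>
  let ⟨φ, w, h⟩ := h.out n Γ p q m h1 h2 h3
  ⟨φ, w, fun A hA v ρ => (h A hA v ρ).trans (e A hA _ _ _).symm⟩⟩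

instance not [h : SD I σ K J P] : SD I σ K J fun A v E ρ => ¬ P A v E ρ :=
  ⟨fun n Γ p q m h1 h2 h3 =>
    let ⟨φ, w, h⟩ := h.out n Γ p q m h1 h2 h3
    ⟨.neg φ, w, fun A hA v ρ => not_congr (h A hA v ρ)⟩⟩

instance and [h : SD I σ K J P] [h' : SD I σ K J Q] :
    SD I σ K J fun A v E ρ => P A v E ρ ∧ Q A v E ρ :=
  ⟨fun n Γ p q m h1 h2 h3 =>
    let ⟨φ, w, h⟩ := h.out n Γ p q m h1 h2 h3
    let ⟨ψ, w', h'⟩ := h'.out n Γ p q m h1 h2 h3
    ⟨.and φ ψ, ⟨w, w'⟩, fun A hA v ρ => and_congr (h A hA v ρ) (h' A hA v ρ)⟩⟩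

instance or [h : SD I σ K J P] [h' : SD I σ K J Q] :
    SD I σ K J fun A v E ρ => P A v E ρ ∨ Q A v E ρ :=
  (inferInstance : SD I σ K J fun A v E ρ => ¬ (¬ P A v E ρ ∧ ¬ Q A v E ρ)).congr
    fun _ _ _ _ _ => by tauto

instance imp [h : SD I σ K J P] [h' : SD I σ K J Q] :
    SD I σ K J fun A v E ρ => P A v E ρ → Q A v E ρ :=
  (inferInstance : SD I σ K J fun A v E ρ => ¬ (P A v E ρ ∧ ¬ Q A v E ρ)).congr
    fun _ _ _ _ _ => by tauto

instance iff [h : SD I σ K J P] [h' : SD I σ K J Q] :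
    SD I σ K J fun A v E ρ => P A v E ρ ↔ Q A v E ρ :=
  (inferInstance : SD I σ K J fun A v E ρ => (P A v E ρ → Q A v E ρ) ∧
    (Q A v E ρ → P A v E ρ)).congr fun _ _ _ _ _ => by tauto

theorem const (p : Prop) : SD I σ K J fun _ _ _ _ => p := by
  have : SD I σ K J fun _ _ _ _ => True := ⟨fun n Γ p q m h1 h2 h3 =>
    ⟨.ex2 0 (.app 0 []), ⟨rfl, by simp⟩, fun A hA v ρ => iff_of_true ⟨{[]}, by simp, rfl⟩ trivial⟩⟩
  by_cases hp : p
  · exact this.congr fun _ _ _ _ _ => by simp [hp]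
  · exact (SD.not (h := this)).congr fun _ _ _ _ _ => by simp [hp]

instance eq (a b : K) : SD I σ K J fun _ v _ _ => v a = v b :=
  ⟨fun n Γ p q m h1 h2 h3 => ⟨.eq (p a) (p b), ⟨h1 a, h1 b⟩, fun _ _ _ _ => Iff.rfl⟩⟩

instance rel (j : J) (a b : K) : SD I σ K J fun _ v E _ => E j (v a) (v b) :=
  ⟨fun n Γ p q m h1 h2 h3 => ⟨.app (q j) [p a, p b], ⟨h2 j, by simp [h1]⟩,
    fun _ _ _ _ => Iff.rfl⟩⟩

theorem app {r : ℕ} {l : List K} (h : σ[r]? = some l.length) :
    SD I σ K J fun _ v _ ρ => l.map v ∈ ρ r :=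
  ⟨fun n Γ p q m h1 h2 h3 => ⟨.app (r + m) (l.map p), ⟨by rw [h3, h, List.length_map],
    by simp [h1]⟩, fun _ _ _ _ => by simp only [SO.Sat, List.map_map]; rfl⟩⟩

instance ex1 {R : ∀ A : Type, (K → A) → (J → A → A → Prop) → (ℕ → Set (List A)) → A → Prop}
    [h : SD I σ (Option K) J fun A w E ρ => R A (fun k => w (some k)) E ρ (w none)] :
    SD I σ K J fun A v E ρ => ∃ a, R A v E ρ a :=
  ⟨fun n Γ p q m h1 h2 h3 =>
    let ⟨φ, w, h⟩ := h.out (n + 1) Γ (fun k => k.elim 0 fun k => p k + 1) q m (by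
      rintro (_ | k)
      · exact n.succ_pos
      · exact Nat.succ_lt_succ (h1 k)) h2 h3
    ⟨.ex1 φ, w, fun A hA v ρ => exists_congr fun a => h A hA _ ρ⟩⟩

instance all1 {R : ∀ A : Type, (K → A) → (J → A → A → Prop) → (ℕ → Set (List A)) → A → Prop}
    [h : SD I σ (Option K) J fun A w E ρ => R A (fun k => w (some k)) E ρ (w none)] :
    SD I σ K J fun A v E ρ => ∀ a, R A v E ρ a :=
  (SD.not (h := ex1 (R := fun A v E ρ a => ¬ R A v E ρ a) (h := SD.not (h := h)))).congr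
    fun _ _ _ _ _ => by simp

instance ex2 {R : ∀ A : Type, (K → A) → (J → A → A → Prop) → (ℕ → Set (List A)) →
    (A → A → Prop) → Prop}
    [h : SD I σ K (Option J) fun A v F ρ => R A v (fun j => F (some j)) ρ (F none)] :
    SD I σ K J fun A v E ρ => ∃ Z, R A v E ρ Z :=
  ⟨fun n Γ p q m h1 h2 h3 => by
    obtain ⟨φ, w, h⟩ := h.out n (2 :: Γ) p (fun j => j.elim 0 fun j => q j + 1) (m + 1) h1 (by
      rintro (_ | j)
      · rfl
      · exact h2 j) h3
    refine ⟨.ex2 2 φ, w, fun A hA v ρ => ⟨fun ⟨Z, _, h4⟩ => ⟨_, (h A hA v _).1 h4⟩, ?_⟩⟩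
    rintro ⟨Z, h4⟩
    refine ⟨{l | ∃ a b, l = [a, b] ∧ Z a b}, ?_, (h A hA v _).2 ?_⟩
    · rintro _ ⟨a, b, rfl, -⟩; rfl
    · have : Z = fun a b => [a, b] ∈ {l | ∃ a b, l = [a, b] ∧ Z a b} := by
        funext a b; simp
      rw [this] at h4
      exact h4⟩

instance all2 {R : ∀ A : Type, (K → A) → (J → A → A → Prop) → (ℕ → Set (List A)) →
    (A → A → Prop) → Prop}
    [h : SD I σ K (Option J) fun A v F ρ => R A v (fun j => F (some j)) ρ (F none)] :
    SD I σ K J fun A v E ρ => ∀ Z, R A v E ρ Z :=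
  (SD.not (h := ex2 (R := fun A v E ρ a => ¬ R A v E ρ a) (h := SD.not (h := h)))).congr
    fun _ _ _ _ _ => by simp

theorem all_fin {ι : Type*} [Finite ι] {R : ι → SP K J} (h : ∀ i, SD I σ K J (R i)) :
    SD I σ K J fun A v E ρ => ∀ i, R i A v E ρ := by
  classical
  have : ∀ s : Finset ι, SD I σ K J fun A v E ρ => ∀ i ∈ s, R i A v E ρ := by
    intro s
    induction s using Finset.induction_on with
    | empty => exact (const True).congr fun _ _ _ _ _ => by simp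
    | insert a s _ ih => exact (SD.and (h := h a) (h' := ih)).congr fun _ _ _ _ _ => by simp
  have _i := Fintype.ofFinite ι
  exact (this Finset.univ).congr fun _ _ _ _ _ => by simp

theorem ex_fin {ι : Type*} [Finite ι] {R : ι → SP K J} (h : ∀ i, SD I σ K J (R i)) :
    SD I σ K J fun A v E ρ => ∃ i, R i A v E ρ :=
  (SD.not (h := all_fin fun i => SD.not (h := h i))).congr fun _ _ _ _ _ => by simp

theorem exF {L : Type} [Finite L] {R : SP (K ⊕ L) J} (h : SD I σ (K ⊕ L) J R) :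
    SD I σ K J fun A v E ρ => ∃ u : L → A, R A (Sum.elim v u) E ρ :=
  ⟨fun n Γ p q m h1 h2 h3 => by
    obtain ⟨N, ⟨e⟩⟩ := Finite.exists_equiv_fin L
    obtain ⟨φ, w, h⟩ := h.out (n + N) Γ (Sum.elim (fun k => p k + N) fun k => e k) q m (by
      rintro (k | k)
      · exact Nat.add_lt_add_right (h1 k) N
      · exact (e k).2.trans_le (Nat.le_add_left _ _)) h2 h3
    refine ⟨exN N φ, wf_exN w, fun A hA v ρ => ?_⟩
    simp only [sat_exN, h A hA]
    constructor
    · rintro ⟨w, h4, h5⟩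
      refine ⟨fun k => w (e k), ?_⟩
      convert h5 using 2 with k
      rcases k with k | k
      · exact (h4 _).symm
      · rfl
    · rintro ⟨u, h4⟩
      refine ⟨fun i => if h : i < N then u (e.symm ⟨i, h⟩) else v (i - N), fun i => by simp, ?_⟩
      convert h4 using 2 with k
      rcases k with k | k <;> simp⟩

theorem allF {L : Type} [Finite L] {R : SP (K ⊕ L) J} (h : SD I σ (K ⊕ L) J R) :
    SD I σ K J fun A v E ρ => ∀ u : L → A, R A (Sum.elim v u) E ρ :=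
  (SD.not (h := exF (SD.not (h := h)))).congr fun _ _ _ _ _ => by simp

theorem sentence {P : SP Empty Empty} (h : SD I σ Empty Empty P) : ∃ φ : Sentence σ,
    ∀ M : Struc σ, I M.A → (M.Sat φ ↔ P M.A Empty.elim Empty.elim M.rel) := by
  obtain ⟨φ, w, h⟩ := h.out 0 σ Empty.elim Empty.elim 0 (fun k => k.elim) (fun k => k.elim)
    fun _ => rfl
  refine ⟨⟨φ, w⟩, fun M hM => ?_⟩
  have := M.nonempty
  have e : ∀ v : ℕ → M.A, φ.Sat v M.rel ↔ P M.A Empty.elim Empty.elim M.rel := fun v => by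
    rw [h M.A hM]
    exact iff_of_eq (congrFun (congrArg₂ (P M.A) (funext fun k => k.elim)
      (funext fun k => k.elim)) _)
  simp only [Struc.Sat, e, forall_const]

instance wf (j : J) : SD I σ K J fun _ _ E _ => WellFounded (E j) :=
  (inferInstance : SD I σ K J fun A v E ρ => ∀ Z : A → A → Prop, ∀ a, Z a a →
    ∃ b, Z b b ∧ ∀ c, Z c c → ¬ E j c b).congr fun A _ v E ρ =>
    ⟨fun h Z a ha => h.has_min {a | Z a a} ⟨a, ha⟩, fun h =>
      WellFounded.wellFounded_iff_has_min.2 fun s ⟨a, ha⟩ => h (fun a _ => a ∈ s) a ha⟩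

end SD

theorem wval_of_not {α : Type} {r : α → α → Prop} (h : ¬ WellFounded r) (a : α) : wval r a = ∅ :=
  dif_neg h

theorem mem_wval' {α : Type} {r : α → α → Prop} {a : α} {z : ZF} :
    z ∈ wval r a ↔ WellFounded r ∧ ∃ b, r b a ∧ wval r b = z := by
  by_cases h : WellFounded r
  · rw [mem_wval h, and_iff_right h]
  · simp [wval_of_not h, h]

theorem wval_eq_empty {α : Type} {r : α → α → Prop} {a : α} :
    wval r a = ∅ ↔ ¬ WellFounded r ∨ ∀ b, ¬ r b a := by
  simp only [ZFSet.eq_empty, mem_wval']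
  constructor
  · intro h
    by_contra hc
    push Not at hc
    obtain ⟨h1, b, hb⟩ := hc
    exact h _ ⟨h1, b, hb, rfl⟩
  · rintro (h | h) y ⟨h1, b, hb, -⟩
    exacts [h h1, h b hb]

theorem wval_eq_iff {α : Type} {r r' : α → α → Prop} {a a' : α} : wval r a = wval r' a' ↔
    (WellFounded r ∧ WellFounded r' ∧ ∃ Z : α → α → Prop, Z a a' ∧ ∀ b b', Z b b' →
      (∀ c, r c b → ∃ c', r' c' b' ∧ Z c c') ∧ ∀ c', r' c' b' → ∃ c, r c b ∧ Z c c') ∨
    ((¬ WellFounded r ∨ ∀ b, ¬ r b a) ∧ (¬ WellFounded r' ∨ ∀ b, ¬ r' b a')) := by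
  rw [← wval_eq_empty, ← wval_eq_empty]
  constructor
  · intro e
    by_cases h : WellFounded r
    · by_cases h' : WellFounded r'
      · refine Or.inl ⟨h, h', fun b b' => wval r b = wval r' b', e, fun b b' e =>
          ⟨fun c hc => ?_, fun c hc => (mem_wval h).1 (e ▸ (mem_wval h').2 ⟨c, hc, rfl⟩)⟩⟩
        obtain ⟨c', h1, h2⟩ := (mem_wval h').1 (e ▸ (mem_wval h).2 ⟨c, hc, rfl⟩)
        exact ⟨c', h1, h2.symm⟩
      · exact Or.inr ⟨e.trans (wval_of_not h' _), wval_of_not h' _⟩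
    · exact Or.inr ⟨wval_of_not h _, e.symm.trans (wval_of_not h _)⟩
  · rintro (⟨h, h', Z, h1, h2⟩ | h)
    · induction a using h.induction generalizing a' with
      | _ a ih =>
        ext z
        rw [mem_wval h, mem_wval h']
        constructor
        · rintro ⟨c, hc, rfl⟩
          obtain ⟨c', h3, h4⟩ := (h2 a a' h1).1 c hc
          exact ⟨c', h3, (ih c hc h4).symm⟩
        · rintro ⟨c', hc, rfl⟩
          obtain ⟨c, h3, h4⟩ := (h2 a a' h1).2 c' hc
          exact ⟨c, h3, ih c h3 h4⟩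
    · exact h.1.trans h.2.symm

/-- The sets coded by well-founded relations on a type. -/
def HA (A : Type) : Set ZF := {y | ∃ (E : A → A → Prop) (a : A), wval E a = y}

theorem wval_mem {A : Type} {s : A → ZF} (h : ∀ a, ∀ b ∈ s a, ∃ a', s a' = b) (a : A) :
    wval (fun b a => s b ∈ s a) a = s a := by
  have wf : WellFounded fun b a => s b ∈ s a := InvImage.wf s ZFSet.mem_wf
  induction a using wf.induction with
  | _ a ih =>
    ext z
    rw [mem_wval wf]
    constructor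
    · rintro ⟨b, h1, rfl⟩; rwa [ih b h1]
    · intro hz
      obtain ⟨b, rfl⟩ := h a z hz
      exact ⟨b, hz, ih b hz⟩

theorem HA_eq (A : Type) [Infinite A] : HA A = HC #A := by
  ext y
  constructor
  · rintro ⟨E, a, rfl⟩
    by_cases h : WellFounded E
    · refine ⟨Set.range (wval E), ⟨a, rfl⟩, ?_, by simpa using mk_range_le_lift (f := wval E)⟩
      rintro _ ⟨b, rfl⟩ t ht
      obtain ⟨c, -, e⟩ := (mem_wval h).1 ht
      exact ⟨c, e⟩
    · rw [wval_of_not h]; exact (HC.good (aleph0_le_mk A)).empty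
  · intro hy
    obtain ⟨a⟩ : Nonempty A := inferInstance
    obtain ⟨s, h1, -, h2⟩ := HC.surj hy (α := A) le_rfl a
    exact ⟨_, a, (wval_mem h2 a).trans h1⟩

namespace SD
variable {I : Type → Prop} {σ : List ℕ} {K J : Type}

instance weq (j j' : J) (a a' : K) :
    SD I σ K J fun _ v E _ => wval (E j) (v a) = wval (E j') (v a') := by
  simp only [wval_eq_iff]; infer_instance

instance wmem (j j' : J) (a a' : K) :
    SD I σ K J fun _ v E _ => wval (E j) (v a) ∈ wval (E j') (v a') := by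
  simp only [mem_wval']; infer_instance

theorem sat (φ : Fml) : ∀ {K J : Type} (a : ℕ → K) (e : ℕ → J),
    SD I σ K J fun A v E _ => Sat (HA A) ∅ φ fun n => wval (E (e n)) (v (a n)) := by
  induction φ with
  | mem i j => intro K J a e; exact wmem _ _ _ _
  | eq i j => intro K J a e; exact weq _ _ _ _
  | pred i => intro K J a e; exact const False
  | neg φ ih => intro K J a e; exact SD.not (h := ih a e)
  | and φ ψ ih1 ih2 => intro K J a e; exact SD.and (h := ih1 a e) (h' := ih2 a e)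
  | ex φ ih =>
    intro K J a e
    refine (ex2 (R := fun A v E _ Z => ∃ b, Sat (HA A) ∅ φ
      (cons (wval Z b) fun n => wval (E (e n)) (v (a n)))) (h := ex1 (h :=
        (ih (cons none fun n => some (a n)) (cons none fun n => some (e n))).congr
        fun A _ v E ρ => ?_))).congr fun A _ v E ρ =>
      ⟨fun ⟨_, ⟨Z, b, rfl⟩, h⟩ => ⟨Z, b, h⟩, fun ⟨Z, b, h⟩ => ⟨_, ⟨Z, b, rfl⟩, h⟩⟩
    refine iff_of_eq (congrArg _ (funext fun n => ?_))
    cases n <;> rfl

theorem df {P : Set ZF → Set ZF → (ℕ → ZF) → Prop} (h : Df ℕ P) (a : ℕ → K) (e : ℕ → J) :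
    SD Infinite σ K J fun A v E _ => P (HC #A) ∅ fun n => wval (E (e n)) (v (a n)) := by
  obtain ⟨φ, hφ⟩ := h.toFml
  refine (sat φ a e).congr fun A hA v E ρ => ?_
  rw [← HA_eq]
  exact hφ _ _ (HA_eq A ▸ HC.good (aleph0_le_mk A)) _ fun n => ⟨_, _, rfl⟩

end SD

end Pool.Agent.MP_477625_lc.H75
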