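import Pool.Agent.MP_477625_lc.H75.Core
import Pool.Agent.MP_477625_lc.H75.SD

/-! Codes of structures and their second order description. -/

namespace Pool.Agent.MP_477625_lc.H75
open ZFSet Cardinal

universe u v

set_option linter.unusedVariables false
set_option linter.unusedSectionVars false
set_option synthInstance.maxSize 100000

structure Bij {A : Type} (b : A → ZF) (D : ZF) : Prop where
  inj : Function.Injective b
  rng : ∀ y, y ∈ D ↔ ∃ a, b a = y

theorem exists_bij {A : Type} {D : ZF} (h : #A = D.card) : ∃ b : A → ZF, Bij b D := by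
  obtain ⟨e⟩ := Cardinal.eq.1 h
  let f := e.trans (equivShrink D).symm
  exact ⟨fun a => (f a).1, Subtype.val_injective.comp f.injective, fun y =>
    ⟨fun hy => ⟨f.symm ⟨y, hy⟩, by simp⟩, fun ⟨a, e⟩ => e ▸ (f a).2⟩⟩

theorem Bij.card {A : Type} {D : ZF} {b : A → ZF} (h : Bij b D) : D.card = #A := by
  have : Set.range b = (D : Set ZF) := Set.ext fun y => (h.rng y).symm
  have h1 := mk_range_eq_of_injective h.inj
  rw [this] at h1
  have h2 : #(D : Set ZF) = lift.{1} D.card := cardinalMk_coe_sort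
  rw [h2] at h1
  simpa using h1

theorem Bij.mem {A : Type} {D : ZF} {b : A → ZF} (h : Bij b D) (l : List A) :
    ∀ y ∈ l.map b, y ∈ D := map_mem (N := (D : Set ZF)) (fun a => (h.rng _).2 ⟨a, rfl⟩) l

theorem Bij.lift {A : Type} {D : ZF} {b : A → ZF} (h : Bij b D) {l : List ZF}
    (hl : ∀ y ∈ l, y ∈ D) : ∃ l' : List A, l = l'.map b := by
  induction l with
  | nil => exact ⟨[], rfl⟩
  | cons y l ih =>
    simp only [List.forall_mem_cons] at hl
    obtain ⟨a, rfl⟩ := (h.rng y).1 hl.1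
    obtain ⟨l', rfl⟩ := ih hl.2
    exact ⟨a :: l', rfl⟩

noncomputable def Code {σ : List ℕ} (M : Struc σ) (b : M.A → ZF) (D : ZF) : ZF :=
  (Tr D).sep fun w => ∃ r, ∃ l ∈ M.rel r, w = pair (nat r) (ZL (l.map b))

def PropC (σ : List ℕ) (d x : ZF) : Prop :=
  ∀ w ∈ x, ¬ ∀ r < σ.length, ¬ ∃ s ∈ Lst d, w = pair (nat r) s ∧ LenL (σ.getD r 0) s

def IsoC (M : Set ZF) (d x x' : ZF) : Prop := ∃ f ∈ M, (∀ a ∈ d, ∃ a' ∈ d, pair a a' ∈ f) ∧
  (∀ a' ∈ d, ∃ a ∈ d, pair a a' ∈ f) ∧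
  (∀ a ∈ d, ∀ a' ∈ d, ∀ b ∈ d, ∀ b' ∈ d, pair a a' ∈ f → pair b b' ∈ f → (a = b ↔ a' = b')) ∧
  ∀ s ∈ Lst d, ∀ s' ∈ Lst d, MapL f s s' → ∀ r ∈ om, (pair r s ∈ x ↔ pair r s' ∈ x')

def Phi (σ : List ℕ) (M U : Set ZF) (d x : ZF) : Prop :=
  PropC σ d x ∧ ∀ x' ∈ M, x' ⊆ Tr d → PropC σ d x' → IsoC M d x x' → ¬ PrecH M d x' x

section
variable {K : Type u} {a b c : Set ZF → Set ZF → (K → ZF) → ZF}

instance Df.propC (σ : List ℕ) [DT K a] [DT K b] :
    Df K fun M U v => PropC σ (a M U v) (b M U v) :=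
  Df.sub2 (R := fun _ _ => PropC σ)
    (Df.allC (h := Df.not (h := Df.all_lt _ fun r => inferInstance))) _ _

instance Df.isoC [DT K a] [DT K b] [DT K c] :
    Df K fun M U v => IsoC M (a M U v) (b M U v) (c M U v) :=
  Df.sub3 (R := fun M _ => IsoC M) (by unfold IsoC; infer_instance) _ _ _

instance Df.phi (σ : List ℕ) [DT K a] [DT K b] :
    Df K fun M U v => Phi σ M U (a M U v) (b M U v) :=
  Df.sub2 (R := Phi σ) (by unfold Phi; infer_instance) _ _

end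

theorem propC_iff {σ : List ℕ} {d x : ZF} : PropC σ d x ↔ ∀ w ∈ x, ∃ (r : ℕ) (l : List ZF),
    (∀ b ∈ l, b ∈ d) ∧ w = pair (nat r) (ZL l) ∧ σ[r]? = some l.length := by
  refine forall₂_congr fun w _ => ?_
  push Not
  simp only [ex_Lst, lenL_ZL]
  refine exists_congr fun r => ⟨fun ⟨h, l, h1, h2, h3⟩ => ⟨l, h1, h2, by simp [h3, h]⟩,
    fun ⟨l, h1, h2, h3⟩ => ⟨(List.getElem?_eq_some_iff.1 h3).1, l, h1, h2, by simp [h3]⟩⟩

section
variable {σ : List ℕ} {c : Cardinal.{0}} (hc : ℵ₀ ≤ c) {M : Struc σ} {b b' : M.A → ZF}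
  (hb : Bij b (cardSet c))
include hc hb

theorem mem_Code {r : ℕ} {l : List M.A} :
    pair (nat r) (ZL (l.map b)) ∈ Code M b (cardSet c) ↔ l ∈ M.rel r := by
  rw [Code, mem_sep]
  refine ⟨fun ⟨_, r', l', h, e⟩ => ?_, fun h => ⟨pair_mem_Tr (mem_Tr_of_mem (nat_mem_cardSet hc r))
    (ZL_mem_Tr fun y hy => mem_Tr_of_mem (hb.mem l y hy)), r, l, h, rfl⟩⟩
  simp only [pair_inj, nat_inj] at e
  rwa [e.1, List.map_injective_iff.2 hb.inj (ZL_inj e.2)]

theorem sat_Code (φ : Sentence σ) :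
    M.Sat φ ↔ HenS (cardSet c) (HC c) φ.1 (Code M b (cardSet c)) := by
  have := M.nonempty
  have e := fun v => hen_full hb.inj hb.rng (fun R => HC.sub_tr hc) φ.1 φ.2 v M.rel (fun _ => ∅)
    (fun r t => pair (nat r) t ∈ Code M b (cardSet c)) (by simp) fun r l _ => (mem_Code hc hb).symm
  simp only [Struc.Sat, e, forall_const, HenS]

theorem propC_Code : PropC σ (cardSet c) (Code M b (cardSet c)) :=
  propC_iff.2 fun w hw =>
    let ⟨r, l, h, e⟩ := (mem_sep.1 hw).2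
    ⟨r, _, hb.mem l, e, by simpa using M.arity r l h⟩

theorem eq_Code {x : ZF} (h1 : PropC σ (cardSet c) x) (h2 : ∀ r l, σ[r]? = some l.length →
    (l ∈ M.rel r ↔ pair (nat r) (ZL (l.map b)) ∈ x)) : x = Code M b (cardSet c) := by
  ext w
  constructor
  · intro hw
    obtain ⟨r, l, h3, rfl, h4⟩ := propC_iff.1 h1 w hw
    obtain ⟨l, rfl⟩ := hb.lift h3
    exact (mem_Code hc hb).2 ((h2 r l (by simpa using h4)).2 hw)
  · intro hw
    obtain ⟨r, l, h, rfl⟩ := (mem_sep.1 hw).2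
    exact (h2 r l (M.arity r l h)).1 h

theorem isoC_Code (hb' : Bij b' (cardSet c)) :
    IsoC (HC c) (cardSet c) (Code M b (cardSet c)) (Code M b' (cardSet c)) := by
  have := M.nonempty
  have inv := Function.leftInverse_invFun hb.inj
  have hf : ∀ a y, pair (b a) y ∈ graph (cardSet c) (fun y => b' (Function.invFun b y)) ↔
      y = b' a := fun a y => by rw [mem_graph, inv a, and_iff_right ((hb.rng _).2 ⟨a, rfl⟩)]
  refine ⟨graph (cardSet c) fun y => b' (Function.invFun b y), HC.graph_mem hc (HC.cardSet_mem hc)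
    fun y _ => HC.trans _ (HC.cardSet_mem hc) _ ((hb'.rng _).2 ⟨_, rfl⟩),
    fun a ha => ⟨_, (hb'.rng _).2 ⟨_, rfl⟩, mem_graph.2 ⟨ha, rfl⟩⟩, fun y hy => ?_,
    fun y hy y' _ t ht t' _ h1 h2 => ?_, ?_⟩
  · obtain ⟨a, rfl⟩ := (hb'.rng y).1 hy
    exact ⟨_, (hb.rng _).2 ⟨a, rfl⟩, (hf a _).2 rfl⟩
  · obtain ⟨a, rfl⟩ := (hb.rng y).1 hy
    obtain ⟨a', rfl⟩ := (hb.rng t).1 ht
    rw [(hf _ _).1 h1, (hf _ _).1 h2, hb.inj.eq_iff, hb'.inj.eq_iff]
  · simp only [all_Lst, all_om, mapL_ZL]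
    intro l hl l' _ h r
    obtain ⟨l, rfl⟩ := hb.lift hl
    have : (l.map b).map (fun y => b' (Function.invFun b y)) = l.map b' := by
      rw [List.map_map]; exact List.map_congr_left fun a _ => congrArg b' (inv a)
    rw [forall₂_graph h, this, mem_Code hc hb, mem_Code hc hb']

theorem isoC_inv {x : ZF} (h1 : PropC σ (cardSet c) x)
    (h2 : IsoC (HC c) (cardSet c) (Code M b (cardSet c)) x) :
    ∃ b', Bij b' (cardSet c) ∧ x = Code M b' (cardSet c) := by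
  obtain ⟨f, -, h3, h4, h5, h6⟩ := h2
  choose! g g1 g2 using h3
  have m : ∀ a, b a ∈ cardSet c := fun a => (hb.rng _).2 ⟨a, rfl⟩
  have hb' : Bij (fun a => g (b a)) (cardSet c) := ⟨fun a a' e => hb.inj
    ((h5 _ (m a) _ (g1 _ (m a)) _ (m a') _ (g1 _ (m a')) (g2 _ (m a)) (g2 _ (m a'))).2 e),
    fun y => ⟨fun hy => by
      obtain ⟨t, ht, e⟩ := h4 y hy
      obtain ⟨a, rfl⟩ := (hb.rng t).1 ht
      exact ⟨a, (h5 _ (m a) _ (g1 _ (m a)) _ (m a) _ hy (g2 _ (m a)) e).1 rfl⟩,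
      fun ⟨a, e⟩ => e ▸ g1 _ (m a)⟩⟩
  refine ⟨_, hb', eq_Code hc hb' h1 fun r l _ => (mem_Code hc hb).symm.trans
    (h6 _ (ZL_mem_Lst.2 (hb.mem l)) _ (ZL_mem_Lst.2 (hb'.mem l)) (mapL_ZL.2 ?_) _ (nat_mem_om r))⟩
  rw [List.forall₂_map_left_iff, List.forall₂_map_right_iff]
  exact List.forall₂_same.2 fun a _ => g2 _ (m a)

theorem iso_of_Code {N : Struc σ} {b' : N.A → ZF} (hb' : Bij b' (cardSet c))
    (e : Code M b (cardSet c) = Code N b' (cardSet c)) : M.Iso N := by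
  choose f hf using fun a => (hb'.rng (b a)).1 ((hb.rng _).2 ⟨a, rfl⟩)
  refine ⟨Equiv.ofBijective f ⟨fun a a' e => hb.inj (by rw [← hf, e, hf]), fun y => ?_⟩,
    fun r l => ?_⟩
  · obtain ⟨a, ha⟩ := (hb.rng (b' y)).1 ((hb'.rng _).2 ⟨y, rfl⟩)
    exact ⟨a, hb'.inj ((hf a).trans ha)⟩
  · rw [← mem_Code hc hb, e, ← mem_Code hc hb', List.map_map]
    exact iff_of_eq (by rw [List.map_congr_left fun a _ => (hf a).symm]; rfl)

end

section
variable {κ c : Cardinal.{0}} {U : ZF} (C : Ctx κ U c) {σ : List ℕ}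
include C

theorem Ctx.exists_min {M : Struc σ} (hM : #M.A = c) : ∃ b, Bij b (cardSet c) ∧
    Phi σ (HC c) ∅ (cardSet c) (Code M b (cardSet c)) := by
  obtain ⟨b, hb⟩ := exists_bij (hM.trans (card_cardSet c).symm)
  obtain ⟨_, ⟨b, hb, rfl⟩, h⟩ := (InvImage.wf (key U) wellFounded_lt).has_min
    {x | ∃ b, Bij b (cardSet c) ∧ x = Code M b (cardSet c)} ⟨_, b, hb, rfl⟩
  exact ⟨b, hb, propC_Code C.hc hb, fun x _ h1 h2 h3 h4 =>
    h x (isoC_inv C.hc hb h2 h3) ((C.prec h1 sep_subset).1 h4)⟩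

theorem Ctx.min_unique {M : Struc σ} {b b' : M.A → ZF} (hb : Bij b (cardSet c))
    (hb' : Bij b' (cardSet c)) (h : Phi σ (HC c) ∅ (cardSet c) (Code M b (cardSet c)))
    (h' : Phi σ (HC c) ∅ (cardSet c) (Code M b' (cardSet c))) :
    Code M b (cardSet c) = Code M b' (cardSet c) :=
  key_inj C.hV (le_antisymm
    (not_lt.1 fun e => h.2 _ (HC.sub_tr C.hc sep_subset) sep_subset h'.1 (isoC_Code C.hc hb hb')
      ((C.prec sep_subset sep_subset).2 e))
    (not_lt.1 fun e => h'.2 _ (HC.sub_tr C.hc sep_subset) sep_subset h.1 (isoC_Code C.hc hb' hb)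
      ((C.prec sep_subset sep_subset).2 e)))

end

theorem all_list {A : Type} {k : ℕ} {p : List A → Prop} :
    (∀ u : Fin k → A, p ((List.finRange k).map u)) ↔ ∀ l, l.length = k → p l := by
  refine ⟨fun h l e => ?_, fun h u => h _ (by simp)⟩
  subst e
  have := h l.get
  rwa [List.map_get_finRange] at this

theorem all_sig {σ : List ℕ} {A : Type} {p : ℕ → List A → Prop} :
    (∀ r : Fin σ.length, ∀ u : Fin σ[r] → A, p r ((List.finRange σ[r]).map u)) ↔
      ∀ r l, σ[r]? = some l.length → p r l := by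
  simp only [all_list]
  exact ⟨fun h r l e => let ⟨h1, h2⟩ := List.getElem?_eq_some_iff.1 e; h ⟨r, h1⟩ l h2.symm,
    fun h r l e => h r l (by simp [e])⟩

theorem sd_link (σ : List ℕ) {K J : Type} (a : K) (j j' : J) : SD Infinite σ K J fun A v E ρ =>
    ∀ r l, σ[r]? = some l.length →
      (l ∈ ρ r ↔ pair (nat r) (ZL (l.map (wval (E j)))) ∈ wval (E j') (v a)) := by
  have key : ∀ r k : ℕ, σ[r]? = some k → SD Infinite σ K J fun A v E ρ => ∀ u : Fin k → A,
      ((List.finRange k).map u ∈ ρ r ↔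
        pair (nat r) (ZL (((List.finRange k).map u).map (wval (E j)))) ∈ wval (E j') (v a)) := by
    intro r k hk
    have h1 : Df ℕ fun _ _ v => pair (nat r)
        (ZL ((List.finRange k).map fun i : Fin k => v (i.1 + 1))) ∈ v 0 :=
      Df.memC (hs := (DT.pair (hs := DT.nat r)
        (ht := DT.ZLmap (List.finRange k) fun i : Fin k => i.1 + 1)).toDC)
    have h2 := SD.df (σ := σ) h1
      (cons (Sum.inl a) fun i => if h : i < k then Sum.inr (⟨i, h⟩ : Fin k) else Sum.inl a)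
      (cons j' fun _ => j)
    have h3 := SD.app (I := Infinite) (σ := σ) (K := K ⊕ Fin k) (J := J) (r := r)
      (l := (List.finRange k).map Sum.inr) (by simpa using hk)
    refine (SD.allF (SD.iff (h := h3) (h' := h2))).congr fun A _ v E ρ => ?_
    simp [Function.comp_def]
  exact (SD.all_fin fun r : Fin σ.length => key r σ[r] (by simp)).congr
    fun A _ v E ρ => all_sig.symm

theorem Setup.wrap {κ c : Cardinal.{0}} {U : ZF} {σ : List ℕ} {S : Set SO} {χ : SO}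
    (T : Setup κ U c σ S χ (Phi σ)) (R : Set ZF → Set ZF → ZF → ZF → Prop)
    [hR : Df ℕ fun M U v => R M U (v 0) (v 1)] : ∃ ψ : Sentence σ, ∀ (M : Struc σ) (b : M.A → ZF),
      Bij b (cardSet c) → Phi σ (HC c) ∅ (cardSet c) (Code M b (cardSet c)) →
      (M.Sat ψ ↔ R (HC c) ∅ (cardSet c) (Code M b (cardSet c))) := by
  have i : ∀ {K : Type} {a b : Set ZF → Set ZF → (K → ZF) → ZF} [DT K a] [DT K b],
      Df K fun M U v => R M U (a M U v) (b M U v) := Df.sub2 hR _ _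
  have i1 := sd_link σ (K := Option (Option Empty)) (J := Option (Option (Option Empty))) none
    (some (some none)) none
  have i2 := SD.df (σ := σ) (K := Option (Option Empty)) (J := Option (Option (Option Empty)))
    (P := fun M U v => (v 0).IsOrdinal ∧ (∀ a ∈ v 0, ∅ ∈ a → ¬ HenS a M χ ∅) ∧
      Phi σ M U (v 0) (v 1) ∧ R M U (v 0) (v 1)) inferInstance
    (cons (some none) fun _ => none) (cons (some none) fun _ => none)
  obtain ⟨ψ, hψ⟩ := SD.sentence (I := Infinite) (σ := σ) (P := fun A v E ρ =>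
    ∃ D E E' : A → A → Prop, ∃ a a' : A, (∀ u u', wval D u = wval D u' → u = u') ∧
      (∀ u, wval D u ∈ wval E a) ∧ (∀ t, E t a → ∃ u, wval D u = wval E t) ∧
      (∀ r l, σ[r]? = some l.length → (l ∈ ρ r ↔ pair (nat r) (ZL (l.map (wval D))) ∈ wval E' a')) ∧
      ((wval E a).IsOrdinal ∧ (∀ t ∈ wval E a, ∅ ∈ t → ¬ HenS t (HC #A) χ ∅) ∧
        Phi σ (HC #A) ∅ (wval E a) (wval E' a') ∧ R (HC #A) ∅ (wval E a) (wval E' a')))
    (SD.ex2 (h := SD.ex2 (h := SD.ex2 (h := SD.ex1 (h := SD.ex1 (h := SD.and (h' := SD.and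
      (h' := SD.and (h' := SD.and (h := i1) (h' := i2))))))))))
  refine ⟨ψ, fun M b hb hΦ => ?_⟩
  have hM : #M.A = c := hb.card.symm.trans (card_cardSet c)
  have hc := T.hc
  have : Infinite M.A := infinite_iff.2 (hM ▸ hc)
  rw [hψ M this, hM]
  constructor
  · rintro ⟨D, E, E', a, a', h1, h2, h3, h4, h5, h6, h7, h8⟩
    have h9 : Bij (wval D) (wval E a) := ⟨h1, fun y => ⟨fun hy => by
      obtain ⟨-, t, ht, rfl⟩ := mem_wval'.1 hy
      exact h3 t ht, fun ⟨u, e⟩ => e ▸ h2 u⟩⟩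
    have e : wval E a = cardSet c := by
      rcases h5.mem_trichotomous (cardSet_ord c) with h | h | h
      · exact absurd ((mem_cardSet h5).1 h) (by rw [h9.card, hM]; exact lt_irrefl c)
      · exact h
      · exact absurd T.χ2 (h6 _ h (nat_mem_cardSet hc 0))
    rw [e] at h7 h8 h9
    have e2 := eq_Code hc h9 h7.1 h4
    rw [e2] at h7 h8
    rwa [T.min_unique hb h9 hΦ h7]
  · intro h
    have hH : HA M.A = HC c := hM ▸ HA_eq M.A
    obtain ⟨E, a, e⟩ : cardSet c ∈ HA M.A := hH ▸ HC.cardSet_mem hc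
    obtain ⟨E', a', e'⟩ : Code M b (cardSet c) ∈ HA M.A := hH ▸ HC.sub_tr hc sep_subset
    have e1 : wval (fun u u' => b u ∈ b u') = b := funext (wval_mem fun u y hy =>
      (hb.rng y).1 ((cardSet_ord c).mem_trans hy ((hb.rng _).2 ⟨u, rfl⟩)))
    refine ⟨fun u u' => b u ∈ b u', E, E', a, a', ?_⟩
    have wf := (mem_wval'.1 (e ▸ nat_mem_cardSet hc 0)).1
    rw [e1, e', e]
    exact ⟨hb.inj, fun u => (hb.rng _).2 ⟨u, rfl⟩, fun t ht => (hb.rng _).1
      (e ▸ (mem_wval wf).2 ⟨t, ht, rfl⟩), fun r l _ => (mem_Code hc hb).symm, cardSet_ord c,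
      T.χ3, hΦ, h⟩

end Pool.Agent.MP_477625_lc.H75
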