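import Mathlib

/-!
Definitions for the statement: the hierarchy `L[U]`, normal measures, and second order logic
with full semantics.  The universe of sets is `ZFSet.{0}`; structures have domains in `Type`.
-/

namespace Pool.Agent.MP_477625_lc.H75

/-- The universe of sets. -/
abbrev ZF : Type 1 := ZFSet.{0}

/-- Extend an assignment by a new value for the index `0` (de Bruijn indices). -/
def cons {α : Type*} (a : α) (v : ℕ → α) : ℕ → α
  | 0 => a
  | n + 1 => v n

/-- First order formulas in the language with membership, equality and one unary predicate. -/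
inductive Fml : Type
  | mem (i j : ℕ) : Fml
  | eq (i j : ℕ) : Fml
  | pred (i : ℕ) : Fml
  | neg (φ : Fml) : Fml
  | and (φ ψ : Fml) : Fml
  | ex (φ : Fml) : Fml

/-- Satisfaction in the structure with domain `M`, true membership, and predicate `U`. -/
def Sat (M U : Set ZF) : Fml → (ℕ → ZF) → Prop
  | .mem i j, v => v i ∈ v j
  | .eq i j, v => v i = v j
  | .pred i, v => v i ∈ U
  | .neg φ, v => ¬ Sat M U φ v
  | .and φ ψ, v => Sat M U φ v ∧ Sat M U ψ v
  | .ex φ, v => ∃ a ∈ M, Sat M U φ (cons a v)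

/-- The assignment given by a finite list of parameters (unused indices get the empty set). -/
def asg (l : List ZF) : ℕ → ZF := fun n => l.getD n ∅

/-- The set of all subsets of `x` definable with parameters in `(x, ∈, U ∩ x)`. -/
def DefSet (U x : ZF) : ZF :=
  x.powerset.sep fun y => ∃ (φ : Fml) (l : List ZF), (∀ b ∈ l, b ∈ x) ∧
    ∀ a, a ∈ y ↔ a ∈ x ∧ Sat (x : Set ZF) (U : Set ZF) φ (cons a (asg l))

/-- The level `L_o[U]`: the union of the sets `Def(L_a[U])` for `a < o`. -/
noncomputable def LU (U : ZF) (o : Ordinal.{0}) : ZF :=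
  ZFSet.iUnion fun a : Set.Iio o => DefSet U (LU U a)
termination_by o
decreasing_by exact a.2

/-- The von Neumann ordinal representing a cardinal. -/
noncomputable def cardSet (c : Cardinal.{0}) : ZF := c.ord.toZFSet

/-- `U` is a normal measure on the uncountable cardinal `κ`: a nonprincipal, `κ`-complete,
normal ultrafilter on `κ`. -/
structure IsNormalMeasure (κ : Cardinal.{0}) (U : ZF) : Prop where
  uncountable : Cardinal.aleph0 < κ
  subset : ∀ X ∈ U, X ⊆ cardSet κ
  empty_notMem : ∅ ∉ U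
  upward : ∀ X ∈ U, ∀ Y : ZF, X ⊆ Y → Y ⊆ cardSet κ → Y ∈ U
  ultra : ∀ X : ZF, X ⊆ cardSet κ → X ∈ U ∨ cardSet κ \ X ∈ U
  nonprincipal : ∀ a : ZF, {a} ∉ U
  complete : ∀ (ι : Type) (X : ι → ZF), Cardinal.mk ι < κ → (∀ i, X i ∈ U) →
    (cardSet κ).sep (fun a => ∀ i, a ∈ X i) ∈ U
  normal : ∀ X ∈ U, ∀ f : ZF → ZF, (∀ a ∈ X, f a ∈ a) → ∃ b : ZF, X.sep (fun a => f a = b) ∈ U

/-- Second order formulas.  `app r a` applies the relation with index `r` (a relation symbol of
the vocabulary or a bound relation variable) to the individual variables listed in `a`;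
`ex1` binds an individual variable and `ex2 k` binds a `k`-ary relation variable. -/
inductive SO : Type
  | eq (i j : ℕ) : SO
  | app (r : ℕ) (a : List ℕ) : SO
  | neg (φ : SO) : SO
  | and (φ ψ : SO) : SO
  | ex1 (φ : SO) : SO
  | ex2 (k : ℕ) (φ : SO) : SO

/-- Well-formedness: `n` individual variables are in scope, and `Γ` lists the arities of the
relations in scope. -/
def SO.WF : SO → ℕ → List ℕ → Prop
  | .eq i j, n, _ => i < n ∧ j < n
  | .app r a, n, Γ => Γ[r]? = some a.length ∧ ∀ i ∈ a, i < n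
  | .neg φ, n, Γ => φ.WF n Γ
  | .and φ ψ, n, Γ => φ.WF n Γ ∧ ψ.WF n Γ
  | .ex1 φ, n, Γ => φ.WF (n + 1) Γ
  | .ex2 k φ, n, Γ => φ.WF n (k :: Γ)

/-- Full semantics: a `k`-ary relation variable ranges over all sets of `k`-tuples. -/
def SO.Sat {A : Type} : SO → (ℕ → A) → (ℕ → Set (List A)) → Prop
  | .eq i j, v, _ => v i = v j
  | .app r a, v, ρ => a.map v ∈ ρ r
  | .neg φ, v, ρ => ¬ φ.Sat v ρ
  | .and φ ψ, v, ρ => φ.Sat v ρ ∧ ψ.Sat v ρ
  | .ex1 φ, v, ρ => ∃ a : A, φ.Sat (cons a v) ρ
  | .ex2 k φ, v, ρ => ∃ R : Set (List A), (∀ l ∈ R, l.length = k) ∧ φ.Sat v (cons R ρ)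

/-- Goedel number of a list of numbers. -/
def codeL : List ℕ → ℕ
  | [] => 0
  | i :: l => Nat.pair i (codeL l) + 1

/-- Goedel number of a second order formula. -/
def SO.code : SO → ℕ
  | .eq i j => 6 * Nat.pair i j
  | .app r a => 6 * Nat.pair r (codeL a) + 1
  | .neg φ => 6 * φ.code + 2
  | .and φ ψ => 6 * Nat.pair φ.code ψ.code + 3
  | .ex1 φ => 6 * φ.code + 4
  | .ex2 k φ => 6 * Nat.pair k φ.code + 5

/-- Sentences of the finite relational vocabulary whose arities are listed in `σ`. -/
def Sentence (σ : List ℕ) : Type := {φ : SO // φ.WF 0 σ}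

/-- Negation of a sentence. -/
def Sentence.neg {σ : List ℕ} (φ : Sentence σ) : Sentence σ := ⟨.neg φ.1, φ.2⟩

/-- A structure for the vocabulary `σ`: a nonempty domain and, for the symbol number `r`,
a set of tuples of length `σ[r]`. -/
structure Struc (σ : List ℕ) : Type 1 where
  A : Type
  nonempty : Nonempty A
  rel : ℕ → Set (List A)
  arity : ∀ r, ∀ l ∈ rel r, σ[r]? = some l.length

/-- Truth of a sentence in a structure. -/
def Struc.Sat {σ : List ℕ} (M : Struc σ) (φ : Sentence σ) : Prop :=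
  ∀ v : ℕ → M.A, φ.1.Sat v M.rel

/-- `M` is a model of `T`. -/
def Struc.Models {σ : List ℕ} (M : Struc σ) (T : Set (Sentence σ)) : Prop := ∀ φ ∈ T, M.Sat φ

/-- Isomorphism of structures. -/
def Struc.Iso {σ : List ℕ} (M N : Struc σ) : Prop :=
  ∃ e : M.A ≃ N.A, ∀ r l, l ∈ M.rel r ↔ l.map e ∈ N.rel r

/-- Every sentence holds in all models of `T` or fails in all models of `T`. -/
def Complete {σ : List ℕ} (T : Set (Sentence σ)) : Prop :=
  ∀ φ : Sentence σ, (∀ M : Struc σ, M.Models T → M.Sat φ) ∨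
    ∀ M : Struc σ, M.Models T → M.Sat φ.neg

/-- `T` has the same models as a set of sentences whose set of Goedel numbers is recursive. -/
def RecAxiomatized {σ : List ℕ} (T : Set (Sentence σ)) : Prop :=
  ∃ S : Set (Sentence σ), ComputablePred (fun n => ∃ φ ∈ S, φ.1.code = n) ∧
    ∀ M : Struc σ, M.Models T ↔ M.Models S

/-- Any two models of `T` are isomorphic. -/
def Categorical {σ : List ℕ} (T : Set (Sentence σ)) : Prop :=
  ∀ M N : Struc σ, M.Models T → N.Models T → M.Iso N

/-- Some sentence of the empty vocabulary has as models exactly the sets of cardinality `c`. -/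
def Characterizable (c : Cardinal.{0}) : Prop :=
  ∃ χ : Sentence [], ∀ M : Struc [], M.Sat χ ↔ Cardinal.mk M.A = c

end Pool.Agent.MP_477625_lc.H75
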