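import Pool.Agent.MP_477625_lc.H75.Fo

/-! Elementary embeddings, definable closure, and the transitive collapse. -/

namespace Pool.Agent.MP_477625_lc.H75
open ZFSet Cardinal

universe u v

set_option linter.unusedVariables false

structure Elem0 (M U M' U' : Set ZF) (j : ZF → ZF) : Prop where
  map : ∀ a ∈ M, j a ∈ M'
  sat : ∀ φ v, (∀ n, v n ∈ M) → (Sat M U φ v ↔ Sat M' U' φ fun n => j (v n))

structure Elem (M U M' U' : Set ZF) (j : ZF → ZF) : Prop extends Elem0 M U M' U' j where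
  good : Good M
  good' : Good M'

def insF : Fml := .ex (.neg (.ex (.neg (.and
  (.neg (.and (.mem 0 1) (.and (.neg (.eq 0 2)) (.neg (.mem 0 3)))))
  (.and (.neg (.and (.eq 0 2) (.neg (.mem 0 1)))) (.neg (.and (.mem 0 3) (.neg (.mem 0 1)))))))))

def unF : Fml := .ex (.neg (.ex (.neg (.and
  (.neg (.and (.mem 0 1) (.and (.neg (.mem 0 2)) (.neg (.mem 0 3)))))
  (.and (.neg (.and (.mem 0 2) (.neg (.mem 0 1)))) (.neg (.and (.mem 0 3) (.neg (.mem 0 1)))))))))

theorem sat_insF {M U : Set ZF} (hM : ∀ x ∈ M, ∀ y ∈ x, y ∈ M) {v : ℕ → ZF} (hv : ∀ n, v n ∈ M) :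
    Sat M U insF v ↔ insert (v 0) (v 1) ∈ M := by
  have : Sat M U insF v ↔ ∃ z ∈ M, ∀ w ∈ M, (w ∈ z ↔ w = v 0 ∨ w ∈ v 1) := by
    simp only [insF, Sat, cons]
    refine exists_congr fun z => and_congr_right fun _ => ?_
    rw [not_exists]
    refine forall_congr' fun w => ?_
    tauto
  rw [this]
  constructor
  · rintro ⟨z, hz, h⟩
    have : z = insert (v 0) (v 1) := by
      ext w
      rw [mem_insert_iff]
      exact ⟨fun hw => (h w (hM z hz w hw)).1 hw, fun hw => (h w (hw.elim (fun e => e ▸ hv 0)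
        (hM _ (hv 1) w))).2 hw⟩
    exact this ▸ hz
  · exact fun h => ⟨_, h, fun w _ => mem_insert_iff⟩

theorem sat_unF {M U : Set ZF} (hM : ∀ x ∈ M, ∀ y ∈ x, y ∈ M) {v : ℕ → ZF} (hv : ∀ n, v n ∈ M) :
    Sat M U unF v ↔ v 0 ∪ v 1 ∈ M := by
  have : Sat M U unF v ↔ ∃ z ∈ M, ∀ w ∈ M, (w ∈ z ↔ w ∈ v 0 ∨ w ∈ v 1) := by
    simp only [unF, Sat, cons]
    refine exists_congr fun z => and_congr_right fun _ => ?_
    rw [not_exists]
    refine forall_congr' fun w => ?_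
    tauto
  rw [this]
  constructor
  · rintro ⟨z, hz, h⟩
    have : z = v 0 ∪ v 1 := by
      ext w
      rw [mem_union]
      exact ⟨fun hw => (h w (hM z hz w hw)).1 hw, fun hw => (h w (hw.elim (hM _ (hv 0) w)
        (hM _ (hv 1) w))).2 hw⟩
    exact this ▸ hz
  · exact fun h => ⟨_, h, fun w _ => mem_union⟩

theorem good_of_sat {M U : Set ZF} (hM : ∀ x ∈ M, ∀ y ∈ x, y ∈ M) (hne : M.Nonempty)
    (h : ∀ v : ℕ → ZF, (∀ n, v n ∈ M) → Sat M U insF v ∧ Sat M U unF v) : Good M := by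
  refine ⟨hM, ?_, fun a ha b hb => ?_, fun a ha b hb => ?_⟩
  · obtain ⟨x, hx⟩ := hne
    induction x using ZFSet.inductionOn with
    | h x ih =>
      rcases x.eq_empty_or_nonempty with rfl | ⟨y, hy⟩
      · exact hx
      · exact ih y hy (hM x hx y hy)
  · have hv := cons_mem ha (v := fun _ => b) fun _ => hb
    exact (sat_insF hM hv).1 (h _ hv).1
  · have hv := cons_mem ha (v := fun _ => b) fun _ => hb
    exact (sat_unF hM hv).1 (h _ hv).2

theorem Elem0.good_of {M U M' U' : Set ZF} {j : ZF → ZF} (h : Elem0 M U M' U' j)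
    (hM : ∀ x ∈ M, ∀ y ∈ x, y ∈ M) (hne : M.Nonempty) (hM' : Good M') : Good M :=
  good_of_sat (U := U) hM hne fun v hv => by
    have hv' : ∀ n, j (v n) ∈ M' := fun n => h.map _ (hv n)
    exact ⟨(h.sat _ v hv).2 ((sat_insF hM'.trans hv').2 (hM'.ins _ (hv' 0) _ (hv' 1))),
      (h.sat _ v hv).2 ((sat_unF hM'.trans hv').2 (hM'.un _ (hv' 0) _ (hv' 1)))⟩

namespace Elem
variable {M U M' U' M'' U'' : Set ZF} {j k : ZF → ZF}

theorem empty (h : Elem M U M' U' j) : j ∅ = ∅ := by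
  have := (h.sat (.neg (.ex (.mem 0 1))) (fun _ => ∅) fun _ => h.good.empty).1 (by simp [Sat])
  refine (ZFSet.eq_empty _).2 fun y hy => this ⟨y, ?_, hy⟩
  exact h.good'.trans _ (h.map _ h.good.empty) y hy

theorem df (h : Elem M U M' U' j) {K : Type u} (P : Set ZF → Set ZF → (K → ZF) → Prop)
    [hP : Df K P] (v : K → ZF) (hv : ∀ k, v k ∈ M) : P M U v ↔ P M' U' fun k => j (v k) := by
  obtain ⟨φ, p, hP⟩ := hP.out
  rw [hP M U h.good v hv, hP M' U' h.good' _ fun k => h.map _ (hv k), h.sat]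
  · have : (fun n => j ((p n).elim ∅ v)) = fun n => (p n).elim ∅ fun k => j (v k) := by
      funext n; cases p n
      · exact h.empty
      · rfl
    rw [this]
  · intro n; cases p n
    · exact h.good.empty
    · exact hv _

theorem comp (h : Elem M U M' U' j) (h' : Elem M' U' M'' U'' k) :
    Elem M U M'' U'' fun a => k (j a) where
  map a ha := h'.map _ (h.map a ha)
  sat φ v hv := (h.sat φ v hv).trans (h'.sat φ _ fun n => h.map _ (hv n))
  good := h.good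
  good' := h'.good'

theorem t1 (H : Elem M U M' U' j) (R : Set ZF → Set ZF → ZF → Prop)
    [hR : Df ℕ fun M U v => R M U (v 0)]
    {a : ZF} (ha : a ∈ M) :
    R M U a ↔ R M' U' (j a) :=
  H.df _ (hP := hR) (fun _ => a)
    (fun _ => ha)

theorem t2 (H : Elem M U M' U' j) (R : Set ZF → Set ZF → ZF → ZF → Prop)
    [hR : Df ℕ fun M U v => R M U (v 0) (v 1)]
    {a b : ZF} (ha : a ∈ M) (hb : b ∈ M) :
    R M U a b ↔ R M' U' (j a) (j b) :=
  H.df _ (hP := hR) (cons a (fun _ => b))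
    (cons_mem ha (fun _ => hb))

theorem t3 (H : Elem M U M' U' j) (R : Set ZF → Set ZF → ZF → ZF → ZF → Prop)
    [hR : Df ℕ fun M U v => R M U (v 0) (v 1) (v 2)]
    {a b c : ZF} (ha : a ∈ M) (hb : b ∈ M) (hc : c ∈ M) :
    R M U a b c ↔ R M' U' (j a) (j b) (j c) :=
  H.df _ (hP := hR) (cons a (cons b (fun _ => c)))
    (cons_mem ha (cons_mem hb (fun _ => hc)))

theorem t4 (H : Elem M U M' U' j) (R : Set ZF → Set ZF → ZF → ZF → ZF → ZF → Prop)
    [hR : Df ℕ fun M U v => R M U (v 0) (v 1) (v 2) (v 3)]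
    {a b c d : ZF} (ha : a ∈ M) (hb : b ∈ M) (hc : c ∈ M) (hd : d ∈ M) :
    R M U a b c d ↔ R M' U' (j a) (j b) (j c) (j d) :=
  H.df _ (hP := hR) (cons a (cons b (cons c (fun _ => d))))
    (cons_mem ha (cons_mem hb (cons_mem hc (fun _ => hd))))

theorem t5 (H : Elem M U M' U' j) (R : Set ZF → Set ZF → ZF → ZF → ZF → ZF → ZF → Prop)
    [hR : Df ℕ fun M U v => R M U (v 0) (v 1) (v 2) (v 3) (v 4)]
    {a b c d e : ZF} (ha : a ∈ M) (hb : b ∈ M) (hc : c ∈ M) (hd : d ∈ M) (he : e ∈ M) :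
    R M U a b c d e ↔ R M' U' (j a) (j b) (j c) (j d) (j e) :=
  H.df _ (hP := hR) (cons a (cons b (cons c (cons d (fun _ => e)))))
    (cons_mem ha (cons_mem hb (cons_mem hc (cons_mem hd (fun _ => he)))))

theorem t6 (H : Elem M U M' U' j) (R : Set ZF → Set ZF → ZF → ZF → ZF → ZF → ZF → ZF → Prop)
    [hR : Df ℕ fun M U v => R M U (v 0) (v 1) (v 2) (v 3) (v 4) (v 5)]
    {a b c d e f : ZF} (ha : a ∈ M) (hb : b ∈ M) (hc : c ∈ M) (hd : d ∈ M) (he : e ∈ M) (hf : f ∈ M) :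
    R M U a b c d e f ↔ R M' U' (j a) (j b) (j c) (j d) (j e) (j f) :=
  H.df _ (hP := hR) (cons a (cons b (cons c (cons d (cons e (fun _ => f))))))
    (cons_mem ha (cons_mem hb (cons_mem hc (cons_mem hd (cons_mem he (fun _ => hf))))))

theorem t7 (H : Elem M U M' U' j) (R : Set ZF → Set ZF → ZF → ZF → ZF → ZF → ZF → ZF → ZF → Prop)
    [hR : Df ℕ fun M U v => R M U (v 0) (v 1) (v 2) (v 3) (v 4) (v 5) (v 6)]
    {a b c d e f g : ZF} (ha : a ∈ M) (hb : b ∈ M) (hc : c ∈ M) (hd : d ∈ M) (he : e ∈ M) (hf : f ∈ M) (hg : g ∈ M) :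
    R M U a b c d e f g ↔ R M' U' (j a) (j b) (j c) (j d) (j e) (j f) (j g) :=
  H.df _ (hP := hR) (cons a (cons b (cons c (cons d (cons e (cons f (fun _ => g)))))))
    (cons_mem ha (cons_mem hb (cons_mem hc (cons_mem hd (cons_mem he (cons_mem hf (fun _ => hg)))))))

theorem t8 (H : Elem M U M' U' j) (R : Set ZF → Set ZF → ZF → ZF → ZF → ZF → ZF → ZF → ZF → ZF → Prop)
    [hR : Df ℕ fun M U v => R M U (v 0) (v 1) (v 2) (v 3) (v 4) (v 5) (v 6) (v 7)]
    {a b c d e f g h : ZF} (ha : a ∈ M) (hb : b ∈ M) (hc : c ∈ M) (hd : d ∈ M) (he : e ∈ M) (hf : f ∈ M) (hg : g ∈ M) (hh : h ∈ M) :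
    R M U a b c d e f g h ↔ R M' U' (j a) (j b) (j c) (j d) (j e) (j f) (j g) (j h) :=
  H.df _ (hP := hR) (cons a (cons b (cons c (cons d (cons e (cons f (cons g (fun _ => h))))))))
    (cons_mem ha (cons_mem hb (cons_mem hc (cons_mem hd (cons_mem he (cons_mem hf (cons_mem hg (fun _ => hh))))))))

theorem t9 (H : Elem M U M' U' j) (R : Set ZF → Set ZF → ZF → ZF → ZF → ZF → ZF → ZF → ZF → ZF → ZF → Prop)
    [hR : Df ℕ fun M U v => R M U (v 0) (v 1) (v 2) (v 3) (v 4) (v 5) (v 6) (v 7) (v 8)]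
    {a b c d e f g h i : ZF} (ha : a ∈ M) (hb : b ∈ M) (hc : c ∈ M) (hd : d ∈ M) (he : e ∈ M) (hf : f ∈ M) (hg : g ∈ M) (hh : h ∈ M) (hi : i ∈ M) :
    R M U a b c d e f g h i ↔ R M' U' (j a) (j b) (j c) (j d) (j e) (j f) (j g) (j h) (j i) :=
  H.df _ (hP := hR) (cons a (cons b (cons c (cons d (cons e (cons f (cons g (cons h (fun _ => i)))))))))
    (cons_mem ha (cons_mem hb (cons_mem hc (cons_mem hd (cons_mem he (cons_mem hf (cons_mem hg (cons_mem hh (fun _ => hi)))))))))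

theorem mem_iff (h : Elem M U M' U' j) {a b : ZF} (ha : a ∈ M) (hb : b ∈ M) :
    j a ∈ j b ↔ a ∈ b := (h.t2 (fun _ _ a b => a ∈ b) ha hb).symm

theorem inj (h : Elem M U M' U' j) {a b : ZF} (ha : a ∈ M) (hb : b ∈ M) :
    j a = j b ↔ a = b := (h.t2 (fun _ _ a b => a = b) ha hb).symm

theorem pair (h : Elem M U M' U' j) {a b : ZF} (ha : a ∈ M) (hb : b ∈ M) :
    j (pair a b) = pair (j a) (j b) :=
  (h.t3 (fun _ _ c a b => c = ZFSet.pair a b) (h.good.pair ha hb) ha hb).1 rfl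

theorem insert (h : Elem M U M' U' j) {a b : ZF} (ha : a ∈ M) (hb : b ∈ M) :
    j (insert a b) = insert (j a) (j b) :=
  (h.t3 (fun _ _ c a b => c = Insert.insert a b) (h.good.ins _ ha _ hb) ha hb).1 rfl

theorem asg_map (h : Elem M U M' U' j) (l : List ZF) :
    (fun n => j (asg l n)) = asg (l.map j) := by
  induction l with
  | nil => simp [asg_nil, h.empty]
  | cons a l ih => rw [List.map_cons, asg_cons, asg_cons, comp_cons, ih]

/-- Restriction of an elementary embedding to an inner model. -/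
theorem restrict (h : Elem M U M' U' j) {N O : ZF} (hN : N ∈ M) (hO : O ∈ M)
    (g : Good (N : Set ZF)) (g' : Good (j N : Set ZF)) :
    Elem (N : Set ZF) (O : Set ZF) (j N : Set ZF) (j O : Set ZF) j where
  map a ha := (h.mem_iff (h.good.trans N hN a ha) hN).2 ha
  sat φ v hv := h.df (fun M U w => Sat (w none : Set ZF) (w (some none) : Set ZF) φ
      fun n => w (some (some n))) (ext N (ext O v))
      (ext_mem hN (ext_mem hO fun n => h.good.trans N hN _ (hv n)))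
  good := g
  good' := g'

end Elem

/-- Families of elements defined from families of parameters. -/
def DE {Ξ : Type v} {K : Type u} (M U : Set ZF) (ι : Ξ → K → ZF) (f : Ξ → ZF) : Prop :=
  ∃ P, Df (Option K) P ∧ ∀ x, f x ∈ M ∧ ∀ y ∈ M, (P M U (ext y (ι x)) ↔ y = f x)

section
variable {Ξ : Type v} {K : Type u} {M U : Set ZF} {ι : Ξ → K → ZF}

theorem DE.var (hι : ∀ x k, ι x k ∈ M) (k : K) : DE M U ι fun x => ι x k :=
  ⟨fun _ _ w => w none = w (some k), inferInstance, fun x => ⟨hι x k, fun _ _ => Iff.rfl⟩⟩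

theorem DE.empty (hM : Good M) : DE M U ι fun _ => ∅ :=
  ⟨fun _ _ w => w none = ∅, inferInstance, fun x => ⟨hM.empty, fun _ _ => Iff.rfl⟩⟩

theorem DE.subst_aux (hM : Good M) (hι : ∀ x k, ι x k ∈ M) {J : Type*} (f : J → Ξ → ZF)
    (hf : ∀ j, DE M U ι (f j)) (φ : Fml) : ∀ τ : ℕ → J ⊕ ℕ, ∃ P, Df (K ⊕ ℕ) P ∧
      ∀ x (u : ℕ → ZF), (∀ n, u n ∈ M) →
      (Sat M U φ (fun n => (τ n).elim (fun j => f j x) u) ↔ P M U (Sum.elim (ι x) u)) := by
  have term : ∀ t : J ⊕ ℕ, ∃ P, Df (Option (K ⊕ ℕ)) P ∧ ∀ x (u : ℕ → ZF), (∀ n, u n ∈ M) →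
      t.elim (fun j => f j x) u ∈ M ∧
      ∀ y ∈ M, (P M U (ext y (Sum.elim (ι x) u)) ↔ y = t.elim (fun j => f j x) u) := by
    rintro (j | n)
    · obtain ⟨P, hP, h⟩ := hf j
      refine ⟨_, hP.comp (Option.map Sum.inl), fun x u hu => ⟨(h x).1, fun y hy => ?_⟩⟩
      have : (fun k => ext y (Sum.elim (ι x) u) (Option.map Sum.inl k)) = ext y (ι x) := by
        funext k; cases k <;> rfl
      simp only [this]
      exact (h x).2 y hy
    · exact ⟨fun _ _ w => w none = w (some (Sum.inr n)), inferInstance,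
        fun x u hu => ⟨hu n, fun _ _ => Iff.rfl⟩⟩
  have two : ∀ (s t : J ⊕ ℕ) (R : Set ZF → Set ZF → ZF → ZF → Prop),
      Df ℕ (fun M U v => R M U (v 0) (v 1)) → ∃ P, Df (K ⊕ ℕ) P ∧
      ∀ x (u : ℕ → ZF), (∀ n, u n ∈ M) → (R M U (s.elim (fun j => f j x) u)
        (t.elim (fun j => f j x) u) ↔ P M U (Sum.elim (ι x) u)) := by
    intro s t R hR
    obtain ⟨P, hP, h⟩ := term s
    obtain ⟨Q, hQ, h'⟩ := term t
    refine ⟨fun M U w => ∃ a ∈ M, P M U (ext a w) ∧ ∃ b ∈ M, Q M U (ext b w) ∧ R M U a b,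
      (Df.exM' (Df.and (h := hP) (h' := Df.exM' (Df.and
        (h := hQ.comp (fun k => k.elim none fun k => some (some k)))
        (h' := hR.comp (cons (some none) fun _ => none)))))).congr fun M U _ w _ => ?_,
      fun x u hu => ?_⟩
    · refine exists_congr fun a => and_congr_right fun _ => and_congr_right fun _ =>
        exists_congr fun b => and_congr_right fun _ => ?_
      have : (fun k : Option (K ⊕ ℕ) => ext b (ext a w) (k.elim none fun k => some (some k))) =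
          ext b w := by funext k; cases k <;> rfl
      simp only [this]
      rfl
    · constructor
      · intro hr
        exact ⟨_, (h x u hu).1, ((h x u hu).2 _ (h x u hu).1).2 rfl, _, (h' x u hu).1,
          ((h' x u hu).2 _ (h' x u hu).1).2 rfl, hr⟩
      · rintro ⟨a, ha, h1, b, hb, h2, hr⟩
        rwa [((h x u hu).2 a ha).1 h1, ((h' x u hu).2 b hb).1 h2] at hr
  induction φ with
  | mem i j => exact fun τ => two (τ i) (τ j) (fun _ _ a b => a ∈ b) inferInstance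
  | eq i j => exact fun τ => two (τ i) (τ j) (fun _ _ a b => a = b) inferInstance
  | pred i => exact fun τ => two (τ i) (τ i) (fun _ U a _ => a ∈ U) inferInstance
  | neg φ ih =>
    intro τ
    obtain ⟨P, hP, h⟩ := ih τ
    exact ⟨_, Df.not (h := hP), fun x u hu => not_congr (h x u hu)⟩
  | and φ ψ ih1 ih2 =>
    intro τ
    obtain ⟨P, hP, h⟩ := ih1 τ
    obtain ⟨Q, hQ, h'⟩ := ih2 τ
    exact ⟨_, Df.and (h := hP) (h' := hQ), fun x u hu => and_congr (h x u hu) (h' x u hu)⟩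
  | ex φ ih =>
    intro τ
    obtain ⟨P, hP, h⟩ := ih (cons (Sum.inr 0) fun n => (τ n).map id (· + 1))
    refine ⟨_, Df.exM' (hP.comp (Sum.elim (fun k => some (Sum.inl k))
      (cons none fun n => some (Sum.inr n)))), fun x u hu => ?_⟩
    refine exists_congr fun a => and_congr_right fun ha => ?_
    have e1 : (cons a fun n => (τ n).elim (fun j => f j x) u) = fun n =>
        (cons (Sum.inr 0) (fun n => (τ n).map id (· + 1)) n).elim (fun j => f j x) (cons a u) := by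
      funext n
      cases n with
      | zero => rfl
      | succ n => simp only [cons_succ]; cases τ n <;> rfl
    have e2 : (fun k : K ⊕ ℕ => ext a (Sum.elim (ι x) u) (Sum.elim (fun k => some (Sum.inl k))
        (cons none fun n => some (Sum.inr n)) k)) = Sum.elim (ι x) (cons a u) := by
      funext k
      rcases k with k | _ | n <;> rfl
    rw [e1, h x _ (cons_mem ha hu)]
    simp only [e2]

theorem DE.subst (hM : Good M) (hι : ∀ x k, ι x k ∈ M) {J : Type*} (f : J → Ξ → ZF)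
    (hf : ∀ j, DE M U ι (f j)) (Q : Set ZF → Set ZF → (Option J → ZF) → Prop)
    [hQ : Df (Option J) Q] : ∃ P, Df (Option K) P ∧ ∀ x, ∀ y ∈ M,
      (Q M U (ext y fun j => f j x) ↔ P M U (ext y (ι x))) := by
  obtain ⟨φ, p, hQ⟩ := hQ.out
  obtain ⟨P, hP, h⟩ := DE.subst_aux (U := U) hM hι (J := Option J)
    (fun j => j.elim (fun _ => ∅) f) (fun j => by
      cases j
      · exact DE.empty hM
      · exact hf _) φ
    fun n => (p n).elim (Sum.inl none) fun k => k.elim (Sum.inr 0) fun j => Sum.inl (some j)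
  refine ⟨_, hP.comp (Sum.elim some fun _ => none), fun x y hy => ?_⟩
  rw [hQ M U hM _ (ext_mem hy fun j => ((hf j).choose_spec.2 x).1)]
  have e2 : (fun k : K ⊕ ℕ => ext y (ι x) (Sum.elim some (fun _ => none) k)) =
      Sum.elim (ι x) fun _ => y := by
    funext k; cases k <;> rfl
  simp only [e2]
  rw [← h x _ fun _ => hy]
  have : (fun n => (p n).elim ∅ (ext y fun j => f j x)) = fun n =>
      ((p n).elim (Sum.inl none) fun k => k.elim (Sum.inr 0) fun j => Sum.inl (some j) :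
        Option J ⊕ ℕ).elim (fun j => j.elim (fun _ => ∅) f x) fun _ => y := by
    funext n
    rcases p n with _ | _ | j <;> rfl
  rw [this]

theorem DE.of_df (hM : Good M) (hι : ∀ x k, ι x k ∈ M) {J : Type*} (f : J → Ξ → ZF)
    (hf : ∀ j, DE M U ι (f j)) (Q : Set ZF → Set ZF → (Option J → ZF) → Prop)
    [hQ : Df (Option J) Q] (g : Ξ → ZF) (hg : ∀ x, g x ∈ M)
    (h : ∀ x, ∀ y ∈ M, (Q M U (ext y fun j => f j x) ↔ y = g x)) : DE M U ι g := by
  obtain ⟨P, hP, h'⟩ := DE.subst hM hι f hf Q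
  exact ⟨P, hP, fun x => ⟨hg x, fun y hy => (h' x y hy).symm.trans (h x y hy)⟩⟩

end

/-- Definable closure. -/
def dcl (M U B : Set ZF) : Set ZF :=
  {y | DE M U (fun _ : Unit => (Subtype.val : B → ZF)) fun _ => y}

section
variable {M U B : Set ZF}

theorem dcl_sub : dcl M U B ⊆ M := fun _ h => (h.choose_spec.2 ()).1

theorem subset_dcl (hB : B ⊆ M) : B ⊆ dcl M U B := fun y hy =>
  DE.var (ι := fun _ : Unit => (Subtype.val : B → ZF)) (fun _ k => hB k.2) ⟨y, hy⟩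

theorem empty_mem_dcl (hM : Good M) : ∅ ∈ dcl M U B := DE.empty hM

theorem mem_dcl (hM : Good M) (hB : B ⊆ M) {J : Type*}
    (Q : Set ZF → Set ZF → (Option J → ZF) → Prop) [hQ : Df (Option J) Q] (v : J → ZF)
    (hv : ∀ j, v j ∈ dcl M U B) {y : ZF} (hy : y ∈ M)
    (h : ∀ a ∈ M, (Q M U (ext a v) ↔ a = y)) : y ∈ dcl M U B :=
  DE.of_df hM (fun _ k => hB k.2) (fun j _ => v j) hv Q _ (fun _ => hy) fun _ => h

theorem mem_dcl' (hM : Good M) (hB : B ⊆ M)
    (Q : Set ZF → Set ZF → (ℕ → ZF) → Prop) [hQ : Df ℕ Q] (v : ℕ → ZF)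
    (hv : ∀ j, v j ∈ dcl M U B) {y : ZF} (hy : y ∈ M)
    (h : ∀ a ∈ M, (Q M U (cons a v) ↔ a = y)) : y ∈ dcl M U B := by
  refine mem_dcl hM hB _ (hQ := hQ.comp (cons none some)) v hv hy fun a ha => ?_
  have : (fun k => ext a v (cons none some k)) = cons a v := by funext k; cases k <;> rfl
  simp only [this]
  exact h a ha

theorem dcl_subset_dcl (hM : Good M) {B' : Set ZF} (hB : B' ⊆ M) (h : B ⊆ dcl M U B') :
    dcl M U B ⊆ dcl M U B' := fun y ⟨P, hP, hy⟩ =>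
  mem_dcl hM hB P Subtype.val (fun k => h k.2) (hy ()).1 (hy ()).2

theorem dcl_mono (hM : Good M) {B' : Set ZF} (hB : B' ⊆ M) (h : B ⊆ B') :
    dcl M U B ⊆ dcl M U B' := dcl_subset_dcl hM hB (h.trans (subset_dcl hB))

theorem dcl_list (hM : Good M) (hB : B ⊆ M) {y : ZF} (hy : y ∈ dcl M U B) :
    ∃ (φ : Fml) (l : List ZF), (∀ b ∈ l, b ∈ B) ∧
      ∀ a ∈ M, (Sat M U φ (cons a (asg l)) ↔ a = y) := by
  obtain ⟨P, hP, h⟩ := hy
  obtain ⟨φ, l, hl⟩ := hP.toList
  refine ⟨φ, l.map Subtype.val, fun b hb => ?_, fun a ha => ?_⟩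
  · obtain ⟨k, _, rfl⟩ := List.mem_map.1 hb
    exact k.2
  · exact (hl M U hM _ (fun k => hB k.2) a ha).symm.trans ((h ()).2 a ha)

theorem asg_mem_dcl (hM : Good M) {l : List ZF} (hl : ∀ b ∈ l, b ∈ dcl M U B) :
    ∀ n, asg l n ∈ dcl M U B := asg_mem (empty_mem_dcl hM) hl

theorem dcl_of_list (hM : Good M) (hB : B ⊆ M) {y : ZF} (hy : y ∈ M) (φ : Fml) (l : List ZF)
    (hl : ∀ b ∈ l, b ∈ dcl M U B) (h : ∀ a ∈ M, (Sat M U φ (cons a (asg l)) ↔ a = y)) :
    y ∈ dcl M U B :=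
  mem_dcl' hM hB (fun M U v => Sat M U φ fun n => v n) _ (asg_mem_dcl hM hl) hy h

theorem dcl_class (hM : Good M) (hB : B ⊆ M) {J : Type*}
    (c : Set ZF → Set ZF → (J → ZF) → ZF) [hc : DC J c] (v : J → ZF)
    (hv : ∀ j, v j ∈ dcl M U B) (h : c M U v ∈ M) : c M U v ∈ dcl M U B :=
  mem_dcl hM hB (fun M U w => w none = c M U fun k => w (some k))
    (hQ := Df.eqC (hs := (DT.var none).toDC) (ht := hc.comp some)) v hv h fun _ _ => Iff.rfl

theorem pair_mem_dcl (hM : Good M) (hB : B ⊆ M) {a b : ZF} (ha : a ∈ dcl M U B)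
    (hb : b ∈ dcl M U B) : pair a b ∈ dcl M U B :=
  dcl_class hM hB (J := ℕ) (fun _ _ v => pair (v 0) (v 1)) (cons a fun _ => b)
    (cons_mem ha fun _ => hb) (hM.pair (dcl_sub ha) (dcl_sub hb))

theorem insert_mem_dcl (hM : Good M) (hB : B ⊆ M) {a b : ZF} (ha : a ∈ dcl M U B)
    (hb : b ∈ dcl M U B) : insert a b ∈ dcl M U B :=
  dcl_class hM hB (J := ℕ) (fun _ _ v => insert (v 0) (v 1)) (cons a fun _ => b)
    (cons_mem ha fun _ => hb) (hM.ins _ (dcl_sub ha) _ (dcl_sub hb))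

end

def Fml.code : Fml → ℕ
  | .mem i j => 6 * Nat.pair i j
  | .eq i j => 6 * Nat.pair i j + 1
  | .pred i => 6 * i + 2
  | .neg φ => 6 * φ.code + 3
  | .and φ ψ => 6 * Nat.pair φ.code ψ.code + 4
  | .ex φ => 6 * φ.code + 5

theorem Fml.code_inj : ∀ φ ψ : Fml, φ.code = ψ.code → φ = ψ := by
  intro φ
  induction φ with
  | mem i j =>
    intro ψ h; cases ψ <;> simp only [code] at h <;> try omega
    simpa using h
  | eq i j =>
    intro ψ h; cases ψ <;> simp only [code] at h <;> try omega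
    simpa using h
  | pred i =>
    intro ψ h; cases ψ <;> simp only [code] at h <;> try omega
    simpa using h
  | neg φ ih =>
    intro ψ h; cases ψ <;> simp only [code] at h <;> try omega
    rename_i ψ
    rw [ih ψ (by omega)]
  | and φ φ' ih ih' =>
    intro ψ h; cases ψ <;> simp only [code] at h <;> try omega
    rename_i ψ ψ'
    have := Nat.pair_eq_pair.1 (by omega : Nat.pair φ.code φ'.code = Nat.pair ψ.code ψ'.code)
    rw [ih _ this.1, ih' _ this.2]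
  | ex φ ih =>
    intro ψ h; cases ψ <;> simp only [code] at h <;> try omega
    rename_i ψ
    rw [ih ψ (by omega)]

theorem Fml.code_surj (n : ℕ) : ∃ φ : Fml, φ.code = n := by
  induction n using Nat.strong_induction_on with
  | _ n ih =>
    have h1 := Nat.unpair_left_le (n / 6)
    have h2 := Nat.unpair_right_le (n / 6)
    have hp := Nat.pair_unpair (n / 6)
    have : n % 6 = 0 ∨ n % 6 = 1 ∨ n % 6 = 2 ∨ n % 6 = 3 ∨ n % 6 = 4 ∨ n % 6 = 5 := by omega
    rcases this with h | h | h | h | h | h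
    · exact ⟨.mem _ _, by rw [code, hp]; omega⟩
    · exact ⟨.eq _ _, by rw [code, hp]; omega⟩
    · exact ⟨.pred (n / 6), by rw [code]; omega⟩
    · obtain ⟨φ, hφ⟩ := ih (n / 6) (by omega)
      exact ⟨.neg φ, by rw [code, hφ]; omega⟩
    · obtain ⟨φ, hφ⟩ := ih (n / 6).unpair.1 (by omega)
      obtain ⟨ψ, hψ⟩ := ih (n / 6).unpair.2 (by omega)
      exact ⟨.and φ ψ, by rw [code, hφ, hψ, hp]; omega⟩
    · obtain ⟨φ, hφ⟩ := ih (n / 6) (by omega)
      exact ⟨.ex φ, by rw [code, hφ]; omega⟩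

instance : Countable Fml := ⟨⟨Fml.code, fun _ _ h => Fml.code_inj _ _ h⟩⟩

instance : Inhabited Fml := ⟨.eq 0 0⟩

theorem mk_fml_list_le {α : Type u} {c : Cardinal.{u}} (hc : ℵ₀ ≤ c) (h : #α ≤ c) :
    #(Fml × List α) ≤ c := by
  have h1 : #(List α) ≤ c := (mk_list_le_max α).trans (max_le hc h)
  have h2 : lift.{u} #Fml ≤ c := by
    refine le_trans ?_ hc
    rw [← lift_aleph0.{u, 0}, lift_le]; exact mk_le_aleph0
  rw [mk_prod, lift_uzero]
  exact (mul_le_mul' h2 h1).trans (mul_eq_self hc).le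

theorem mk_dcl_le {M U B : Set ZF} (hM : Good M) (hB : B ⊆ M) {c : Cardinal.{1}} (hc : ℵ₀ ≤ c)
    (h : #B ≤ c) : #(dcl M U B) ≤ c := by
  refine le_trans ?_ (mk_fml_list_le hc h)
  have : ∀ y : dcl M U B, ∃ p : Fml × List B,
      ∀ a ∈ M, (Sat M U p.1 (cons a (asg (p.2.map Subtype.val))) ↔ a = y.1) := by
    intro y
    obtain ⟨P, hP, h⟩ := y.2
    obtain ⟨φ, l, hl⟩ := hP.toList
    exact ⟨(φ, l), fun a ha => (hl M U hM _ (fun k => hB k.2) a ha).symm.trans ((h ()).2 a ha)⟩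
  choose F hF using this
  refine mk_le_of_injective (f := F) fun y y' e => Subtype.ext ?_
  have := (hF y _ (dcl_sub y.2)).2 rfl
  rw [e] at this
  exact (hF y' _ (dcl_sub y.2)).1 this

/-- The Tarski-Vaught property. -/
structure TV (M U X : Set ZF) : Prop where
  sub : X ⊆ M
  ne : ∅ ∈ X
  wit : ∀ φ v, (∀ n, v n ∈ X) → (∃ a ∈ M, Sat M U φ (cons a v)) → ∃ a ∈ X, Sat M U φ (cons a v)

theorem TV.sat {M U X : Set ZF} (h : TV M U X) (φ : Fml) : ∀ v, (∀ n, v n ∈ X) →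
    (Sat X U φ v ↔ Sat M U φ v) := by
  induction φ with
  | mem i j => intro v _; rfl
  | eq i j => intro v _; rfl
  | pred i => intro v _; rfl
  | neg φ ih => intro v hv; exact not_congr (ih v hv)
  | and φ ψ ih1 ih2 => intro v hv; exact and_congr (ih1 v hv) (ih2 v hv)
  | ex φ ih =>
    intro v hv
    constructor
    · rintro ⟨a, ha, h'⟩
      exact ⟨a, h.sub ha, (ih _ (cons_mem ha hv)).1 h'⟩
    · intro h'
      obtain ⟨a, ha, h'⟩ := h.wit φ v hv h'
      exact ⟨a, ha, (ih _ (cons_mem ha hv)).2 h'⟩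

theorem TV.df {M U X : Set ZF} (h : TV M U X) (hM : Good M) {K : Type u}
    (P : Set ZF → Set ZF → (Option K → ZF) → Prop) [hP : Df (Option K) P] (v : K → ZF)
    (hv : ∀ k, v k ∈ X) (hw : ∃ a ∈ M, P M U (ext a v)) : ∃ a ∈ X, P M U (ext a v) := by
  obtain ⟨φ, l, hl⟩ := hP.toList
  have hv' : ∀ k, v k ∈ M := fun k => h.sub (hv k)
  obtain ⟨a, ha, hw⟩ := hw
  obtain ⟨b, hb, hw⟩ := h.wit φ (asg (l.map v)) (asg_mem h.ne (by simp; exact fun k _ => hv k))
    ⟨a, ha, (hl M U hM v hv' a ha).1 hw⟩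
  exact ⟨b, hb, (hl M U hM v hv' b (h.sub hb)).2 hw⟩

/-- The collapsing function of a class. -/
noncomputable def col (X : Set ZF) (x : ZF) : ZF :=
  ZFSet.range fun y : {y : x // y.1 ∈ X} => col X y.1.1
termination_by x
decreasing_by exact y.1.2

theorem mem_col {X : Set ZF} {x z : ZF} : z ∈ col X x ↔ ∃ y ∈ x, y ∈ X ∧ col X y = z := by
  rw [col, mem_range]
  exact ⟨fun ⟨y, h⟩ => ⟨y.1.1, y.1.2, y.2, h⟩, fun ⟨y, h1, h2, h⟩ => ⟨⟨⟨y, h1⟩, h2⟩, h⟩⟩

theorem col_agree {X X' A : Set ZF} (h : X' ⊆ X) (hA : A ⊆ X')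
    (hc : ∀ y ∈ A, ∀ z ∈ y, z ∈ X → z ∈ A) {y : ZF} (hy : ∀ z ∈ y, z ∈ X → z ∈ A) :
    col X y = col X' y := by
  induction y using ZFSet.inductionOn with
  | h y ih =>
    ext w
    simp only [mem_col]
    constructor
    · rintro ⟨z, h1, h2, rfl⟩
      exact ⟨z, h1, hA (hy z h1 h2), (ih z h1 (hc z (hy z h1 h2))).symm⟩
    · rintro ⟨z, h1, h2, rfl⟩
      exact ⟨z, h1, h h2, ih z h1 (hc z (hy z h1 (h h2)))⟩

theorem col_fix {X A : Set ZF} (hA : A ⊆ X) (hc : ∀ y ∈ A, ∀ z ∈ y, z ∈ A) {y : ZF}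
    (hy : ∀ z ∈ y, z ∈ A) : col X y = y := by
  induction y using ZFSet.inductionOn with
  | h y ih =>
    ext w
    simp only [mem_col]
    constructor
    · rintro ⟨z, h1, h2, rfl⟩
      rwa [ih z h1 (hc z (hy z h1))]
    · intro hw
      exact ⟨w, hw, hA (hy w hw), ih w hw (hc w (hy w hw))⟩

open Classical in
/-- The inverse of the collapse. -/
noncomputable def unc (X : Set ZF) (a : ZF) : ZF :=
  if h : ∃ x ∈ X, col X x = a then h.choose else ∅

section
variable {M U X : Set ZF}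

theorem TV.col_inj (h : TV M U X) (hM : Good M) {x : ZF} :
    x ∈ X → ∀ {y}, y ∈ X → col X x = col X y → x = y := by
  induction x using ZFSet.inductionOn with
  | h x ih =>
    intro hx y hy e
    by_contra hne
    have : ∃ a ∈ M, ¬ (a ∈ x ↔ a ∈ y) := by
      by_contra hc
      push Not at hc
      exact hne (ZFSet.ext fun z => ⟨fun hz => (hc z (hM.trans x (h.sub hx) z hz)).1 hz,
        fun hz => (hc z (hM.trans y (h.sub hy) z hz)).2 hz⟩)
    obtain ⟨a, ha, hn⟩ := h.df hM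
      (fun _ _ w => ¬ (w none ∈ w (some true) ↔ w none ∈ w (some false)))
      (fun b => cond b x y) (by rintro (_ | _) <;> assumption) this
    refine hn ⟨fun h1 => ?_, fun h1 => ?_⟩
    · obtain ⟨z, h2, h3, h4⟩ := mem_col.1 (e ▸ mem_col.2 ⟨a, h1, ha, rfl⟩)
      exact (ih a h1 ha h3 h4.symm) ▸ h2
    · obtain ⟨z, h2, h3, h4⟩ := mem_col.1 (e ▸ mem_col.2 ⟨a, h1, ha, rfl⟩ : col X a ∈ col X x)
      exact (ih z h2 h3 ha h4) ▸ h2

theorem unc_spec {a : ZF} (ha : a ∈ col X '' X) : unc X a ∈ X ∧ col X (unc X a) = a := by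
  have : ∃ x ∈ X, col X x = a := ha
  rw [unc, dif_pos this]
  exact this.choose_spec

theorem TV.unc_col (h : TV M U X) (hM : Good M) {x : ZF} (hx : x ∈ X) : unc X (col X x) = x :=
  have := unc_spec (X := X) ⟨x, hx, rfl⟩
  h.col_inj hM this.1 hx this.2

theorem col_trans (X : Set ZF) : ∀ x ∈ col X '' X, ∀ y ∈ x, y ∈ col X '' X := by
  rintro _ ⟨x, _, rfl⟩ y hy
  obtain ⟨z, _, h2, h3⟩ := mem_col.1 hy
  exact ⟨z, h2, h3⟩

theorem TV.col_mem (h : TV M U X) (hM : Good M) {x y : ZF} (hx : x ∈ X) (hy : y ∈ X) :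
    col X x ∈ col X y ↔ x ∈ y := by
  rw [mem_col]
  exact ⟨fun ⟨z, h1, h2, h3⟩ => h.col_inj hM h2 hx h3 ▸ h1, fun h1 => ⟨x, h1, hx, rfl⟩⟩

theorem TV.elem (h : TV M U X) (hM : Good M) {O : Set ZF}
    (hO : ∀ x ∈ X, col X x ∈ O ↔ x ∈ U) : Elem (col X '' X) O M U (unc X) := by
  have key : ∀ φ (v : ℕ → ZF), (∀ n, v n ∈ X) →
      (Sat (col X '' X) O φ (fun n => col X (v n)) ↔ Sat X U φ v) := by
    intro φ
    induction φ with
    | mem i j => intro v hv; exact h.col_mem hM (hv i) (hv j)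
    | eq i j => intro v hv; exact ⟨h.col_inj hM (hv i) (hv j), congrArg _⟩
    | pred i => intro v hv; exact hO _ (hv i)
    | neg φ ih => intro v hv; exact not_congr (ih v hv)
    | and φ ψ ih1 ih2 => intro v hv; exact and_congr (ih1 v hv) (ih2 v hv)
    | ex φ ih =>
      intro v hv
      constructor
      · rintro ⟨_, ⟨a, ha, rfl⟩, h'⟩
        rw [← comp_cons] at h'
        exact ⟨a, ha, (ih _ (cons_mem ha hv)).1 h'⟩
      · rintro ⟨a, ha, h'⟩
        refine ⟨_, ⟨a, ha, rfl⟩, ?_⟩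
        rw [← comp_cons]
        exact (ih _ (cons_mem ha hv)).2 h'
  have e : Elem0 (col X '' X) O M U (unc X) := by
    refine ⟨fun a ha => h.sub (unc_spec ha).1, fun φ v hv => ?_⟩
    rw [← h.sat φ _ fun n => (unc_spec (hv n)).1, ← key φ _ fun n => (unc_spec (hv n)).1]
    simp only [fun n => (unc_spec (hv n)).2]
  exact ⟨e, e.good_of (col_trans X) ⟨_, ∅, h.ne, rfl⟩ hM, hM⟩

end

end Pool.Agent.MP_477625_lc.H75
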