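import Pool.Agent.MP_477625_lc.H75.Codes

/-! The main theorem. -/

namespace Pool.Agent.MP_477625_lc.H75
open ZFSet Cardinal

universe u v

set_option linter.unusedVariables false
set_option linter.unusedSectionVars false
set_option synthInstance.maxSize 100000

theorem finite_case {σ : List ℕ} (M : Struc σ) [Finite M.A] :
    ∃ δ : Sentence σ, M.Sat δ ∧ ∀ N : Struc σ, N.Sat δ → M.Iso N := by
  have key : ∀ r k : ℕ, σ[r]? = some k → SD (fun _ => True) σ (Empty ⊕ M.A) Empty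
      fun A v E ρ => ∀ u : Fin k → M.A, ((List.finRange k).map u ∈ M.rel r ↔
        ((List.finRange k).map u).map (fun a => v (Sum.inr a)) ∈ ρ r) := fun r k hk =>
    SD.all_fin fun u => SD.iff (h := SD.const _) (h' := (SD.app (r := r)
      (l := ((List.finRange k).map u).map Sum.inr) (by simpa using hk)).congr
        fun A _ v E ρ => by rw [List.map_map (g := v)]; rfl)
  have h1 : SD (fun _ => True) σ (Empty ⊕ M.A) Empty fun A v E ρ => ∀ r l, σ[r]? = some l.length →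
      (l ∈ M.rel r ↔ l.map (fun a => v (Sum.inr a)) ∈ ρ r) :=
    (SD.all_fin fun r : Fin σ.length => key r σ[r] (by simp)).congr fun A _ v E ρ => all_sig.symm
  have h2 : SD (fun _ => True) σ (Empty ⊕ M.A) Empty fun A v E ρ =>
      ∀ a b : M.A, v (Sum.inr a) = v (Sum.inr b) → a = b :=
    SD.all_fin fun a => SD.all_fin fun b => SD.imp (h' := SD.const _)
  have h3 : SD (fun _ => True) σ (Empty ⊕ M.A) Empty fun A v E ρ =>
      ∀ y, ∃ a : M.A, v (Sum.inr a) = y :=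
    SD.all1 (h := SD.ex_fin fun a => SD.eq (some (Sum.inr a)) none)
  obtain ⟨δ, hδ⟩ := (SD.exF (SD.and (h := h1) (h' := SD.and (h := h2) (h' := h3)))).sentence
  refine ⟨δ, (hδ M trivial).2 ⟨id, fun r l _ => by simp, fun a b h => h, fun y => ⟨y, rfl⟩⟩,
    fun N hN => ?_⟩
  obtain ⟨f, h4, h5, h6⟩ := (hδ N trivial).1 hN
  refine ⟨Equiv.ofBijective f ⟨h5, h6⟩, fun r l => ?_⟩
  by_cases h : σ[r]? = some l.length
  · exact h4 r l h
  · exact iff_of_false (fun h' => h (M.arity r l h')) fun h' => h (by simpa using N.arity r _ h')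

theorem wf_append {φ : SO} {Δ : List ℕ} : ∀ {n Γ}, φ.WF n Γ → φ.WF n (Γ ++ Δ) := by
  induction φ with
  | eq i j => exact fun h => h
  | app r a =>
    intro n Γ h
    exact ⟨by rw [List.getElem?_append_left (List.getElem?_eq_some_iff.1 h.1).1]; exact h.1, h.2⟩
  | neg φ ih => exact fun h => ih h
  | and φ ψ ih1 ih2 => exact fun h => ⟨ih1 h.1, ih2 h.2⟩
  | ex1 φ ih => exact fun h => ih h
  | ex2 k φ ih => exact fun h => ih (Γ := k :: _) h

theorem chi_hen {χ : SO} (h : χ.WF 0 []) {A : Type} {b : A → ZF} {D : ZF} (hb : Bij b D)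
    {P : Set ZF} (hP : ∀ R, R ⊆ Tr D → R ∈ P) (v : ℕ → A) (ρ : ℕ → Set (List A)) :
    χ.Sat v ρ ↔ HenS D P χ ∅ := hen_full hb.inj hb.rng hP χ h v ρ _ _ (by simp) (by simp)

theorem chi_iff {c : Cardinal.{0}} {χ : Sentence []} (h : ∀ M : Struc [], M.Sat χ ↔ #M.A = c)
    {D : ZF} (hD : ∅ ∈ D) {P : Set ZF} (hP : ∀ R, R ⊆ Tr D → R ∈ P) :
    HenS D P χ.1 ∅ ↔ D.card = c := by
  obtain ⟨b, hb⟩ := exists_bij (Cardinal.mk_out D.card)
  have : Nonempty D.card.out := let ⟨a, _⟩ := (hb.rng _).1 hD; ⟨a⟩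
  have := h ⟨D.card.out, this, fun _ => ∅, by simp⟩
  simpa only [Struc.Sat, chi_hen χ.2 hb hP, forall_const, Cardinal.mk_out] using this

theorem Complete.iff {σ : List ℕ} {T : Set (Sentence σ)} (h : Complete T) {M N : Struc σ}
    (hM : M.Models T) (hN : N.Models T) (φ : Sentence σ) : M.Sat φ ↔ N.Sat φ := by
  rcases h φ with h | h
  · exact iff_of_true (h M hM) (h N hN)
  · obtain ⟨a⟩ := M.nonempty
    obtain ⟨b⟩ := N.nonempty
    exact iff_of_false (fun h' => h M hM (fun _ => a) (h' _)) fun h' => h N hN (fun _ => b) (h' _)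

theorem card_eq {σ : List ℕ} {T : Set (Sentence σ)} (hT : Complete T) {M N : Struc σ}
    (hM : M.Models T) (hN : N.Models T) (h : Characterizable #M.A) : #N.A = #M.A := by
  obtain ⟨χ, hχ⟩ := h
  have key : ∀ N : Struc σ, N.Sat ⟨χ.1, wf_append (Γ := []) χ.2⟩ ↔ #N.A = #M.A := by
    intro N
    obtain ⟨b, hb⟩ := exists_bij (card_cardSet #N.A).symm
    refine Iff.trans ?_ (hχ ⟨N.A, N.nonempty, fun _ => ∅, by simp⟩)
    simp only [Struc.Sat, chi_hen χ.2 hb (P := Set.univ) fun _ _ => trivial]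
  exact (key N).1 ((hT.iff hM hN _).1 ((key M).2 rfl))

theorem main (κ : Cardinal.{0}) (U : ZF) (hU : IsNormalMeasure κ U)
    (hV : ∀ x : ZF, ∃ o : Ordinal.{0}, x ∈ LU U o) (σ : List ℕ) (T : Set (Sentence σ))
    (hT : Complete T) (hR : RecAxiomatized T) (M : Struc σ) (hM : M.Models T)
    (hκ : #M.A < κ) (hχ : Characterizable #M.A) : Categorical T := by
  have hcard := fun (N : Struc σ) (hN : N.Models T) => card_eq hT hM hN hχ
  intro N1 N2 h1 h2
  rcases lt_or_ge #M.A ℵ₀ with hc | hc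
  · have : Finite N1.A := lt_aleph0_iff_finite.1 (hcard N1 h1 ▸ hc)
    obtain ⟨δ, h3, h4⟩ := finite_case N1
    exact h4 N2 ((hT.iff h1 h2 δ).1 h3)
  obtain ⟨S, hS, hS'⟩ := hR
  obtain ⟨χ, hχ⟩ := hχ
  set c := #M.A
  have T' : Setup κ U c σ (Subtype.val '' S) χ.1 (Phi σ) :=
    { hU := hU
      hV := hV
      hc := hc
      hκ := hκ
      wf := by rintro _ ⟨φ, -, rfl⟩; exact φ.2
      nd := by simp only [Set.exists_mem_image]; exact nd_computable hS
      χ1 := χ.2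
      χ2 := (chi_iff hχ (nat_mem_cardSet hc 0) fun R => HC.sub_tr hc).2 (card_cardSet c)
      χ3 := fun a ha h0 h => ((mem_cardSet ((cardSet_ord c).mem ha)).1 ha).ne ((chi_iff hχ h0
        fun R hR => HC.sub_tr hc (hR.trans (Tr_mono ((cardSet_ord c).subset_of_mem ha)))).1 h)
      df := inferInstance }
  have code : ∀ x ∈ MM c (Subtype.val '' S) (Phi σ), ∃ (N : Struc σ) (b : N.A → ZF),
      N.Models T ∧ Bij b (cardSet c) ∧ x = Code N b (cardSet c) := by
    intro x hx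
    obtain ⟨b, hb⟩ := exists_bij (card_cardSet c).symm
    let N : Struc σ := ⟨M.A, M.nonempty,
      fun r => {l | σ[r]? = some l.length ∧ pair (nat r) (ZL (l.map b)) ∈ x}, fun r l h => h.1⟩
    have e := eq_Code hc (M := N) hb hx.2.1.1 fun r l h => and_iff_right h
    exact ⟨N, b, (hS' N).2 fun φ hφ => (sat_Code hc (M := N) hb φ).2
      (e ▸ hx.2.2 _ ⟨φ, hφ, rfl⟩), hb, e⟩
  have mem : ∀ N : Struc σ, N.Models T → ∃ b, Bij b (cardSet c) ∧
      Code N b (cardSet c) ∈ MM c (Subtype.val '' S) (Phi σ) := by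
    intro N hN
    obtain ⟨b, hb, h⟩ := T'.exists_min (hcard N hN)
    refine ⟨b, hb, sep_subset, h, ?_⟩
    rintro _ ⟨φ, hφ, rfl⟩
    exact (sat_Code hc hb φ).1 ((hS' N).1 hN φ hφ)
  obtain ⟨b1, h3, h4⟩ := mem N1 h1
  obtain ⟨b2, h5, h6⟩ := mem N2 h2
  refine iso_of_Code hc h3 h5 (T'.core (fun x hx x' hx' R hR => ?_) h4 h6)
  obtain ⟨ψ, hψ⟩ := T'.wrap R
  obtain ⟨N, b, h7, h8, rfl⟩ := code x hx
  obtain ⟨N', b', h7', h8', rfl⟩ := code x' hx'
  rw [← hψ N b h8 hx.2.1, ← hψ N' b' h8' hx'.2.1]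
  exact hT.iff h7 h7' ψ

end Pool.Agent.MP_477625_lc.H75
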