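import Pool.Agent.MP_477625_lc.H75.Defs

/-! Definability of predicates, uniformly over transitive classes closed under a few operations. -/

namespace Pool.Agent.MP_477625_lc.H75
open ZFSet

universe u v

set_option linter.unusedVariables false

@[simp] theorem cons_zero {α : Type*} (a : α) (v : ℕ → α) : cons a v 0 = a := rfl
@[simp] theorem cons_succ {α : Type*} (a : α) (v : ℕ → α) (n : ℕ) : cons a v (n + 1) = v n := rfl
@[simp] theorem cons_one {α : Type*} (a : α) (v : ℕ → α) : cons a v 1 = v 0 := rfl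
@[simp] theorem cons_two {α : Type*} (a : α) (v : ℕ → α) : cons a v 2 = v 1 := rfl

theorem comp_cons {α β : Type*} (f : α → β) (a : α) (v : ℕ → α) :
    (fun n => f (cons a v n)) = cons (f a) (fun n => f (v n)) := by
  funext n; cases n <;> rfl

theorem cons_mem {α : Type*} {M : Set α} {a : α} {v : ℕ → α} (ha : a ∈ M) (hv : ∀ n, v n ∈ M) :
    ∀ n, cons a v n ∈ M := by
  intro n; cases n
  · exact ha
  · exact hv _

theorem asg_cons (a : ZF) (l : List ZF) : asg (a :: l) = cons a (asg l) := by
  funext n; cases n <;> simp [asg]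

theorem asg_nil : asg [] = fun _ => ∅ := by funext n; simp [asg]

structure Good (M : Set ZF) : Prop where
  trans : ∀ x ∈ M, ∀ y ∈ x, y ∈ M
  empty : ∅ ∈ M
  ins : ∀ a ∈ M, ∀ b ∈ M, insert a b ∈ M
  un : ∀ a ∈ M, ∀ b ∈ M, a ∪ b ∈ M

theorem Good.sing {M : Set ZF} (h : Good M) {a : ZF} (ha : a ∈ M) : ({a} : ZF) ∈ M := by
  have := h.ins a ha ∅ h.empty
  simpa using this

theorem Good.pair {M : Set ZF} (h : Good M) {a b : ZF} (ha : a ∈ M) (hb : b ∈ M) :
    pair a b ∈ M :=
  h.ins _ (h.sing ha) _ (h.sing (h.ins _ ha _ (h.sing hb)))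

theorem Good.fst {M : Set ZF} (h : Good M) {a b : ZF} (hp : ZFSet.pair a b ∈ M) : a ∈ M :=
  h.trans {a} (h.trans _ hp _ (by simp [ZFSet.pair])) _ (by simp)

theorem Good.snd {M : Set ZF} (h : Good M) {a b : ZF} (hp : ZFSet.pair a b ∈ M) : b ∈ M :=
  h.trans {a, b} (h.trans _ hp _ (by simp [ZFSet.pair])) _ (by simp)

theorem good_univ : Good Set.univ := ⟨by simp, by simp, by simp, by simp⟩

theorem asg_mem {M : Set ZF} (h : ∅ ∈ M) {l : List ZF} (hl : ∀ b ∈ l, b ∈ M) :
    ∀ n, asg l n ∈ M := by
  induction l with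
  | nil => simp [asg_nil, h]
  | cons a l ih =>
    rw [asg_cons]
    exact cons_mem (hl a (by simp)) (ih fun b hb => hl b (by simp [hb]))

def liftR (g : ℕ → ℕ) : ℕ → ℕ
  | 0 => 0
  | n + 1 => g n + 1

def Fml.ren : Fml → (ℕ → ℕ) → Fml
  | .mem i j, g => .mem (g i) (g j)
  | .eq i j, g => .eq (g i) (g j)
  | .pred i, g => .pred (g i)
  | .neg φ, g => .neg (φ.ren g)
  | .and φ ψ, g => .and (φ.ren g) (ψ.ren g)
  | .ex φ, g => .ex (φ.ren (liftR g))

theorem sat_ren (M U : Set ZF) (φ : Fml) : ∀ (g : ℕ → ℕ) (v : ℕ → ZF),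
    Sat M U (φ.ren g) v ↔ Sat M U φ (fun n => v (g n)) := by
  induction φ with
  | mem i j => intro g v; rfl
  | eq i j => intro g v; rfl
  | pred i => intro g v; rfl
  | neg φ ih => intro g v; simp [Fml.ren, Sat, ih]
  | and φ ψ ih1 ih2 => intro g v; simp [Fml.ren, Sat, ih1, ih2]
  | ex φ ih =>
    intro g v
    simp only [Fml.ren, Sat, ih]
    refine exists_congr fun a => and_congr_right fun _ => ?_
    have : (fun n => cons a v (liftR g n)) = cons a fun n => v (g n) := by
      funext n; cases n <;> rfl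
    rw [this]

def Fml.bd : Fml → ℕ
  | .mem i j => max i j + 1
  | .eq i j => max i j + 1
  | .pred i => i + 1
  | .neg φ => φ.bd
  | .and φ ψ => max φ.bd ψ.bd
  | .ex φ => φ.bd

theorem sat_congr (M U : Set ZF) (φ : Fml) : ∀ (v w : ℕ → ZF), (∀ n < φ.bd, v n = w n) →
    (Sat M U φ v ↔ Sat M U φ w) := by
  induction φ with
  | mem i j =>
    intro v w h; simp only [Sat]
    rw [h i (by simp [Fml.bd]), h j (by simp [Fml.bd])]
  | eq i j =>
    intro v w h; simp only [Sat]
    rw [h i (by simp [Fml.bd]), h j (by simp [Fml.bd])]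
  | pred i => intro v w h; simp only [Sat]; rw [h i (by simp [Fml.bd])]
  | neg φ ih => intro v w h; simp only [Sat]; rw [ih v w h]
  | and φ ψ ih1 ih2 =>
    intro v w h; simp only [Sat]
    rw [ih1 v w fun n hn => h n (by simp [Fml.bd]; omega),
      ih2 v w fun n hn => h n (by simp [Fml.bd]; omega)]
  | ex φ ih =>
    intro v w h; simp only [Sat]
    refine exists_congr fun a => and_congr_right fun _ => ih _ _ fun n hn => ?_
    cases n with
    | zero => rfl
    | succ n => exact h n (by simp only [Fml.bd]; omega)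

/-- Uniformly definable predicates. -/
class Df (K : Type u) (P : Set ZF → Set ZF → (K → ZF) → Prop) : Prop where
  out : ∃ (φ : Fml) (p : ℕ → Option K), ∀ M U, Good M → ∀ v : K → ZF, (∀ k, v k ∈ M) →
    (P M U v ↔ Sat M U φ fun n => (p n).elim ∅ v)

/-- Extension of an assignment to `Option K`. -/
def ext {K : Type u} (a : ZF) (v : K → ZF) : Option K → ZF
  | none => a
  | some k => v k

@[simp] theorem ext_none {K : Type u} (a : ZF) (v : K → ZF) : ext a v none = a := rfl
@[simp] theorem ext_some {K : Type u} (a : ZF) (v : K → ZF) (k : K) : ext a v (some k) = v k := rfl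

theorem ext_mem {K : Type u} {M : Set ZF} {a : ZF} {v : K → ZF} (ha : a ∈ M) (hv : ∀ k, v k ∈ M) :
    ∀ k, ext a v k ∈ M := by
  intro k; cases k
  · exact ha
  · exact hv _

theorem comp_ext {K : Type u} (j : ZF → ZF) (a : ZF) (v : K → ZF) :
    (fun k => j (ext a v k)) = ext (j a) fun k => j (v k) := by
  funext k; cases k <;> rfl

namespace Df
variable {K : Type u} {P Q : Set ZF → Set ZF → (K → ZF) → Prop}

theorem congr (h : Df K P) (e : ∀ M U, Good M → ∀ v : K → ZF, (∀ k, v k ∈ M) →
    (Q M U v ↔ P M U v)) : Df K Q := by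
  obtain ⟨φ, p, h⟩ := h.out
  exact ⟨φ, p, fun M U hM v hv => (e M U hM v hv).trans (h M U hM v hv)⟩

theorem sat (φ : Fml) (p : ℕ → Option K) :
    Df K fun M U v => Sat M U φ fun n => (p n).elim ∅ v := ⟨φ, p, fun _ _ _ _ _ => Iff.rfl⟩

theorem compO {J : Type v} (h : Df K P) (g : K → Option J) :
    Df J fun M U w => P M U fun k => (g k).elim ∅ w := by
  obtain ⟨φ, p, h⟩ := h.out
  refine ⟨φ, fun n => (p n).bind g, fun M U hM w hw => ?_⟩
  rw [h M U hM]
  · have : (fun n => (p n).elim ∅ fun k => (g k).elim ∅ w) =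
        fun n => ((p n).bind g).elim ∅ w := by
      funext n; cases p n <;> rfl
    rw [this]
  · intro k; cases g k
    · exact hM.empty
    · exact hw _

theorem comp {J : Type v} (h : Df K P) (g : K → J) :
    Df J fun M U w => P M U fun k => w (g k) := h.compO fun k => some (g k)

instance not [h : Df K P] : Df K fun M U v => ¬ P M U v := by
  obtain ⟨φ, p, h⟩ := h.out
  exact ⟨.neg φ, p, fun M U hM v hv => not_congr (h M U hM v hv)⟩

instance and [h : Df K P] [h' : Df K Q] : Df K fun M U v => P M U v ∧ Q M U v := by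
  obtain ⟨φ, p, h⟩ := h.out
  obtain ⟨ψ, q, h'⟩ := h'.out
  refine ⟨.and (φ.ren fun n => 2 * n) (ψ.ren fun n => 2 * n + 1),
    fun n => if n % 2 = 0 then p (n / 2) else q (n / 2), fun M U hM v hv => ?_⟩
  simp only [Sat, sat_ren]
  rw [h M U hM v hv, h' M U hM v hv]
  have e1 : ∀ n : ℕ, (2 * n + 1) / 2 = n := fun n => by omega
  simp [e1]

instance or [h : Df K P] [h' : Df K Q] : Df K fun M U v => P M U v ∨ Q M U v :=
  (inferInstance : Df K fun M U v => ¬ (¬ P M U v ∧ ¬ Q M U v)).congr fun _ _ _ _ _ => by tauto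

instance imp [Df K P] [Df K Q] : Df K fun M U v => P M U v → Q M U v :=
  (inferInstance : Df K fun M U v => ¬ (P M U v ∧ ¬ Q M U v)).congr fun _ _ _ _ _ => by tauto

instance iff [Df K P] [Df K Q] : Df K fun M U v => P M U v ↔ Q M U v :=
  (inferInstance : Df K fun M U v => (P M U v → Q M U v) ∧ (Q M U v → P M U v)).congr
    fun _ _ _ _ _ => by tauto

theorem const (p : Prop) : Df K fun _ _ _ => p := by
  by_cases hp : p
  · exact ⟨.eq 0 0, fun _ => none, fun M U _ v _ => by simp [Sat, hp]⟩
  · exact ⟨.neg (.eq 0 0), fun _ => none, fun M U _ v _ => by simp [Sat, hp]⟩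

theorem exM' {R : Set ZF → Set ZF → (Option K → ZF) → Prop} (h : Df (Option K) R) :
    Df K fun M U v => ∃ a ∈ M, R M U (ext a v) := by
  classical
  obtain ⟨φ, p, h⟩ := h.out
  refine ⟨.ex (φ.ren fun n => if p n = some none then 0 else n + 1), fun n => (p n).bind id,
    fun M U hM v hv => ?_⟩
  simp only [Sat, sat_ren]
  refine exists_congr fun a => and_congr_right fun ha => ?_
  rw [h M U hM _ (ext_mem ha hv)]
  have : (fun n => (p n).elim ∅ (ext a v)) = fun n => cons a
      (fun n => ((p n).bind id).elim ∅ v) (if p n = some none then 0 else n + 1) := by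
    funext n
    rcases hp : p n with _ | _ | k <;> simp [hp]
  rw [this]

instance exM {R : Set ZF → Set ZF → (K → ZF) → ZF → Prop}
    [h : Df (Option K) fun M U w => R M U (fun k => w (some k)) (w none)] :
    Df K fun M U v => ∃ a, a ∈ M ∧ R M U v a := exM' h

instance allM {R : Set ZF → Set ZF → (K → ZF) → ZF → Prop}
    [h : Df (Option K) fun M U w => R M U (fun k => w (some k)) (w none)] :
    Df K fun M U v => ∀ a, a ∈ M → R M U v a :=
  (Df.not (h := exM (R := fun M U v a => ¬ R M U v a) (h := Df.not (h := h)))).congr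
    fun _ _ _ _ _ => by simp

theorem all_fin {ι : Type*} [Finite ι] {R : ι → Set ZF → Set ZF → (K → ZF) → Prop}
    (h : ∀ i, Df K (R i)) : Df K fun M U v => ∀ i, R i M U v := by
  classical
  have : ∀ s : Finset ι, Df K fun M U v => ∀ i ∈ s, R i M U v := by
    intro s
    induction s using Finset.induction_on with
    | empty => exact (const True).congr fun _ _ _ _ _ => by simp
    | insert a s _ ih => exact (Df.and (h := h a) (h' := ih)).congr fun _ _ _ _ _ => by simp
  have _i := Fintype.ofFinite ι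
  exact (this Finset.univ).congr fun _ _ _ _ _ => by simp

theorem all_lt (m : ℕ) {R : ℕ → Set ZF → Set ZF → (K → ZF) → Prop}
    (h : ∀ i, Df K (R i)) : Df K fun M U v => ∀ i < m, R i M U v :=
  (all_fin (ι := Fin m) (R := fun i => R i) fun i => h i).congr fun _ _ _ _ _ =>
    ⟨fun h i => h i i.2, fun h i hi => h ⟨i, hi⟩⟩

theorem memV (a b : K) : Df K fun _ _ v => v a ∈ v b :=
  ⟨.mem 0 1, cons (some a) fun _ => some b, fun _ _ _ _ _ => Iff.rfl⟩

theorem predV (a : K) : Df K fun _ U v => v a ∈ U :=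
  ⟨.pred 0, fun _ => some a, fun _ _ _ _ _ => Iff.rfl⟩

/-- Finite support. -/
theorem supp (h : Df K P) : ∃ s : Finset K, ∀ M U, Good M → ∀ v w : K → ZF, (∀ k, v k ∈ M) →
    (∀ k, w k ∈ M) → (∀ k ∈ s, v k = w k) → (P M U v ↔ P M U w) := by
  classical
  obtain ⟨φ, p, h⟩ := h.out
  refine ⟨(Finset.range φ.bd).biUnion fun n => (p n).toFinset, fun M U hM v w hv hw e => ?_⟩
  rw [h M U hM v hv, h M U hM w hw]
  refine sat_congr _ _ _ _ _ fun n hn => ?_
  rcases hp : p n with _ | k
  · rfl
  · exact e k (by simp only [Finset.mem_biUnion, Finset.mem_range]; exact ⟨n, hn, by simp [hp]⟩)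

/-- Normal form with a list of parameters. -/
theorem toList {R : Set ZF → Set ZF → (Option K → ZF) → Prop} (h : Df (Option K) R) :
    ∃ (φ : Fml) (l : List K), ∀ M U, Good M → ∀ v : K → ZF, (∀ k, v k ∈ M) → ∀ a ∈ M,
      (R M U (ext a v) ↔ Sat M U φ (cons a (asg (l.map v)))) := by
  classical
  obtain ⟨φ, p, h⟩ := h.out
  set l : List K := (List.range φ.bd).filterMap fun n => (p n).bind id with hl
  have key : ∀ n, ∃ m, n < φ.bd → ∀ (v : K → ZF) (a : ZF),
      cons a (asg (l.map v)) m = (p n).elim ∅ (ext a v) := by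
    intro n
    by_cases hn : n < φ.bd
    · rcases hp : p n with _ | _ | k
      · exact ⟨l.length + 1, fun _ v a => by simp [asg]⟩
      · exact ⟨0, fun _ v a => rfl⟩
      · have : k ∈ l := by
          rw [hl, List.mem_filterMap]; exact ⟨n, by simpa using hn, by simp [hp]⟩
        obtain ⟨i, hi, rfl⟩ := List.getElem_of_mem this
        exact ⟨i + 1, fun _ v a => by simp [asg, hi]⟩
    · exact ⟨0, fun h => absurd h hn⟩
  choose g hg using key
  refine ⟨φ.ren g, l, fun M U hM v hv a ha => ?_⟩
  rw [h M U hM _ (ext_mem ha hv), sat_ren]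
  exact sat_congr _ _ _ _ _ fun n hn => (hg n hn v a).symm

/-- Normal form for predicates of an assignment indexed by numbers. -/
theorem toFml {P : Set ZF → Set ZF → (ℕ → ZF) → Prop} (h : Df ℕ P) :
    ∃ φ : Fml, ∀ M U, Good M → ∀ v : ℕ → ZF, (∀ k, v k ∈ M) → (P M U v ↔ Sat M U φ v) := by
  obtain ⟨φ, p, h⟩ := h.out
  refine ⟨.ex (.and (.neg (.ex (.mem 0 1))) (φ.ren fun n => (p n).elim 0 (· + 1))),
    fun M U hM v hv => ?_⟩
  rw [h M U hM v hv]
  simp only [Sat, sat_ren, cons_zero, cons_one]
  have e : (fun n => cons ∅ v ((p n).elim 0 (· + 1))) = fun n => (p n).elim ∅ v := by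
    funext n; cases p n <;> rfl
  constructor
  · intro hs
    exact ⟨∅, hM.empty, by simp, by rw [e]; exact hs⟩
  · rintro ⟨a, ha, h1, h2⟩
    have : a = ∅ := (ZFSet.eq_empty a).2 fun y hy => h1 ⟨y, hM.trans a ha y hy, hy⟩
    subst this
    rw [e] at h2; exact h2

end Df

/-- Definable classes which are sets included in the model. -/
class DC (K : Type u) (c : Set ZF → Set ZF → (K → ZF) → ZF) : Prop where
  sub : ∀ M U, Good M → ∀ v : K → ZF, (∀ k, v k ∈ M) → ∀ a ∈ c M U v, a ∈ M
  df : Df (Option K) fun M U w => w none ∈ c M U fun k => w (some k)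

/-- Definable terms whose values lie in the model. -/
class DT (K : Type u) (c : Set ZF → Set ZF → (K → ZF) → ZF) : Prop extends DC K c where
  mem : ∀ M U, Good M → ∀ v : K → ZF, (∀ k, v k ∈ M) → c M U v ∈ M

section
variable {K : Type u} {s t : Set ZF → Set ZF → (K → ZF) → ZF}

instance Df.exC [hc : DC K s] {R : Set ZF → Set ZF → (K → ZF) → ZF → Prop}
    [h : Df (Option K) fun M U w => R M U (fun k => w (some k)) (w none)] :
    Df K fun M U v => ∃ a, a ∈ s M U v ∧ R M U v a :=
  (Df.exM (R := fun M U v a => a ∈ s M U v ∧ R M U v a) (h := Df.and (h := hc.df) (h' := h))).congr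
    fun M U hM v hv => ⟨fun ⟨a, h1, h2⟩ => ⟨a, hc.sub M U hM v hv a h1, h1, h2⟩,
      fun ⟨a, _, h⟩ => ⟨a, h⟩⟩

instance Df.allC [hc : DC K s] {R : Set ZF → Set ZF → (K → ZF) → ZF → Prop}
    [h : Df (Option K) fun M U w => R M U (fun k => w (some k)) (w none)] :
    Df K fun M U v => ∀ a, a ∈ s M U v → R M U v a :=
  (Df.not (h := Df.exC (s := s) (R := fun M U v a => ¬ R M U v a) (h := Df.not (h := h)))).congr
    fun _ _ _ _ _ => by simp

instance Df.subset [DC K s] [ht : DC K t] : Df K fun M U v => s M U v ⊆ t M U v :=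
  Df.allC (s := s) (R := fun M U v a => a ∈ t M U v) (h := ht.df)

instance Df.eqC [hs : DC K s] [ht : DC K t] : Df K fun M U v => s M U v = t M U v :=
  (inferInstance : Df K fun M U v => s M U v ⊆ t M U v ∧ t M U v ⊆ s M U v).congr
    fun _ _ _ _ _ => subset_antisymm_iff

theorem DC.comp {J : Type v} (h : DC K s) (g : K → J) :
    DC J fun M U w => s M U fun k => w (g k) where
  sub M U hM w hw := h.sub M U hM _ fun _ => hw _
  df := h.df.comp (Option.map g)

theorem DT.comp {J : Type v} (h : DT K s) (g : K → J) :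
    DT J fun M U w => s M U fun k => w (g k) where
  toDC := h.toDC.comp g
  mem M U hM w hw := h.mem M U hM _ fun _ => hw _

instance DT.var (a : K) : DT K fun _ _ v => v a where
  sub M _ hM v hv := hM.trans _ (hv a)
  df := Df.memV none (some a)
  mem _ _ _ _ hv := hv a

instance Df.memC [hs : DC K s] [ht : DC K t] : Df K fun M U v => s M U v ∈ t M U v :=
  (Df.exC (s := t) (R := fun M U v a => a = s M U v)
    (h := Df.eqC (s := fun _ _ w => w none) (t := fun M U w => s M U fun k => w (some k))
      (hs := (DT.var none).toDC) (ht := hs.comp some))).congr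
    fun _ _ _ _ _ => by simp

instance Df.memM [hs : DC K s] : Df K fun M U v => s M U v ∈ M :=
  (Df.exM (R := fun M U v a => a = s M U v)
    (h := Df.eqC (s := fun _ _ w => w none) (t := fun M U w => s M U fun k => w (some k))
      (hs := (DT.var none).toDC) (ht := hs.comp some))).congr
    fun _ _ _ _ _ => by simp

instance Df.memU [hs : DT K s] : Df K fun M U v => s M U v ∈ U :=
  (Df.exM (R := fun M U v a => a = s M U v ∧ a ∈ U)
    (h := Df.and (h := Df.eqC (s := fun _ _ w => w none)
      (t := fun M U w => s M U fun k => w (some k))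
      (hs := (DT.var none).toDC) (ht := hs.toDC.comp some)) (h' := Df.predV none))).congr
    fun M U hM v hv => by simp [hs.mem M U hM v hv]

instance DT.empty : DT K fun _ _ _ => ∅ where
  sub := by simp
  df := (Df.const False).congr fun _ _ _ _ _ => by simp
  mem _ _ hM _ _ := hM.empty

instance DC.sep [hs : DC K s] {R : Set ZF → Set ZF → (K → ZF) → ZF → Prop}
    [h : Df (Option K) fun M U w => R M U (fun k => w (some k)) (w none)] :
    DC K fun M U v => (s M U v).sep (R M U v) where
  sub M U hM v hv a ha := hs.sub M U hM v hv a (mem_sep.1 ha).1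
  df := (Df.and (h := hs.df) (h' := h)).congr fun _ _ _ _ _ => mem_sep

instance DC.union [hs : DC K s] [ht : DC K t] : DC K fun M U v => s M U v ∪ t M U v where
  sub M U hM v hv a ha := (mem_union.1 ha).elim (hs.sub M U hM v hv a) (ht.sub M U hM v hv a)
  df := (Df.or (h := hs.df) (h' := ht.df)).congr fun _ _ _ _ _ => mem_union

instance DC.inter [hs : DC K s] [ht : DC K t] : DC K fun M U v => s M U v ∩ t M U v where
  sub M U hM v hv a ha := hs.sub M U hM v hv a (mem_inter.1 ha).1
  df := (Df.and (h := hs.df) (h' := ht.df)).congr fun _ _ _ _ _ => mem_inter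

instance DC.sdiff [hs : DC K s] [ht : DC K t] : DC K fun M U v => s M U v \ t M U v where
  sub M U hM v hv a ha := hs.sub M U hM v hv a (mem_sdiff.1 ha).1
  df := (Df.and (h := hs.df) (h' := Df.not (h := ht.df))).congr fun _ _ _ _ _ => mem_sdiff

instance DC.insert [hs : DT K s] [ht : DC K t] :
    DC K fun M U v => insert (s M U v) (t M U v) where
  sub M U hM v hv a ha := (mem_insert_iff.1 ha).elim (fun e => e ▸ hs.mem M U hM v hv)
    (ht.sub M U hM v hv a)
  df := (Df.or (h := Df.eqC (s := fun _ _ w => w none)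
      (t := fun M U w => s M U fun k => w (some k))
      (hs := (DT.var none).toDC) (ht := hs.toDC.comp some)) (h' := ht.df)).congr
    fun _ _ _ _ _ => mem_insert_iff

instance DT.union [hs : DT K s] [ht : DT K t] : DT K fun M U v => s M U v ∪ t M U v where
  toDC := DC.union
  mem M U hM v hv := hM.un _ (hs.mem M U hM v hv) _ (ht.mem M U hM v hv)

instance DT.insert [hs : DT K s] [ht : DT K t] :
    DT K fun M U v => insert (s M U v) (t M U v) where
  toDC := DC.insert
  mem M U hM v hv := hM.ins _ (hs.mem M U hM v hv) _ (ht.mem M U hM v hv)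

theorem DT.congr (h : DT K s) (e : ∀ M U v, t M U v = s M U v) : DT K t := by
  have : t = s := by funext M U v; exact e M U v
  rw [this]; exact h

instance DT.sing [DT K s] : DT K fun M U v => {s M U v} :=
  (inferInstance : DT K fun M U v => Insert.insert (s M U v) ∅).congr fun _ _ _ => by simp

instance DT.pair [hs : DT K s] [ht : DT K t] : DT K fun M U v => pair (s M U v) (t M U v) :=
  (inferInstance : DT K fun M U v =>
    ({{s M U v}, {s M U v, t M U v}} : ZF)).congr fun _ _ _ => rfl

end

/-- Definable assignments. -/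
class DA (K : Type u) (τ : Set ZF → Set ZF → (K → ZF) → ℕ → ZF) : Prop where
  out : ∀ n, DT K fun M U v => τ M U v n

section
variable {K : Type u} {s t : Set ZF → Set ZF → (K → ZF) → ZF}
  {τ : Set ZF → Set ZF → (K → ZF) → ℕ → ZF}

instance DA.cons [hs : DT K s] [h : DA K τ] : DA K fun M U v => cons (s M U v) (τ M U v) :=
  ⟨fun n => by
    cases n
    · exact hs
    · exact h.out _⟩

instance DA.var (g : ℕ → K) : DA K fun _ _ v n => v (g n) := ⟨fun _ => inferInstance⟩

instance DA.const [hs : DT K s] : DA K fun M U v _ => s M U v := ⟨fun _ => hs⟩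

theorem DA.comp {J : Type v} (h : DA K τ) (g : K → J) :
    DA J fun M U w => τ M U fun k => w (g k) := ⟨fun n => (h.out n).comp g⟩

instance DA.asgMap (l : List K) : DA K fun _ _ v => asg (l.map v) := by
  induction l with
  | nil => exact ⟨fun n => (DT.empty (K := K)).congr fun _ _ _ => by simp [asg]⟩
  | cons a l ih =>
    have := DA.cons (s := fun _ _ v => v a) (h := ih)
    simpa only [List.map_cons, asg_cons] using this

theorem DA.elim (p : ℕ → Option K) : DA K fun _ _ v n => (p n).elim ∅ v :=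
  ⟨fun n => by
    cases p n
    · exact DT.empty
    · exact DT.var _⟩

instance Df.satM {K : Type u} {τ : Set ZF → Set ZF → (K → ZF) → ℕ → ZF} (φ : Fml) [h : DA K τ] :
    Df K fun M U v => Sat M U φ (τ M U v) := by
  induction φ generalizing K with
  | mem i j =>
    exact Df.memC (hs := (h.out i).toDC) (ht := (h.out j).toDC)
  | eq i j => exact Df.eqC (hs := (h.out i).toDC) (ht := (h.out j).toDC)
  | pred i => exact Df.memU (hs := h.out i)
  | neg φ ih => exact Df.not (h := ih)
  | and φ ψ ih1 ih2 => exact Df.and (h := ih1) (h' := ih2)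
  | ex φ ih =>
    exact Df.exM (R := fun M U v a => Sat M U φ (cons a (τ M U v)))
      (h := ih (h := DA.cons (hs := DT.var none) (h := h.comp some)))

instance Df.satC (φ : Fml) [hs : DC K s] [ht : DC K t] [h : DA K τ] :
    Df K fun M U v => Sat (s M U v : Set ZF) (t M U v : Set ZF) φ (τ M U v) := by
  induction φ generalizing K with
  | mem i j =>
    exact Df.memC (hs := (h.out i).toDC) (ht := (h.out j).toDC)
  | eq i j => exact Df.eqC (hs := (h.out i).toDC) (ht := (h.out j).toDC)
  | pred i => exact Df.memC (hs := (h.out i).toDC) (ht := ht)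
  | neg φ ih => exact Df.not (h := ih)
  | and φ ψ ih1 ih2 => exact Df.and (h := ih1) (h' := ih2)
  | ex φ ih =>
    exact Df.exC (s := s)
      (R := fun M U v a => Sat (s M U v : Set ZF) (t M U v : Set ZF) φ (cons a (τ M U v)))
      (h := ih (hs := hs.comp some) (ht := ht.comp some)
        (h := DA.cons (hs := DT.var none) (h := h.comp some)))

/-- Substitution of terms into a definable predicate. -/
theorem Df.subst {J : Type v} {P : Set ZF → Set ZF → (J → ZF) → Prop} (hP : Df J P)
    (σ : J → Set ZF → Set ZF → (K → ZF) → ZF) (hσ : ∀ j, DT K (σ j)) :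
    Df K fun M U v => P M U fun j => σ j M U v := by
  obtain ⟨φ, p, h⟩ := hP.out
  have hA : DA K fun M U v n => (p n).elim ∅ fun j => σ j M U v := ⟨fun n => by
    cases p n
    · exact DT.empty
    · exact hσ _⟩
  exact (Df.satM φ (h := hA)).congr fun M U hM v hv =>
    h M U hM _ fun j => (hσ j).mem M U hM v hv

/-- Relativization of a definable predicate to an inner model. -/
theorem Df.rel {J : Type v} {P : Set ZF → Set ZF → (J → ZF) → Prop} (hP : Df J P)
    [hs : DC K s] [ht : DC K t]
    (σ : J → Set ZF → Set ZF → (K → ZF) → ZF) (hσ : ∀ j, DT K (σ j))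
    {G : Set ZF → Set ZF → (K → ZF) → Prop} (hG : Df K G)
    (hg : ∀ M U v, G M U v → Good (s M U v : Set ZF) ∧ ∀ j, σ j M U v ∈ s M U v) :
    Df K fun M U v => G M U v ∧
      P (s M U v : Set ZF) (t M U v : Set ZF) fun j => σ j M U v := by
  obtain ⟨φ, p, h⟩ := hP.out
  have hA : DA K fun M U v n => (p n).elim ∅ fun j => σ j M U v := ⟨fun n => by
    cases p n
    · exact DT.empty
    · exact hσ _⟩
  exact (Df.and (h := hG) (h' := Df.satC φ (hs := hs) (ht := ht) (h := hA))).congr
    fun M U _ v _ => and_congr_right fun g => h _ _ (hg M U v g).1 _ (hg M U v g).2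

end

end Pool.Agent.MP_477625_lc.H75
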