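import Pool.Agent.MP_477625_lc.H75.IterEx

/-! Sets of hereditarily bounded cardinality. -/

namespace Pool.Agent.MP_477625_lc.H75
open ZFSet Cardinal

universe u v

set_option linter.unusedVariables false
set_option linter.unusedSectionVars false
set_option synthInstance.maxSize 100000

def HC (c : Cardinal.{0}) : Set ZF :=
  {y | ∃ T : Set ZF, y ∈ T ∧ (∀ a ∈ T, ∀ b ∈ a, b ∈ T) ∧ #T ≤ lift.{1} c}

/-- The graph of a function on a set. -/
noncomputable def graph (a : ZF) (f : ZF → ZF) : ZF := range fun x : a => pair x.1 (f x.1)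

theorem mem_graph {a : ZF} {f : ZF → ZF} {x y : ZF} : pair x y ∈ graph a f ↔ x ∈ a ∧ y = f x := by
  rw [graph, mem_range]
  constructor
  · rintro ⟨z, e⟩
    obtain ⟨rfl, rfl⟩ := pair_inj.1 e
    exact ⟨z.2, rfl⟩
  · rintro ⟨h, rfl⟩; exact ⟨⟨x, h⟩, rfl⟩

theorem mem_graph' {a : ZF} {f : ZF → ZF} {w : ZF} (h : w ∈ graph a f) :
    ∃ x ∈ a, w = pair x (f x) := by
  obtain ⟨z, e⟩ := mem_range.1 h
  exact ⟨z.1, z.2, e.symm⟩

namespace HC
variable {c : Cardinal.{0}}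

theorem trans : ∀ x ∈ HC c, ∀ y ∈ x, y ∈ HC c :=
  fun x ⟨T, h1, h2, h3⟩ y hy => ⟨T, h2 x h1 y hy, h2, h3⟩

theorem mk_le {y : ZF} (h : y ∈ HC c) : #(y : Set ZF) ≤ lift.{1} c :=
  let ⟨T, h1, h2, h3⟩ := h; (mk_le_mk_of_subset (h2 y h1)).trans h3

theorem card_le {y : ZF} (h : y ∈ HC c) : y.card ≤ c := (mk_zf_le y).1 (mk_le h)

variable (hc : ℵ₀ ≤ c)
include hc

theorem of_sub {y : ZF} (h : ∀ a ∈ y, a ∈ HC c) (hy : #(y : Set ZF) ≤ lift.{1} c) : y ∈ HC c := by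
  choose! T h1 h2 h3 using h
  have hc' := aleph0_le_lift' hc
  refine ⟨insert y (⋃ a : (y : Set ZF), T a), Set.mem_insert _ _, ?_, ?_⟩
  · rintro a (rfl | ha) b hb
    · exact Or.inr (Set.mem_iUnion.2 ⟨⟨b, hb⟩, h1 b hb⟩)
    · obtain ⟨x, hx⟩ := Set.mem_iUnion.1 ha
      exact Or.inr (Set.mem_iUnion.2 ⟨x, h2 x x.2 a hx b hb⟩)
  · refine mk_insert_le.trans (add_le_of_le hc' ?_ (one_le_aleph0.trans hc'))
    exact (mk_iUnion_le _).trans (mul_le_of_le hc' hy (ciSup_le' fun a => h3 a a.2))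

theorem good : Good (HC c) where
  trans := trans
  empty := ⟨{∅}, rfl, by simp, by simpa using one_le_aleph0.trans hc⟩
  ins a ha b hb := of_sub hc (fun x hx => (mem_insert_iff.1 hx).elim (fun e => e ▸ ha)
    (trans b hb x)) ((mk_zf_le _).2 (card_insert_le.trans
      (add_le_of_le hc (card_le hb) (one_le_aleph0.trans hc))))
  un a ha b hb := of_sub hc (fun x hx => (mem_union.1 hx).elim (trans a ha x) (trans b hb x))
    ((mk_zf_le _).2 (card_union_le.trans (add_le_of_le hc (card_le ha) (card_le hb))))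

theorem sub {x y : ZF} (hx : x ∈ HC c) (h : y ⊆ x) : y ∈ HC c :=
  of_sub hc (fun a ha => trans x hx a (h ha)) ((mk_le_mk_of_subset h).trans (mk_le hx))

theorem tr {η : ZF} (h : η ∈ HC c) : Tr η ∈ HC c :=
  of_sub hc ((good hc).tr (trans η h)) ((mk_Tr_le η).trans (lift_le.2 (max_le (card_le h) hc)))

theorem lst {η : ZF} (h : η ∈ HC c) : Lst η ∈ HC c :=
  of_sub hc (fun s hs => by
    obtain ⟨l, hl, rfl⟩ := mem_Lst.1 hs
    exact (good hc).ZL.2 fun b hb => trans η h b (hl b hb))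
    ((mk_Lst_le η).trans (lift_le.2 (max_le (card_le h) hc)))

theorem om_mem : om ∈ HC c :=
  of_sub hc (all_om.2 (good hc).nat) (mk_om_le.trans (aleph0_le_lift' hc))

theorem satSet {x : ZF} (h : x ∈ HC c) (W : ZF) : SatSet x W ∈ HC c :=
  of_sub hc (fun w hw => by
    obtain ⟨n, hn, s, hs, rfl⟩ := mem_prod.1 (mem_sep.1 hw).1
    exact (good hc).pair (trans _ (om_mem hc) n hn) (trans _ (lst hc h) s hs))
    (mk_SatSet_le (aleph0_le_lift' hc) (mk_le (lst hc h)))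

theorem graph_mem {a : ZF} (h : a ∈ HC c) {f : ZF → ZF} (hf : ∀ x ∈ a, f x ∈ HC c) :
    graph a f ∈ HC c :=
  of_sub hc (fun w hw => by
    obtain ⟨x, hx, rfl⟩ := mem_graph' hw
    exact (good hc).pair (trans a h x hx) (hf x hx))
    (by rw [graph, coe_range]; exact mk_range_le.trans (mk_le h))

theorem sec_mem {g : ZF} (h : g ∈ HC c) (b : ZF) : sec g b ∈ HC c :=
  of_sub hc (fun t ht => (good hc).snd (trans g h _ (mem_sec.1 ht)))
    ((mk_le_of_injective (f := fun t : (sec g b : Set ZF) =>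
      (⟨pair b t.1, mem_sec.1 t.2⟩ : (g : Set ZF))) fun t t' e =>
        Subtype.ext (pair_inj.1 (congrArg Subtype.val e)).2).trans (mk_le h))

theorem zf_mem {T : Set ZF} (h : ∀ a ∈ T, a ∈ HC c) (hT : #T ≤ lift.{1} c) : zf T ∈ HC c :=
  of_sub hc (fun a ha => h a ((mem_zf (small_of_le hT)).1 ha))
    (by rwa [coe_zf (small_of_le hT)])

theorem ord_mem {a : ZF} (ha : a.IsOrdinal) (h : a.card ≤ c) : a ∈ HC c :=
  of_sub hc (fun b hb => ⟨(a : Set ZF), hb, fun x hx y hy => ha.mem_trans hy hx,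
    (mk_zf_le a).2 h⟩) ((mk_zf_le a).2 h)

theorem cardSet_mem : cardSet c ∈ HC c := ord_mem hc (cardSet_ord c) (card_cardSet c).le

theorem sub_tr {R : ZF} (h : R ⊆ Tr (cardSet c)) : R ∈ HC c := sub hc (tr hc (cardSet_mem hc)) h

omit hc in
theorem surj {y : ZF} (h : y ∈ HC c) {α : Type u} (hα : lift.{u} c ≤ lift.{0} #α) (a0 : α) :
    ∃ s : α → ZF, s a0 = y ∧ (∀ a, s a ∈ HC c) ∧ ∀ a, ∀ b ∈ s a, ∃ a', s a' = b := by
  classical
  obtain ⟨T, h1, h2, h3⟩ := h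
  have : lift.{u} #T ≤ lift.{1} #α := by
    have := lift_le.{1}.2 hα
    have h4 := lift_le.{u}.2 h3
    simp only [lift_lift] at this h4
    exact h4.trans this
  obtain ⟨f⟩ := lift_mk_le'.1 this
  have : Nonempty T := ⟨⟨y, h1⟩⟩
  have hs := Function.invFun_surjective f.injective
  let s := Function.invFun f ∘ Equiv.swap a0 (f ⟨y, h1⟩)
  have hs' : Function.Surjective s := hs.comp (Equiv.surjective _)
  refine ⟨fun a => (s a).1, ?_, fun a => ⟨T, (s a).2, h2, h3⟩, fun a b hb => ?_⟩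
  · simp [s, Function.leftInverse_invFun f.injective _]
  · obtain ⟨a', e⟩ := hs' ⟨b, h2 _ (s a).2 b hb⟩
    exact ⟨a', congrArg Subtype.val e⟩

end HC

theorem nat_mem_cardSet {c : Cardinal.{0}} (hc : ℵ₀ ≤ c) (n : ℕ) : nat n ∈ cardSet c := by
  rw [mem_cardSet (nat_ord n), nat_eq, Ordinal.card_toZFSet, Ordinal.card_nat]
  exact natCast_lt_aleph0.trans_le hc

/-- `a` is the collapse of the relation `E` on `d` at the empty set. -/
def Col (M : Set ZF) (d E a : ZF) : Prop := ∃ g ∈ M, pair ∅ a ∈ g ∧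
  (∀ b ∈ d, ∃ y ∈ M, pair b y ∈ g) ∧ ∀ b ∈ d, ∀ y ∈ M, pair b y ∈ g →
    (∀ t ∈ y, ∃ b' ∈ d, pair b' b ∈ E ∧ pair b' t ∈ g) ∧
    ∀ b' ∈ d, pair b' b ∈ E → ∀ t ∈ M, pair b' t ∈ g → t ∈ y

instance Df.col {K : Type u} {a s i : Set ZF → Set ZF → (K → ZF) → ZF} [DT K a] [DT K s]
    [DT K i] : Df K fun M U v => Col M (a M U v) (s M U v) (i M U v) :=
  Df.sub3 (R := fun M _ => Col M) (by unfold Col; infer_instance) _ _ _

theorem Col.unique {M : Set ZF} (hM : Good M) {d E a a' : ZF} (h0 : ∅ ∈ d) (h : Col M d E a)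
    (h' : Col M d E a') : a = a' := by
  obtain ⟨g, hg, h1, h2, h3⟩ := h
  obtain ⟨g', hg', h1', h2', h3'⟩ := h'
  have m := fun {b y : ZF} (h : pair b y ∈ g) => hM.snd (hM.trans g hg _ h)
  have m' := fun {b y : ZF} (h : pair b y ∈ g') => hM.snd (hM.trans g' hg' _ h)
  have key : ∀ y : ZF, ∀ b ∈ d, ∀ y', pair b y ∈ g → pair b y' ∈ g' → y = y' := by
    intro y
    induction y using ZFSet.inductionOn with
    | h y ih =>
      intro b hb y' e e'
      ext t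
      constructor
      · intro ht
        obtain ⟨b', hb', e1, e2⟩ := (h3 b hb y (m e) e).1 t ht
        obtain ⟨t', ht', e3⟩ := h2' b' hb'
        rw [ih t ht b' hb' t' e2 e3]
        exact (h3' b hb y' (m' e') e').2 b' hb' e1 t' ht' e3
      · intro ht
        obtain ⟨b', hb', e1, e2⟩ := (h3' b hb y' (m' e') e').1 t ht
        obtain ⟨t', ht', e3⟩ := h2 b' hb'
        have := (h3 b hb y (m e) e).2 b' hb' e1 t' ht' e3
        rwa [← ih t' this b' hb' t e3 e2]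
  exact key a ∅ h0 a' h1 h1'

theorem exists_col {c : Cardinal.{0}} (hc : ℵ₀ ≤ c) {a : ZF} (ha : a ∈ HC c) :
    ∃ E, E ⊆ Tr (cardSet c) ∧ Col (HC c) (cardSet c) E a := by
  classical
  have h0 : ∅ ∈ cardSet c := nat_mem_cardSet hc 0
  obtain ⟨s, h1, h2, h3⟩ := HC.surj ha (α := cardSet c)
    (by rw [lift_uzero, cardinalMk_coe_sort, card_cardSet]) ⟨∅, h0⟩
  let f : ZF → ZF := fun b => if h : b ∈ cardSet c then s ⟨b, h⟩ else ∅
  have hf : ∀ b : cardSet c, f b.1 = s b := fun b => dif_pos b.2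
  have hf' : ∀ b ∈ cardSet c, f b ∈ HC c := fun b hb => hf ⟨b, hb⟩ ▸ h2 _
  have hE : ∀ b' ∈ cardSet c, ∀ b ∈ cardSet c, pair b' b ∈ (Tr (cardSet c)).sep
      (fun w => ∃ b' b, w = pair b' b ∧ f b' ∈ f b) ↔ f b' ∈ f b := by
    intro b' hb' b hb
    simp [pair_mem_Tr (mem_Tr_of_mem hb') (mem_Tr_of_mem hb)]
  refine ⟨(Tr (cardSet c)).sep fun w => ∃ b' b, w = pair b' b ∧ f b' ∈ f b, sep_subset,
    graph (cardSet c) f, HC.graph_mem hc (HC.cardSet_mem hc) hf',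
    mem_graph.2 ⟨h0, ((hf ⟨∅, h0⟩).trans h1).symm⟩,
    fun b hb => ⟨_, hf' b hb, mem_graph.2 ⟨hb, rfl⟩⟩, fun b hb y _ e => ?_⟩
  obtain rfl := (mem_graph.1 e).2
  refine ⟨fun t ht => ?_, fun b' hb' e1 t _ e2 => ?_⟩
  · obtain ⟨b', e'⟩ := h3 ⟨b, hb⟩ t (hf ⟨b, hb⟩ ▸ ht)
    rw [← hf] at e'
    exact ⟨b'.1, b'.2, (hE _ b'.2 b hb).2 (e' ▸ ht), mem_graph.2 ⟨b'.2, e'.symm⟩⟩
  · rw [(mem_graph.1 e2).2]; exact (hE b' hb' b hb).1 e1

end Pool.Agent.MP_477625_lc.H75
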