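import Pool.Agent.MP_477625_lc.H75.Sats

/-! Henkin semantics for second order formulas over sets, and its internal version. -/

namespace Pool.Agent.MP_477625_lc.H75
open ZFSet Cardinal

universe u v

set_option linter.unusedVariables false
set_option synthInstance.maxSize 100000

def Hen (D : ZF) (P : Set ZF) : SO → (ℕ → ZF) → (ℕ → ZF → Prop) → Prop
  | .eq i j, v, _ => v i = v j
  | .app r a, v, ρ => ρ r (ZL (a.map v))
  | .neg φ, v, ρ => ¬ Hen D P φ v ρ
  | .and φ ψ, v, ρ => Hen D P φ v ρ ∧ Hen D P ψ v ρ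
  | .ex1 φ, v, ρ => ∃ a ∈ D, Hen D P φ (cons a v) ρ
  | .ex2 _ φ, v, ρ => ∃ R ∈ P, R ⊆ Tr D ∧ Hen D P φ v (cons (fun t => t ∈ R) ρ)

theorem hen_congr {D : ZF} {P P' : Set ZF} (hP : ∀ R, R ⊆ Tr D → (R ∈ P ↔ R ∈ P')) (φ : SO) :
    ∀ {n Γ} (_ : φ.WF n Γ) (v : ℕ → ZF) (ρ ρ' : ℕ → ZF → Prop),
      (∀ r < Γ.length, ∀ t, ρ r t ↔ ρ' r t) → (Hen D P φ v ρ ↔ Hen D P' φ v ρ') := by
  induction φ with
  | eq i j => intro n Γ _ v ρ ρ' _; rfl
  | app r a =>
    intro n Γ h v ρ ρ' e
    exact e r (List.getElem?_eq_some_iff.1 h.1).1 _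
  | neg φ ih => intro n Γ h v ρ ρ' e; exact not_congr (ih h v ρ ρ' e)
  | and φ ψ ih1 ih2 => intro n Γ h v ρ ρ' e; exact and_congr (ih1 h.1 v ρ ρ' e) (ih2 h.2 v ρ ρ' e)
  | ex1 φ ih =>
    intro n Γ h v ρ ρ' e
    exact exists_congr fun a => and_congr_right fun _ => ih h _ ρ ρ' e
  | ex2 k φ ih =>
    intro n Γ h v ρ ρ' e
    refine exists_congr fun R => ?_
    have := ih h v (cons (fun t => t ∈ R) ρ) (cons (fun t => t ∈ R) ρ') fun r hr t => by
      cases r with
      | zero => rfl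
      | succ r => exact e r (by simpa using hr) t
    rw [this]
    exact ⟨fun h => ⟨(hP R h.2.1).1 h.1, h.2⟩, fun h => ⟨(hP R h.2.1).2 h.1, h.2⟩⟩

theorem DT.ZLasg {K : Type u} {τ : Set ZF → Set ZF → (K → ZF) → ℕ → ZF} (h : DA K τ)
    (a : List ℕ) : DT K fun M U v => ZL (a.map (τ M U v)) := by
  induction a with
  | nil => exact DT.empty
  | cons i a ih => exact DT.pair (hs := h.out i) (ht := ih)

theorem df_hen (φ : SO) : ∀ {K : Type u} (d : Set ZF → Set ZF → (K → ZF) → ZF) (_ : DT K d)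
    (τ : Set ZF → Set ZF → (K → ZF) → ℕ → ZF) (_ : DA K τ)
    (ρ : ℕ → Set ZF → Set ZF → (K → ZF) → ZF → Prop)
    (_ : ∀ r, Df (Option K) fun M U w => ρ r M U (fun k => w (some k)) (w none)),
    Df K fun M U v => Hen (d M U v) M φ (τ M U v) fun r => ρ r M U v := by
  induction φ with
  | eq i j => intro K d hd τ hτ ρ hρ; exact Df.eqC (hs := (hτ.out i).toDC) (ht := (hτ.out j).toDC)
  | app r a =>
    intro K d hd τ hτ ρ hρ
    exact (hρ r).subst (fun k => k.elim (fun M U v => ZL (a.map (τ M U v))) fun k _ _ v => v k)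
      fun k => by
        cases k
        · exact DT.ZLasg hτ a
        · exact DT.var _
  | neg φ ih => intro K d hd τ hτ ρ hρ; exact Df.not (h := ih d hd τ hτ ρ hρ)
  | and φ ψ ih1 ih2 =>
    intro K d hd τ hτ ρ hρ; exact Df.and (h := ih1 d hd τ hτ ρ hρ) (h' := ih2 d hd τ hτ ρ hρ)
  | ex1 φ ih =>
    intro K d hd τ hτ ρ hρ
    exact Df.exC (s := d)
      (R := fun M U v a => Hen (d M U v) M φ (cons a (τ M U v)) fun r => ρ r M U v)
      (h := ih _ (hd.comp some) _ (DA.cons (hs := DT.var none) (h := hτ.comp some))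
        (fun r M U w => ρ r M U fun k => w (some k)) fun r => (hρ r).comp (Option.map some))
  | ex2 k φ ih =>
    intro K d hd τ hτ ρ hρ
    have h1 := ih (K := Option K) _ (hd.comp some) _ (hτ.comp some)
      (cons (fun M U w t => t ∈ w none) fun r M U w => ρ r M U fun k => w (some k)) fun r => by
        cases r with
        | zero => exact Df.memV none (some none)
        | succ r => exact (hρ r).comp (Option.map some)
    refine Df.exM (R := fun M U v R => R ⊆ Tr (d M U v) ∧ Hen (d M U v) M φ (τ M U v)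
      (cons (fun t => t ∈ R) fun r => ρ r M U v)) (h := Df.and (h := ?_) (h' := h1.congr ?_))
    · exact Df.subset (s := fun _ _ w => w none) (ht := DC.Tr (hs := hd.comp some))
    · intro M U _ w _
      have : (cons (fun t => t ∈ w none) fun r => ρ r M U fun k => w (some k)) = fun r =>
          cons (fun M U (w : Option K → ZF) t => t ∈ w none)
            (fun r M U w => ρ r M U fun k => w (some k)) r M U w := by
        funext r; cases r <;> rfl
      rw [this]

/-- Truth of a sentence in the structure coded by `x` on the domain `D`. -/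
def HenS (D : ZF) (P : Set ZF) (φ : SO) (x : ZF) : Prop :=
  Hen D P φ (fun _ => ∅) fun r t => pair (nat r) t ∈ x

instance Df.henS {K : Type u} (φ : SO) {d x : Set ZF → Set ZF → (K → ZF) → ZF} [hd : DT K d]
    [hx : DC K x] : Df K fun M U v => HenS (d M U v) M φ (x M U v) :=
  df_hen φ d hd _ (DA.const (hs := DT.empty)) (fun r M U v t => pair (nat r) t ∈ x M U v)
    fun r => Df.memC (hs := (DT.pair (hs := DT.nat r) (ht := DT.var none)).toDC)
      (ht := hx.comp some)

theorem hen_full {A : Type} {b : A → ZF} (hb : Function.Injective b) {D : ZF}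
    (hD : ∀ y, y ∈ D ↔ ∃ a, b a = y) {P : Set ZF} (hP : ∀ R, R ⊆ Tr D → R ∈ P) (φ : SO) :
    ∀ {n Γ} (_ : φ.WF n Γ) (v : ℕ → A) (ρ : ℕ → Set (List A)) (v' : ℕ → ZF)
      (ρ' : ℕ → ZF → Prop), (∀ i < n, v' i = b (v i)) →
      (∀ r l, Γ[r]? = some l.length → (l ∈ ρ r ↔ ρ' r (ZL (l.map b)))) →
      (φ.Sat v ρ ↔ Hen D P φ v' ρ') := by
  induction φ with
  | eq i j =>
    intro n Γ h v ρ v' ρ' e _
    simp only [SO.Sat, Hen, e i h.1, e j h.2, hb.eq_iff]
  | app r a =>
    intro n Γ h v ρ v' ρ' e e'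
    simp only [SO.Sat, Hen]
    rw [e' r _ (by simpa using h.1), List.map_map,
      List.map_congr_left (f := v') (g := b ∘ v) fun i hi => e i (h.2 i hi)]
  | neg φ ih => intro n Γ h v ρ v' ρ' e e'; exact not_congr (ih h v ρ v' ρ' e e')
  | and φ ψ ih1 ih2 =>
    intro n Γ h v ρ v' ρ' e e'
    exact and_congr (ih1 h.1 v ρ v' ρ' e e') (ih2 h.2 v ρ v' ρ' e e')
  | ex1 φ ih =>
    intro n Γ h v ρ v' ρ' e e'
    have := fun a => ih h (cons a v) ρ (cons (b a) v') ρ' (fun i hi => by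
      cases i with
      | zero => rfl
      | succ i => exact e i (by omega)) e'
    simp only [SO.Sat, Hen, this]
    exact ⟨fun ⟨a, h⟩ => ⟨_, (hD _).2 ⟨a, rfl⟩, h⟩, fun ⟨y, hy, h⟩ => by
      obtain ⟨a, rfl⟩ := (hD y).1 hy; exact ⟨a, h⟩⟩
  | ex2 k φ ih =>
    intro n Γ h v ρ v' ρ' e e'
    have key : ∀ (R : Set (List A)) (R' : ZF),
        (∀ l : List A, l.length = k → (l ∈ R ↔ ZL (l.map b) ∈ R')) →
        (φ.Sat v (cons R ρ) ↔ Hen D P φ v' (cons (fun t => t ∈ R') ρ')) :=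
      fun R R' hR => ih h v _ v' _ e fun r l hl => by
        cases r with
        | zero => exact hR l (by simpa [eq_comm] using hl)
        | succ r => exact e' r l (by simpa using hl)
    constructor
    · rintro ⟨R, h1, h2⟩
      refine ⟨(Tr D).sep fun t => ∃ l ∈ R, t = ZL (l.map b), hP _ sep_subset, sep_subset,
        (key R _ fun l hl => ?_).1 h2⟩
      rw [mem_sep]
      refine ⟨fun h => ⟨ZL_mem_Tr fun y hy => ?_, l, h, rfl⟩, fun ⟨_, l', h, e⟩ => ?_⟩
      · obtain ⟨a, -, rfl⟩ := List.mem_map.1 hy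
        exact mem_Tr_of_mem ((hD _).2 ⟨a, rfl⟩)
      · rwa [List.map_injective_iff.2 hb (ZL_inj e)]
    · rintro ⟨R', -, -, h2⟩
      exact ⟨{l | l.length = k ∧ ZL (l.map b) ∈ R'}, fun l hl => hl.1,
        (key _ R' fun l hl => by simp [hl]).2 h2⟩

/-! The internal version -/

def RCons (i c n : ℕ) : Prop := n = Nat.pair i c + 1

instance : ND3 RCons :=
  ND3.of (fun i c n => ∃ m ∈ om, N3 RPair i c m ∧ n = insert m m) fun a b c => by
    simp [ex_om, RPair, RCons, nat_succ_eq]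

inductive ML (s : ZF) : ZF → ZF → Prop
  | nil {c u} : c = ∅ → u = ∅ → ML s c u
  | cons {c u} (i c' a u') : N3 RCons i c' c → u = pair a u' → Look a s i → ML s c' u' → ML s c u

theorem mL_ZL {l : List ZF} {a : List ℕ} : ∀ {u}, ML (ZL l) (nat (codeL a)) u ↔
    u = ZL (a.map (asg l)) := by
  induction a with
  | nil =>
    intro u
    refine ⟨fun h => ?_, fun h => .nil rfl h⟩
    cases h with
    | nil _ h => exact h
    | cons i c' a u' h =>
      obtain ⟨_, _, _, -, -, e, h⟩ := h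
      rw [nat_inj] at e
      simp [RCons, ← e, codeL] at h
  | cons i a ih =>
    intro u
    constructor
    · intro h
      cases h with
      | nil h => simp [nat_eq_empty, codeL] at h
      | cons i' c' a' u' h h1 h2 h3 =>
        obtain ⟨i'', c'', _, rfl, rfl, e, h⟩ := h
        rw [nat_inj] at e
        simp only [RCons, ← e, codeL, Nat.add_right_cancel_iff, Nat.pair_eq_pair] at h
        obtain ⟨rfl, rfl⟩ := h
        rw [h1, look_ZL.1 h2, ih.1 h3]; rfl
    · rintro rfl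
      exact .cons (nat i) (nat (codeL a)) _ _ (n3_nat.2 rfl) rfl (look_ZL.2 rfl) (ih.2 rfl)

def MLS (M : Set ZF) (s t w : ZF) : Prop := w = pair ∅ ∅ ∨
  ∃ c ∈ M, ∃ i ∈ M, ∃ c' ∈ M, ∃ a ∈ M, ∃ u' ∈ M, w = pair c (pair a u') ∧ N3 RCons i c' c ∧
    Look a s i ∧ pair c' u' ∈ t

instance Df.mL {K : Type u} {a s i : Set ZF → Set ZF → (K → ZF) → ZF} [DT K a] [DT K s]
    [DT K i] : Df K fun M U v => ML (a M U v) (s M U v) (i M U v) := by
  refine Df.sub3 (R := fun _ _ a s i => ML a s i) ?_ _ _ _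
  refine Df.congr (P := fun M U v => Wit M (MLS M (v 0)) (pair (v 1) (v 2)))
    (by unfold Wit MLS; infer_instance) fun M U hM v hv => ⟨fun h => ?_, ?_⟩
  · have h1 := hv 1
    have h2 := hv 2
    generalize v 1 = s at h h1
    generalize v 2 = i at h h2
    induction h with
    | nil e e' => exact Wit.intro0 hM (hM.pair h1 h2) fun _ => Or.inl (by rw [e, e'])
    | cons i c' a u' e e' hf _ ih =>
      subst e'
      have ⟨m1, m2⟩ : i ∈ M ∧ c' ∈ M := by
        obtain ⟨_, _, _, rfl, rfl, -⟩ := e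
        exact ⟨hM.nat _, hM.nat _⟩
      refine Wit.intro1 hM ?_ (hM.pair h1 h2) (ih m2 (hM.snd h2)) fun t ht =>
        Or.inr ⟨_, h1, i, m1, c', m2, a, hM.fst h2, u', hM.snd h2, rfl, e, hf, ht⟩
      rintro t t' w h (h' | ⟨c, hc, i, hi, c', hc', a, ha, u', hu', e, h1, h2, h'⟩)
      · exact Or.inl h'
      · exact Or.inr ⟨c, hc, i, hi, c', hc', a, ha, u', hu', e, h1, h2, h h'⟩
  · rintro ⟨t, -, h1, h2⟩
    generalize v 1 = s at h1
    generalize v 2 = i at h1
    induction i using rank_ind generalizing s with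
    | h u ih =>
      rcases h2 _ h1 with e | ⟨c, -, i, -, c', -, a, -, u', -, e, h3, h4, h⟩
      · exact .nil (pair_inj.1 e).1 (pair_inj.1 e).2
      · obtain ⟨rfl, rfl⟩ := pair_inj.1 e
        exact .cons _ _ _ _ h3 rfl h4 (ih u' (rank_lt_pair_right _ _) _ h)

theorem codeL_inj : ∀ {a b : List ℕ}, codeL a = codeL b → a = b
  | [], [], _ => rfl
  | [], _ :: _, h => by simp [codeL] at h
  | _ :: _, [], h => by simp [codeL] at h
  | _ :: _, _ :: _, h => by
    simp only [codeL, Nat.add_right_cancel_iff, Nat.pair_eq_pair] at h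
    rw [h.1, codeL_inj h.2]

theorem codeL_surj (n : ℕ) : ∃ a, codeL a = n := by
  induction n using Nat.strong_induction_on with
  | _ n ih =>
    cases n with
    | zero => exact ⟨[], rfl⟩
    | succ n =>
      obtain ⟨a, ha⟩ := ih n.unpair.2 (Nat.lt_succ_of_le (Nat.unpair_right_le n))
      exact ⟨n.unpair.1 :: a, by rw [codeL, ha, Nat.pair_unpair]⟩

theorem SO.code_inj : ∀ φ ψ : SO, φ.code = ψ.code → φ = ψ := by
  intro φ
  induction φ with
  | eq i j =>
    intro ψ h; cases ψ <;> simp only [code] at h <;> try omega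
    simpa using h
  | app r a =>
    intro ψ h; cases ψ <;> simp only [code] at h <;> try omega
    rename_i r' a'
    have := Nat.pair_eq_pair.1 (by omega : Nat.pair r (codeL a) = Nat.pair r' (codeL a'))
    rw [this.1, codeL_inj this.2]
  | neg φ ih =>
    intro ψ h; cases ψ <;> simp only [code] at h <;> try omega
    rename_i ψ
    rw [ih ψ (by omega)]
  | and φ φ' ih ih' =>
    intro ψ h; cases ψ <;> simp only [code] at h <;> try omega
    rename_i ψ ψ'
    have := Nat.pair_eq_pair.1 (by omega : Nat.pair φ.code φ'.code = Nat.pair ψ.code ψ'.code)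
    rw [ih _ this.1, ih' _ this.2]
  | ex1 φ ih =>
    intro ψ h; cases ψ <;> simp only [code] at h <;> try omega
    rename_i ψ
    rw [ih ψ (by omega)]
  | ex2 k φ ih =>
    intro ψ h; cases ψ <;> simp only [code] at h <;> try omega
    rename_i k' ψ
    have := Nat.pair_eq_pair.1 (by omega : Nat.pair k φ.code = Nat.pair k' ψ.code)
    rw [this.1, ih _ this.2]

theorem SO.code_surj (n : ℕ) : ∃ φ : SO, φ.code = n := by
  induction n using Nat.strong_induction_on with
  | _ n ih =>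
    have h1 := Nat.unpair_left_le (n / 6)
    have h2 := Nat.unpair_right_le (n / 6)
    have hp := Nat.pair_unpair (n / 6)
    have : n % 6 = 0 ∨ n % 6 = 1 ∨ n % 6 = 2 ∨ n % 6 = 3 ∨ n % 6 = 4 ∨ n % 6 = 5 := by omega
    rcases this with h | h | h | h | h | h
    · exact ⟨.eq _ _, by rw [code, hp]; omega⟩
    · obtain ⟨a, ha⟩ := codeL_surj (n / 6).unpair.2
      exact ⟨.app (n / 6).unpair.1 a, by rw [code, ha, hp]; omega⟩
    · obtain ⟨φ, hφ⟩ := ih (n / 6) (by omega)
      exact ⟨.neg φ, by rw [code, hφ]; omega⟩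
    · obtain ⟨φ, hφ⟩ := ih (n / 6).unpair.1 (by omega)
      obtain ⟨ψ, hψ⟩ := ih (n / 6).unpair.2 (by omega)
      exact ⟨.and φ ψ, by rw [code, hφ, hψ, hp]; omega⟩
    · obtain ⟨φ, hφ⟩ := ih (n / 6) (by omega)
      exact ⟨.ex1 φ, by rw [code, hφ]; omega⟩
    · obtain ⟨φ, hφ⟩ := ih (n / 6).unpair.2 (by omega)
      exact ⟨.ex2 (n / 6).unpair.1 φ, by rw [code, hφ, hp]; omega⟩

theorem all_code' {p : ZF → Prop} : (∀ x ∈ om, p x) ↔ ∀ φ : SO, p (nat φ.code) :=
  all_om.trans ⟨fun h _ => h _, fun h n => by obtain ⟨φ, rfl⟩ := SO.code_surj n; exact h φ⟩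

noncomputable def HSet (D P : ZF) : ZF := (prod om (prod (Lst D) (Lst P))).sep fun w =>
  ∃ (φ : SO) (l e : List ZF), w = pair (nat φ.code) (pair (ZL l) (ZL e)) ∧
    Hen D (P : Set ZF) φ (asg l) fun r t => t ∈ asg e r

theorem mem_HSet {D P : ZF} {φ : SO} {l e : List ZF} (hl : ∀ b ∈ l, b ∈ D) (he : ∀ b ∈ e, b ∈ P) :
    pair (nat φ.code) (pair (ZL l) (ZL e)) ∈ HSet D P ↔
      Hen D (P : Set ZF) φ (asg l) fun r t => t ∈ asg e r := by
  rw [HSet, mem_sep, pair_mem_prod, pair_mem_prod, ZL_mem_Lst, ZL_mem_Lst]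
  constructor
  · rintro ⟨-, ψ, l', e', e, h'⟩
    simp only [pair_inj, nat_inj] at e
    rwa [← SO.code_inj _ _ e.1, ← ZL_inj e.2.1, ← ZL_inj e.2.2] at h'
  · exact fun h => ⟨⟨nat_mem_om _, hl, he⟩, φ, l, e, rfl, h⟩

def HStep (S D P n s e : ZF) : Prop := ∃ c ∈ om, ∃ i ∈ om, ∃ j ∈ om, N3 RPair i j c ∧
  ((N3 RCd n (nat 0) c ∧ ∃ a ∈ insert ∅ D, Look a s i ∧ Look a s j) ∨
   (N3 RCd n (nat 1) c ∧ ∃ R ∈ insert ∅ P, Look R e i ∧ ∃ u ∈ R, ML s j u) ∨
   (N3 RCd n (nat 2) c ∧ pair c (pair s e) ∉ S) ∨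
   (N3 RCd n (nat 3) c ∧ pair i (pair s e) ∈ S ∧ pair j (pair s e) ∈ S) ∨
   (N3 RCd n (nat 4) c ∧ ∃ a ∈ D, pair c (pair (pair a s) e) ∈ S) ∨
   (N3 RCd n (nat 5) c ∧ ∃ R ∈ P, R ⊆ Tr D ∧ pair j (pair s (pair R e)) ∈ S))

def HClause (S D P : ZF) (l e : List ZF) : SO → Prop
  | .eq i j => asg l i = asg l j
  | .app r a => ZL (a.map (asg l)) ∈ asg e r
  | .neg φ => pair (nat φ.code) (pair (ZL l) (ZL e)) ∉ S
  | .and φ ψ => pair (nat φ.code) (pair (ZL l) (ZL e)) ∈ S ∧
      pair (nat ψ.code) (pair (ZL l) (ZL e)) ∈ S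
  | .ex1 φ => ∃ a ∈ D, pair (nat φ.code) (pair (ZL (a :: l)) (ZL e)) ∈ S
  | .ex2 _ φ => ∃ R ∈ P, R ⊆ Tr D ∧ pair (nat φ.code) (pair (ZL l) (ZL (R :: e))) ∈ S

theorem hstep_iff {S D P : ZF} {l e : List ZF} (hl : ∀ b ∈ l, b ∈ D) (he : ∀ b ∈ e, b ∈ P)
    (φ : SO) : HStep S D P (nat φ.code) (ZL l) (ZL e) ↔ HClause S D P l e φ := by
  have hm := asg_mem_insert hl
  have hm' := asg_mem_insert he
  simp only [HStep, ex_om, n3_nat, RPair, RCd, look_ZL]
  cases φ with
  | eq i j =>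
    simp only [six_cases (show (SO.eq i j).code = 6 * Nat.pair i j + 0 from rfl), Nat.ofNat_pos,
      Nat.one_lt_ofNat, Nat.reduceLT]
    simp [HClause, hm]
  | app r a =>
    simp only [six_cases (show (SO.app r a).code = 6 * Nat.pair r (codeL a) + 1 from rfl),
      Nat.ofNat_pos, Nat.one_lt_ofNat, Nat.reduceLT]
    simp [HClause, hm', mL_ZL]
  | neg φ =>
    simp only [six_cases (show (SO.neg φ).code = 6 * φ.code + 2 from rfl), Nat.ofNat_pos,
      Nat.one_lt_ofNat, Nat.reduceLT]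
    simp only [HClause]
    constructor
    · rintro ⟨c, a, b, -, h⟩
      simp at h
      obtain ⟨rfl, h⟩ := h
      exact h
    · exact fun h => ⟨_, _, _, Nat.pair_unpair φ.code, by simp [h]⟩
  | and φ ψ =>
    simp only [six_cases (show (SO.and φ ψ).code = 6 * Nat.pair φ.code ψ.code + 3 from rfl),
      Nat.ofNat_pos, Nat.one_lt_ofNat, Nat.reduceLT]
    simp [HClause]
  | ex1 φ =>
    simp only [six_cases (show (SO.ex1 φ).code = 6 * φ.code + 4 from rfl), Nat.ofNat_pos,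
      Nat.one_lt_ofNat, Nat.reduceLT]
    simp only [HClause]
    constructor
    · rintro ⟨c, a, b, -, h⟩
      simp at h
      obtain ⟨rfl, h⟩ := h
      exact h
    · exact fun h => ⟨_, _, _, Nat.pair_unpair φ.code, by simpa [ZL] using h⟩
  | ex2 k φ =>
    simp only [six_cases (show (SO.ex2 k φ).code = 6 * Nat.pair k φ.code + 5 from rfl),
      Nat.ofNat_pos, Nat.one_lt_ofNat, Nat.reduceLT]
    simp [HClause, ZL]

theorem asg_cons_rel (R : ZF) (e : List ZF) : (fun r t => t ∈ asg (R :: e) r) =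
    cons (fun t => t ∈ R) fun r t => t ∈ asg e r := by
  funext r; rw [asg_cons]; cases r <;> rfl

theorem eq_HSet_iff {S D P : ZF} : S = HSet D P ↔
    (∀ w ∈ S, ∃ n ∈ om, ∃ s ∈ Lst D, ∃ e ∈ Lst P, w = pair n (pair s e)) ∧
      ∀ n ∈ om, ∀ s ∈ Lst D, ∀ e ∈ Lst P, (pair n (pair s e) ∈ S ↔ HStep S D P n s e) := by
  have h0 : ∀ w ∈ HSet D P, ∃ n ∈ om, ∃ s ∈ Lst D, ∃ e ∈ Lst P, w = pair n (pair s e) := by
    intro w hw
    obtain ⟨n, hn, _, hs, rfl⟩ := mem_prod.1 (mem_sep.1 hw).1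
    obtain ⟨s, hs', e, he, rfl⟩ := mem_prod.1 hs
    exact ⟨n, hn, s, hs', e, he, rfl⟩
  simp only [all_code', all_Lst]
  constructor
  · rintro rfl
    refine ⟨h0, fun φ l hl e he => ?_⟩
    rw [hstep_iff hl he]
    cases φ <;> simp only [HClause, mem_HSet hl he, Hen]
    · refine exists_congr fun a => and_congr_right fun ha => ?_
      rw [mem_HSet (by simpa using ⟨ha, hl⟩) he, asg_cons]
    · refine exists_congr fun a => and_congr_right fun ha => and_congr_right fun _ => ?_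
      rw [mem_HSet hl (by simpa using ⟨ha, he⟩), asg_cons_rel]
  · rintro ⟨h1, h2⟩
    have key : ∀ (φ : SO) (l e : List ZF), (∀ b ∈ l, b ∈ D) → (∀ b ∈ e, b ∈ P) →
        (pair (nat φ.code) (pair (ZL l) (ZL e)) ∈ S ↔
          Hen D (P : Set ZF) φ (asg l) fun r t => t ∈ asg e r) := by
      intro φ
      induction φ with
      | eq i j => intro l e hl he; rw [h2 _ l hl e he, hstep_iff hl he]; rfl
      | app r a => intro l e hl he; rw [h2 _ l hl e he, hstep_iff hl he]; rfl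
      | neg φ ih => intro l e hl he; rw [h2 _ l hl e he, hstep_iff hl he, HClause, ih l e hl he]; rfl
      | and φ ψ ih1 ih2 =>
        intro l e hl he
        rw [h2 _ l hl e he, hstep_iff hl he, HClause, ih1 l e hl he, ih2 l e hl he]; rfl
      | ex1 φ ih =>
        intro l e hl he; rw [h2 _ l hl e he, hstep_iff hl he, HClause]
        refine exists_congr fun a => and_congr_right fun ha => ?_
        rw [ih _ _ (by simpa using ⟨ha, hl⟩) he, asg_cons]
      | ex2 k φ ih =>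
        intro l e hl he; rw [h2 _ l hl e he, hstep_iff hl he, HClause]
        refine exists_congr fun a => and_congr_right fun ha => and_congr_right fun _ => ?_
        rw [ih _ _ hl (by simpa using ⟨ha, he⟩), asg_cons_rel]
    ext w
    have : ∀ n ∈ om, ∀ s ∈ Lst D, ∀ e ∈ Lst P,
        (pair n (pair s e) ∈ S ↔ pair n (pair s e) ∈ HSet D P) := by
      simp only [all_code', all_Lst]
      intro φ l hl e he
      rw [key φ l e hl he, mem_HSet hl he]
    constructor
    · intro hw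
      obtain ⟨n, hn, s, hs, e, he, rfl⟩ := h1 w hw
      exact (this n hn s hs e he).1 hw
    · intro hw
      obtain ⟨n, hn, s, hs, e, he, rfl⟩ := h0 w hw
      exact (this n hn s hs e he).2 hw

def IsHSet (S D P : ZF) : Prop := S = HSet D P

instance Df.isHSet {K : Type u} {a s i : Set ZF → Set ZF → (K → ZF) → ZF} [DT K a] [DT K s]
    [DT K i] : Df K fun M U v => IsHSet (a M U v) (s M U v) (i M U v) :=
  Df.sub3 (R := fun _ _ => IsHSet) (by
    simp only [IsHSet, eq_HSet_iff, HStep]; infer_instance) _ _ _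

end Pool.Agent.MP_477625_lc.H75
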