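import Pool.Agent.MP_477625_lc.H75.Ult

/-! Existence and properties of the iterate of length `κ`. -/

namespace Pool.Agent.MP_477625_lc.H75
open ZFSet Cardinal Filter

universe u v

set_option linter.unusedVariables false
set_option linter.unusedSectionVars false
set_option synthInstance.maxSize 100000

theorem cardSet_ord (c : Cardinal.{0}) : (cardSet c).IsOrdinal := isOrdinal_toZFSet _

theorem card_cardSet (c : Cardinal.{0}) : (cardSet c).card = c := by simp [cardSet]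

theorem mem_cardSet {c : Cardinal.{0}} {a : ZF} (ha : a.IsOrdinal) :
    a ∈ cardSet c ↔ a.card < c := by
  obtain ⟨o, rfl⟩ := ord_eq ha
  simp [cardSet, Cardinal.lt_ord]

namespace IsNormalMeasure
variable {κ : Cardinal.{0}} {U : ZF} (h : IsNormalMeasure κ U)
include h

theorem top : cardSet κ ∈ U := by
  have : cardSet κ \ ∅ = cardSet κ := by ext; simp
  exact this ▸ (h.ultra ∅ (empty_subset _)).resolve_left h.empty_notMem

theorem comp' {ι : Type 1} (X : ι → ZF) (hι : #ι < lift.{1} κ) (hX : ∀ i, X i ∈ U) :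
    (cardSet κ).sep (fun a => ∀ i, a ∈ X i) ∈ U := by
  have := small_of_le hι.le
  have h1 := h.complete (Shrink.{0} ι) (fun i => X ((equivShrink ι).symm i)) (by
    rw [← lift_lt.{0, 1}, lift_mk_shrink'']; exact hι) fun i => hX _
  rwa [sep_congr (q := fun a => ∀ i, a ∈ X i) fun a _ =>
    (equivShrink ι).symm.surjective.forall (p := fun i => a ∈ X i).symm] at h1

theorem inter {X Y : ZF} (hX : X ∈ U) (hY : Y ∈ U) : X ∩ Y ∈ U := by
  have := h.complete Bool (fun b => cond b X Y)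
    ((lt_aleph0_of_finite Bool).trans h.uncountable) (by rintro (_ | _) <;> assumption)
  refine h.upward _ this _ (fun a ha => ?_) fun a ha => h.subset X hX (mem_inter.1 ha).1
  exact mem_inter.2 ⟨(mem_sep.1 ha).2 true, (mem_sep.1 ha).2 false⟩

theorem ne {X : ZF} (hX : X ∈ U) : ∃ a, a ∈ X :=
  X.eq_empty_or_nonempty.resolve_left fun e => h.empty_notMem (e ▸ hX)

theorem not_small {X : ZF} (hX : X ∈ U) : ¬ X.card < κ := by
  intro hc
  have h1 := h.comp' (ι := X) (fun a => cardSet κ \ {a.1}) (by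
    rwa [cardinalMk_coe_sort, lift_lt]) fun a =>
    (h.ultra {a.1} fun b hb => h.subset X hX (mem_singleton.1 hb ▸ a.2)).resolve_left
      (h.nonprincipal _)
  obtain ⟨a, ha⟩ := h.ne (h.inter hX h1)
  simp only [mem_inter, mem_sep, ZFSet.mem_sdiff, mem_singleton] at ha
  exact (ha.2.2 ⟨a, ha.1⟩).2 rfl

theorem tail {a : ZF} (ha : a ∈ cardSet κ) : (cardSet κ).sep (fun ζ => a ∈ ζ) ∈ U := by
  have ho := (cardSet_ord κ).mem ha
  refine (h.ultra _ sep_subset).resolve_right fun hc => h.not_small hc ?_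
  refine lt_of_le_of_lt (card_mono (y := insert a a) fun b hb => ?_) (card_insert_le.trans_lt ?_)
  · simp only [ZFSet.mem_sdiff, mem_sep, not_and] at hb
    rw [mem_insert_iff, ← (((cardSet_ord κ).mem hb.1).subset_iff_eq_or_mem ho),
      ← ho.notMem_iff_subset ((cardSet_ord κ).mem hb.1)]
    exact hb.2 hb.1
  · exact add_lt_of_lt h.uncountable.le ((mem_cardSet ho).1 ha)
      (one_lt_aleph0.trans h.uncountable)

end IsNormalMeasure

theorem exists_above {κ : Cardinal.{0}} (hκ : ℵ₀ ≤ κ) (s : Finset (Set.Iio κ.ord)) :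
    ∃ i, ∀ i' ∈ s, i' < i := by
  have hl := isSuccLimit_ord hκ
  induction s using Finset.induction_on_max with
  | empty => exact ⟨⟨0, hl.bot_lt⟩, by simp⟩
  | insert a s h _ =>
    refine ⟨⟨Order.succ a.1, hl.succ_lt a.2⟩, fun i hi => ?_⟩
    have : a < ⟨Order.succ a.1, hl.succ_lt a.2⟩ := Order.lt_succ a.1
    rcases Finset.mem_insert.1 hi with rfl | hi
    · exact this
    · exact (h i hi).trans this

theorem mk_fml_list_lt {α : Type 1} {κ : Cardinal.{0}} (hκ : ℵ₀ < κ) (h : #α < lift.{1} κ) :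
    #(Fml × List α) < lift.{1} κ :=
  (mk_fml_list_le (c := max ℵ₀ #α) (le_max_left _ _) (le_max_right _ _)).trans_lt
    (max_lt (by simpa using hκ) h)

theorem EM.iter {κ : Cardinal.{0}} {U N O W μ : ZF} (hU : IsNormalMeasure κ U) (h : EM N O W μ)
    (hN : N.card < κ) : ∃ M O' j c, Iter κ U N O W μ M O' j c := by
  classical
  have hκ := hU.uncountable
  have hκ' : ℵ₀ ≤ lift.{1} κ := aleph0_le_lift' hκ.le
  have hl := isSuccLimit_ord hκ.le
  have hN' : #N < lift.{1} κ := by rwa [cardinalMk_coe_sort, lift_lt]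
  set I := Set.Iio κ.ord with hI
  have hne : Nonempty I := ⟨⟨0, hl.bot_lt⟩⟩
  have p := h.pm
  obtain ⟨S⟩ := p.sys I
  have hn : ∀ f : FF N O μ I, Nm N O Set.univ f.1 := fun f =>
    f.2.nm.choose_spec.mono (Set.subset_univ _)
  have hsm : Small.{0} (FF N O μ I) := by
    refine small_of_le (c := κ) ((mk_le_of_injective
      (f := fun f : FF N O μ I => (⟨f.1, hn f⟩ : {f : (I → μ) → ZF | Nm N O Set.univ f}))
      fun f g e => Subtype.ext (congrArg (·.1) e)).trans ((mk_nm_le p _).trans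
      (mk_fml_list_le hκ' ?_)))
    rw [mk_sum, lift_id, lift_id, mk_univ, hI, Cardinal.mk_Iio_ordinal, card_ord]
    exact add_le_of_le hκ' hN'.le le_rfl
  have hwf := S.wf h
  have el := Sys.elem p hwf
  have ax : Ax _ _ (S.j p W) (S.j p μ) := (el.t2 Ax p.hW p.hμ).1 p.ax
  set c : I → ZF := fun i => S.val (p.prj i) with hc
  have c1 : ∀ i, c i ∈ S.j p μ := fun i => by
    rw [Sys.j_eq p p.hμ, Sys.val_mem p hwf]
    exact Eventually.of_forall fun x => (x i).2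
  have co : ∀ i, (c i).IsOrdinal := fun i => ax.1.ord.mem (c1 i)
  have ev : ∀ i i', i < i' → ∀ᶠ x in (S.V : Filter (I → μ)), (x i).1 ∈ (x i').1 := fun i i' e => by
    filter_upwards [Sys.tail p hwf (p.prj i) i' fun x x' e' => congrArg Subtype.val (e' i e)]
      with x hx
    exact hx (x i).2
  have c2 : ∀ i i', i < i' → c i ∈ c i' := fun i i' e => (Sys.val_mem p hwf).2 (ev i i' e)
  have c3 : ∀ (f : FF N O μ I) (s : Finset I) (i : I), Nm N O (s : Set I) f.1 →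
      (∀ i' ∈ s, i' < i) → S.val f ∈ S.j p μ → S.val f ∈ c i := by
    intro f s i hs hi hf
    rw [Sys.j_eq p p.hμ, Sys.val_mem p hwf] at hf
    rw [Sys.val_mem p hwf]
    filter_upwards [hf, Sys.tail p hwf f i fun x x' e => hs.dep p fun i' hi' => e i' (hi i' hi')]
      with x h1 h2
    exact h2 h1
  have c4 : ∀ i, ∀ y ∈ c i, ∃ (g : FF N O μ I) (s : Finset I), (∀ i' ∈ s, i' < i) ∧
      Nm N O (s : Set I) g.1 ∧ S.val g = y := by
    intro i y hy
    obtain ⟨f, h1, rfl⟩ := (Sys.mem_val hwf).1 hy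
    obtain ⟨s, hs⟩ := f.2.nm
    obtain ⟨g, s', h2, h3, h4⟩ := S.nr' p (T := Set.Iio i) (fun a ha b hb => hb.trans ha) s f.1 hs
      fun i' hi' => by
        rcases (not_lt.1 hi' : i ≤ i').eq_or_lt with rfl | e
        · exact h1
        · filter_upwards [h1, ev i i' e] with x a b
          exact (p.ax.1.ord.mem (x i').2).mem_trans a b
    refine ⟨⟨g, h3.de⟩, s', fun i' hi' => h2 hi', h3, (Sys.val_eq p hwf).2 ?_⟩
    filter_upwards [h4] with x e
    exact e.symm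
  have c5 : ∀ i, (c i).card < κ := by
    intro i
    rw [← lift_lt.{0, 1}, ← cardinalMk_coe_sort]
    choose g s h1 h2 h3 using c4 i
    refine lt_of_le_of_lt (mk_le_of_injective (f := fun y : c i => (⟨(g y.1 y.2).1,
      (h2 y.1 y.2).mono fun i' hi' => h1 y.1 y.2 i' hi'⟩ :
        {f : (I → μ) → ZF | Nm N O (Set.Iio i) f})) fun y y' e => Subtype.ext ?_)
      ((mk_nm_le p _).trans_lt (mk_fml_list_lt hκ ?_))
    · rw [← h3 y.1 y.2, ← h3 y'.1 y'.2, Subtype.ext (congrArg (·.1) e : (g y.1 y.2).1 = _)]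
    · rw [mk_sum, lift_id, lift_id]
      refine add_lt_of_lt hκ' hN' (lt_of_le_of_lt (mk_le_of_injective
        (f := fun a : Set.Iio i => (⟨a.1.1, a.2⟩ : Set.Iio i.1)) fun a b e =>
          Subtype.ext (Subtype.ext (congrArg (·.1) e))) ?_)
      rw [Cardinal.mk_Iio_ordinal, lift_lt]
      exact Cardinal.lt_ord.1 i.2
  have c6 : ∀ i : I, i.1.toZFSet ⊆ c i := by
    intro i
    induction i using WellFoundedLT.induction with
    | ind i ih =>
      intro y hy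
      obtain ⟨a, ha, rfl⟩ := Ordinal.mem_toZFSet_iff.1 hy
      exact (isOrdinal_toZFSet a).mem_of_subset_of_mem (co i) (ih ⟨a, ha.trans i.2⟩ ha) (c2 _ _ ha)
  have c7 : S.j p μ = cardSet κ := by
    ext y
    constructor
    · intro hy
      obtain ⟨f, rfl⟩ := el.good'.trans _ (el.map μ p.hμ) y hy
      obtain ⟨s, hs⟩ := f.2.nm
      obtain ⟨i, hi⟩ := exists_above hκ.le s
      exact (cardSet_ord κ).mem_trans (c3 f s i hs hi hy) ((mem_cardSet (co i)).2 (c5 i))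
    · intro hy
      obtain ⟨a, ha, rfl⟩ := Ordinal.mem_toZFSet_iff.1 hy
      exact (isOrdinal_toZFSet a).mem_of_subset_of_mem ax.1.ord (c6 ⟨a, ha⟩) (c1 _)
  have c8 : (cardSet κ).sep (fun ζ => ∃ i : I, ζ = i.1.toZFSet ∧ c i = ζ) ∈ U := by
    refine (hU.ultra _ sep_subset).resolve_right fun hz => ?_
    have h0 : (∅ : ZF) ∈ cardSet κ := by
      rw [mem_cardSet isOrdinal_empty, card_empty]; exact aleph0_pos.trans hκ
    have key : ∀ ζ ∈ (cardSet κ \ (cardSet κ).sep (fun ζ => ∃ i : I, ζ = i.1.toZFSet ∧ c i = ζ)) ∩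
        (cardSet κ).sep (fun ζ => ∅ ∈ ζ), ∃ b ∈ ζ, ∃ i : I, i.1 = Order.succ b.rank ∧ ζ ∈ c i := by
      intro ζ hζ
      simp only [mem_inter, ZFSet.mem_sdiff, mem_sep, not_and, not_exists] at hζ
      obtain ⟨a, ha, rfl⟩ := Ordinal.mem_toZFSet_iff.1 hζ.1.1
      have h1 : a.toZFSet ∈ c ⟨a, ha⟩ :=
        (((isOrdinal_toZFSet a).subset_iff_eq_or_mem (co _)).1 (c6 ⟨a, ha⟩)).resolve_left
          fun e => hζ.1.2 hζ.1.1 ⟨a, ha⟩ rfl e.symm
      obtain ⟨g, s, h2, h3, h4⟩ := c4 _ _ h1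
      have h5 : S.val g ∈ S.j p μ := by rw [h4, c7]; exact hζ.1.1
      rcases s.eq_empty_or_nonempty with rfl | hs
      · exact ⟨∅, hζ.2.2, ⟨_, hl.succ_lt (by simpa using hl.bot_lt)⟩, rfl,
          h4 ▸ c3 g ∅ _ h3 (by simp) h5⟩
      · refine ⟨(s.max' hs).1.toZFSet, Ordinal.toZFSet_mem_toZFSet_iff.2 (h2 _ (s.max'_mem hs)),
          ⟨_, hl.succ_lt (s.max' hs).2⟩, by simp, h4 ▸ c3 g s _ h3 (fun i' hi' => ?_) h5⟩
        exact (s.le_max' i' hi').trans_lt (Order.lt_succ (s.max' hs).1)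
    choose! f h1 i h2 h3 using key
    obtain ⟨b, hb⟩ := hU.normal _ (hU.inter hz (hU.tail h0)) f h1
    obtain ⟨ζ, hζ⟩ := hU.ne hb
    refine hU.not_small hb ((card_mono fun ζ' hζ' => ?_).trans_lt (c5 (i ζ)))
    have : i ζ = i ζ' := Subtype.ext (by
      rw [h2 _ (mem_sep.1 hζ).1, h2 _ (mem_sep.1 hζ').1, (mem_sep.1 hζ).2, (mem_sep.1 hζ').2])
    rw [this]; exact h3 _ (mem_sep.1 hζ').1
  refine ⟨_, _, _, _, Sys.real p hwf, Sys.fix p hwf, ?_, Sys.pull p hwf,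
    fun M' U' j' c' hr => Sys.rank_le p hwf hr⟩
  rintro _ ⟨f, rfl⟩
  by_cases hs : S.val f ⊆ cardSet κ
  swap
  · exact iff_of_false (fun h => hs (c7 ▸ ax.1.sub _ h)) fun h => hs (hU.subset _ h)
  obtain ⟨s, hs'⟩ := f.2.nm
  obtain ⟨i0, hi0⟩ := exists_above hκ.le s
  have key : ∀ i, i0 < i → (S.val f ∈ S.j p W ↔ c i ∈ S.val f) := by
    intro i hi
    rw [← c7, Sys.j_eq p p.hμ] at hs
    have h1 := (Sys.losD p hwf (fun _ _ w => w true ⊆ w false)
      fun b => cond b f (p.cst I μ p.hμ)).1 hs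
    rw [Sys.j_eq p p.hW, Sys.val_mem p hwf, Sys.val_mem p hwf]
    refine eventually_congr ?_
    filter_upwards [h1, S.gen i (fun x => {ζ : μ | ζ.1 ∈ f.1 x}) fun x x' e => by
      rw [hs'.dep p fun i' hi' => e i' ((hi0 i' hi').trans hi)]] with x h2 h3
    exact (S.hU _ (f.mem x) h2).trans h3
  have hD := hU.inter c8 (hU.tail (Ordinal.toZFSet_mem_toZFSet_iff.2 i0.2))
  have hD' : ∀ ζ ∈ (cardSet κ).sep (fun ζ => ∃ i : I, ζ = i.1.toZFSet ∧ c i = ζ) ∩
      (cardSet κ).sep (fun ζ => i0.1.toZFSet ∈ ζ), (S.val f ∈ S.j p W ↔ ζ ∈ S.val f) := by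
    intro ζ hζ
    simp only [mem_inter, mem_sep] at hζ
    obtain ⟨⟨-, i, rfl, e⟩, -, h2⟩ := hζ
    rw [← e]
    exact key i (Ordinal.toZFSet_mem_toZFSet_iff.1 h2)
  refine ⟨fun h1 => hU.upward _ hD _ (fun ζ hζ => (hD' ζ hζ).1 h1) hs, fun h1 => ?_⟩
  obtain ⟨ζ, hζ⟩ := hU.ne (hU.inter hD h1)
  exact (hD' ζ (mem_inter.1 hζ).1).2 (mem_inter.1 hζ).2

namespace Iter
variable {κ : Cardinal.{0}} {U N O W μ : ZF} {M O' : Set ZF} {j : ZF → ZF}
  {c : Set.Iio κ.ord → ZF} (h : Iter κ U N O W μ M O' j c)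
include h

theorem good : Good M := h.real.elem.good'

theorem ax (p : PM N O W μ) : Ax M O' (j W) (j μ) := (h.real.elem.t2 Ax p.hW p.hμ).1 p.ax

theorem lev_eq {β : Ordinal.{0}} {y : ZF} (hy : y ∈ M) (h1 : LIn M (j W) β.toZFSet y) :
    y = LU U β := by
  have e := h1.sound h.good
  rw [e]
  exact LU_local h.good.empty h.hW fun x hx => h.good.trans y hy x (e ▸ hx)

theorem lev (p : PM N O W μ) {β : Ordinal.{0}} (hβ : β.toZFSet ∈ M) :
    LU U β ∈ M ∧ LIn M (j W) β.toZFSet (LU U β) := by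
  obtain ⟨y, hy, h1⟩ := (h.ax p).2.lev _ hβ (isOrdinal_toZFSet β)
  exact h.lev_eq hy h1 ▸ ⟨hy, h1⟩

theorem init (p : PM N O W μ) {x : ZF} (hx : x ∈ M) :
    ∃ β : Ordinal.{0}, β.toZFSet ∈ M ∧ x ∈ LU U β := by
  obtain ⟨α, hα, ho, y, hy, h1, h2⟩ := (h.ax p).2.vl x hx
  obtain ⟨β, rfl⟩ := ord_eq ho
  exact ⟨β, hα, h.lev_eq hy h1 ▸ h2⟩

theorem init' (p : PM N O W μ) : ∀ x ∈ M, ∃ β, x ∈ LU U β ∧ ∀ y ∈ LU U β, y ∈ M := by
  intro x hx
  obtain ⟨β, h1, h2⟩ := h.init p hx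
  exact ⟨β, h2, h.good.trans _ (h.lev p h1).1⟩

theorem ord_le {α β : Ordinal.{0}} (hβ : β.toZFSet ∈ M) (e : α ≤ β) : α.toZFSet ∈ M := by
  rcases e.eq_or_lt with rfl | e
  · exact hβ
  · exact h.good.trans _ hβ _ (Ordinal.toZFSet_mem_toZFSet_iff.2 e)

theorem fixR (p : PM N O W μ) {η R : ZF} (hη : η ∈ μ) (hR : R ∈ N) (hs : R ⊆ Tr η) : j R = R := by
  have el := h.real.elem
  have hηN := p.good.trans μ p.hμ η hη
  have hb : ∀ b ∈ η, b ∈ (N : Set ZF) ∧ j b = b := fun b hb =>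
    ⟨p.good.trans η hηN b hb, h.fix b (p.ax.1.ord.mem_trans hb hη)⟩
  have h1 : j R ⊆ Tr η := h.fix η hη ▸ (el.t2 (fun _ _ a b => a ⊆ Tr b) hR hηN).1 hs
  have h2 : ∀ a ∈ Tr η, (a ∈ j R ↔ a ∈ R) := fun a ha => by
    rw [← el.mem_iff (p.good.tr (fun b h => (hb b h).1) a ha) hR, el.fix_Tr hb a ha]
  exact ZFSet.ext fun a => ⟨fun ha => (h2 a (h1 ha)).1 ha, fun ha => (h2 a (hs ha)).2 ha⟩

theorem mu_mem (p : PM N O W μ) {η : ZF} (hη : η ∈ μ) : η ∈ M :=
  h.fix η hη ▸ h.real.elem.map η (p.good.trans μ p.hμ η hη)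

theorem pullD (p : PM N O W μ) {K : Type u} (P : Set ZF → Set ZF → (Option K → ZF) → Prop)
    [hP : Df (Option K) P] (v : K → ZF) (hv : ∀ k, v k ∈ M) {η : ZF} (hη : η ∈ μ) :
    (Tr η).sep (fun a => P M O' (ext a v)) ∈ N := by
  obtain ⟨φ, l, hl⟩ := hP.toList
  rw [sep_congr fun a ha => hl M O' h.good v hv a
    (h.good.tr (h.good.trans η (h.mu_mem p hη)) a ha)]
  exact h.pull φ _ (asg_mem h.good.empty (map_mem hv l)) η hη

theorem pullR (p : PM N O W μ) {η R : ZF} (hη : η ∈ μ) (hR : R ∈ M) (hs : R ⊆ Tr η) : R ∈ N := by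
  have := h.pull (.mem 0 1) (fun _ => R) (fun _ => hR) η hη
  rwa [show (Tr η).sep (fun a => Sat M O' (.mem 0 1) (cons a fun _ => R)) = R from
    ZFSet.ext fun a => mem_sep.trans ⟨fun h => h.2, fun h => ⟨hs h, h⟩⟩] at this

theorem memR (p : PM N O W μ) {η R : ZF} (hη : η ∈ μ) (hR : R ∈ N) (hs : R ⊆ Tr η) : R ∈ M :=
  h.fixR p hη hR hs ▸ h.real.elem.map R hR

/-- Iterates of elementarily embedded mice are smaller. -/
theorem sub_of_emb (p : PM N O W μ) {N' P' W' μ' : ZF} {M' O'' : Set ZF} {j' : ZF → ZF}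
    {c' : Set.Iio κ.ord → ZF} (h' : Iter κ U N' P' W' μ' M' O'' j' c') (p' : PM N' P' W' μ')
    {σ : ZF → ZF} (e : Elem (N' : Set ZF) P' N O σ) (eW : σ W' = W) (eμ : σ μ' = μ) : M' ⊆ M := by
  intro x hx
  by_contra hc
  obtain ⟨β, h1, h2⟩ := h'.init p' hx
  obtain ⟨δ, h3, h4⟩ := init_eq_LU (h.init' p) h2 hc
  obtain ⟨y, h5, h6⟩ := h'.emb _ _ _ _ (h.real.pull e eW eμ) _ h1
  rw [h4] at h5
  have := rank_lt_of_mem_LU h5
  rw [Ordinal.rank_toZFSet] at h6
  exact absurd (h6.trans_lt this) (not_lt.2 h3)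

end Iter

end Pool.Agent.MP_477625_lc.H75
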