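import Pool.Agent.MP_477625_lc.H75.Elem

/-! A library of absolute notions: numbers, lists, trees, finite sets of ordinals. -/

namespace Pool.Agent.MP_477625_lc.H75
open ZFSet Cardinal

universe u v

set_option linter.unusedVariables false
set_option synthInstance.maxSize 100000

theorem DT.cons_all {K : Type u} {a : Set ZF → Set ZF → (K → ZF) → ZF}
    {σ : ℕ → Set ZF → Set ZF → (K → ZF) → ZF} (ha : DT K a) (h : ∀ j, DT K (σ j)) :
    ∀ j, DT K (cons a σ j) := by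
  intro j; cases j
  · exact ha
  · exact h _

theorem Df.sub1 {K : Type u} {R : Set ZF → Set ZF → ZF → Prop}
    (hR : Df ℕ fun M U v => R M U (v 0))
    (a : Set ZF → Set ZF → (K → ZF) → ZF)
    [ha : DT K a] :
    Df K fun M U v => R M U (a M U v) :=
  hR.subst (fun _ => a)
    (fun _ => ha)

theorem Df.sub2 {K : Type u} {R : Set ZF → Set ZF → ZF → ZF → Prop}
    (hR : Df ℕ fun M U v => R M U (v 0) (v 1))
    (a b : Set ZF → Set ZF → (K → ZF) → ZF)
    [ha : DT K a] [hb : DT K b] :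
    Df K fun M U v => R M U (a M U v) (b M U v) :=
  hR.subst (cons a (fun _ => b))
    (DT.cons_all ha (fun _ => hb))

theorem Df.sub3 {K : Type u} {R : Set ZF → Set ZF → ZF → ZF → ZF → Prop}
    (hR : Df ℕ fun M U v => R M U (v 0) (v 1) (v 2))
    (a b c : Set ZF → Set ZF → (K → ZF) → ZF)
    [ha : DT K a] [hb : DT K b] [hc : DT K c] :
    Df K fun M U v => R M U (a M U v) (b M U v) (c M U v) :=
  hR.subst (cons a (cons b (fun _ => c)))
    (DT.cons_all ha (DT.cons_all hb (fun _ => hc)))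

theorem Df.sub4 {K : Type u} {R : Set ZF → Set ZF → ZF → ZF → ZF → ZF → Prop}
    (hR : Df ℕ fun M U v => R M U (v 0) (v 1) (v 2) (v 3))
    (a b c d : Set ZF → Set ZF → (K → ZF) → ZF)
    [ha : DT K a] [hb : DT K b] [hc : DT K c] [hd : DT K d] :
    Df K fun M U v => R M U (a M U v) (b M U v) (c M U v) (d M U v) :=
  hR.subst (cons a (cons b (cons c (fun _ => d))))
    (DT.cons_all ha (DT.cons_all hb (DT.cons_all hc (fun _ => hd))))

theorem Df.sub5 {K : Type u} {R : Set ZF → Set ZF → ZF → ZF → ZF → ZF → ZF → Prop}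
    (hR : Df ℕ fun M U v => R M U (v 0) (v 1) (v 2) (v 3) (v 4))
    (a b c d e : Set ZF → Set ZF → (K → ZF) → ZF)
    [ha : DT K a] [hb : DT K b] [hc : DT K c] [hd : DT K d] [he : DT K e] :
    Df K fun M U v => R M U (a M U v) (b M U v) (c M U v) (d M U v) (e M U v) :=
  hR.subst (cons a (cons b (cons c (cons d (fun _ => e)))))
    (DT.cons_all ha (DT.cons_all hb (DT.cons_all hc (DT.cons_all hd (fun _ => he)))))

theorem Df.sub6 {K : Type u} {R : Set ZF → Set ZF → ZF → ZF → ZF → ZF → ZF → ZF → Prop}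
    (hR : Df ℕ fun M U v => R M U (v 0) (v 1) (v 2) (v 3) (v 4) (v 5))
    (a b c d e f : Set ZF → Set ZF → (K → ZF) → ZF)
    [ha : DT K a] [hb : DT K b] [hc : DT K c] [hd : DT K d] [he : DT K e] [hf : DT K f] :
    Df K fun M U v => R M U (a M U v) (b M U v) (c M U v) (d M U v) (e M U v) (f M U v) :=
  hR.subst (cons a (cons b (cons c (cons d (cons e (fun _ => f))))))
    (DT.cons_all ha (DT.cons_all hb (DT.cons_all hc (DT.cons_all hd (DT.cons_all he (fun _ => hf))))))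

theorem Df.sub7 {K : Type u} {R : Set ZF → Set ZF → ZF → ZF → ZF → ZF → ZF → ZF → ZF → Prop}
    (hR : Df ℕ fun M U v => R M U (v 0) (v 1) (v 2) (v 3) (v 4) (v 5) (v 6))
    (a b c d e f g : Set ZF → Set ZF → (K → ZF) → ZF)
    [ha : DT K a] [hb : DT K b] [hc : DT K c] [hd : DT K d] [he : DT K e] [hf : DT K f] [hg : DT K g] :
    Df K fun M U v => R M U (a M U v) (b M U v) (c M U v) (d M U v) (e M U v) (f M U v) (g M U v) :=
  hR.subst (cons a (cons b (cons c (cons d (cons e (cons f (fun _ => g)))))))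
    (DT.cons_all ha (DT.cons_all hb (DT.cons_all hc (DT.cons_all hd (DT.cons_all he (DT.cons_all hf (fun _ => hg)))))))

theorem Df.sub8 {K : Type u} {R : Set ZF → Set ZF → ZF → ZF → ZF → ZF → ZF → ZF → ZF → ZF → Prop}
    (hR : Df ℕ fun M U v => R M U (v 0) (v 1) (v 2) (v 3) (v 4) (v 5) (v 6) (v 7))
    (a b c d e f g h : Set ZF → Set ZF → (K → ZF) → ZF)
    [ha : DT K a] [hb : DT K b] [hc : DT K c] [hd : DT K d] [he : DT K e] [hf : DT K f] [hg : DT K g] [hh : DT K h] :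
    Df K fun M U v => R M U (a M U v) (b M U v) (c M U v) (d M U v) (e M U v) (f M U v) (g M U v) (h M U v) :=
  hR.subst (cons a (cons b (cons c (cons d (cons e (cons f (cons g (fun _ => h))))))))
    (DT.cons_all ha (DT.cons_all hb (DT.cons_all hc (DT.cons_all hd (DT.cons_all he (DT.cons_all hf (DT.cons_all hg (fun _ => hh))))))))

theorem Df.sub9 {K : Type u} {R : Set ZF → Set ZF → ZF → ZF → ZF → ZF → ZF → ZF → ZF → ZF → ZF → Prop}
    (hR : Df ℕ fun M U v => R M U (v 0) (v 1) (v 2) (v 3) (v 4) (v 5) (v 6) (v 7) (v 8))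
    (a b c d e f g h i : Set ZF → Set ZF → (K → ZF) → ZF)
    [ha : DT K a] [hb : DT K b] [hc : DT K c] [hd : DT K d] [he : DT K e] [hf : DT K f] [hg : DT K g] [hh : DT K h] [hi : DT K i] :
    Df K fun M U v => R M U (a M U v) (b M U v) (c M U v) (d M U v) (e M U v) (f M U v) (g M U v) (h M U v) (i M U v) :=
  hR.subst (cons a (cons b (cons c (cons d (cons e (cons f (cons g (cons h (fun _ => i)))))))))
    (DT.cons_all ha (DT.cons_all hb (DT.cons_all hc (DT.cons_all hd (DT.cons_all he (DT.cons_all hf (DT.cons_all hg (DT.cons_all hh (fun _ => hi)))))))))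

open Classical in
/-- A small class as a set. -/
noncomputable def zf (S : Set ZF) : ZF :=
  if h : Small.{0} S then @ZFSet.range S h Subtype.val else ∅

theorem mem_zf {S : Set ZF} (h : Small.{0} S) {x : ZF} : x ∈ zf S ↔ x ∈ S := by
  rw [zf, dif_pos h, mem_range]
  exact ⟨fun ⟨y, e⟩ => e ▸ y.2, fun h => ⟨⟨x, h⟩, rfl⟩⟩

theorem coe_zf {S : Set ZF} (h : Small.{0} S) : (zf S : Set ZF) = S := Set.ext fun _ => mem_zf h

theorem small_of_le {α : Type 1} {c : Cardinal.{0}} (h : #α ≤ lift.{1} c) : Small.{0} α := by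
  have : #α ≤ #(ULift.{1} c.out) := by simpa using h
  obtain ⟨f⟩ := (Cardinal.le_def _ _).1 this
  exact small_of_injective f.injective

theorem mk_zf_le (x : ZF) {c : Cardinal.{0}} : #(x : Set ZF) ≤ lift.{1} c ↔ x.card ≤ c := by
  have := cardinalMk_coe_sort (x := x)
  change #(x : Set ZF) = _ at this
  rw [this, lift_le]

theorem aleph0_le_lift' {c : Cardinal.{0}} (h : ℵ₀ ≤ c) : ℵ₀ ≤ lift.{1} c := by simpa using h

theorem mk_dcl_zf (U : Set ZF) (x : ZF) :
    #(dcl Set.univ U (x : Set ZF)) ≤ lift.{1} (max x.card ℵ₀) :=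
  mk_dcl_le good_univ (Set.subset_univ _) (aleph0_le_lift' (le_max_right _ _))
    ((mk_zf_le x).2 (le_max_left _ _))

theorem small_dcl (U : Set ZF) (x : ZF) : Small.{0} (dcl Set.univ U (x : Set ZF)) :=
  small_of_le (mk_dcl_zf U x)

theorem wf_choice {ι : Type u} {α : Type v} {r : ι → ι → Prop} (wf : WellFounded r) (a0 : α)
    (Q : ι → (ι → α) → α → Prop) (h : ∀ i g, ∃ a, Q i g a)
    (hc : ∀ i g g' a, (∀ i', r i' i → g i' = g' i') → Q i g a → Q i g' a) :
    ∃ c : ι → α, ∀ i, Q i c (c i) := by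
  classical
  choose F hF using h
  let c : ι → α := wf.fix fun i rec => F i fun i' => if h : r i' i then rec i' h else a0
  refine ⟨c, fun i => ?_⟩
  have : c i = F i fun i' => if r i' i then c i' else a0 := by
    simp only [c]; rw [wf.fix_eq]; rfl
  rw [this]
  exact hc i _ _ _ (fun i' h => by simp [h]) (hF i _)

theorem rank_lt_pair_left (a b : ZF) : a.rank < (pair a b).rank :=
  (rank_lt_of_mem (show a ∈ ({a} : ZF) by simp)).trans (rank_lt_of_mem (by simp [ZFSet.pair]))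

theorem rank_lt_pair_right (a b : ZF) : b.rank < (pair a b).rank :=
  (rank_lt_of_mem (show b ∈ ({a, b} : ZF) by simp)).trans (rank_lt_of_mem (by simp [ZFSet.pair]))

theorem rank_ind {p : ZF → Prop} (h : ∀ x, (∀ y : ZF, y.rank < x.rank → p y) → p x) (x : ZF) :
    p x := (InvImage.wf ZFSet.rank wellFounded_lt).induction x h

@[simp] theorem pair_ne_empty (a b : ZF) : pair a b ≠ ∅ := fun h =>
  notMem_empty ({a} : ZF) (h ▸ by simp [ZFSet.pair])

@[simp] theorem empty_ne_pair (a b : ZF) : ∅ ≠ pair a b := (pair_ne_empty a b).symm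

@[simp] theorem insert_ne_empty (a b : ZF) : insert a b ≠ ∅ := fun h =>
  notMem_empty a (h ▸ mem_insert a b)

@[simp] theorem empty_ne_insert (a b : ZF) : ∅ ≠ insert a b := (insert_ne_empty a b).symm

theorem succ_inj {a b : ZF} (h : insert a a = insert b b) : a = b := by
  have h1 : a ∈ insert b b := h ▸ mem_insert a a
  have h2 : b ∈ insert a a := h ▸ mem_insert b b
  rcases mem_insert_iff.1 h1 with h1 | h1
  · exact h1
  rcases mem_insert_iff.1 h2 with h2 | h2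
  · exact h2.symm
  exact (mem_asymm h1 h2).elim

/-- Finite witnesses for inductive definitions. -/
def Wit (M : Set ZF) (St : ZF → ZF → Prop) (w : ZF) : Prop :=
  ∃ t ∈ M, w ∈ t ∧ ∀ w' ∈ t, St t w'

section
variable {M : Set ZF} {St : ZF → ZF → Prop} {w w1 w2 : ZF}

theorem Wit.intro2 (hM : Good M) (mono : ∀ t t' w, t ⊆ t' → St t w → St t' w) (hw : w ∈ M)
    (h1 : Wit M St w1) (h2 : Wit M St w2) (h : ∀ t, w1 ∈ t → w2 ∈ t → St t w) : Wit M St w := by
  obtain ⟨t1, m1, a1, h1⟩ := h1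
  obtain ⟨t2, m2, a2, h2⟩ := h2
  refine ⟨insert w (t1 ∪ t2), hM.ins _ hw _ (hM.un _ m1 _ m2), mem_insert _ _, fun w' hw' => ?_⟩
  rcases mem_insert_iff.1 hw' with rfl | hw'
  · exact h _ (by simp [a1]) (by simp [a2])
  rcases mem_union.1 hw' with hw' | hw'
  · exact mono _ _ _ (fun z hz => by simp [hz]) (h1 _ hw')
  · exact mono _ _ _ (fun z hz => by simp [hz]) (h2 _ hw')

theorem Wit.intro1 (hM : Good M) (mono : ∀ t t' w, t ⊆ t' → St t w → St t' w) (hw : w ∈ M)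
    (h1 : Wit M St w1) (h : ∀ t, w1 ∈ t → St t w) : Wit M St w :=
  Wit.intro2 hM mono hw h1 h1 fun t a _ => h t a

theorem Wit.intro0 (hM : Good M) (hw : w ∈ M) (h : ∀ t, St t w) : Wit M St w :=
  ⟨{w}, hM.sing hw, by simp, fun w' hw' => by rw [mem_singleton.1 hw']; exact h _⟩

end

/-! Natural numbers -/

def nat : ℕ → ZF
  | 0 => ∅
  | n + 1 => insert (nat n) (nat n)

theorem nat_eq (n : ℕ) : nat n = (n : Ordinal).toZFSet := by
  induction n with
  | zero => simp [nat]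
  | succ n ih => simp [nat, ih]

theorem nat_ord (n : ℕ) : (nat n).IsOrdinal := nat_eq n ▸ isOrdinal_toZFSet _

@[simp] theorem nat_mem_nat {m n : ℕ} : nat m ∈ nat n ↔ m < n := by simp [nat_eq]

@[simp] theorem nat_inj {m n : ℕ} : nat m = nat n ↔ m = n := by
  simp [nat_eq, Ordinal.toZFSet_injective.eq_iff]

theorem mem_nat {x : ZF} {n : ℕ} : x ∈ nat n ↔ ∃ m < n, x = nat m := by
  induction n with
  | zero => simp [nat]
  | succ n ih =>
    rw [nat, mem_insert_iff, ih]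
    constructor
    · rintro (rfl | ⟨m, h, rfl⟩)
      · exact ⟨n, by omega, rfl⟩
      · exact ⟨m, by omega, rfl⟩
    · rintro ⟨m, h, rfl⟩
      rcases Nat.lt_succ_iff_lt_or_eq.1 h with h | rfl
      · exact Or.inr ⟨m, h, rfl⟩
      · exact Or.inl rfl

theorem nat_eq_empty {n : ℕ} : nat n = ∅ ↔ n = 0 := nat_inj (n := 0)

theorem nat_eq_succ {n : ℕ} {x : ZF} : nat n = insert x x ↔ ∃ m, n = m + 1 ∧ x = nat m := by
  constructor
  · intro h
    cases n with
    | zero => exact absurd h (by simp [nat])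
    | succ n => exact ⟨n, rfl, (succ_inj h).symm⟩
  · rintro ⟨m, rfl, rfl⟩; rfl

theorem Good.nat {M : Set ZF} (h : Good M) (n : ℕ) : nat n ∈ M := by
  induction n with
  | zero => exact h.empty
  | succ n ih => exact h.ins _ ih _ ih

instance DT.nat {K : Type u} (n : ℕ) : DT K fun _ _ _ => nat n := by
  induction n with
  | zero => exact DT.empty
  | succ n ih => exact DT.insert (hs := ih) (ht := ih)

theorem Elem.nat {M U M' U' : Set ZF} {j : ZF → ZF} (h : Elem M U M' U' j) (n : ℕ) :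
    j (nat n) = nat n := (h.t1 (fun _ _ a => a = H75.nat n) (h.good.nat n)).1 rfl

theorem nat_mem_dcl {M U B : Set ZF} (hM : Good M) (hB : B ⊆ M) (n : ℕ) : nat n ∈ dcl M U B :=
  dcl_class hM hB (J := Empty) (fun _ _ _ => nat n) Empty.elim (fun j => j.elim) (hM.nat n)

noncomputable def om : ZF := range nat

theorem mem_om {x : ZF} : x ∈ om ↔ ∃ n, x = nat n := by simp [om, eq_comm]

@[simp] theorem nat_mem_om (n : ℕ) : nat n ∈ om := mem_om.2 ⟨n, rfl⟩

theorem all_om {p : ZF → Prop} : (∀ x ∈ om, p x) ↔ ∀ n, p (nat n) :=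
  ⟨fun h n => h _ (nat_mem_om n), fun h x hx => by obtain ⟨n, rfl⟩ := mem_om.1 hx; exact h n⟩

theorem ex_om {p : ZF → Prop} : (∃ x ∈ om, p x) ↔ ∃ n, p (nat n) :=
  ⟨fun ⟨x, hx, h⟩ => by obtain ⟨n, rfl⟩ := mem_om.1 hx; exact ⟨n, h⟩,
    fun ⟨n, h⟩ => ⟨_, nat_mem_om n, h⟩⟩

instance DC.om {K : Type u} : DC K fun _ _ _ => om where
  sub M U hM _ _ a ha := by obtain ⟨n, rfl⟩ := mem_om.1 ha; exact hM.nat n
  df := by
    refine (inferInstance : Df (Option K) fun M U v => ∃ t ∈ M, v none ∈ t ∧ ∀ w ∈ t,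
      w = ∅ ∨ ∃ y ∈ t, w = Insert.insert y y).congr fun M U hM v hv => ⟨fun h => ?_, ?_⟩
    · obtain ⟨n, hn⟩ := mem_om.1 h
      refine ⟨nat (n + 1), hM.nat _, by simp [hn], fun w hw => ?_⟩
      obtain ⟨_ | m, hm, rfl⟩ := mem_nat.1 hw
      · exact Or.inl rfl
      · exact Or.inr ⟨nat m, by simp; omega, rfl⟩
    · rintro ⟨t, -, h1, h2⟩
      generalize v none = x at h1
      induction x using ZFSet.inductionOn with
      | h x ih =>
        rcases h2 x h1 with rfl | ⟨y, hy, rfl⟩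
        · exact nat_mem_om 0
        · obtain ⟨n, rfl⟩ := mem_om.1 (ih y (mem_insert _ _) hy)
          exact nat_mem_om (n + 1)

/-! Sections, products, ordinals -/

def sec (g c : ZF) : ZF := (⋃₀ ⋃₀ g : ZF).sep fun t => pair c t ∈ g

@[simp] theorem mem_sec {g c t : ZF} : t ∈ sec g c ↔ pair c t ∈ g := by
  rw [sec, mem_sep, and_iff_right_iff_imp]
  exact fun h => mem_sUnion.2 ⟨{c, t}, mem_sUnion.2 ⟨_, h, by simp [ZFSet.pair]⟩, by simp⟩

section
variable {K : Type u} {s t : Set ZF → Set ZF → (K → ZF) → ZF}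

instance DC.sec [hs : DC K s] [ht : DT K t] : DC K fun M U v => sec (s M U v) (t M U v) where
  sub M U hM v hv a ha := hM.snd (hs.sub M U hM v hv _ (mem_sec.1 ha))
  df := (Df.memC (hs := (DT.pair (s := fun M U w => t M U fun k => w (some k))
    (t := fun _ _ w => w none) (hs := ht.comp some)).toDC) (ht := hs.comp some)).congr
    fun _ _ _ _ _ => mem_sec

instance Df.ord [DT K s] : Df K fun M U v => (s M U v).IsOrdinal :=
  Df.sub1 (R := fun _ _ a => a.IsOrdinal) ((inferInstance : Df ℕ fun M U v =>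
    (∀ y ∈ v 0, y ⊆ v 0) ∧ ∀ y ∈ v 0, ∀ z ∈ y, z ⊆ y).congr
      fun _ _ _ _ _ => isOrdinal_iff_forall_mem_isTransitive) s

instance Df.good [DT K s] : Df K fun M U v => Good (s M U v : Set ZF) :=
  Df.sub1 (R := fun _ _ a => Good (a : Set ZF)) ((inferInstance : Df ℕ fun M U v =>
    (∀ x ∈ v 0, ∀ y ∈ x, y ∈ v 0) ∧ ∅ ∈ v 0 ∧ (∀ a ∈ v 0, ∀ b ∈ v 0, insert a b ∈ v 0) ∧
      ∀ a ∈ v 0, ∀ b ∈ v 0, a ∪ b ∈ v 0).congr
      fun _ _ _ _ _ => ⟨fun h => ⟨h.1, h.2, h.3, h.4⟩, fun h => ⟨h.1, h.2.1, h.2.2.1, h.2.2.2⟩⟩) s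

end

/-! Lists -/

def ZL : List ZF → ZF
  | [] => ∅
  | a :: l => pair a (ZL l)

theorem ZL_inj : ∀ {l l' : List ZF}, ZL l = ZL l' → l = l'
  | [], [], _ => rfl
  | [], _ :: _, h => absurd h (by simp [ZL])
  | _ :: _, [], h => absurd h (by simp [ZL])
  | _ :: _, _ :: _, h => by
    simp only [ZL, pair_inj] at h
    rw [h.1, ZL_inj h.2]

theorem Good.ZL {M : Set ZF} (h : Good M) {l : List ZF} : ZL l ∈ M ↔ ∀ b ∈ l, b ∈ M := by
  induction l with
  | nil => simp [H75.ZL, h.empty]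
  | cons a l ih =>
    simp only [H75.ZL, List.forall_mem_cons, ← ih]
    exact ⟨fun h' => ⟨h.fst h', h.snd h'⟩, fun h' => h.pair h'.1 h'.2⟩

theorem Elem.ZL {M U M' U' : Set ZF} {j : ZF → ZF} (h : Elem M U M' U' j) {l : List ZF}
    (hl : ∀ b ∈ l, b ∈ M) : j (ZL l) = ZL (l.map j) := by
  induction l with
  | nil => exact h.empty
  | cons a l ih =>
    simp only [List.forall_mem_cons] at hl
    simp only [H75.ZL, List.map_cons]
    rw [h.pair hl.1 (h.good.ZL.2 hl.2), ih hl.2]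

theorem ZL_mem_dcl {M U B : Set ZF} (hM : Good M) (hB : B ⊆ M) {l : List ZF}
    (hl : ∀ b ∈ l, b ∈ dcl M U B) : ZL l ∈ dcl M U B := by
  induction l with
  | nil => exact empty_mem_dcl hM
  | cons a l ih =>
    simp only [List.forall_mem_cons] at hl
    exact pair_mem_dcl hM hB hl.1 (ih hl.2)

instance DT.ZLmap {K : Type u} {J : Type v} (l : List J) (g : J → K) :
    DT K fun _ _ v => ZL (l.map fun i => v (g i)) := by
  induction l with
  | nil => exact DT.empty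
  | cons a l ih => exact DT.pair (s := fun _ _ v => v (g a)) (ht := ih)

noncomputable def Lst (x : ZF) : ZF := zf {s | ∃ l : List ZF, (∀ b ∈ l, b ∈ x) ∧ s = ZL l}

theorem lst_sub (x : ZF) : {s | ∃ l : List ZF, (∀ b ∈ l, b ∈ x) ∧ s = ZL l} ⊆
    dcl Set.univ ∅ (x : Set ZF) := by
  rintro _ ⟨l, hl, rfl⟩
  exact ZL_mem_dcl good_univ (Set.subset_univ _) fun b hb => subset_dcl (Set.subset_univ _) (hl b hb)

theorem mem_Lst {x s : ZF} : s ∈ Lst x ↔ ∃ l : List ZF, (∀ b ∈ l, b ∈ x) ∧ s = ZL l :=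
  mem_zf (have := small_dcl ∅ x; small_subset (lst_sub x))

theorem ZL_mem_Lst {x : ZF} {l : List ZF} : ZL l ∈ Lst x ↔ ∀ b ∈ l, b ∈ x :=
  mem_Lst.trans ⟨fun ⟨l', h, e⟩ => ZL_inj e ▸ h, fun h => ⟨l, h, rfl⟩⟩

theorem all_Lst {x : ZF} {p : ZF → Prop} :
    (∀ s ∈ Lst x, p s) ↔ ∀ l : List ZF, (∀ b ∈ l, b ∈ x) → p (ZL l) :=
  ⟨fun h l hl => h _ (ZL_mem_Lst.2 hl), fun h s hs => by
    obtain ⟨l, hl, rfl⟩ := mem_Lst.1 hs; exact h l hl⟩

theorem ex_Lst {x : ZF} {p : ZF → Prop} :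
    (∃ s ∈ Lst x, p s) ↔ ∃ l : List ZF, (∀ b ∈ l, b ∈ x) ∧ p (ZL l) :=
  ⟨fun ⟨s, hs, h⟩ => by obtain ⟨l, hl, rfl⟩ := mem_Lst.1 hs; exact ⟨l, hl, h⟩,
    fun ⟨l, hl, h⟩ => ⟨_, ZL_mem_Lst.2 hl, h⟩⟩

theorem mk_Lst_le (x : ZF) : #(Lst x : Set ZF) ≤ lift.{1} (max x.card ℵ₀) :=
  (mk_le_mk_of_subset fun _ h => lst_sub x (mem_Lst.1 h)).trans (mk_dcl_zf ∅ x)

def LstS (M : Set ZF) (x t w : ZF) : Prop := w = ∅ ∨ ∃ a ∈ x, ∃ s ∈ t, w = pair a s

instance DC.Lst {K : Type u} {s : Set ZF → Set ZF → (K → ZF) → ZF} [hs : DT K s] :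
    DC K fun M U v => Lst (s M U v) where
  sub M U hM v hv a ha := by
    obtain ⟨l, hl, rfl⟩ := mem_Lst.1 ha
    exact hM.ZL.2 fun b hb => hs.sub M U hM v hv b (hl b hb)
  df := by
    refine Df.sub2 (R := fun _ _ a b => a ∈ H75.Lst b) ?_ _ _ (hb := hs.comp some)
    refine Df.congr (P := fun M U v => Wit M (LstS M (v 1)) (v 0))
      (by unfold Wit LstS; infer_instance) fun M U hM v hv => ⟨fun h => ?_, ?_⟩
    · obtain ⟨l, hl, e⟩ := mem_Lst.1 h
      rw [e]
      clear e h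
      induction l with
      | nil => exact Wit.intro0 hM hM.empty fun _ => Or.inl rfl
      | cons a l ih =>
        simp only [List.forall_mem_cons] at hl
        refine Wit.intro1 hM ?_ (hM.ZL.2 ?_) (ih hl.2) fun t ht => Or.inr ⟨a, hl.1, _, ht, rfl⟩
        · rintro t t' w h (h' | ⟨a, ha, s, hs, e⟩)
          · exact Or.inl h'
          · exact Or.inr ⟨a, ha, s, h hs, e⟩
        · simp only [List.forall_mem_cons]
          exact ⟨hM.trans _ (hv 1) _ hl.1, fun b hb => hM.trans _ (hv 1) _ (hl.2 b hb)⟩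
    · rintro ⟨t, -, h1, h2⟩
      generalize v 0 = x at h1
      induction x using rank_ind with
      | h x ih =>
        rcases h2 x h1 with rfl | ⟨a, ha, s, hs, rfl⟩
        · exact mem_Lst.2 ⟨[], by simp, rfl⟩
        · obtain ⟨l, hl, rfl⟩ := mem_Lst.1 (ih s (rank_lt_pair_right _ _) hs)
          exact mem_Lst.2 ⟨a :: l, by simpa [ha] using hl, rfl⟩

/-! Trees -/

inductive InTr (η : ZF) : ZF → Prop
  | emp : InTr η ∅
  | leaf {y} : y ∈ η → InTr η y
  | node {a b} : InTr η a → InTr η b → InTr η (pair a b)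

noncomputable def Tr (η : ZF) : ZF := zf {y | InTr η y}

theorem inTr_dcl {M U B : Set ZF} (hM : Good M) (hB : B ⊆ M) {η y : ZF}
    (h : ∀ a ∈ η, a ∈ dcl M U B) (hy : InTr η y) : y ∈ dcl M U B := by
  induction hy with
  | emp => exact empty_mem_dcl hM
  | leaf h' => exact h _ h'
  | node _ _ ih1 ih2 => exact pair_mem_dcl hM hB ih1 ih2

theorem tr_sub (x : ZF) : {y | InTr x y} ⊆ dcl Set.univ ∅ (x : Set ZF) := fun _ h =>
  inTr_dcl good_univ (Set.subset_univ _) (fun _ ha => subset_dcl (Set.subset_univ _) ha) h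

theorem mem_Tr {η y : ZF} : y ∈ Tr η ↔ InTr η y :=
  mem_zf (have := small_dcl ∅ η; small_subset (tr_sub η))

theorem mk_Tr_le (x : ZF) : #(Tr x : Set ZF) ≤ lift.{1} (max x.card ℵ₀) :=
  (mk_le_mk_of_subset fun _ h => tr_sub x (mem_Tr.1 h)).trans (mk_dcl_zf ∅ x)

theorem empty_mem_Tr {η : ZF} : ∅ ∈ Tr η := mem_Tr.2 .emp
theorem mem_Tr_of_mem {η y : ZF} (h : y ∈ η) : y ∈ Tr η := mem_Tr.2 (.leaf h)
theorem pair_mem_Tr {η a b : ZF} (ha : a ∈ Tr η) (hb : b ∈ Tr η) : pair a b ∈ Tr η :=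
  mem_Tr.2 (.node (mem_Tr.1 ha) (mem_Tr.1 hb))

theorem Tr_ind {η : ZF} {p : ZF → Prop} (h0 : p ∅) (h1 : ∀ y ∈ η, p y)
    (h2 : ∀ a ∈ Tr η, ∀ b ∈ Tr η, p a → p b → p (pair a b)) : ∀ y ∈ Tr η, p y := by
  intro y hy
  replace hy := mem_Tr.1 hy
  induction hy with
  | emp => exact h0
  | leaf h => exact h1 _ h
  | node ha hb ih1 ih2 => exact h2 _ (mem_Tr.2 ha) _ (mem_Tr.2 hb) ih1 ih2

theorem Tr_mono {η η' : ZF} (h : η ⊆ η') : Tr η ⊆ Tr η' := fun y hy =>
  Tr_ind empty_mem_Tr (fun _ hy => mem_Tr_of_mem (h hy)) (fun _ _ _ _ => pair_mem_Tr) y hy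

theorem ZL_mem_Tr {η : ZF} {l : List ZF} (h : ∀ b ∈ l, b ∈ Tr η) : ZL l ∈ Tr η := by
  induction l with
  | nil => exact empty_mem_Tr
  | cons a l ih =>
    simp only [List.forall_mem_cons] at h
    exact pair_mem_Tr h.1 (ih h.2)

theorem Good.tr {M : Set ZF} (hM : Good M) {η : ZF} (h : ∀ a ∈ η, a ∈ M) : ∀ y ∈ Tr η, y ∈ M :=
  Tr_ind hM.empty h fun _ _ _ _ => hM.pair

theorem not_ord_pair (a b : ZF) : ¬ (pair a b).IsOrdinal := by
  intro h
  have h1 : ({a} : ZF) ∈ pair a b := by simp [ZFSet.pair]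
  have h2 : a ∈ pair a b := h.mem_trans (by simp) h1
  rcases (show a = {a} ∨ a = {a, b} by simpa [ZFSet.pair] using h2) with e | e
  · have : a ∈ ({a} : ZF) := by simp
    rw [← e] at this; exact mem_irrefl a this
  · have : a ∈ ({a, b} : ZF) := by simp
    rw [← e] at this; exact mem_irrefl a this

theorem Tr_pair {η a b : ZF} (hη : η.IsOrdinal) (h : pair a b ∈ Tr η) : a ∈ Tr η ∧ b ∈ Tr η := by
  have : ∀ y ∈ Tr η, ∀ a b, y = pair a b → a ∈ Tr η ∧ b ∈ Tr η := by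
    refine Tr_ind (by simp) (fun y hy a b e => absurd (e ▸ hη.mem hy) (not_ord_pair a b)) ?_
    intro a ha b hb _ _ a' b' e
    rw [pair_inj] at e
    exact ⟨e.1 ▸ ha, e.2 ▸ hb⟩
  exact this _ h a b rfl

theorem sec_sub_Tr {η g c : ZF} (hη : η.IsOrdinal) (h : g ⊆ Tr η) : sec g c ⊆ Tr η :=
  fun _ ht => (Tr_pair hη (h (mem_sec.1 ht))).2

def TrS (x t w : ZF) : Prop := w = ∅ ∨ w ∈ x ∨ ∃ a ∈ t, ∃ s ∈ t, w = pair a s

instance DC.Tr {K : Type u} {s : Set ZF → Set ZF → (K → ZF) → ZF} [hs : DT K s] :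
    DC K fun M U v => Tr (s M U v) where
  sub M U hM v hv := hM.tr (hs.sub M U hM v hv)
  df := by
    refine Df.sub2 (R := fun _ _ a b => a ∈ H75.Tr b) ?_ _ _ (hb := hs.comp some)
    refine Df.congr (P := fun M U v => Wit M (TrS (v 1)) (v 0))
      (by unfold Wit TrS; infer_instance) fun M U hM v hv => ⟨fun h => ?_, ?_⟩
    · have hs := hM.tr (hM.trans _ (hv 1))
      refine Tr_ind (p := Wit M (TrS (v 1))) (Wit.intro0 hM hM.empty fun _ => Or.inl rfl)
        (fun y hy => Wit.intro0 hM (hM.trans _ (hv 1) _ hy) fun _ => Or.inr (Or.inl hy))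
        (fun a ha b hb h1 h2 => Wit.intro2 hM ?_ (hM.pair (hs a ha) (hs b hb)) h1 h2
          fun t h1 h2 => Or.inr (Or.inr ⟨a, h1, b, h2, rfl⟩)) _ h
      rintro t t' w h (h' | h' | ⟨a, ha, s, hs, e⟩)
      · exact Or.inl h'
      · exact Or.inr (Or.inl h')
      · exact Or.inr (Or.inr ⟨a, h ha, s, h hs, e⟩)
    · rintro ⟨t, -, h1, h2⟩
      generalize v 0 = x at h1
      induction x using rank_ind with
      | h x ih =>
        rcases h2 x h1 with rfl | h | ⟨a, ha, s, hs, rfl⟩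
        · exact empty_mem_Tr
        · exact mem_Tr_of_mem h
        · exact pair_mem_Tr (ih a (rank_lt_pair_left _ _) ha) (ih s (rank_lt_pair_right _ _) hs)

theorem Elem.fix_Tr {M U M' U' : Set ZF} {j : ZF → ZF} (h : Elem M U M' U' j) {η : ZF}
    (hη : ∀ a ∈ η, a ∈ M ∧ j a = a) : ∀ y ∈ Tr η, j y = y :=
  Tr_ind h.empty (fun y hy => (hη y hy).2) fun a ha b hb h1 h2 => by
    have := h.good.tr fun a ha => (hη a ha).1
    rw [h.pair (this a ha) (this b hb), h1, h2]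

end Pool.Agent.MP_477625_lc.H75
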