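import Pool.Agent.MP_477625_lc.H75.Lib

/-! More absolute notions: lookup in lists, finite sets of ordinals, arithmetic. -/

namespace Pool.Agent.MP_477625_lc.H75
open ZFSet Cardinal

universe u v

set_option linter.unusedVariables false
set_option synthInstance.maxSize 100000

inductive Look (a : ZF) : ZF → ZF → Prop
  | nil {s i} : s = ∅ → a = ∅ → Look a s i
  | zero {s i} (s') : s = pair a s' → i = ∅ → Look a s i
  | succ {s i} (b s' i') : s = pair b s' → i = insert i' i' → Look a s' i' → Look a s i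

theorem look_ZL {a : ZF} {l : List ZF} : ∀ {n : ℕ}, Look a (ZL l) (nat n) ↔ a = asg l n := by
  induction l with
  | nil =>
    intro n
    refine ⟨fun h => ?_, fun h => .nil rfl (by simpa [asg] using h)⟩
    cases h with
    | nil _ h => simpa [asg] using h
    | zero _ h => simp [ZL] at h
    | succ _ _ _ h => simp [ZL] at h
  | cons b l ih =>
    intro n
    rw [asg_cons]
    constructor
    · intro h
      cases h with
      | nil h => simp [ZL] at h
      | zero _ h h' =>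
        rw [nat_eq_empty.1 h']
        exact (pair_inj.1 h).1.symm
      | succ _ _ _ h h' h'' =>
        obtain ⟨m, rfl, rfl⟩ := nat_eq_succ.1 h'
        rw [← (pair_inj.1 h).2] at h''
        exact ih.1 h''
    · intro h
      cases n with
      | zero => exact .zero (ZL l) (by rw [h]; rfl) rfl
      | succ n => exact .succ b (ZL l) (nat n) rfl rfl (ih.2 h)

def LookS (M : Set ZF) (a t w : ZF) : Prop := ∃ s ∈ M, ∃ i ∈ M, w = pair s i ∧
  ((s = ∅ ∧ a = ∅) ∨ (∃ s' ∈ M, s = pair a s' ∧ i = ∅) ∨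
    ∃ b ∈ M, ∃ s' ∈ M, ∃ i' ∈ M, s = pair b s' ∧ i = insert i' i' ∧ pair s' i' ∈ t)

instance Df.look {K : Type u} {a s i : Set ZF → Set ZF → (K → ZF) → ZF} [DT K a] [DT K s]
    [DT K i] : Df K fun M U v => Look (a M U v) (s M U v) (i M U v) := by
  refine Df.sub3 (R := fun _ _ a s i => Look a s i) ?_ _ _ _
  refine Df.congr (P := fun M U v => Wit M (LookS M (v 0)) (pair (v 1) (v 2)))
    (by unfold Wit LookS; infer_instance) fun M U hM v hv => ⟨fun h => ?_, ?_⟩
  · have h1 := hv 1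
    have h2 := hv 2
    generalize v 1 = s at h h1
    generalize v 2 = i at h h2
    induction h with
    | nil e e' =>
      exact Wit.intro0 hM (hM.pair h1 h2) fun _ => ⟨_, h1, _, h2, rfl, Or.inl ⟨e, e'⟩⟩
    | zero s' e e' =>
      exact Wit.intro0 hM (hM.pair h1 h2) fun _ =>
        ⟨_, h1, _, h2, rfl, Or.inr (Or.inl ⟨s', hM.snd (e ▸ h1), e, e'⟩)⟩
    | succ b s' i' e e' _ ih =>
      have m1 := hM.snd (e ▸ h1)
      have m2 := hM.trans _ h2 i' (e' ▸ mem_insert _ _)
      refine Wit.intro1 hM ?_ (hM.pair h1 h2) (ih m1 m2) fun t ht =>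
        ⟨_, h1, _, h2, rfl, Or.inr (Or.inr ⟨b, hM.fst (e ▸ h1), s', m1, i', m2, e, e', ht⟩)⟩
      rintro t t' w h ⟨s, hs, i, hi, e, h' | h' | ⟨b, hb, s', hs', i', hi', e1, e2, h'⟩⟩
      · exact ⟨s, hs, i, hi, e, Or.inl h'⟩
      · exact ⟨s, hs, i, hi, e, Or.inr (Or.inl h')⟩
      · exact ⟨s, hs, i, hi, e, Or.inr (Or.inr ⟨b, hb, s', hs', i', hi', e1, e2, h h'⟩)⟩
  · rintro ⟨t, -, h1, h2⟩
    generalize v 1 = s at h1
    generalize v 2 = i at h1
    induction s using rank_ind generalizing i with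
    | h s ih =>
      obtain ⟨s', -, i', -, e, h⟩ := h2 _ h1
      obtain ⟨rfl, rfl⟩ := pair_inj.1 e
      rcases h with h | ⟨s', -, h⟩ | ⟨b, -, s', -, i', -, e1, e2, h⟩
      · exact .nil h.1 h.2
      · exact .zero s' h.1 h.2
      · exact .succ b s' i' e1 e2 (ih s' (e1 ▸ rank_lt_pair_right _ _) _ h)

inductive Ent (b : ZF) : ZF → Prop
  | here {s} (s') : s = pair b s' → Ent b s
  | there {s} (a s') : s = pair a s' → Ent b s' → Ent b s

theorem ent_ZL {b : ZF} {l : List ZF} : Ent b (ZL l) ↔ b ∈ l := by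
  induction l with
  | nil =>
    refine ⟨fun h => ?_, by simp⟩
    cases h with
    | here _ h => simp [ZL] at h
    | there _ _ h => simp [ZL] at h
  | cons a l ih =>
    rw [List.mem_cons]
    constructor
    · intro h
      cases h with
      | here _ h => exact Or.inl (pair_inj.1 h).1.symm
      | there _ _ h h' => rw [← (pair_inj.1 h).2] at h'; exact Or.inr (ih.1 h')
    · rintro (rfl | h)
      · exact .here _ rfl
      · exact .there _ _ rfl (ih.2 h)

def EntS (M : Set ZF) (b t s : ZF) : Prop :=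
  (∃ s' ∈ M, s = pair b s') ∨ ∃ a ∈ M, ∃ s' ∈ t, s = pair a s'

instance Df.ent {K : Type u} {a s : Set ZF → Set ZF → (K → ZF) → ZF} [DT K a] [DT K s] :
    Df K fun M U v => Ent (a M U v) (s M U v) := by
  refine Df.sub2 (R := fun _ _ a s => Ent a s) ?_ _ _
  refine Df.congr (P := fun M U v => Wit M (EntS M (v 0)) (v 1))
    (by unfold Wit EntS; infer_instance) fun M U hM v hv => ⟨fun h => ?_, ?_⟩
  · have h1 := hv 1
    generalize v 1 = s at h h1
    induction h with
    | here s' e => exact Wit.intro0 hM h1 fun _ => Or.inl ⟨s', hM.snd (e ▸ h1), e⟩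
    | there a s' e _ ih =>
      refine Wit.intro1 hM ?_ h1 (ih (hM.snd (e ▸ h1))) fun t ht =>
        Or.inr ⟨a, hM.fst (e ▸ h1), s', ht, e⟩
      rintro t t' w h (h' | ⟨a, ha, s', hs', e⟩)
      · exact Or.inl h'
      · exact Or.inr ⟨a, ha, s', h hs', e⟩
  · rintro ⟨t, -, h1, h2⟩
    generalize v 1 = s at h1
    induction s using rank_ind with
    | h s ih =>
      rcases h2 _ h1 with ⟨s', -, e⟩ | ⟨a, -, s', h, e⟩
      · exact .here s' e
      · exact .there a s' e (ih s' (e ▸ rank_lt_pair_right _ _) h)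

inductive MapL (f : ZF) : ZF → ZF → Prop
  | nil {s s'} : s = ∅ → s' = ∅ → MapL f s s'
  | cons {s s'} (a t a' t') : s = pair a t → s' = pair a' t' → pair a a' ∈ f → MapL f t t' →
      MapL f s s'

theorem mapL_ZL {f : ZF} {l : List ZF} : ∀ {l' : List ZF}, MapL f (ZL l) (ZL l') ↔
    List.Forall₂ (fun a a' => pair a a' ∈ f) l l' := by
  induction l with
  | nil =>
    intro l'
    constructor
    · intro h
      cases h with
      | nil _ h => rw [ZL_inj (l' := []) h]; exact .nil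
      | cons _ _ _ _ h => simp [ZL] at h
    · intro h; cases h; exact .nil rfl rfl
  | cons b l ih =>
    intro l'
    constructor
    · intro h
      cases h with
      | nil h => simp [ZL] at h
      | cons a t a' t' h h' h1 h2 =>
        cases l' with
        | nil => simp [ZL] at h'
        | cons b' l' =>
          obtain ⟨rfl, rfl⟩ := pair_inj.1 h
          obtain ⟨rfl, rfl⟩ := pair_inj.1 h'
          exact .cons h1 (ih.1 h2)
    · intro h
      cases h with
      | cons h1 h2 => exact .cons _ _ _ _ rfl rfl h1 (ih.2 h2)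

def MapLS (M : Set ZF) (f t w : ZF) : Prop := w = pair ∅ ∅ ∨
  ∃ a ∈ M, ∃ s ∈ M, ∃ a' ∈ M, ∃ s' ∈ M, w = pair (pair a s) (pair a' s') ∧ pair a a' ∈ f ∧
    pair s s' ∈ t

instance Df.mapL {K : Type u} {a s i : Set ZF → Set ZF → (K → ZF) → ZF} [DT K a] [DT K s]
    [DT K i] : Df K fun M U v => MapL (a M U v) (s M U v) (i M U v) := by
  refine Df.sub3 (R := fun _ _ a s i => MapL a s i) ?_ _ _ _
  refine Df.congr (P := fun M U v => Wit M (MapLS M (v 0)) (pair (v 1) (v 2)))
    (by unfold Wit MapLS; infer_instance) fun M U hM v hv => ⟨fun h => ?_, ?_⟩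
  · have h1 := hv 1
    have h2 := hv 2
    generalize v 1 = s at h h1
    generalize v 2 = i at h h2
    induction h with
    | nil e e' => exact Wit.intro0 hM (hM.pair h1 h2) fun _ => Or.inl (by rw [e, e'])
    | cons a t a' t' e e' hf _ ih =>
      subst e e'
      refine Wit.intro1 hM ?_ (hM.pair h1 h2) (ih (hM.snd h1) (hM.snd h2)) fun t ht =>
        Or.inr ⟨a, hM.fst h1, _, hM.snd h1, a', hM.fst h2, _, hM.snd h2, rfl, hf, ht⟩
      rintro t t' w h (h' | ⟨a, ha, s, hs, a', ha', s', hs', e, hf, h'⟩)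
      · exact Or.inl h'
      · exact Or.inr ⟨a, ha, s, hs, a', ha', s', hs', e, hf, h h'⟩
  · rintro ⟨t, -, h1, h2⟩
    generalize v 1 = s at h1
    generalize v 2 = i at h1
    induction s using rank_ind generalizing i with
    | h s ih =>
      rcases h2 _ h1 with e | ⟨a, -, s', -, a', -, i', -, e, hf, h⟩
      · exact .nil (pair_inj.1 e).1 (pair_inj.1 e).2
      · obtain ⟨rfl, rfl⟩ := pair_inj.1 e
        exact .cons _ _ _ _ rfl rfl hf (ih s' (rank_lt_pair_right _ _) _ h)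

def LenL : ℕ → ZF → Prop
  | 0, s => s = ∅
  | k + 1, s => ∃ a t, s = pair a t ∧ LenL k t

theorem lenL_ZL {l : List ZF} : ∀ {k}, LenL k (ZL l) ↔ l.length = k := by
  induction l with
  | nil => intro k; cases k <;> simp [LenL, ZL]
  | cons a l ih => intro k; cases k <;> simp [LenL, ZL, ← ih]

instance Df.lenL {K : Type u} (k : ℕ) {s : Set ZF → Set ZF → (K → ZF) → ZF} [DT K s] :
    Df K fun M U v => LenL k (s M U v) := by
  refine Df.sub1 (R := fun _ _ s => LenL k s) ?_ _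
  induction k with
  | zero => exact (inferInstance : Df ℕ fun M U v => v 0 = ∅)
  | succ k ih =>
    have : Df (Option (Option ℕ)) fun M U v => LenL k (v none) := ih.comp fun _ => none
    refine (inferInstance : Df ℕ fun M U v => ∃ a ∈ M, ∃ t ∈ M, v 0 = pair a t ∧ LenL k t).congr
      fun M U hM v hv => ⟨fun ⟨a, t, e, h⟩ => ⟨a, hM.fst (e ▸ hv 0), t, hM.snd (e ▸ hv 0), e, h⟩,
        fun ⟨a, _, t, _, h⟩ => ⟨a, t, h⟩⟩

/-! Finite sets of ordinals -/

def FinOrd (q : ZF) : Prop := (∀ b ∈ q, b.IsOrdinal) ∧ (q : Set ZF).Finite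

theorem exists_max_ord {S : Set ZF} (hS : S.Finite) (ho : ∀ b ∈ S, b.IsOrdinal)
    (hne : S.Nonempty) : ∃ m ∈ S, ∀ b ∈ S, b = m ∨ b ∈ m := by
  obtain ⟨m, hm, h⟩ := Set.exists_max_image S rank hS hne
  exact ⟨m, hm, fun b hb => ((ho b hb).subset_iff_eq_or_mem (ho m hm)).1
    (((ho b hb).rank_le_iff_subset (ho m hm)).1 (h b hb))⟩

theorem finOrd_iff {q : ZF} : FinOrd q ↔ (∀ b ∈ q, b.IsOrdinal) ∧
    (q = ∅ ∨ ∃ m ∈ q, ∀ b ∈ q, b = m ∨ b ∈ m) ∧
    ∀ c ∈ q, (∀ b ∈ q, b ∉ c) ∨ ∃ m ∈ q, m ∈ c ∧ ∀ b ∈ q, b ∈ c → b = m ∨ b ∈ m := by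
  refine and_congr_right fun ho => ⟨fun h => ⟨?_, fun c hc => ?_⟩, fun ⟨h1, h2⟩ => ?_⟩
  · exact q.eq_empty_or_nonempty.imp_right fun hne => exists_max_ord h ho hne
  · by_cases hne : ∃ b ∈ q, b ∈ c
    · obtain ⟨m, hm, h⟩ := exists_max_ord (S := {b | b ∈ q ∧ b ∈ c})
        (h.subset fun b hb => hb.1) (fun b hb => ho b hb.1) hne
      exact Or.inr ⟨m, hm.1, hm.2, fun b h1 h2 => h b ⟨h1, h2⟩⟩
    · exact Or.inl fun b h1 h2 => hne ⟨b, h1, h2⟩
  · have key : ∀ c ∈ q, {b | b ∈ q ∧ b ∈ c}.Finite := by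
      intro c
      induction c using ZFSet.inductionOn with
      | h c ih =>
        intro hc
        rcases h2 c hc with h | ⟨m, hm, hmc, h⟩
        · exact Set.finite_empty.subset fun b hb => h b hb.1 hb.2
        · exact ((ih m hmc hm).insert m).subset fun b hb =>
            (h b hb.1 hb.2).imp_right fun h' => ⟨hb.1, h'⟩
    rcases h1 with rfl | ⟨m, hm, h⟩
    · simp
    · exact ((key m hm).insert m).subset fun b hb => (h b hb).imp_right fun h' => ⟨hb, h'⟩

instance Df.finOrd {K : Type u} {s : Set ZF → Set ZF → (K → ZF) → ZF} [DT K s] :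
    Df K fun M U v => FinOrd (s M U v) :=
  Df.sub1 (R := fun _ _ s => FinOrd s) (by simp only [finOrd_iff]; infer_instance) _

/-- The colexicographic order. -/
def Clx (q q' : ZF) : Prop :=
  ∃ a ∈ q', a ∉ q ∧ (∀ b ∈ q, a ∈ b → b ∈ q') ∧ ∀ b ∈ q', a ∈ b → b ∈ q

instance Df.clx {K : Type u} {s t : Set ZF → Set ZF → (K → ZF) → ZF} [DT K s] [DT K t] :
    Df K fun M U v => Clx (s M U v) (t M U v) :=
  Df.sub2 (R := fun _ _ s t => Clx s t) (by unfold Clx; infer_instance) _ _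

open Classical in
noncomputable def fq (q : ZF) : Colex (Ordinal.{0} →₀ ℕ) :=
  if h : (q : Set ZF).Finite then toColex (Finsupp.onFinset (h.toFinset.image rank)
    (fun o => if o.toZFSet ∈ q then 1 else 0) (by
      intro o ho
      simp only [Finset.mem_image, Set.Finite.mem_toFinset]
      exact ⟨o.toZFSet, by by_contra hc; exact ho (if_neg hc), by simp⟩)) else 0

open Classical in
theorem fq_apply {q : ZF} (h : FinOrd q) (o : Ordinal.{0}) :
    ofColex (fq q) o = if o.toZFSet ∈ q then 1 else 0 := by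
  simp [fq, h.2]

theorem ord_eq {x : ZF} (h : x.IsOrdinal) : ∃ o : Ordinal.{0}, x = o.toZFSet :=
  ⟨_, h.toZFSet_rank_eq.symm⟩

theorem fq_inj {q q' : ZF} (h : FinOrd q) (h' : FinOrd q') (e : fq q = fq q') : q = q' := by
  have : ∀ o : Ordinal.{0}, o.toZFSet ∈ q ↔ o.toZFSet ∈ q' := by
    intro o
    have := fq_apply h o
    rw [e, fq_apply h'] at this
    by_cases h1 : o.toZFSet ∈ q <;> by_cases h2 : o.toZFSet ∈ q' <;> simp_all
  ext b
  constructor
  · intro hb; obtain ⟨o, rfl⟩ := ord_eq (h.1 b hb); exact (this o).1 hb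
  · intro hb; obtain ⟨o, rfl⟩ := ord_eq (h'.1 b hb); exact (this o).2 hb

theorem clx_iff {q q' : ZF} (h : FinOrd q) (h' : FinOrd q') : Clx q q' ↔ fq q < fq q' := by
  rw [Finsupp.Colex.lt_iff]
  simp only [fq_apply h, fq_apply h']
  constructor
  · rintro ⟨a, h1, h2, h3, h4⟩
    obtain ⟨o, rfl⟩ := ord_eq (h'.1 a h1)
    refine ⟨o, fun j hj => ?_, by simp [h1, h2]⟩
    have : j.toZFSet ∈ q ↔ j.toZFSet ∈ q' :=
      ⟨fun hj' => h3 _ hj' (by simpa), fun hj' => h4 _ hj' (by simpa)⟩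
    by_cases h1 : j.toZFSet ∈ q <;> by_cases h2 : j.toZFSet ∈ q' <;> simp_all
  · rintro ⟨o, h1, h2⟩
    have key : ∀ j, o < j → (j.toZFSet ∈ q ↔ j.toZFSet ∈ q') := fun j hj => by
      have := h1 j hj
      by_cases h1 : j.toZFSet ∈ q <;> by_cases h2 : j.toZFSet ∈ q' <;> simp_all
    refine ⟨o.toZFSet, ?_, ?_, fun b hb hob => ?_, fun b hb hob => ?_⟩
    · by_contra hc; simp [hc] at h2
    · intro hc; rw [if_pos hc] at h2; split_ifs at h2 <;> omega
    · obtain ⟨j, rfl⟩ := ord_eq (h.1 b hb); exact (key j (by simpa using hob)).1 hb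
    · obtain ⟨j, rfl⟩ := ord_eq (h'.1 b hb); exact (key j (by simpa using hob)).2 hb

theorem elem_dcl {M U B : Set ZF} (hM : Good M) (hB : B ⊆ M) {q : ZF} (hq : FinOrd q)
    (h : q ∈ dcl M U B) : ∀ b ∈ q, b ∈ dcl M U B := by
  have key : ∀ n, ∀ b ∈ q, {c | c ∈ q ∧ b ∈ c}.ncard = n → b ∈ dcl M U B := by
    intro n
    induction n using Nat.strong_induction_on with
    | _ n ih =>
      intro b hb hn
      have hbM := hM.trans _ (dcl_sub h) b hb
      by_cases hne : ∃ c ∈ q, b ∈ c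
      · obtain ⟨c, hc, hmin⟩ := ZFSet.mem_wf.has_min {c | c ∈ q ∧ b ∈ c} hne
        have hcd : c ∈ dcl M U B := by
          refine ih _ ?_ c hc.1 rfl
          rw [← hn]
          refine Set.ncard_lt_ncard ⟨fun d hd => ⟨hd.1, (hq.1 d hd.1).mem_trans hc.2 hd.2⟩,
            fun hs => mem_irrefl c (hs hc).2⟩ (hq.2.subset fun d hd => hd.1)
        refine mem_dcl' hM hB (fun _ _ v => v 0 ∈ v 1 ∧ v 0 ∈ v 2 ∧
          ∀ d ∈ v 1, v 0 ∈ d → d ∉ v 2) (cons q fun _ => c) (cons_mem h fun _ => hcd) hbM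
          fun a ha => ⟨fun ⟨h1, h2, h3⟩ => ?_, ?_⟩
        · rcases (hq.1 a h1).mem_trichotomous (hq.1 b hb) with h4 | h4 | h4
          · exact (h3 b hb h4 hc.2).elim
          · exact h4
          · exact (hmin a ⟨h1, h4⟩ h2).elim
        · rintro rfl
          exact ⟨hb, hc.2, fun d hd h1 h2 => hmin d ⟨hd, h1⟩ h2⟩
      · refine mem_dcl' hM hB (fun _ _ v => v 0 ∈ v 1 ∧ ∀ d ∈ v 1, v 0 ∉ d) (fun _ => q)
          (fun _ => h) hbM fun a ha => ⟨fun ⟨h1, h3⟩ => ?_, ?_⟩
        · rcases (hq.1 a h1).mem_trichotomous (hq.1 b hb) with h4 | h4 | h4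
          · exact (h3 b hb h4).elim
          · exact h4
          · exact (hne ⟨a, h1, h4⟩).elim
        · rintro rfl
          exact ⟨hb, fun d hd h1 => hne ⟨d, hd, h1⟩⟩
  exact fun b hb => key _ b hb rfl

/-- The finite set of entries of a list. -/
def setL : List ZF → ZF
  | [] => ∅
  | a :: l => insert a (setL l)

@[simp] theorem mem_setL {l : List ZF} {b : ZF} : b ∈ setL l ↔ b ∈ l := by
  induction l with
  | nil => simp [setL]
  | cons a l ih => simp [setL, ih]

theorem finOrd_setL {l : List ZF} (h : ∀ b ∈ l, b.IsOrdinal) : FinOrd (setL l) :=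
  ⟨fun b hb => h b (mem_setL.1 hb), (List.finite_toSet l).subset fun b hb => mem_setL.1 hb⟩

theorem Good.setL {M : Set ZF} (hM : Good M) {l : List ZF} (h : ∀ b ∈ l, b ∈ M) : setL l ∈ M := by
  induction l with
  | nil => exact hM.empty
  | cons a l ih =>
    simp only [List.forall_mem_cons] at h
    exact hM.ins _ h.1 _ (ih h.2)

theorem setL_mem_dcl {M U B : Set ZF} (hM : Good M) (hB : B ⊆ M) {l : List ZF}
    (hl : ∀ b ∈ l, b ∈ dcl M U B) : setL l ∈ dcl M U B := by
  induction l with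
  | nil => exact empty_mem_dcl hM
  | cons a l ih =>
    simp only [List.forall_mem_cons] at hl
    exact insert_mem_dcl hM hB hl.1 (ih hl.2)

theorem exists_setL {q : ZF} (h : (q : Set ZF).Finite) : ∃ l, q = setL l :=
  ⟨h.toFinset.toList, ZFSet.ext fun b => by simp⟩

end Pool.Agent.MP_477625_lc.H75
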