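import Pool.Agent.MP_477625_lc.H75.Hen

/-! Premice, realizations of iterated ultrapowers, and iterable premice. -/

namespace Pool.Agent.MP_477625_lc.H75
open ZFSet Cardinal

universe u v

set_option linter.unusedVariables false
set_option synthInstance.maxSize 100000

instance (priority := low) Df.extP {K : Type u} {J : Type v}
    {P : Set ZF → Set ZF → (Option K → ZF) → Prop} [h : Df (Option K) P] (a : J) (g : K → J) :
    Df J fun M U w => P M U (ext (w a) fun k => w (g k)) :=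
  (h.comp fun k => k.elim a g).congr fun M U _ w _ => by
    have : (ext (w a) fun k => w (g k)) = fun k : Option K => w (k.elim a g) := by
      funext k; cases k <;> rfl
    rw [this]

structure AxU (M U : Set ZF) (W μ : ZF) : Prop where
  ord : μ.IsOrdinal
  sub : ∀ X ∈ W, X ⊆ μ
  ne : ∅ ∉ W
  top : μ ∈ W
  inter : ∀ X ∈ W, ∀ Y ∈ W, X ∩ Y ∈ W
  up : ∀ X ∈ W, ∀ Y ∈ M, X ⊆ Y → Y ⊆ μ → Y ∈ W
  ultra : ∀ X ∈ M, X ⊆ μ → X ∈ W ∨ μ \ X ∈ W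
  tail : ∀ a ∈ μ, μ.sep (fun ζ => a ∈ ζ) ∈ W
  normal : ∀ g ∈ M, μ.sep (fun ζ => ∃ a ∈ ζ, pair ζ a ∈ g) ∈ W →
    ∃ a ∈ μ, μ.sep (fun ζ => pair ζ a ∈ g) ∈ W
  anti : ∀ a ∈ M, ∀ b ∈ M, pair a b ∈ U → pair b a ∉ U

structure AxL (M : Set ZF) (W : ZF) : Prop where
  vl : ∀ x ∈ M, ∃ α ∈ M, α.IsOrdinal ∧ ∃ y ∈ M, LIn M W α y ∧ x ∈ y
  lev : ∀ α ∈ M, α.IsOrdinal → ∃ y ∈ M, LIn M W α y
  sat : ∀ x ∈ M, ∃ S ∈ M, IsSat S x W
  hset : ∀ D ∈ M, ∀ P ∈ M, ∃ S ∈ M, IsHSet S D P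
  tr : ∀ η ∈ M, ∃ z ∈ M, Tr η ⊆ z

def Ax (M U : Set ZF) (W μ : ZF) : Prop := AxU M U W μ ∧ AxL M W

theorem df_ax : Df ℕ fun M U v => Ax M U (v 0) (v 1) := by
  have h1 : Df ℕ fun M U v => AxU M U (v 0) (v 1) :=
    (inferInstance : Df ℕ fun M U v => (v 1).IsOrdinal ∧ (∀ X ∈ v 0, X ⊆ v 1) ∧ ∅ ∉ v 0 ∧
      v 1 ∈ v 0 ∧ (∀ X ∈ v 0, ∀ Y ∈ v 0, X ∩ Y ∈ v 0) ∧
      (∀ X ∈ v 0, ∀ Y ∈ M, X ⊆ Y → Y ⊆ v 1 → Y ∈ v 0) ∧
      (∀ X ∈ M, X ⊆ v 1 → X ∈ v 0 ∨ v 1 \ X ∈ v 0) ∧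
      (∀ a ∈ v 1, (v 1).sep (fun ζ => a ∈ ζ) ∈ v 0) ∧
      (∀ g ∈ M, (v 1).sep (fun ζ => ∃ a ∈ ζ, pair ζ a ∈ g) ∈ v 0 →
        ∃ a ∈ v 1, (v 1).sep (fun ζ => pair ζ a ∈ g) ∈ v 0) ∧
      (∀ a ∈ M, ∀ b ∈ M, pair a b ∈ U → pair b a ∉ U)).congr fun _ _ _ _ _ =>
      ⟨fun h => ⟨h.1, h.2, h.3, h.4, h.5, h.6, h.7, h.8, h.9, h.10⟩,
        fun ⟨a, b, c, d, e, f, g, h, i, j⟩ => ⟨a, b, c, d, e, f, g, h, i, j⟩⟩
  have h2 : Df ℕ fun M U v => AxL M (v 0) :=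
    (inferInstance : Df ℕ fun M U v =>
      (∀ x ∈ M, ∃ α ∈ M, α.IsOrdinal ∧ ∃ y ∈ M, LIn M (v 0) α y ∧ x ∈ y) ∧
      (∀ α ∈ M, α.IsOrdinal → ∃ y ∈ M, LIn M (v 0) α y) ∧
      (∀ x ∈ M, ∃ S ∈ M, IsSat S x (v 0)) ∧ (∀ D ∈ M, ∀ P ∈ M, ∃ S ∈ M, IsHSet S D P) ∧
      (∀ η ∈ M, ∃ z ∈ M, Tr η ⊆ z)).congr fun _ _ _ _ _ =>
      ⟨fun h => ⟨h.1, h.2, h.3, h.4, h.5⟩, fun ⟨a, b, c, d, e⟩ => ⟨a, b, c, d, e⟩⟩
  exact Df.and (h := h1) (h' := h2)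

instance Df.ax {K : Type u} {s t : Set ZF → Set ZF → (K → ZF) → ZF} [DT K s] [DT K t] :
    Df K fun M U v => Ax M U (s M U v) (t M U v) := Df.sub2 df_ax _ _

structure PM (N O W μ : ZF) : Prop where
  good : Good (N : Set ZF)
  hW : W ∈ N
  hμ : μ ∈ N
  ax : Ax (N : Set ZF) (O : Set ZF) W μ
  sep : ∀ (φ : Fml) (l : List ZF), (∀ b ∈ l, b ∈ N) → ∀ a ∈ N,
    a.sep (fun b => Sat (N : Set ZF) (O : Set ZF) φ (cons b (asg l))) ∈ N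
  sk : ∀ (φ : Fml) (l : List ZF), (∀ b ∈ l, b ∈ N) →
    (∃ y ∈ N, Sat (N : Set ZF) (O : Set ZF) φ (cons y (asg l))) →
    ∃ y ∈ N, Sat (N : Set ZF) (O : Set ZF) φ (cons y (asg l)) ∧
      ∀ y' ∈ N, Sat (N : Set ZF) (O : Set ZF) φ (cons y' (asg l)) → y' = y ∨ pair y y' ∈ O

theorem sep_congr {a : ZF} {p q : ZF → Prop} (h : ∀ b ∈ a, p b ↔ q b) : a.sep p = a.sep q := by
  ext b; simp only [mem_sep]; exact and_congr_right (h b)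

theorem map_mem {K : Type u} {N : Set ZF} {v : K → ZF} (hv : ∀ k, v k ∈ N) (l : List K) :
    ∀ b ∈ l.map v, b ∈ N := fun b hb => by
  obtain ⟨k, -, rfl⟩ := List.mem_map.1 hb; exact hv k

section
variable {N O W μ : ZF}

theorem PM.sepD (h : PM N O W μ) {K : Type u} (P : Set ZF → Set ZF → (Option K → ZF) → Prop)
    [hP : Df (Option K) P] (v : K → ZF) (hv : ∀ k, v k ∈ N) {a : ZF} (ha : a ∈ N) :
    a.sep (fun b => P N O (ext b v)) ∈ N := by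
  obtain ⟨φ, l, hl⟩ := hP.toList
  rw [sep_congr fun b hb => hl _ _ h.good v hv b (h.good.trans a ha b hb)]
  exact h.sep φ _ (map_mem hv l) a ha

theorem PM.skD (h : PM N O W μ) {K : Type u} (P : Set ZF → Set ZF → (Option K → ZF) → Prop)
    [hP : Df (Option K) P] (v : K → ZF) (hv : ∀ k, v k ∈ N) (hy : ∃ y ∈ N, P N O (ext y v)) :
    ∃ y ∈ N, P N O (ext y v) ∧ ∀ y' ∈ N, P N O (ext y' v) → y' = y ∨ pair y y' ∈ O := by
  obtain ⟨φ, l, hl⟩ := hP.toList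
  have e := hl _ O h.good v hv
  obtain ⟨y, hy, h1⟩ := hy
  obtain ⟨y, hy, h1, h2⟩ := h.sk φ _ (map_mem hv l) ⟨y, hy, (e y hy).1 h1⟩
  exact ⟨y, hy, (e y hy).2 h1, fun y' hy' h3 => h2 y' hy' ((e y' hy').1 h3)⟩

theorem PM.pull {N' O' W' μ' : ZF} {σ : ZF → ZF} (h : PM N O W μ)
    (e : Elem (N' : Set ZF) O' N O σ) (hW : W' ∈ N') (hμ : μ' ∈ N') (eW : σ W' = W)
    (eμ : σ μ' = μ) : PM N' O' W' μ' where
  good := e.good
  hW := hW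
  hμ := hμ
  ax := (e.t2 Ax hW hμ).2 (eW ▸ eμ ▸ h.ax)
  sep φ l hl a ha := by
    refine (e.df (fun M U w => (w none).sep
      (fun b => Sat M U φ (cons b fun n => w (some n))) ∈ M) (ext a (asg l))
      (ext_mem ha (asg_mem e.good.empty hl))).2 ?_
    simp only [ext_none, ext_some, e.asg_map]
    exact h.sep φ _ (fun b hb => by
      obtain ⟨b, hb', rfl⟩ := List.mem_map.1 hb; exact e.map b (hl b hb')) _ (e.map a ha)
  sk φ l hl := by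
    refine (e.df (fun M U w => (∃ y ∈ M, Sat M U φ (cons y fun n => w n)) →
      ∃ y ∈ M, Sat M U φ (cons y fun n => w n) ∧ ∀ y' ∈ M, Sat M U φ (cons y' fun n => w n) →
        y' = y ∨ pair y y' ∈ U) (asg l) (asg_mem e.good.empty hl)).2 ?_
    simp only [e.asg_map]
    exact h.sk φ _ fun b hb => by
      obtain ⟨b, hb', rfl⟩ := List.mem_map.1 hb; exact e.map b (hl b hb')

end

structure Real (N O W μ : ZF) {I : Type v} (r : I → I → Prop) (M U : Set ZF) (j : ZF → ZF)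
    (c : I → ZF) : Prop where
  elem : Elem (N : Set ZF) O M U j
  cmem : ∀ i, c i ∈ M
  gen : ∀ i (φ : Fml) (l : List ZF), (∀ b ∈ l, (∃ a ∈ N, j a = b) ∨ ∃ i', r i' i ∧ c i' = b) →
    ((j μ).sep (fun ζ => Sat M U φ (cons ζ (asg l))) ∈ j W ↔ Sat M U φ (cons (c i) (asg l)))

section
variable {N O W μ : ZF} {I : Type v} {r : I → I → Prop} {M U : Set ZF} {j : ZF → ZF} {c : I → ZF}

theorem Real.genD (h : Real N O W μ r M U j c) (hμ : μ ∈ N) {K : Type u}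
    (P : Set ZF → Set ZF → (Option K → ZF) → Prop) [hP : Df (Option K) P] (i : I) (w : K → ZF)
    (hw : ∀ k, (∃ a ∈ N, j a = w k) ∨ ∃ i', r i' i ∧ c i' = w k) :
    (j μ).sep (fun ζ => P M U (ext ζ w)) ∈ j W ↔ P M U (ext (c i) w) := by
  obtain ⟨φ, l, hl⟩ := hP.toList
  have hw' : ∀ k, w k ∈ M := fun k => by
    rcases hw k with ⟨a, ha, e⟩ | ⟨i', -, e⟩
    · exact e ▸ h.elem.map a ha
    · exact e ▸ h.cmem i'
  have e := hl _ U h.elem.good' w hw'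
  rw [e _ (h.cmem i), sep_congr fun b hb => e b (h.elem.good'.trans _ (h.elem.map μ hμ) b hb)]
  exact h.gen i φ _ fun b hb => by obtain ⟨k, -, rfl⟩ := List.mem_map.1 hb; exact hw k

theorem Real.pull {N' O' W' μ' : ZF} {σ : ZF → ZF} (h : Real N O W μ r M U j c)
    (e : Elem (N' : Set ZF) O' N O σ) (eW : σ W' = W) (eμ : σ μ' = μ) :
    Real N' O' W' μ' r M U (fun a => j (σ a)) c where
  elem := e.comp h.elem
  cmem := h.cmem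
  gen i φ l hl := by
    simp only [eW, eμ]
    exact h.gen i φ l fun b hb => (hl b hb).imp_left fun ⟨a, ha, e'⟩ => ⟨_, e.map a ha, e'⟩

end

/-- Iterable premice. -/
structure EM (N O W μ : ZF) : Prop where
  pm : PM N O W μ
  real : ∀ r : ℕ → ℕ → Prop, WellFounded r → ∃ M U j c, Real N O W μ r M U j c

theorem EM.pull {N O W μ N' O' W' μ' : ZF} {σ : ZF → ZF} (h : EM N O W μ)
    (e : Elem (N' : Set ZF) O' N O σ) (hW : W' ∈ N') (hμ : μ' ∈ N') (eW : σ W' = W)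
    (eμ : σ μ' = μ) : EM N' O' W' μ' :=
  ⟨h.pm.pull e hW hμ eW eμ, fun r hr =>
    let ⟨M, U, j, c, h⟩ := h.real r hr
    ⟨M, U, _, c, h.pull e eW eμ⟩⟩

/-- The iterate of length `κ`. -/
structure Iter (κ : Cardinal.{0}) (U N O W μ : ZF) (M O' : Set ZF) (j : ZF → ZF)
    (c : Set.Iio κ.ord → ZF) : Prop where
  real : Real N O W μ (· < ·) M O' j c
  fix : ∀ a ∈ μ, j a = a
  hW : ∀ X ∈ M, X ∈ j W ↔ X ∈ U
  pull : ∀ (φ : Fml) (v : ℕ → ZF), (∀ n, v n ∈ M) → ∀ η ∈ μ,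
    (Tr η).sep (fun a => Sat M O' φ (cons a v)) ∈ N
  emb : ∀ (M' U' : Set ZF) (j' : ZF → ZF) (c' : Set.Iio κ.ord → ZF),
    Real N O W μ (· < ·) M' U' j' c' → ∀ x ∈ M, ∃ y ∈ M', x.rank ≤ y.rank

open Classical in
/-- The Mostowski collapse of a well-founded relation on a small type. -/
noncomputable def wval {α : Type u} [Small.{0} α] (r : α → α → Prop) (a : α) : ZF :=
  if h : WellFounded r then
    h.fix (fun a rec => range fun b : {b // r b a} => rec b.1 b.2) a else ∅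

theorem mem_wval {α : Type u} [Small.{0} α] {r : α → α → Prop} (h : WellFounded r) {a : α}
    {z : ZF} : z ∈ wval r a ↔ ∃ b, r b a ∧ wval r b = z := by
  simp only [wval, dif_pos h]
  rw [h.fix_eq, mem_range]
  exact ⟨fun ⟨b, e⟩ => ⟨b.1, b.2, e⟩, fun ⟨b, h, e⟩ => ⟨⟨b, h⟩, e⟩⟩

end Pool.Agent.MP_477625_lc.H75
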