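import Pool.Agent.MP_477625_lc.H75.HC

/-! The internal definition of iterable premice, and premice obtained from hulls of the universe. -/

namespace Pool.Agent.MP_477625_lc.H75
open ZFSet Cardinal

universe u v

set_option linter.unusedVariables false
set_option linter.unusedSectionVars false
set_option synthInstance.maxSize 100000

def SepS (N S : ZF) : Prop :=
  ∀ n ∈ om, ∀ s ∈ Lst N, ∀ a ∈ N, a.sep (fun b => pair n (pair b s) ∈ S) ∈ N

def SkS (N O S : ZF) : Prop := ∀ n ∈ om, ∀ s ∈ Lst N, (∃ y ∈ N, pair n (pair y s) ∈ S) →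
  ∃ y ∈ N, pair n (pair y s) ∈ S ∧ ∀ y' ∈ N, pair n (pair y' s) ∈ S → y' = y ∨ pair y y' ∈ O

def WfIn (M : Set ZF) (r : ZF) : Prop := ∀ Z ∈ M, ∀ a ∈ Z, ∃ a' ∈ Z, ∀ b ∈ Z, pair b a' ∉ r

def RealS (N W μ S r N' S' f g : ZF) : Prop :=
  Good (N' : Set ZF) ∧ (∀ a ∈ N, ∃ a' ∈ N', pair a a' ∈ f) ∧
  (∀ n ∈ om, ∀ s ∈ Lst N, ∀ s' ∈ Lst N', MapL f s s' → (pair n s ∈ S ↔ pair n s' ∈ S')) ∧
  (∀ i ∈ om, ∃ c ∈ N', pair i c ∈ g) ∧
  ∀ i ∈ om, ∀ c ∈ N', pair i c ∈ g → ∀ μ' ∈ N', ∀ W' ∈ N', pair μ μ' ∈ f → pair W W' ∈ f →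
    ∀ n ∈ om, ∀ s ∈ Lst N', (∀ b ∈ N', Ent b s → (∃ a ∈ N, pair a b ∈ f) ∨
      ∃ i' ∈ om, pair i' i ∈ r ∧ pair i' b ∈ g) →
      (μ'.sep (fun ζ => pair n (pair ζ s) ∈ S') ∈ W' ↔ pair n (pair c s) ∈ S')

def MouseIn (M : Set ZF) (N O W μ : ZF) : Prop :=
  ((Good (N : Set ZF) ∧ W ∈ N ∧ μ ∈ N) ∧ Ax (N : Set ZF) (O : Set ZF) W μ) ∧
  ∃ S ∈ M, IsSat S N O ∧ SepS N S ∧ SkS N O S ∧ ∀ r ∈ M, WfIn M r →
    ∃ N' ∈ M, ∃ O' ∈ M, ∃ S' ∈ M, ∃ f ∈ M, ∃ g ∈ M, IsSat S' N' O' ∧ RealS N W μ S r N' S' f g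

section
variable {K : Type u} {a b c d e f g h i : Set ZF → Set ZF → (K → ZF) → ZF}

instance Df.sepS [DT K a] [DT K b] : Df K fun M U v => SepS (a M U v) (b M U v) :=
  Df.sub2 (R := fun _ _ => SepS) (by unfold SepS; infer_instance) _ _

instance Df.skS [DT K a] [DT K b] [DT K c] :
    Df K fun M U v => SkS (a M U v) (b M U v) (c M U v) :=
  Df.sub3 (R := fun _ _ => SkS) (by unfold SkS; infer_instance) _ _ _

instance Df.wfIn [DT K a] : Df K fun M U v => WfIn M (a M U v) :=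
  Df.sub1 (R := fun M _ => WfIn M) (by unfold WfIn; infer_instance) _

instance Df.realS [DT K a] [DT K b] [DT K c] [DT K d] [DT K e] [DT K f] [DT K g] [DT K h]
    [DT K i] : Df K fun M U v => RealS (a M U v) (b M U v) (c M U v) (d M U v) (e M U v)
      (f M U v) (g M U v) (h M U v) (i M U v) :=
  Df.sub9 (R := fun _ _ => RealS) (by unfold RealS; infer_instance) _ _ _ _ _ _ _ _ _

instance Df.mouseIn [DT K a] [DT K b] [DT K c] [DT K d] :
    Df K fun M U v => MouseIn M (a M U v) (b M U v) (c M U v) (d M U v) := by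
  refine Df.sub4 (R := fun M _ => MouseIn M) ?_ _ _ _ _
  have h1 : Df ℕ fun M U v => (Good (v 0 : Set ZF) ∧ v 2 ∈ v 0 ∧ v 3 ∈ v 0) ∧
      Ax (v 0 : Set ZF) (v 1 : Set ZF) (v 2) (v 3) :=
    df_ax.rel (s := fun _ _ v => v 0) (t := fun _ _ v => v 1)
      (cons (fun _ _ v => v 2) fun _ _ _ v => v 3) (DT.cons_all (DT.var 2) fun _ => DT.var 3)
      (G := fun M U v => Good (v 0 : Set ZF) ∧ v 2 ∈ v 0 ∧ v 3 ∈ v 0) inferInstance
      fun M U v h => ⟨h.1, fun j => by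
        cases j
        · exact h.2.1
        · exact h.2.2⟩
  unfold MouseIn
  exact Df.and (h := h1)

end

theorem sat_asg_range (M U : Set ZF) (φ : Fml) (v : ℕ → ZF) :
    Sat M U φ v ↔ Sat M U φ (asg ((List.range φ.bd).map v)) :=
  sat_congr _ _ _ _ _ fun n hn => by simp [asg, hn]

theorem forall₂_map {f : ZF} {j : ZF → ZF} {l : List ZF} (h : ∀ a ∈ l, pair a (j a) ∈ f) :
    List.Forall₂ (fun a a' => pair a a' ∈ f) l (l.map j) := by
  rw [List.forall₂_map_right_iff]; exact List.forall₂_same.2 h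

theorem MouseIn.pm {M : Set ZF} {N O W μ : ZF} (h : MouseIn M N O W μ) : PM N O W μ := by
  obtain ⟨⟨⟨g, hW, hμ⟩, ax⟩, _, -, rfl, h1, h2, -⟩ := h
  refine ⟨g, hW, hμ, ax, fun φ l hl a ha => ?_, fun φ l hl => ?_⟩
  · rw [← sep_SatSet hl a (g.trans a ha)]
    exact h1 _ (nat_mem_om _) _ (ZL_mem_Lst.2 hl) a ha
  · have := h2 _ (nat_mem_om φ.code) _ (ZL_mem_Lst.2 hl)
    rintro ⟨y, hy, e⟩
    obtain ⟨y, hy, e1, e2⟩ := this ⟨y, hy, (mem_SatSet' hy hl).2 e⟩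
    exact ⟨y, hy, (mem_SatSet' hy hl).1 e1, fun y' hy' e => e2 y' hy' ((mem_SatSet' hy' hl).2 e)⟩

theorem MouseIn.em {c : Cardinal.{0}} (hc : ℵ₀ ≤ c) {N O W μ : ZF}
    (h : MouseIn (HC c) N O W μ) : EM N O W μ := by
  refine ⟨h.pm, fun r hr => ?_⟩
  have p := h.pm
  obtain ⟨-, _, -, rfl, -, -, h3⟩ := h
  let r' := (Tr om).sep fun w => ∃ a b, w = pair (nat a) (nat b) ∧ r a b
  have hr' : ∀ a b, r a b → pair (nat a) (nat b) ∈ r' := fun a b e => mem_sep.2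
    ⟨pair_mem_Tr (mem_Tr_of_mem (nat_mem_om a)) (mem_Tr_of_mem (nat_mem_om b)), a, b, rfl, e⟩
  have wf : WellFounded fun b a => pair b a ∈ r' := by
    refine Subrelation.wf (fun {b a} e => ?_) (InvImage.wf (Function.invFun nat) hr)
    obtain ⟨a', b', e, h⟩ := (mem_sep.1 e).2
    obtain ⟨rfl, rfl⟩ := pair_inj.1 e
    have := Function.leftInverse_invFun (f := nat) fun _ _ => nat_inj.1
    simpa only [InvImage, this a', this b'] using h
  obtain ⟨N', -, O', -, _, -, f, -, g, -, rfl, g', h4, h5, h6, h7⟩ := h3 r'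
    (HC.sub hc (HC.tr hc (HC.om_mem hc)) sep_subset) fun Z _ a ha => wf.has_min (Z : Set ZF) ⟨a, ha⟩
  choose! j j1 j2 using h4
  choose! c c1 c2 using h6
  refine ⟨N', O', j, fun i => c (nat i), ⟨⟨j1, fun φ v hv => ?_⟩, p.good, g'⟩,
    fun i => c1 _ (nat_mem_om i), fun i φ l hl => ?_⟩
  · have hl : ∀ b ∈ (List.range φ.bd).map v, b ∈ N := map_mem hv (List.range φ.bd)
    have hl' : ∀ b ∈ ((List.range φ.bd).map v).map j, b ∈ N' := fun b hb => by
      obtain ⟨a, ha, rfl⟩ := List.mem_map.1 hb; exact j1 a (hl a ha)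
    have := h5 _ (nat_mem_om φ.code) _ (ZL_mem_Lst.2 hl) _ (ZL_mem_Lst.2 hl')
      (mapL_ZL.2 (forall₂_map fun a ha => j2 a (hl a ha)))
    rw [mem_SatSet, mem_SatSet, and_iff_right hl, and_iff_right hl', List.map_map] at this
    rw [sat_asg_range, this, sat_asg_range _ _ _ fun n => j (v n)]
    rfl
  · have hl' : ∀ b ∈ l, b ∈ N' := fun b hb => by
      rcases hl b hb with ⟨a, ha, rfl⟩ | ⟨i', -, rfl⟩
      · exact j1 a ha
      · exact c1 _ (nat_mem_om i')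
    have := h7 _ (nat_mem_om i) _ (c1 _ (nat_mem_om i)) (c2 _ (nat_mem_om i)) _ (j1 μ p.hμ) _
      (j1 W p.hW) (j2 μ p.hμ) (j2 W p.hW) _ (nat_mem_om φ.code) _ (ZL_mem_Lst.2 hl')
      fun b _ hb => by
        rcases hl b (ent_ZL.1 hb) with ⟨a, ha, rfl⟩ | ⟨i', e, rfl⟩
        · exact Or.inl ⟨a, ha, j2 a ha⟩
        · exact Or.inr ⟨_, nat_mem_om i', hr' _ _ e, c2 _ (nat_mem_om i')⟩
    rwa [sep_SatSet hl' _ (g'.trans _ (j1 μ p.hμ)), mem_SatSet' (c1 _ (nat_mem_om i)) hl'] at this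

theorem forall₂_graph {N : ZF} {j : ZF → ZF} {l l' : List ZF}
    (h : List.Forall₂ (fun a a' => pair a a' ∈ graph N j) l l') : l' = l.map j := by
  induction h with
  | nil => rfl
  | cons h _ ih => rw [List.map_cons, ih, (mem_graph.1 h).2]

theorem mouseIn_of {c : Cardinal.{0}} (hc : ℵ₀ ≤ c) {N O W μ : ZF} (hN : N ∈ HC c)
    (p : PM N O W μ) (h : ∀ r : ℕ → ℕ → Prop, WellFounded r → ∃ N' ∈ HC c, ∃ O' ∈ HC c, ∃ j e,
      Real N O W μ r (N' : Set ZF) (O' : Set ZF) j e) : MouseIn (HC c) N O W μ := by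
  refine ⟨⟨⟨p.good, p.hW, p.hμ⟩, p.ax⟩, _, HC.satSet hc hN O, rfl, ?_, ?_, fun r _ hr => ?_⟩
  · simp only [SepS, all_code, all_Lst]
    intro φ l hl a ha
    rw [sep_SatSet hl a (p.good.trans a ha)]
    exact p.sep φ l hl a ha
  · simp only [SkS, all_code, all_Lst]
    rintro φ l hl ⟨y, hy, e⟩
    obtain ⟨y, hy, e1, e2⟩ := p.sk φ l hl ⟨y, hy, (mem_SatSet' hy hl).1 e⟩
    exact ⟨y, hy, (mem_SatSet' hy hl).2 e1, fun y' hy' e => e2 y' hy' ((mem_SatSet' hy' hl).1 e)⟩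
  · have wf : WellFounded fun a b => pair (nat a) (nat b) ∈ r := by
      refine WellFounded.wellFounded_iff_has_min.2 fun s ⟨n, hn⟩ => ?_
      obtain ⟨a, ha, h1⟩ := hr (om.sep fun x => ∃ n ∈ s, x = nat n)
        (HC.sub hc (HC.om_mem hc) sep_subset) (nat n) (mem_sep.2 ⟨nat_mem_om n, n, hn, rfl⟩)
      obtain ⟨m, hm, rfl⟩ := (mem_sep.1 ha).2
      exact ⟨m, hm, fun k hk => h1 _ (mem_sep.2 ⟨nat_mem_om k, k, hk, rfl⟩)⟩
    obtain ⟨N', hN', O', hO', j, e, hr⟩ := h _ wf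
    have inv := Function.leftInverse_invFun (f := nat) fun _ _ => nat_inj.1
    have el := hr.elem
    refine ⟨N', hN', O', hO', _, HC.satSet hc hN' O', graph N j,
      HC.graph_mem hc hN fun x hx => HC.trans _ hN' _ (el.map x hx),
      graph om fun x => e (Function.invFun nat x),
      HC.graph_mem hc (HC.om_mem hc) fun x hx => HC.trans _ hN' _ (hr.cmem _), rfl, el.good',
      fun a ha => ⟨_, el.map a ha, mem_graph.2 ⟨ha, rfl⟩⟩, ?_,
      fun i hi => ⟨_, hr.cmem _, mem_graph.2 ⟨hi, rfl⟩⟩, ?_⟩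
    · simp only [all_code, all_Lst, mapL_ZL]
      intro φ l hl l' hl' h1
      rw [mem_SatSet, mem_SatSet, and_iff_right hl, and_iff_right hl', forall₂_graph h1,
        ← el.asg_map]
      exact el.sat φ _ (asg_mem p.good.empty hl)
    · rw [all_om]
      intro i a ha h1 μ' _ W' _ h2 h3
      rw [(mem_graph.1 h2).2, (mem_graph.1 h3).2, (mem_graph.1 h1).2, inv i]
      simp only [all_code, all_Lst, ent_ZL]
      intro φ l hl h4
      rw [sep_SatSet hl _ (el.good'.trans _ (el.map μ p.hμ)), mem_SatSet' (hr.cmem i) hl]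
      refine hr.gen i φ l fun b hb => ?_
      rcases h4 b (hl b hb) hb with ⟨a, ha, h5⟩ | ⟨i', hi', h5, h6⟩
      · exact Or.inl ⟨a, ha, (mem_graph.1 h5).2.symm⟩
      · obtain ⟨i', rfl⟩ := mem_om.1 hi'
        exact Or.inr ⟨i', h5, by rw [(mem_graph.1 h6).2, inv i']⟩

theorem Elem.factor {A B A' B' M U : Set ZF} {k k' σ : ZF → ZF} (h : Elem A B M U k)
    (h' : Elem A' B' M U k') (hσ : ∀ a ∈ A, σ a ∈ A' ∧ k' (σ a) = k a) : Elem A B A' B' σ where
  map a ha := (hσ a ha).1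
  sat φ v hv := by
    rw [h.sat φ v hv, h'.sat φ _ fun n => (hσ _ (hv n)).1]
    simp only [fun n => (hσ _ (hv n)).2]
  good := h.good
  good' := h'.good

theorem Real.factor {N O W μ : ZF} {I : Type v} {r : I → I → Prop} {M U A B : Set ZF}
    {j k σ : ZF → ZF} {c c' : I → ZF} (h : Real N O W μ r M U j c) (hW : W ∈ N) (hμ : μ ∈ N)
    (h' : Elem A B M U k) (hσ : ∀ a ∈ N, σ a ∈ A ∧ k (σ a) = j a)
    (hc : ∀ i, c' i ∈ A ∧ k (c' i) = c i) : Real N O W μ r A B σ c' where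
  elem := h.elem.factor h' hσ
  cmem i := (hc i).1
  gen i φ l hl := by
    have hl' : ∀ b ∈ l, b ∈ A := fun b hb => by
      rcases hl b hb with ⟨a, ha, rfl⟩ | ⟨i', -, rfl⟩
      · exact (hσ a ha).1
      · exact (hc i').1
    refine (h'.df (fun M U w => (w none).sep (fun ζ => Sat M U φ
      (cons ζ fun n => w (some (some (some n))))) ∈ w (some none) ↔
      Sat M U φ (cons (w (some (some none))) fun n => w (some (some (some n)))))
      (ext (σ μ) (ext (σ W) (ext (c' i) (asg l))))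
      (ext_mem (hσ μ hμ).1 (ext_mem (hσ W hW).1 (ext_mem (hc i).1
        (asg_mem h'.good.empty hl'))))).2 ?_
    simp only [ext_none, ext_some, h'.asg_map, (hσ μ hμ).2, (hσ W hW).2, (hc i).2]
    refine h.gen i φ _ fun b hb => ?_
    obtain ⟨b, hb', rfl⟩ := List.mem_map.1 hb
    rcases hl b hb' with ⟨a, ha, rfl⟩ | ⟨i', e, rfl⟩
    · exact Or.inl ⟨a, ha, (hσ a ha).2.symm⟩
    · exact Or.inr ⟨i', e, (hc i').2.symm⟩

/-- A global well-order of the universe of sets. -/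
def OO : Set ZF := {w | ∃ a b, w = pair a b ∧ WellOrderingRel a b}

theorem mem_OO {a b : ZF} : pair a b ∈ OO ↔ WellOrderingRel a b := by simp [OO]

theorem exists_least {p : ZF → Prop} (h : ∃ y, p y) :
    ∃ y, p y ∧ ∀ y', p y' → y' = y ∨ pair y y' ∈ OO := by
  obtain ⟨y, h1, h2⟩ := (IsWellFounded.wf (r := WellOrderingRel)).has_min {y | p y} h
  refine ⟨y, h1, fun y' h3 => ?_⟩
  rcases trichotomous_of WellOrderingRel y y' with e | e | e
  · exact Or.inr (mem_OO.2 e)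
  · exact Or.inl e.symm
  · exact absurd e (h2 y' h3)

theorem OO_anti {a b : ZF} (h : pair a b ∈ OO) : pair b a ∉ OO := fun h' =>
  asymm_of WellOrderingRel (mem_OO.1 h) (mem_OO.1 h')

theorem tv_OO (B : Set ZF) : TV Set.univ OO (dcl Set.univ OO B) where
  sub := Set.subset_univ _
  ne := empty_mem_dcl good_univ
  wit φ v hv := by
    rintro ⟨a, -, ha⟩
    obtain ⟨y, h1, h2⟩ := exists_least (p := fun y => Sat Set.univ OO φ (cons y v)) ⟨a, ha⟩
    refine ⟨y, mem_dcl good_univ (Set.subset_univ _) (fun M U w =>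
      Sat M U φ (cons (w none) fun n => w (some n)) ∧ ∀ y' ∈ M,
        Sat M U φ (cons y' fun n => w (some n)) → y' = w none ∨ pair (w none) y' ∈ U) v hv
      trivial fun a _ => ⟨fun h => ?_, fun e => e ▸ ⟨h1, fun y' _ => h2 y'⟩⟩, h1⟩
    rcases h2 a h.1 with e | e
    · exact e
    · exact ((h.2 y trivial h1).resolve_right (OO_anti e)).symm

theorem collapse {c : Cardinal.{0}} (hc : ℵ₀ ≤ c) {M U X : Set ZF} (hM : Good M) (h : TV M U X)
    (hX : #X ≤ lift.{1} c) : ∃ N ∈ HC c, ∃ O ∈ HC c, (N : Set ZF) = col X '' X ∧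
      Elem (N : Set ZF) (O : Set ZF) M U (unc X) := by
  have h1 : #(col X '' X) ≤ lift.{1} c := mk_image_le.trans hX
  have h2 : #(col X '' (X ∩ U)) ≤ lift.{1} c :=
    mk_image_le.trans ((mk_le_mk_of_subset Set.inter_subset_left).trans hX)
  have h3 : ∀ a ∈ col X '' X, a ∈ HC c := fun a ha => ⟨_, ha, col_trans X, h1⟩
  refine ⟨_, HC.zf_mem hc h3 h1, _,
    HC.zf_mem hc (fun a ha => h3 a (Set.image_mono Set.inter_subset_left ha)) h2,
    coe_zf (small_of_le h1), ?_⟩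
  rw [coe_zf (small_of_le h1), coe_zf (small_of_le h2)]
  exact h.elem hM fun x hx => ⟨fun ⟨y, hy, e⟩ => h.col_inj hM hy.1 hx e ▸ hy.2,
    fun h' => ⟨x, ⟨hx, h'⟩, rfl⟩⟩

section
variable {κ : Cardinal.{0}} {U : ZF} (hU : IsNormalMeasure κ U) (hV : ∀ x : ZF, ∃ o, x ∈ LU U o)
include hU hV

theorem ax_univ : Ax Set.univ OO U (cardSet κ) := by
  refine ⟨⟨cardSet_ord κ, hU.subset, hU.empty_notMem, hU.top, fun X hX Y hY => hU.inter hX hY,
    fun X hX Y _ => hU.upward X hX Y, fun X _ => hU.ultra X, fun a ha => hU.tail ha,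
    fun g _ hg => ?_, fun a _ b _ => OO_anti⟩, fun x _ => ?_, fun α _ hα => ?_,
    fun x _ => ⟨_, trivial, rfl⟩, fun D _ P _ => ⟨_, trivial, rfl⟩,
    fun η _ => ⟨_, trivial, subset_rfl⟩⟩
  · have := fun ζ (h : ζ ∈ (cardSet κ).sep fun ζ => ∃ a ∈ ζ, pair ζ a ∈ g) => (mem_sep.1 h).2
    choose! f h1 h2 using this
    obtain ⟨b, hb⟩ := hU.normal _ hg f h1
    obtain ⟨ζ, hζ⟩ := hU.ne hb
    rw [mem_sep] at hζ
    refine ⟨b, (cardSet_ord κ).mem_trans (hζ.2 ▸ h1 ζ hζ.1) (mem_sep.1 hζ.1).1,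
      hU.upward _ hb _ (fun ζ hζ => ?_) sep_subset⟩
    rw [mem_sep] at hζ
    exact mem_sep.2 ⟨(mem_sep.1 hζ.1).1, hζ.2 ▸ h2 ζ hζ.1⟩
  · obtain ⟨o, ho⟩ := hV x
    exact ⟨_, trivial, isOrdinal_toZFSet o, _, trivial, lIn_univ U o, ho⟩
  · obtain ⟨o, rfl⟩ := ord_eq hα
    exact ⟨_, trivial, lIn_univ U o⟩

variable {N O W μ : ZF} {σ : ZF → ZF} (e : Elem (N : Set ZF) (O : Set ZF) Set.univ OO σ)
  (hW : W ∈ N) (hμ : μ ∈ N) (eW : σ W = U) (eμ : σ μ = cardSet κ)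
include e hW hμ eW eμ

theorem pm_univ : PM N O W μ where
  good := e.good
  hW := hW
  hμ := hμ
  ax := (e.t2 Ax hW hμ).2 (eW ▸ eμ ▸ ax_univ hU hV)
  sep φ l hl a ha := (e.df (fun M U w => (w none).sep
      (fun b => Sat M U φ (cons b fun n => w (some n))) ∈ M) (ext a (asg l))
      (ext_mem ha (asg_mem e.good.empty hl))).2 trivial
  sk φ l hl := by
    refine (e.df (fun M U w => (∃ y ∈ M, Sat M U φ (cons y fun n => w n)) →
      ∃ y ∈ M, Sat M U φ (cons y fun n => w n) ∧ ∀ y' ∈ M, Sat M U φ (cons y' fun n => w n) →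
        y' = y ∨ pair y y' ∈ U) (asg l) (asg_mem e.good.empty hl)).2 ?_
    rintro ⟨y, -, hy⟩
    obtain ⟨y, h1, h2⟩ := exists_least
      (p := fun y => Sat Set.univ OO φ (cons y fun n => σ (asg l n))) ⟨y, hy⟩
    exact ⟨y, trivial, h1, fun y' _ => h2 y'⟩

theorem real_univ (hN : N.card < κ) {r : ℕ → ℕ → Prop} (hr : WellFounded r) :
    ∃ c, Real N O W μ r Set.univ OO σ c := by
  classical
  obtain ⟨c, hc⟩ := wf_choice hr (∅ : ZF) (fun i g a => ∀ (φ : Fml) (l : List ZF),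
    (∀ b ∈ l, (∃ a ∈ N, σ a = b) ∨ ∃ i', r i' i ∧ g i' = b) →
    ((cardSet κ).sep (fun ζ => Sat Set.univ OO φ (cons ζ (asg l))) ∈ U ↔
      Sat Set.univ OO φ (cons a (asg l)))) (fun i g => by
      let B : Set ZF := σ '' (N : Set ZF) ∪ Set.range g
      have hB : #B < lift.{1} κ := by
        refine (mk_union_le _ _).trans_lt (add_lt_of_lt (aleph0_le_lift' hU.uncountable.le)
          (mk_image_le.trans_lt ?_) ((Set.countable_range g).le_aleph0.trans_lt ?_))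
        · exact cardinalMk_coe_sort.trans_lt (lift_lt.2 hN)
        · simpa using hU.uncountable
      let Y : Fml × List B → ZF := fun p =>
        (cardSet κ).sep fun ζ => Sat Set.univ OO p.1 (cons ζ (asg (p.2.map Subtype.val)))
      obtain ⟨a, ha⟩ := hU.ne (hU.comp' (fun p => if Y p ∈ U then Y p else cardSet κ \ Y p)
        (mk_fml_list_lt hU.uncountable hB) fun p => by
          split_ifs with h
          · exact h
          · exact (hU.ultra _ sep_subset).resolve_left h)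
      refine ⟨a, fun φ l hl => ?_⟩
      have hl' : ∀ b ∈ l, b ∈ B := fun b hb => (hl b hb).imp_right fun ⟨i', _, e⟩ => ⟨i', e⟩
      lift l to List B using hl'
      have := (mem_sep.1 ha).2 (φ, l)
      split_ifs at this with h
      · exact iff_of_true h (mem_sep.1 this).2
      · exact iff_of_false h fun h' => (mem_sdiff.1 this).2 (mem_sep.2 ⟨(mem_sep.1 ha).1, h'⟩))
    fun i g g' a h1 h2 φ l hl => h2 φ l fun b hb =>
      (hl b hb).imp_right fun ⟨i', e1, e2⟩ => ⟨i', e1, (h1 i' e1).trans e2⟩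
  exact ⟨c, e, fun _ => trivial, fun i => eW ▸ eμ ▸ hc i⟩

theorem mouseIn_univ {c : Cardinal.{0}} (hc : ℵ₀ ≤ c) (hκ : c < κ) (hN : N ∈ HC c) :
    MouseIn (HC c) N O W μ := by
  refine mouseIn_of hc hN (pm_univ hU hV e hW hμ eW eμ) fun r hr => ?_
  obtain ⟨g, hg⟩ := real_univ hU hV e hW hμ eW eμ ((HC.card_le hN).trans_lt hκ) hr
  let B : Set ZF := σ '' (N : Set ZF) ∪ Set.range g
  have hc' := aleph0_le_lift' hc
  have hB : #B ≤ lift.{1} c := (mk_union_le _ _).trans (add_le_of_le hc'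
    (mk_image_le.trans (HC.mk_le hN)) ((Set.countable_range g).le_aleph0.trans hc'))
  have tv := tv_OO B
  obtain ⟨N', h1, O', h2, h3, h4⟩ := collapse hc good_univ tv
    (mk_dcl_le good_univ (Set.subset_univ _) hc' hB)
  have key : ∀ b ∈ B, col (dcl Set.univ OO B) b ∈ (N' : Set ZF) ∧
      unc (dcl Set.univ OO B) (col (dcl Set.univ OO B) b) = b := fun b hb =>
    have := subset_dcl (U := OO) (Set.subset_univ _) hb
    ⟨h3 ▸ ⟨b, this, rfl⟩, tv.unc_col good_univ this⟩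
  exact ⟨N', h1, O', h2, _, _, hg.factor hW hμ h4 (fun a ha => key _ (Or.inl ⟨a, ha, rfl⟩))
    fun i => key _ (Or.inr ⟨i, rfl⟩)⟩

end

theorem TV.col_pair {M U X : Set ZF} (h : TV M U X) (hM : Good M) {a b : ZF} (ha : a ∈ X)
    (hb : b ∈ X) : pair a b ∈ X ∧ col X (pair a b) = pair (col X a) (col X b) := by
  have e := h.elem hM (O := col X '' (X ∩ U)) fun x hx =>
    ⟨fun ⟨y, hy, e⟩ => h.col_inj hM hy.1 hx e ▸ hy.2, fun h' => ⟨x, ⟨hx, h'⟩, rfl⟩⟩
  have h1 := e.pair (a := col X a) (b := col X b) ⟨a, ha, rfl⟩ ⟨b, hb, rfl⟩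
  rw [h.unc_col hM ha, h.unc_col hM hb] at h1
  rw [← h1]
  exact unc_spec (e.good.pair ⟨a, ha, rfl⟩ ⟨b, hb, rfl⟩)

theorem col_empty (X : Set ZF) : col X ∅ = ∅ :=
  (ZFSet.eq_empty _).2 fun y hy => by simpa using mem_col.1 hy

theorem TV.col_Tr {M U X : Set ZF} (h : TV M U X) (hM : Good M) {η : ZF} (ho : η.IsOrdinal)
    (hη : ∀ a ∈ η, a ∈ X) : ∀ y ∈ Tr η, y ∈ X ∧ col X y = y :=
  Tr_ind ⟨h.ne, col_empty X⟩ (fun y hy => ⟨hη y hy, col_fix (A := (η : Set ZF)) hη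
    (fun a ha b hb => ho.mem_trans hb ha) fun b hb => ho.mem_trans hb hy⟩)
    fun a _ b _ ha hb => by
      have := h.col_pair hM ha.1 hb.1
      rw [ha.2, hb.2] at this
      exact this

theorem TV.col_sub_Tr {M U X : Set ZF} (h : TV M U X) (hM : Good M) {η R : ZF}
    (ho : η.IsOrdinal) (hη : ∀ a ∈ η, a ∈ X) (hR : R ⊆ Tr η) : col X R = R := by
  ext z
  rw [mem_col]
  exact ⟨fun ⟨y, h1, _, h3⟩ => by rwa [← h3, (h.col_Tr hM ho hη y (hR h1)).2],
    fun hz => ⟨z, hz, h.col_Tr hM ho hη z (hR hz)⟩⟩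

theorem hull_mouse {κ : Cardinal.{0}} {U : ZF} (hU : IsNormalMeasure κ U)
    (hV : ∀ x : ZF, ∃ o, x ∈ LU U o) {c : Cardinal.{0}} (hc : ℵ₀ ≤ c) (hκ : c < κ) {x y : ZF}
    (hx : x ⊆ Tr (cardSet c)) (hy : y ⊆ Tr (cardSet c)) :
    ∃ N ∈ HC c, ∃ O ∈ HC c, ∃ W μ k, MouseIn (HC c) N O W μ ∧ cardSet c ∈ μ ∧ x ∈ N ∧ y ∈ N ∧
      Elem (N : Set ZF) (O : Set ZF) Set.univ OO k ∧ k W = U ∧ k x = x ∧ k y = y := by
  let B : Set ZF := {U, cardSet κ, cardSet c, x, y} ∪ (cardSet c : Set ZF)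
  have hc' := aleph0_le_lift' hc
  have hB : #B ≤ lift.{1} c := (mk_union_le _ _).trans (add_le_of_le hc'
    ((Set.toFinite _).countable.le_aleph0.trans hc') (HC.mk_le (HC.cardSet_mem hc)))
  have tv := tv_OO B
  obtain ⟨N, h1, O, h2, h3, h4⟩ := collapse hc good_univ tv
    (mk_dcl_le good_univ (Set.subset_univ _) hc' hB)
  set X := dcl Set.univ OO B
  have hX : B ⊆ X := subset_dcl (Set.subset_univ _)
  have key : ∀ b ∈ B, col X b ∈ N ∧ unc X (col X b) = b := fun b hb =>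
    ⟨show _ ∈ (N : Set ZF) from h3 ▸ ⟨b, hX hb, rfl⟩, tv.unc_col good_univ (hX hb)⟩
  have hd : ∀ a ∈ cardSet c, a ∈ X := fun a ha => hX (Or.inr ha)
  have fix : ∀ R, R ⊆ Tr (cardSet c) → col X R = R := fun R =>
    tv.col_sub_Tr good_univ (cardSet_ord c) hd
  have kx := key x (by simp [B])
  have ky := key y (by simp [B])
  rw [fix x hx] at kx
  rw [fix y hy] at ky
  have kU := key U (by simp [B])
  have kκ := key (cardSet κ) (by simp [B])
  refine ⟨N, h1, O, h2, _, _, _, mouseIn_univ hU hV h4 kU.1 kκ.1 kU.2 kκ.2 hc hκ h1, ?_, kx.1,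
    ky.1, h4, kU.2, kx.2, ky.2⟩
  rw [← fix (cardSet c) fun a => mem_Tr_of_mem]
  exact mem_col.2 ⟨_, (mem_cardSet (cardSet_ord c)).2 ((card_cardSet c).trans_lt hκ),
    hX (by simp [B]), rfl⟩

end Pool.Agent.MP_477625_lc.H75
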