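import Pool.Agent.MP_477625_lc.H75.Order

/-! Comparison of hulls by means of iterates, and the solidity lemma. -/

namespace Pool.Agent.MP_477625_lc.H75
open ZFSet Cardinal

universe u v

set_option linter.unusedVariables false
set_option linter.unusedSectionVars false
set_option synthInstance.maxSize 100000

structure Ctx (κ : Cardinal.{0}) (U : ZF) (c : Cardinal.{0}) : Prop where
  hU : IsNormalMeasure κ U
  hV : ∀ x : ZF, ∃ o, x ∈ LU U o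
  hc : ℵ₀ ≤ c
  hκ : c < κ

structure Hull (c : Cardinal.{0}) (X : Set ZF) : Prop where
  hc : ℵ₀ ≤ c
  tv : TV (HC c) ∅ X
  hd : cardSet c ∈ X

theorem Ctx.hull {κ c : Cardinal.{0}} {U : ZF} (h : Ctx κ U c) {B : Set ZF} (hB : B ⊆ HC c)
    (hd : cardSet c ∈ B) : Hull c (dcl (HC c) ∅ B) :=
  ⟨h.hc, tv_HC h.hV h.hU h.hc h.hκ hB (subset_dcl hB hd), subset_dcl hB hd⟩

theorem Col.up {M : Set ZF} (hM : Good M) {d E a : ZF} (h : Col M d E a) : Col Set.univ d E a := by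
  obtain ⟨g, hg, h1, h2, h3⟩ := h
  have m := fun {b y : ZF} (h : pair b y ∈ g) => hM.snd (hM.trans g hg _ h)
  exact ⟨g, trivial, h1, fun b hb => let ⟨y, _, e⟩ := h2 b hb; ⟨y, trivial, e⟩,
    fun b hb y _ e => ⟨(h3 b hb y (m e) e).1, fun b' hb' e1 t _ e2 =>
      (h3 b hb y (m e) e).2 b' hb' e1 t (m e2) e2⟩⟩

theorem Col.wf {M : Set ZF} {d E a Z b : ZF} (h : Col M d E a) (hZ : Z ⊆ d) (hb : b ∈ Z) :
    ¬ ∀ b ∈ Z, ∃ b' ∈ Z, pair b' b ∈ E := by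
  obtain ⟨g, hg, h1, h2, h3⟩ := h
  intro h4
  obtain ⟨y, hy, e⟩ := h2 b (hZ hb)
  obtain ⟨y, ⟨hy, b, hb, e⟩, h5⟩ := ZFSet.mem_wf.has_min {y | y ∈ M ∧ ∃ b ∈ Z, pair b y ∈ g}
    ⟨y, hy, b, hb, e⟩
  obtain ⟨b', hb', e1⟩ := h4 b hb
  obtain ⟨t, ht, e2⟩ := h2 b' (hZ hb')
  exact h5 t ⟨ht, b', hb', e2⟩ ((h3 b (hZ hb) y hy e).2 b' (hZ hb') e1 t ht e2)

theorem col_or_ill {c : Cardinal.{0}} (hc : ℵ₀ ≤ c) (E : ZF) :
    (∃ a ∈ HC c, Col (HC c) (cardSet c) E a) ∨ ∃ Z ∈ HC c, Z ⊆ cardSet c ∧ (∃ b ∈ Z, b = b) ∧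
      ∀ b ∈ Z, ∃ b' ∈ Z, pair b' b ∈ E := by
  classical
  by_cases wf : WellFounded fun b' b : cardSet c => pair b'.1 b.1 ∈ E
  · left
    set r := fun b' b : cardSet c => pair b'.1 b.1 ∈ E
    let f : ZF → ZF := fun b => if h : b ∈ cardSet c then wval r ⟨b, h⟩ else ∅
    have hf : ∀ b : cardSet c, f b.1 = wval r b := fun b => dif_pos b.2
    have hf' : ∀ b ∈ cardSet c, f b ∈ HC c := fun b hb => ⟨Set.range (wval r),
      ⟨⟨b, hb⟩, (hf ⟨b, hb⟩).symm⟩, by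
        rintro _ ⟨a, rfl⟩ t ht
        obtain ⟨a', -, e⟩ := (mem_wval wf).1 ht
        exact ⟨a', e⟩, mk_range_le.trans (HC.mk_le (HC.cardSet_mem hc))⟩
    have h0 : ∅ ∈ cardSet c := nat_mem_cardSet hc 0
    refine ⟨f ∅, hf' _ h0, graph (cardSet c) f, HC.graph_mem hc (HC.cardSet_mem hc) hf',
      mem_graph.2 ⟨h0, rfl⟩, fun b hb => ⟨_, hf' b hb, mem_graph.2 ⟨hb, rfl⟩⟩,
      fun b hb y _ e => ?_⟩
    obtain rfl := (mem_graph.1 e).2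
    rw [hf ⟨b, hb⟩]
    refine ⟨fun t ht => ?_, fun b' hb' e1 t _ e2 => ?_⟩
    · obtain ⟨b', e1, e2⟩ := (mem_wval wf).1 ht
      exact ⟨b'.1, b'.2, e1, mem_graph.2 ⟨b'.2, e2.symm.trans (hf b').symm⟩⟩
    · rw [(mem_graph.1 e2).2, hf ⟨b', hb'⟩]
      exact (mem_wval wf).2 ⟨_, e1, rfl⟩
  · right
    rw [WellFounded.wellFounded_iff_has_min] at wf
    push Not at wf
    obtain ⟨s, ⟨b, hb⟩, h⟩ := wf
    refine ⟨(cardSet c).sep fun a => ∃ b ∈ s, b.1 = a, HC.sub hc (HC.cardSet_mem hc) sep_subset,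
      sep_subset, ⟨b.1, mem_sep.2 ⟨b.2, b, hb, rfl⟩, rfl⟩, fun a ha => ?_⟩
    obtain ⟨-, b, hb, rfl⟩ := mem_sep.1 ha
    obtain ⟨b', h1, h2⟩ := h b hb
    exact ⟨b'.1, mem_sep.2 ⟨b'.2, b', h1, rfl⟩, h2⟩

theorem card_col_le (X : Set ZF) (x : ZF) : (col X x).card ≤ x.card := by
  rw [← mk_zf_le]
  refine (mk_le_mk_of_subset (t := col X '' (x : Set ZF)) fun z hz => ?_).trans
    (mk_image_le.trans ((mk_zf_le x).2 le_rfl))
  obtain ⟨y, h1, -, h2⟩ := mem_col.1 hz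
  exact ⟨y, h1, h2⟩

theorem rank_col_le {X X' : Set ZF} (h : X' ⊆ X) (a : ZF) : (col X' a).rank ≤ (col X a).rank := by
  induction a using ZFSet.inductionOn with
  | h a ih =>
    refine rank_le_iff.2 fun y hy => ?_
    obtain ⟨z, h1, h2, rfl⟩ := mem_col.1 hy
    exact (ih z h1).trans_lt (rank_lt_of_mem (mem_col.2 ⟨z, h1, h h2, rfl⟩))

theorem LenL.exists {k : ℕ} : ∀ {s : ZF}, LenL k s → ∃ l : List ZF, s = ZL l := by
  induction k with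
  | zero => intro s h; exact ⟨[], h⟩
  | succ k ih =>
    rintro s ⟨a, t, rfl, h⟩
    obtain ⟨l, rfl⟩ := ih h
    exact ⟨a :: l, rfl⟩

/-- The union of the iterates of the collapsed premice of a hull. -/
def Om (κ : Cardinal.{0}) (U : ZF) (c : Cardinal.{0}) (X : Set ZF) : Set ZF :=
  {a | ∃ N ∈ X, ∃ O ∈ X, ∃ W ∈ X, ∃ μ ∈ X, MouseIn (HC c) N O W μ ∧ cardSet c ∈ μ ∧
    ∃ M O' j e, Iter κ U (col X N) (col X O) (col X W) (col X μ) M O' j e ∧ a ∈ M}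

namespace Hull
variable {c : Cardinal.{0}} {X X' : Set ZF} (h : Hull c X)
include h

theorem good : Good (HC c) := HC.good h.hc

theorem el : Elem (col X '' X) ∅ (HC c) ∅ (unc X) := h.tv.elem h.good fun _ _ => Iff.rfl

theorem uc {a : ZF} (ha : a ∈ X) : unc X (col X a) = a := h.tv.unc_col h.good ha

theorem c1 (R : Set ZF → Set ZF → ZF → Prop) [hR : Df ℕ fun M U v => R M U (v 0)] {a : ZF}
    (ha : a ∈ X) : R (col X '' X) ∅ (col X a) ↔ R (HC c) ∅ a := by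
  rw [h.el.t1 R ⟨a, ha, rfl⟩, h.uc ha]

theorem c2 (R : Set ZF → Set ZF → ZF → ZF → Prop) [hR : Df ℕ fun M U v => R M U (v 0) (v 1)]
    {a b : ZF} (ha : a ∈ X) (hb : b ∈ X) :
    R (col X '' X) ∅ (col X a) (col X b) ↔ R (HC c) ∅ a b := by
  rw [h.el.t2 R ⟨a, ha, rfl⟩ ⟨b, hb, rfl⟩, h.uc ha, h.uc hb]

theorem c3 (R : Set ZF → Set ZF → ZF → ZF → ZF → Prop)
    [hR : Df ℕ fun M U v => R M U (v 0) (v 1) (v 2)] {a b e : ZF} (ha : a ∈ X) (hb : b ∈ X)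
    (he : e ∈ X) : R (col X '' X) ∅ (col X a) (col X b) (col X e) ↔ R (HC c) ∅ a b e := by
  rw [h.el.t3 R ⟨a, ha, rfl⟩ ⟨b, hb, rfl⟩ ⟨e, he, rfl⟩, h.uc ha, h.uc hb, h.uc he]

theorem nat (n : ℕ) : nat n ∈ X ∧ col X (nat n) = nat n := by
  have := unc_spec (h.el.good.nat n)
  rwa [h.el.nat] at this

theorem ord_d : (col X (cardSet c)).IsOrdinal :=
  (h.c1 (fun _ _ a => a.IsOrdinal) h.hd).2 (cardSet_ord c)

theorem nat_mem_d (n : ℕ) : H75.nat n ∈ col X (cardSet c) :=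
  mem_col.2 ⟨_, nat_mem_cardSet h.hc n, h.nat n⟩

theorem of_pair {a b : ZF} (hp : pair a b ∈ X) : a ∈ X ∧ b ∈ X := by
  have m := h.tv.sub hp
  obtain ⟨a', h1, b', -, e⟩ := h.tv.df h.good (fun M _ w => ∃ b ∈ M, w (some ()) = pair (w none) b)
    (fun _ => pair a b) (fun _ => hp) ⟨a, h.good.fst m, b, h.good.snd m, rfl⟩
  obtain ⟨b'', h2, a'', -, e'⟩ := h.tv.df h.good
    (fun M _ w => ∃ a ∈ M, w (some ()) = pair a (w none))
    (fun _ => pair a b) (fun _ => hp) ⟨b, h.good.snd m, a, h.good.fst m, rfl⟩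
  exact ⟨(pair_inj.1 e).1 ▸ h1, (pair_inj.1 e').2 ▸ h2⟩

theorem restrict {N O : ZF} (hN : N ∈ X) (hO : O ∈ X) (g : Good (N : Set ZF)) :
    Elem (col X N : Set ZF) (col X O : Set ZF) (N : Set ZF) (O : Set ZF) (unc X) := by
  have := h.el.restrict ⟨N, hN, rfl⟩ ⟨O, hO, rfl⟩ ((h.c1 (fun _ _ a => Good (a : Set ZF)) hN).2 g)
    (by rwa [h.uc hN])
  rwa [h.uc hN, h.uc hO] at this

theorem em {N O W μ : ZF} (hN : N ∈ X) (hO : O ∈ X) (hW : W ∈ X) (hμ : μ ∈ X)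
    (m : MouseIn (HC c) N O W μ) : EM (col X N) (col X O) (col X W) (col X μ) :=
  (m.em h.hc).pull (h.restrict hN hO m.pm.good) (mem_col.2 ⟨W, m.pm.hW, hW, rfl⟩)
    (mem_col.2 ⟨μ, m.pm.hμ, hμ, rfl⟩) (h.uc hW) (h.uc hμ)

theorem agree (h' : Hull c X') (hs : X' ⊆ X) {η : ZF} (ho : η.IsOrdinal)
    (hη : ∀ a ∈ η, a ∈ X → a ∈ X') : ∀ b ∈ Tr η, b ∈ X → b ∈ X' ∧ col X b = col X' b := by
  refine Tr_ind (fun _ => ⟨h'.tv.ne, by rw [col_empty, col_empty]⟩) (fun y hy hX => ⟨hη y hy hX,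
    col_agree (A := {a | a ∈ η ∧ a ∈ X}) hs (fun a ha => hη a ha.1 ha.2)
      (fun a ha z hz hz' => ⟨ho.mem_trans hz ha.1, hz'⟩)
      fun z hz hz' => ⟨ho.mem_trans hz hy, hz'⟩⟩) fun a _ b _ h1 h2 hp => ?_
  obtain ⟨ha, hb⟩ := h.of_pair hp
  have := h'.tv.col_pair h.good (h1 ha).1 (h2 hb).1
  exact ⟨this.1, by rw [this.2, (h.tv.col_pair h.good ha hb).2, (h1 ha).2, (h2 hb).2]⟩

theorem agree' (h' : Hull c X') (hs : X' ⊆ X) {η : ZF} (ho : η.IsOrdinal)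
    (hη : ∀ a ∈ η, a ∈ X → a ∈ X') {w : ZF} (hw : w ⊆ Tr η) : col X w = col X' w := by
  have := h.agree h' hs ho hη
  ext z
  simp only [mem_col]
  exact ⟨fun ⟨y, h1, h2, h3⟩ => ⟨y, h1, (this y (hw h1) h2).1, (this y (hw h1) h2).2 ▸ h3⟩,
    fun ⟨y, h1, h2, h3⟩ => ⟨y, h1, hs h2, (this y (hw h1) (hs h2)).2 ▸ h3⟩⟩

theorem d_sub (h' : Hull c X') (hs : X' ⊆ X) : col X' (cardSet c) ⊆ col X (cardSet c) :=
  (h'.ord_d.rank_le_iff_subset h.ord_d).1 (rank_col_le hs _)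

theorem cb_sub (h' : Hull c X') (e : col X' (cardSet c) = col X (cardSet c))
    (hP : ∀ R, R ⊆ Tr (col X (cardSet c)) → R ∈ col X '' X → R ∈ col X' '' X') :
    col X '' X ⊆ col X' '' X' := by
  rintro _ ⟨y, hy, rfl⟩
  obtain ⟨E, hE, h1, h2⟩ := (h.c2 (fun M _ d y => ∃ E ∈ M, E ⊆ Tr d ∧ Col M d E y) h.hd hy).2
    (let ⟨E, h1, h2⟩ := exists_col h.hc (h.tv.sub hy); ⟨E, HC.sub_tr h.hc h1, h1, h2⟩)
  obtain ⟨E', h3, rfl⟩ := hP E h1 hE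
  rcases (h'.c2 (fun M _ d E => (∃ a ∈ M, Col M d E a) ∨ ∃ Z ∈ M, Z ⊆ d ∧ (∃ b ∈ Z, b = b) ∧
    ∀ b ∈ Z, ∃ b' ∈ Z, pair b' b ∈ E) h'.hd h3).2 (col_or_ill h.hc E') with
    ⟨a, ha, h4⟩ | ⟨Z, -, h4, ⟨b, hb, -⟩, h5⟩
  · rw [e] at h4
    exact Col.unique good_univ (h.nat_mem_d 0) (h4.up h'.el.good) (h2.up h.el.good) ▸ ha
  · exact absurd h5 (h2.wf (e ▸ h4) hb)

variable {κ : Cardinal.{0}} {U : ZF} (C : Ctx κ U c)
include C

theorem iter {N O W μ : ZF} (hN : N ∈ X) (hO : O ∈ X) (hW : W ∈ X) (hμ : μ ∈ X)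
    (m : MouseIn (HC c) N O W μ) :
    ∃ M O' j e, Iter κ U (col X N) (col X O) (col X W) (col X μ) M O' j e :=
  (h.em hN hO hW hμ m).iter C.hU
    ((card_col_le X N).trans_lt ((HC.card_le (h.tv.sub hN)).trans_lt C.hκ))

theorem p_eq {R : ZF} (hR : R ⊆ Tr (col X (cardSet c))) : R ∈ col X '' X ↔ R ∈ Om κ U c X := by
  constructor
  · rintro ⟨R', h1, rfl⟩
    have h2 := (h.c2 (fun _ _ a b => a ⊆ Tr b) h1 h.hd).1 hR
    obtain ⟨N, hN, O, hO, W, μ, k, m, h3, h4, -⟩ := hull_mouse C.hU C.hV C.hc C.hκ h2 h2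
    obtain ⟨_, ⟨N, hN, rfl⟩, _, ⟨O, hO, rfl⟩, _, ⟨W, hW, rfl⟩, _, ⟨μ, hμ, rfl⟩, m, h3, h4⟩ :=
      (h.c2 (fun M _ d R => ∃ N ∈ M, ∃ O ∈ M, ∃ W ∈ M, ∃ μ ∈ M, MouseIn M N O W μ ∧ d ∈ μ ∧ R ∈ N)
        h.hd h1).2 ⟨N, hN, O, hO, W, HC.trans N hN W m.pm.hW, μ, HC.trans N hN μ m.pm.hμ, m, h3, h4⟩
    have m' := (h.el.t4 (fun M _ => MouseIn M) ⟨N, hN, rfl⟩ ⟨O, hO, rfl⟩ ⟨W, hW, rfl⟩
      ⟨μ, hμ, rfl⟩).1 m
    rw [h.uc hN, h.uc hO, h.uc hW, h.uc hμ] at m'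
    obtain ⟨M, O', j, e, it⟩ := h.iter C hN hO hW hμ m'
    exact ⟨N, hN, O, hO, W, hW, μ, hμ, m', (h.tv.col_mem h.good h.hd hμ).1 h3, M, O', j, e, it,
      it.memR m.pm h3 h4 hR⟩
  · rintro ⟨N, hN, O, hO, W, hW, μ, hμ, m, h1, M, O', j, e, it, h2⟩
    exact col_trans X _ ⟨N, hN, rfl⟩ R (it.pullR (h.em hN hO hW hμ m).pm
      (mem_col.2 ⟨_, h1, h.hd, rfl⟩) h2 hR)

theorem om_mono (h' : Hull c X') (hs : X' ⊆ X) : Om κ U c X' ⊆ Om κ U c X := by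
  rintro a ⟨N, hN, O, hO, W, hW, μ, hμ, m, h1, M', O', j', e', it', h2⟩
  obtain ⟨M, O'', j, e, it⟩ := h.iter C (hs hN) (hs hO) (hs hW) (hs hμ) m
  refine ⟨N, hs hN, O, hs hO, W, hs hW, μ, hs hμ, m, h1, M, O'', j, e, it,
    it.sub_of_emb (h.em (hs hN) (hs hO) (hs hW) (hs hμ) m).pm it' (h'.em hN hO hW hμ m).pm
      (σ := fun a => col X (unc X' a)) ((h'.restrict hN hO m.pm.good).factor
        (h.restrict (hs hN) (hs hO) m.pm.good) fun a ha => ?_) (by rw [h'.uc hW])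
      (by rw [h'.uc hμ]) h2⟩
  obtain ⟨b, h3, h4, rfl⟩ := mem_col.1 ha
  rw [h'.uc h4]
  exact ⟨mem_col.2 ⟨b, h3, hs h4, rfl⟩, h.uc (hs h4)⟩

theorem om_init : ∀ x ∈ Om κ U c X, ∃ β, x ∈ LU U β ∧ ∀ y ∈ LU U β, y ∈ Om κ U c X := by
  rintro a ⟨N, hN, O, hO, W, hW, μ, hμ, m, h1, M, O', j, e, it, h2⟩
  obtain ⟨β, h3, h4⟩ := it.init' (h.em hN hO hW hμ m).pm a h2
  exact ⟨β, h3, fun y hy => ⟨N, hN, O, hO, W, hW, μ, hμ, m, h1, M, O', j, e, it, h4 y hy⟩⟩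

/-- If the two unions of iterates agree then the two collapses agree. -/
theorem om_eq (h' : Hull c X') (hs : X' ⊆ X) {χ : SO} (h1 : χ.WF 0 [])
    (h2 : HenS (cardSet c) (HC c) χ ∅) (h3 : ∀ a ∈ cardSet c, ∅ ∈ a → ¬ HenS a (HC c) χ ∅)
    (e : Om κ U c X' = Om κ U c X) {x : ZF} (hx : x ∈ X) : ∃ x' ∈ X',
      ∀ (R : Set ZF → Set ZF → ZF → ZF → Prop) [hR : Df ℕ fun M U v => R M U (v 0) (v 1)],
        R (HC c) ∅ (cardSet c) x ↔ R (HC c) ∅ (cardSet c) x' := by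
  have hd := h.d_sub h' hs
  have hP : ∀ R, R ⊆ Tr (col X' (cardSet c)) → (R ∈ col X' '' X' ↔ R ∈ col X '' X) :=
    fun R hR => by rw [h'.p_eq C hR, e, h.p_eq C (hR.trans (Tr_mono hd))]
  have e1 : col X' (cardSet c) = col X (cardSet c) := by
    refine ((h'.ord_d.subset_iff_eq_or_mem h.ord_d).1 hd).resolve_right fun hm => ?_
    obtain ⟨a, ha, ha', e⟩ := mem_col.1 hm
    have h4 := (hen_congr hP χ h1 _ _ _ fun _ _ _ => Iff.rfl).1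
      ((h'.c1 (fun M _ d => HenS d M χ ∅) h'.hd).2 h2)
    have h5 := h'.nat_mem_d 0
    rw [← e] at h4 h5
    exact h3 a ha ((h.c1 (fun _ _ a => ∅ ∈ a) ha').1 h5)
      ((h.c1 (fun M _ d => HenS d M χ ∅) ha').1 h4)
  have e2 : col X '' X = col X' '' X' := subset_antisymm
    (h.cb_sub h' e1 fun R hR => (hP R (e1 ▸ hR)).2) (h'.cb_sub h e1.symm fun R hR => (hP R hR).1)
  obtain ⟨x', h4, h5⟩ : col X x ∈ col X' '' X' := e2 ▸ ⟨x, hx, rfl⟩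
  exact ⟨x', h4, fun R hR => by rw [← h.c2 R h.hd hx, ← h'.c2 R h'.hd h4, e1, e2, h5]⟩

/-- Solidity: if the union of iterates grows, truth for the small hull is coded in the large. -/
theorem sol (h' : Hull c X') (hs : X' ⊆ X) (hne : Om κ U c X' ≠ Om κ U c X) {G : ZF}
    (hG : G ∈ Om κ U c X) (σ : List ℕ) : ∃ y ∈ X, ∀ b ∈ X, b ∈ Tr (cardSet c) → ∀ w ∈ X',
      w ⊆ Tr (cardSet c) → sec G (col X b) = col X' w → ∀ φ : SO, φ.WF 0 σ →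
      (pair b (H75.nat φ.code) ∈ y ↔ HenS (cardSet c) (HC c) φ w) := by
  obtain ⟨x, hx, hx'⟩ := Set.exists_of_ssubset (ssubset_of_subset_of_ne (h.om_mono C h' hs) hne)
  obtain ⟨N, hN, O, hO, W, hW, μ, hμ, m, h1, M, O', j, e, it, hx, hG⟩ : ∃ N ∈ X, ∃ O ∈ X, ∃ W ∈ X,
      ∃ μ ∈ X, MouseIn (HC c) N O W μ ∧ cardSet c ∈ μ ∧ ∃ M O' j e,
      Iter κ U (col X N) (col X O) (col X W) (col X μ) M O' j e ∧ x ∈ M ∧ G ∈ M := by
    obtain ⟨N, hN, O, hO, W, hW, μ, hμ, m, h1, M, O', j, e, it, hx⟩ := hx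
    obtain ⟨N', hN', P, hP, W', hW', μ', hμ', m', h1', M', P', j', e', it', hG⟩ := hG
    rcases init_total (it.init' (h.em hN hO hW hμ m).pm) (it'.init' (h.em hN' hP hW' hμ' m').pm)
      with h2 | h2
    · exact ⟨N', hN', P, hP, W', hW', μ', hμ', m', h1', M', P', j', e', it', h2 hx, hG⟩
    · exact ⟨N, hN, O, hO, W, hW, μ, hμ, m, h1, M, O', j, e, it, hx, h2 hG⟩
  have p := (h.em hN hO hW hμ m).pm
  obtain ⟨β, h2, h3⟩ := it.init p hx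
  obtain ⟨δ, h4, h5⟩ := init_eq_LU (h'.om_init C) h3 hx'
  have hL := (it.lev p (it.ord_le h2 h4)).1
  have hd : col X (cardSet c) ∈ col X μ := mem_col.2 ⟨_, h1, h.hd, rfl⟩
  have hd' := it.mu_mem p (h'.ord_d.mem_of_subset_of_mem p.ax.1.ord (h.d_sub h' hs) hd)
  obtain ⟨_, hS, rfl⟩ := (it.ax p).2.hset _ hd' _ hL
  have i1 : Df (Option (Option (Option (Option Bool)))) fun M U w => ∀ i < σ.length, ∃ R ∈ M,
      Look R (w none) (H75.nat i) ∧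
        R = sec (sec (w (some (some (some (some true))))) (w (some (some none)))) (H75.nat i) :=
    Df.all_lt _ fun i => inferInstance
  obtain ⟨y, hy, h6⟩ := col_trans X _ ⟨N, hN, rfl⟩ _ (it.pullD p (fun M U w => ∃ b ∈ M, ∃ n ∈ M,
    w none = pair b n ∧ ∃ s ∈ M, LenL σ.length s ∧ (∀ i < σ.length, ∃ R ∈ M,
      Look R s (H75.nat i) ∧ R = sec (sec (w (some true)) b) (H75.nat i)) ∧
      pair n (pair ∅ s) ∈ w (some false))
    (hP := Df.exM (h := Df.exM (h := Df.and (h' := Df.exM (h := Df.and (h' := Df.and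
      (h := i1)))))))
    (fun b => cond b G (HSet (col X' (cardSet c)) (LU U δ))) (by rintro (_ | _) <;> assumption) hd)
  refine ⟨y, hy, fun b hb hb' w hw hw' e1 φ hφ => ?_⟩
  have h7 := h.tv.col_pair h.good hb (h.nat φ.code).1
  have h8 : col X b ∈ Tr (col X (cardSet c)) := (h.c2 (fun _ _ a b => a ∈ Tr b) hb h.hd).2 hb'
  have h9 := it.good.tr (it.good.trans _ (it.mu_mem p hd)) _ h8
  have hw2 : col X' w ⊆ Tr (col X' (cardSet c)) := (h'.c2 (fun _ _ a b => a ⊆ Tr b) hw h'.hd).2 hw'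
  set l := (List.range σ.length).map fun i => sec (col X' w) (H75.nat i) with hl
  have hl1 : ∀ i < σ.length, asg l i = sec (col X' w) (H75.nat i) := fun i hi => by
    simp [asg, hl, hi]
  have hl2 : ∀ i, sec (col X' w) (H75.nat i) ∈ LU U δ := fun i => by
    change _ ∈ (LU U δ : Set ZF)
    rw [← h5, ← h'.p_eq C (sec_sub_Tr h'.ord_d hw2)]
    exact (h'.c1 (fun M _ a => sec a (H75.nat i) ∈ M) hw).2 (HC.sec_mem h.hc (h'.tv.sub hw) _)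
  have hl3 : ∀ R ∈ l, R ∈ LU U δ := map_mem hl2 _
  rw [← h.tv.col_mem h.good h7.1 hy, h6, h7.2, (h.nat _).2, mem_sep,
    and_iff_right (pair_mem_Tr h8 (mem_Tr_of_mem (h.nat_mem_d _))),
    ← h'.c2 (fun M _ d w => HenS d M φ w) h'.hd hw]
  refine Iff.trans ?_ ((mem_HSet (D := col X' (cardSet c)) (φ := φ) (l := []) (by simp) hl3).trans ?_)
  · simp only [ext_none, ext_some, cond_true, cond_false]
    constructor
    · rintro ⟨b', -, n, -, e2, s, -, e3, e4, e5⟩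
      obtain ⟨rfl, rfl⟩ := pair_inj.1 e2
      obtain ⟨l', rfl⟩ := e3.exists
      have e6 := lenL_ZL.1 e3
      have : l' = l := List.ext_getElem (by simp [hl, e6]) fun i hi hi' => by
        obtain ⟨R, -, e7, e8⟩ := e4 i (e6 ▸ hi)
        rw [e1, look_ZL.1 e7, ← hl1 i (e6 ▸ hi)] at e8
        simpa [asg, hi, hi'] using e8
      exact this ▸ e5
    · intro e5
      refine ⟨_, h9, _, it.good.nat _, rfl, ZL l,
        it.good.ZL.2 fun R hR => it.good.trans _ hL R (hl3 R hR), lenL_ZL.2 (by simp [hl]),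
        fun i hi => ⟨_, it.good.trans _ hL _ (hl2 i), look_ZL.2 (hl1 i hi).symm, by rw [e1]⟩, e5⟩
  · rw [asg_nil]
    refine hen_congr (fun R hR => ?_) φ hφ _ _ _ fun r hr t => by rw [hl1 r hr, mem_sec]
    rw [← h5, h'.p_eq C hR]

end Hull

end Pool.Agent.MP_477625_lc.H75
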