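import Pool.Agent.MP_477625_lc.H75.MouseIn

/-! The canonical well-order of `L[U]` and its definition by premice. -/

namespace Pool.Agent.MP_477625_lc.H75
open ZFSet Cardinal

universe u v

set_option linter.unusedVariables false
set_option linter.unusedSectionVars false
set_option synthInstance.maxSize 100000

def DIn (M : Set ZF) (W γ n q x : ZF) : Prop := γ.IsOrdinal ∧ n ∈ om ∧ FinOrd q ∧
  ∃ L ∈ M, LIn M W γ L ∧ q ∈ L ∧ x ∈ L ∧ ∃ S ∈ M, IsSat S L W ∧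
    ∀ a ∈ L, (pair n (pair a (pair q ∅)) ∈ S ↔ a = x)

def TLt (γ n q γ' n' q' : ZF) : Prop :=
  γ ∈ γ' ∨ (γ = γ' ∧ (n ∈ n' ∨ (n = n' ∧ Clx q q')))

def PrecIn (M : Set ZF) (W x y : ZF) : Prop := ∃ γ ∈ M, ∃ n ∈ M, ∃ q ∈ M, DIn M W γ n q x ∧
  ∀ γ' ∈ M, ∀ n' ∈ M, ∀ q' ∈ M, DIn M W γ' n' q' y → TLt γ n q γ' n' q'

def PrecH (M : Set ZF) (d x y : ZF) : Prop := ∃ N ∈ M, ∃ O ∈ M, ∃ W ∈ M, ∃ μ ∈ M,
  MouseIn M N O W μ ∧ d ∈ μ ∧
  ((Good (N : Set ZF) ∧ W ∈ N ∧ x ∈ N ∧ y ∈ N) ∧ PrecIn (N : Set ZF) W x y)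

section
variable {K : Type u} {a b c d e f : Set ZF → Set ZF → (K → ZF) → ZF}

instance Df.dIn [DT K a] [DT K b] [DT K c] [DT K d] [DT K e] :
    Df K fun M U v => DIn M (a M U v) (b M U v) (c M U v) (d M U v) (e M U v) :=
  Df.sub5 (R := fun M _ => DIn M) (by unfold DIn; infer_instance) _ _ _ _ _

instance Df.tLt [DT K a] [DT K b] [DT K c] [DT K d] [DT K e] [DT K f] :
    Df K fun M U v => TLt (a M U v) (b M U v) (c M U v) (d M U v) (e M U v) (f M U v) :=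
  Df.sub6 (R := fun _ _ => TLt) (by unfold TLt; infer_instance) _ _ _ _ _ _

theorem df_precIn : Df ℕ fun M U v => PrecIn M (v 0) (v 1) (v 2) := by
  unfold PrecIn; infer_instance

instance Df.precIn [DT K a] [DT K b] [DT K c] :
    Df K fun M U v => PrecIn M (a M U v) (b M U v) (c M U v) :=
  Df.sub3 (R := fun M _ => PrecIn M) df_precIn _ _ _

instance Df.precH [DT K a] [DT K b] [DT K c] :
    Df K fun M U v => PrecH M (a M U v) (b M U v) (c M U v) := by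
  refine Df.sub3 (R := fun M _ => PrecH M) ?_ _ _ _
  have h1 : Df ℕ fun M U v => (Good (v 0 : Set ZF) ∧ v 1 ∈ v 0 ∧ v 2 ∈ v 0 ∧ v 3 ∈ v 0) ∧
      PrecIn (v 0 : Set ZF) (v 1) (v 2) (v 3) :=
    df_precIn.rel (s := fun _ _ v => v 0) (t := fun _ _ v => v 0) (hs := (DT.var 0).toDC)
      (ht := (DT.var 0).toDC)
      (cons (fun _ _ v => v 1) (cons (fun _ _ v => v 2) fun _ _ _ v => v 3))
      (DT.cons_all (DT.var 1) (DT.cons_all (DT.var 2) fun _ => DT.var 3))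
      (G := fun M U v => Good (v 0 : Set ZF) ∧ v 1 ∈ v 0 ∧ v 2 ∈ v 0 ∧ v 3 ∈ v 0) inferInstance
      fun M U v h => ⟨h.1, fun j => by
        rcases j with _ | _ | j
        · exact h.2.1
        · exact h.2.2.1
        · exact h.2.2.2⟩
  exact Df.exM (h := Df.exM (h := Df.exM (h := Df.exM (h := Df.and (h' := Df.and (h' :=
    h1.comp (cons (some (some (some none))) (cons (some none)
      (cons (some (some (some (some 1)))) fun _ => some (some (some (some 2))))))))))))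

end

def Dt (U : ZF) (β : Ordinal.{0}) (φ : Fml) (q x : ZF) : Prop :=
  FinOrd q ∧ q ∈ LU U β ∧ x ∈ LU U β ∧
    ∀ a ∈ LU U β, (Sat (LU U β : Set ZF) (U : Set ZF) φ (cons a (asg [q])) ↔ a = x)

structure Ini (U : ZF) (M : Set ZF) (W : ZF) : Prop where
  good : Good M
  hW : ∀ X ∈ M, X ∈ W ↔ X ∈ U
  lev : ∀ β : Ordinal.{0}, β.toZFSet ∈ M → LU U β ∈ M ∧ LIn M W β.toZFSet (LU U β)
  sat : ∀ x ∈ M, SatSet x W ∈ M

theorem ini_univ (U : ZF) : Ini U Set.univ U :=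
  ⟨good_univ, fun _ _ => Iff.rfl, fun β _ => ⟨trivial, lIn_univ U β⟩, fun _ _ => trivial⟩

theorem Iter.ini {κ : Cardinal.{0}} {U N O W μ : ZF} {M O' : Set ZF} {j : ZF → ZF}
    {c : Set.Iio κ.ord → ZF} (h : Iter κ U N O W μ M O' j c) (p : PM N O W μ) : Ini U M (j W) :=
  ⟨h.good, h.hW, fun β => h.lev p, fun x hx => by
    obtain ⟨_, h1, rfl⟩ := (h.ax p).2.sat x hx; exact h1⟩

theorem Ini.dIn_iff {U W γ n q x : ZF} {M : Set ZF} (h : Ini U M W) (hγ : γ ∈ M) :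
    DIn M W γ n q x ↔ ∃ (β : Ordinal.{0}) (φ : Fml), γ = β.toZFSet ∧ n = nat φ.code ∧
      Dt U β φ q x := by
  have key : ∀ (β : Ordinal.{0}) (φ : Fml), LU U β ∈ M → q ∈ LU U β → ∀ a ∈ LU U β,
      (pair (nat φ.code) (pair a (pair q ∅)) ∈ SatSet (LU U β) W ↔
        Sat (LU U β : Set ZF) (U : Set ZF) φ (cons a (asg [q]))) := by
    intro β φ hL hq a ha
    have hs := h.good.trans _ hL
    refine (mem_SatSet' (l := [q]) ha (by simpa using hq)).trans (sat_pred_congr hs h.hW φ _ ?_)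
    exact cons_mem (hs a ha) (asg_mem h.good.empty (by simpa using hs q hq))
  constructor
  · rintro ⟨h1, h2, h3, L, hL, h4, h5, h6, _, -, rfl, h7⟩
    obtain ⟨β, rfl⟩ := ord_eq h1
    obtain ⟨n, rfl⟩ := mem_om.1 h2
    obtain ⟨φ, rfl⟩ := Fml.code_surj n
    have e := (h4.sound h.good).trans ((h.lev β hγ).2.sound h.good).symm
    subst e
    exact ⟨β, φ, rfl, rfl, h3, h5, h6, fun a ha => (key β φ hL h5 a ha).symm.trans (h7 a ha)⟩
  · rintro ⟨β, φ, rfl, rfl, h1, h2, h3, h4⟩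
    have hL := h.lev β hγ
    exact ⟨isOrdinal_toZFSet β, nat_mem_om _, h1, _, hL.1, hL.2, h2, h3, _, h.sat _ hL.1, rfl,
      fun a ha => (key β φ hL.1 h2 a ha).trans (h4 a ha)⟩

abbrev Key : Type 1 := Ordinal.{0} ×ₗ ℕ ×ₗ Colex (Ordinal.{0} →₀ ℕ)

noncomputable def tk (β : Ordinal.{0}) (φ : Fml) (q : ZF) : Key :=
  toLex (β, toLex (φ.code, fq q))

theorem tLt_iff {β β' : Ordinal.{0}} {φ φ' : Fml} {q q' : ZF} (h : FinOrd q) (h' : FinOrd q') :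
    TLt β.toZFSet (nat φ.code) q β'.toZFSet (nat φ'.code) q' ↔ tk β φ q < tk β' φ' q' := by
  simp [TLt, tk, Prod.Lex.toLex_lt_toLex, clx_iff h h', Ordinal.toZFSet_injective.eq_iff]

theorem tk_le {β β' : Ordinal.{0}} {φ φ' : Fml} {q q' : ZF} (h : tk β φ q ≤ tk β' φ' q') :
    β ≤ β' := (Prod.Lex.toLex_le_toLex.1 h).elim le_of_lt fun h => h.1.le

theorem dcl_asg {M U : Set ZF} (hM : Good M) {l : List ZF} (hl : ∀ b ∈ l, b ∈ M) {y : ZF}
    (hy : y ∈ dcl M U {b | b ∈ l}) : ∃ φ, ∀ a ∈ M, (Sat M U φ (cons a (asg l)) ↔ a = y) := by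
  obtain ⟨ψ, l', h1, h2⟩ := dcl_list hM hl hy
  have : ∀ n, asg l' n ∈ Set.range (asg l) := asg_mem (M := Set.range (asg l))
      ⟨l.length, by simp [asg]⟩ fun b hb => by
    obtain ⟨i, hi, rfl⟩ := List.getElem_of_mem (h1 b hb)
    exact ⟨i, by simp [asg, hi]⟩
  choose g hg using this
  refine ⟨ψ.ren (liftR g), fun a ha => ?_⟩
  rw [sat_ren, ← h2 a ha]
  have : (fun n => cons a (asg l) (liftR g n)) = cons a (asg l') := by
    funext n; cases n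
    · rfl
    · exact hg _
  rw [this]

theorem reflect {U : ZF} (hV : ∀ x : ZF, ∃ o, x ∈ LU U o) (α : Ordinal.{0})
    (h0 : ∅ ∈ LU U α) : ∃ β, α ≤ β ∧ TV Set.univ (U : Set ZF) (LU U β : Set ZF) := by
  have step : ∀ α : Ordinal.{0}, ∃ α', α ≤ α' ∧ ∀ (φ : Fml) (l : List ZF), (∀ b ∈ l, b ∈ LU U α) →
      (∃ a, Sat Set.univ (U : Set ZF) φ (cons a (asg l))) →
      ∃ a ∈ LU U α', Sat Set.univ (U : Set ZF) φ (cons a (asg l)) := by
    intro α
    have : ∀ p : Fml × List (LU U α), ∃ o : Ordinal.{0},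
        (∃ a, Sat Set.univ (U : Set ZF) p.1 (cons a (asg (p.2.map Subtype.val)))) →
        ∃ a ∈ LU U o, Sat Set.univ (U : Set ZF) p.1 (cons a (asg (p.2.map Subtype.val))) := by
      intro p
      by_cases hc : ∃ a, Sat Set.univ (U : Set ZF) p.1 (cons a (asg (p.2.map Subtype.val)))
      · obtain ⟨a, ha⟩ := hc
        obtain ⟨o, ho⟩ := hV a
        exact ⟨o, fun _ => ⟨a, ho, ha⟩⟩
      · exact ⟨0, fun h => absurd h hc⟩
    choose o ho using this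
    refine ⟨max α (⨆ p, o p), le_max_left _ _, fun φ l hl h => ?_⟩
    lift l to List (LU U α) using hl
    obtain ⟨a, h1, h2⟩ := ho (φ, l) h
    exact ⟨a, LU_mono ((Ordinal.le_iSup o (φ, l)).trans (le_max_right _ _)) h1, h2⟩
  choose F h1 h2 using step
  have mono : Monotone fun n => F^[n] α := monotone_nat_of_le_succ fun n => by
    rw [Function.iterate_succ_apply']; exact h1 _
  have le := Ordinal.le_iSup fun n => F^[n] α
  refine ⟨⨆ n, F^[n] α, le 0, Set.subset_univ _, LU_mono (le 0) h0, fun φ v hv h => ?_⟩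
  have : ∀ l : List ZF, (∀ b ∈ l, b ∈ LU U (⨆ n, F^[n] α)) →
      ∃ n, ∀ b ∈ l, b ∈ LU U (F^[n] α) := by
    intro l hl
    induction l with
    | nil => exact ⟨0, by simp⟩
    | cons a l ih =>
      simp only [List.forall_mem_cons] at hl ⊢
      obtain ⟨n, hn⟩ := ih hl.2
      obtain ⟨δ, h3, h4⟩ := mem_LU.1 hl.1
      obtain ⟨m, hm⟩ := Ordinal.lt_iSup_iff.1 h3
      exact ⟨max n m, LU_mono (mono (le_max_right n m)) (mem_LU.2 ⟨δ, hm, h4⟩),
        fun b hb => LU_mono (mono (le_max_left n m)) (hn b hb)⟩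
  obtain ⟨n, hn⟩ := this ((List.range φ.bd).map v) (map_mem hv _)
  have e : ∀ a, Sat Set.univ (U : Set ZF) φ (cons a v) ↔
      Sat Set.univ (U : Set ZF) φ (cons a (asg ((List.range φ.bd).map v))) := fun a =>
    sat_congr _ _ _ _ _ fun k hk => by
      cases k with
      | zero => rfl
      | succ k => simp [asg, show k < φ.bd by omega]
  simp only [e] at h ⊢
  obtain ⟨a, -, h⟩ := h
  obtain ⟨a, h3, h4⟩ := h2 _ φ _ hn ⟨a, h⟩
  rw [← Function.iterate_succ_apply' F] at h3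
  exact ⟨a, LU_mono (le _) h3, h4⟩

theorem all_dcl (U : ZF) (o : Ordinal.{0}) :
    ∀ x ∈ LU U o, x ∈ dcl Set.univ (U : Set ZF) {a | a.IsOrdinal} := by
  have hB := Set.subset_univ {a : ZF | a.IsOrdinal}
  have hU : U ∈ dcl Set.univ (U : Set ZF) {a | a.IsOrdinal} :=
    mem_dcl' good_univ hB (fun M U v => ∀ b ∈ M, (b ∈ v 0 ↔ b ∈ U)) (fun _ => ∅)
      (fun _ => empty_mem_dcl good_univ) trivial fun a _ =>
        ⟨fun h => ZFSet.ext fun b => h b trivial, fun e b _ => e ▸ Iff.rfl⟩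
  induction o using WellFoundedLT.induction with
  | ind o ih =>
    intro x hx
    obtain ⟨a, ha, hx⟩ := mem_LU.1 hx
    obtain ⟨φ, l, hl, rfl⟩ := mem_DefSet.1 hx
    have hL : LU U a ∈ dcl Set.univ (U : Set ZF) {a | a.IsOrdinal} :=
      mem_dcl' good_univ hB (fun M _ v => LIn M (v 1) (v 2) (v 0)) (cons U fun _ => a.toZFSet)
        (cons_mem hU fun _ => subset_dcl hB (isOrdinal_toZFSet a)) trivial fun y _ =>
          ⟨fun h => h.sound good_univ, fun e => e ▸ lIn_univ U a⟩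
    exact dcl_class good_univ hB (fun _ _ w => (w none).sep fun b =>
      Sat (w none : Set ZF) (w (some none) : Set ZF) φ (cons b fun n => w (some (some n))))
      (ext (LU U a) (ext U (asg l))) (ext_mem hL (ext_mem hU
        (asg_mem_dcl good_univ fun b hb => ih a ha b (hl b hb)))) trivial

theorem exists_Dt {U : ZF} (hV : ∀ x : ZF, ∃ o, x ∈ LU U o) (x : ZF) : ∃ β φ q, Dt U β φ q x := by
  obtain ⟨o, ho⟩ := hV x
  obtain ⟨ψ, l, h1, h2⟩ := dcl_list good_univ (Set.subset_univ _) (all_dcl U o x ho)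
  have hq := finOrd_setL h1
  have hB := Set.subset_univ {b | b ∈ [setL l]}
  obtain ⟨φ, hφ⟩ := dcl_asg (U := (U : Set ZF)) good_univ (l := [setL l]) (fun _ _ => trivial)
    (dcl_of_list good_univ hB trivial ψ l (fun b hb => elem_dcl good_univ hB hq
      (subset_dcl hB (by simp)) b (mem_setL.2 hb)) h2)
  obtain ⟨o1, h3⟩ := hV (setL l)
  obtain ⟨o2, h4⟩ := hV ∅
  obtain ⟨β, h5, tv⟩ := reflect hV (max o (max o1 o2))
    (LU_mono ((le_max_right _ _).trans (le_max_right _ _)) h4)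
  have h6 := LU_mono (((le_max_left _ _).trans (le_max_right _ _)).trans h5) h3
  refine ⟨β, φ, _, hq, h6, LU_mono ((le_max_left _ _).trans h5) ho, fun a ha => ?_⟩
  rw [tv.sat φ _ (cons_mem ha (asg_mem tv.ne (by simpa using h6)))]
  exact hφ a trivial

open Classical in
/-- The position of a set in the canonical well-order. -/
noncomputable def key (U x : ZF) : Key :=
  if h : {k | ∃ β φ q, Dt U β φ q x ∧ k = tk β φ q}.Nonempty then wellFounded_lt.min _ h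
  else tk 0 default ∅

section
variable {U : ZF} (hV : ∀ x : ZF, ∃ o, x ∈ LU U o)
include hV

theorem key_spec (x : ZF) : (∃ β φ q, Dt U β φ q x ∧ key U x = tk β φ q) ∧
    ∀ β φ q, Dt U β φ q x → key U x ≤ tk β φ q := by
  obtain ⟨β, φ, q, h⟩ := exists_Dt hV x
  have hne : {k | ∃ β φ q, Dt U β φ q x ∧ k = tk β φ q}.Nonempty := ⟨_, β, φ, q, h, rfl⟩
  rw [key, dif_pos hne]
  exact ⟨wellFounded_lt.min_mem _ hne, fun β φ q h =>
    not_lt.1 (wellFounded_lt.not_lt_min {k | ∃ β φ q, Dt U β φ q x ∧ k = tk β φ q}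
      ⟨β, φ, q, h, rfl⟩)⟩

theorem key_inj {x y : ZF} (h : key U x = key U y) : x = y := by
  obtain ⟨β, φ, q, h1, e1⟩ := (key_spec hV x).1
  obtain ⟨β', φ', q', h2, e2⟩ := (key_spec hV y).1
  rw [e1, e2] at h
  simp only [tk, toLex_inj, Prod.mk.injEq] at h
  obtain ⟨rfl, h3, h4⟩ := h
  obtain rfl := Fml.code_inj _ _ h3
  obtain rfl := fq_inj h1.1 h2.1 h4
  exact (h2.2.2.2 x h1.2.2.1).1 ((h1.2.2.2 x h1.2.2.1).2 rfl)

theorem Ini.prec_up {W x y : ZF} {M : Set ZF} (h : Ini U M W) (hp : PrecIn M W x y) :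
    key U x < key U y := by
  obtain ⟨γ, hγ, n, -, q, -, h0, h2⟩ := hp
  obtain ⟨β, φ, rfl, rfl, h1⟩ := (h.dIn_iff hγ).1 h0
  refine ((key_spec hV x).2 _ _ _ h1).trans_lt (not_le.1 fun hc => ?_)
  obtain ⟨β', φ', q', h3, e⟩ := (key_spec hV y).1
  rw [e] at hc
  have hβ : β'.toZFSet ∈ M := by
    rcases (tk_le hc).eq_or_lt with rfl | e
    · exact hγ
    · exact h.good.trans _ hγ _ (Ordinal.toZFSet_mem_toZFSet_iff.2 e)
  exact not_lt.2 hc ((tLt_iff h1.1 h3.1).1 (h2 _ hβ _ (h.good.nat _) _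
    (h.good.trans _ (h.lev _ hβ).1 _ h3.2.1) ((h.dIn_iff hβ).2 ⟨β', φ', rfl, rfl, h3⟩)))

theorem precIn_univ {x y : ZF} (h : key U x < key U y) : PrecIn Set.univ U x y := by
  obtain ⟨β, φ, q, h1, e⟩ := (key_spec hV x).1
  refine ⟨_, trivial, _, trivial, q, trivial,
    ((ini_univ U).dIn_iff trivial).2 ⟨β, φ, rfl, rfl, h1⟩, fun γ' _ n' _ q' _ h0 => ?_⟩
  obtain ⟨β', φ', rfl, rfl, h2⟩ := ((ini_univ U).dIn_iff trivial).1 h0
  exact (tLt_iff h1.1 h2.1).2 (e ▸ h.trans_le ((key_spec hV y).2 _ _ _ h2))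

variable {κ : Cardinal.{0}} (hU : IsNormalMeasure κ U) {c : Cardinal.{0}} (hc : ℵ₀ ≤ c)
  (hκ : c < κ)
include hU hc hκ

theorem precH_iff {x y : ZF} (hx : x ⊆ Tr (cardSet c)) (hy : y ⊆ Tr (cardSet c)) :
    PrecH (HC c) (cardSet c) x y ↔ key U x < key U y := by
  constructor
  · rintro ⟨N, hN, O, -, W, -, μ, -, h1, h2, ⟨-, hW, h3, h4⟩, h5⟩
    obtain ⟨M, O', j, e, it⟩ := (h1.em hc).iter hU ((HC.card_le hN).trans_lt hκ)
    have := (it.real.elem.t3 (fun M _ => PrecIn M) hW h3 h4).1 h5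
    rw [it.fixR h1.pm h2 h3 hx, it.fixR h1.pm h2 h4 hy] at this
    exact (it.ini h1.pm).prec_up hV this
  · intro h
    obtain ⟨N, hN, O, hO, W, μ, k, h1, h2, h3, h4, el, e1, e2, e3⟩ := hull_mouse hU hV hc hκ hx hy
    have p := h1.pm
    refine ⟨N, hN, O, hO, W, HC.trans N hN W p.hW, μ, HC.trans N hN μ p.hμ, h1, h2,
      ⟨p.good, p.hW, h3, h4⟩, (el.t3 (fun M _ => PrecIn M) p.hW h3 h4).2 ?_⟩
    rw [e1, e2, e3]
    exact precIn_univ hV h

theorem pred_enum {z : ZF} (hz : z ⊆ Tr (cardSet c)) : ∃ e, e ⊆ Tr (cardSet c) ∧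
    ∀ w, w ⊆ Tr (cardSet c) → key U w < key U z → ∃ b ∈ cardSet c, w = sec e b := by
  obtain ⟨N, hN, O, hO, W, μ, k, h1, h2, h3, -, el, e1, e2, -⟩ := hull_mouse hU hV hc hκ hz hz
  have p := h1.pm
  obtain ⟨M, O', j, e, it⟩ := (h1.em hc).iter hU ((HC.card_le hN).trans_lt hκ)
  obtain ⟨β, φ, q, h4⟩ := exists_Dt hV z
  obtain ⟨γ, hγ, n, -, q, -, h0⟩ := (it.real.elem.t2 (fun M _ W z => ∃ γ ∈ M, ∃ n ∈ M, ∃ q ∈ M,
    DIn M W γ n q z) p.hW h3).1 ((el.t2 (fun M _ W z => ∃ γ ∈ M, ∃ n ∈ M, ∃ q ∈ M,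
    DIn M W γ n q z) p.hW h3).2 (by
      rw [e1, e2]
      exact ⟨_, trivial, _, trivial, q, trivial,
        ((ini_univ U).dIn_iff trivial).2 ⟨β, φ, rfl, rfl, h4⟩⟩))
  rw [it.fixR p h2 h3 hz] at h0
  obtain ⟨β, φ, rfl, rfl, h5⟩ := ((it.ini p).dIn_iff hγ).1 h0
  obtain ⟨s, s1, -, s2⟩ := HC.surj hN (α := cardSet c)
    (by rw [lift_uzero, cardinalMk_coe_sort, card_cardSet]) ⟨∅, nat_mem_cardSet hc 0⟩
  refine ⟨(Tr (cardSet c)).sep fun w => ∃ b : cardSet c, ∃ t ∈ s b, w = pair b.1 t, sep_subset,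
    fun w hw h => ?_⟩
  obtain ⟨β', φ', q', h6, e'⟩ := (key_spec hV w).1
  have h7 := tk_le (e' ▸ (h.le.trans ((key_spec hV z).2 _ _ _ h5)))
  obtain ⟨b, rfl⟩ := s2 _ w (s1 ▸ it.pullR p h2
    (it.good.trans _ (it.lev p hγ).1 w (LU_mono h7 h6.2.2.1)) hw)
  refine ⟨b.1, b.2, ZFSet.ext fun t => ?_⟩
  rw [mem_sec, mem_sep]
  refine ⟨fun ht => ⟨pair_mem_Tr (mem_Tr_of_mem b.2) (hw ht), b, t, ht, rfl⟩, ?_⟩
  rintro ⟨-, b', t', ht, e⟩
  obtain ⟨e1, rfl⟩ := pair_inj.1 e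
  rwa [Subtype.ext e1]

theorem tv_HC {B : Set ZF} (hB : B ⊆ HC c) (hd : cardSet c ∈ dcl (HC c) ∅ B) :
    TV (HC c) ∅ (dcl (HC c) ∅ B) where
  sub := dcl_sub
  ne := empty_mem_dcl (HC.good hc)
  wit φ v hv := by
    rintro ⟨a, ha, h⟩
    have g := HC.good hc
    obtain ⟨E, h1, h2⟩ := exists_col hc ha
    obtain ⟨E, ⟨h1, a, ha, h2, h3⟩, h4⟩ := (InvImage.wf (key U) wellFounded_lt).has_min
      {E | E ⊆ Tr (cardSet c) ∧ ∃ a ∈ HC c, Col (HC c) (cardSet c) E a ∧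
        Sat (HC c) ∅ φ (cons a v)} ⟨E, h1, a, ha, h2, h⟩
    have hE : E ∈ dcl (HC c) ∅ B := by
      refine mem_dcl g hB (fun M U w => (w none ⊆ Tr (w (some none)) ∧ ∃ a ∈ M,
        Col M (w (some none)) (w none) a ∧ Sat M U φ (cons a fun n => w (some (some n)))) ∧
        ∀ E' ∈ M, (E' ⊆ Tr (w (some none)) ∧ ∃ a ∈ M,
        Col M (w (some none)) E' a ∧ Sat M U φ (cons a fun n => w (some (some n)))) →
        ¬ PrecH M (w (some none)) E' (w none)) (ext (cardSet c) v) (ext_mem hd hv)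
        (HC.sub_tr hc h1) fun E' _ => ⟨fun ⟨h5, h6⟩ => ?_, ?_⟩
      · refine key_inj hV (le_antisymm (not_lt.1 fun h7 => ?_) (not_lt.1 (h4 E' h5)))
        exact h6 E (HC.sub_tr hc h1) ⟨h1, a, ha, h2, h3⟩ ((precH_iff hV hU hc hκ h1 h5.1).2 h7)
      · rintro rfl
        exact ⟨⟨h1, a, ha, h2, h3⟩, fun E' _ h5 h6 => h4 E' h5 ((precH_iff hV hU hc hκ h5.1 h1).1 h6)⟩
    refine ⟨a, mem_dcl' g hB (fun M _ w => Col M (w 1) (w 2) (w 0)) (cons (cardSet c) fun _ => E)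
      (cons_mem hd fun _ => hE) ha fun a' _ =>
        ⟨fun h5 => Col.unique g (nat_mem_cardSet hc 0) h5 h2, fun e => e ▸ h2⟩, h3⟩

end

end Pool.Agent.MP_477625_lc.H75
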