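import Pool.Agent.MP_477625_lc.H75.Mouse

/-! Generic ultrafilters on products and elimination of generators. -/

namespace Pool.Agent.MP_477625_lc.H75
open ZFSet Cardinal Filter

universe u v

set_option linter.unusedVariables false
set_option linter.unusedSectionVars false
set_option synthInstance.maxSize 100000

structure Sys (N W μ : ZF) (I : Type 1) [LinearOrder I] where
  U : Ultrafilter μ
  V : Ultrafilter (I → μ)
  hU : ∀ X ∈ N, X ⊆ μ → (X ∈ W ↔ {ζ : μ | ζ.1 ∈ X} ∈ U)
  hV : ∀ (i : I) (X : (I → μ) → Set μ), (∀ x x', (∀ i' < i, x i' = x' i') → X x = X x') →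
    ∀ᶠ x in (V : Filter (I → μ)), X x ∈ U → x i ∈ X x

variable {N O W μ : ZF} {I : Type 1} [LinearOrder I]

theorem PM.mu_ne (h : PM N O W μ) : Nonempty μ := by
  rcases μ.eq_empty_or_nonempty with e | ⟨a, ha⟩
  · exact absurd (e ▸ h.ax.1.top) h.ax.1.ne
  · exact ⟨⟨a, ha⟩⟩

theorem PM.sys (h : PM N O W μ) (I : Type 1) [LinearOrder I] [WellFoundedLT I] :
    Nonempty (Sys N W μ I) := by
  have a := h.ax.1
  let F : Filter μ :=
    { sets := {s | ∃ X ∈ W, ∀ ζ : μ, ζ.1 ∈ X → ζ ∈ s}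
      univ_sets := ⟨μ, a.top, fun _ _ => trivial⟩
      sets_of_superset := fun ⟨X, h1, h2⟩ h => ⟨X, h1, fun ζ hζ => h (h2 ζ hζ)⟩
      inter_sets := fun ⟨X, h1, h2⟩ ⟨Y, h3, h4⟩ => ⟨X ∩ Y, a.inter X h1 Y h3, fun ζ hζ =>
        ⟨h2 ζ (mem_inter.1 hζ).1, h4 ζ (mem_inter.1 hζ).2⟩⟩ }
  have hF : F.NeBot := by
    refine ⟨fun e => ?_⟩
    obtain ⟨X, h1, h2⟩ : (∅ : Set μ) ∈ F := e ▸ mem_bot
    rcases X.eq_empty_or_nonempty with e | ⟨b, hb⟩
    · exact a.ne (e ▸ h1)
    · exact h2 ⟨b, a.sub X h1 hb⟩ hb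
  let U := Ultrafilter.of F
  have hFU : ∀ X ∈ W, {ζ : μ | ζ.1 ∈ X} ∈ U := fun X hX =>
    Ultrafilter.of_le F (show _ ∈ F from ⟨X, hX, fun _ h => h⟩)
  let S : Set (Set (I → μ)) := {A | ∃ (i : I) (X : (I → μ) → Set μ),
    (∀ x x', (∀ i' < i, x i' = x' i') → X x = X x') ∧ A = {x | X x ∈ U → x i ∈ X x}}
  have hS : (generate S).NeBot := by
    rw [generate_neBot_iff]
    intro t ht hf
    choose i X h1 h2 using fun A : t => ht A.2
    have := hf.to_subtype
    obtain ⟨z⟩ := h.mu_ne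
    obtain ⟨x, hx⟩ := wf_choice (wellFounded_lt (α := I)) z
      (fun k g a => ∀ A : t, i A = k → X A g ∈ U → a ∈ X A g) (fun k g => by
        refine Filter.Eventually.exists (f := (U : Filter μ)) ?_
        rw [eventually_all]
        intro A
        by_cases hm : X A g ∈ U
        · exact mem_of_superset hm fun a ha _ _ => ha
        · exact Eventually.of_forall fun a _ h => absurd h hm)
      (fun k g g' a e H A hk => by
        rw [← h1 A g g' (hk ▸ e)]; exact H A hk)
    exact ⟨x, fun A hA => by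
      have := h2 ⟨A, hA⟩
      simp only at this
      rw [this]; exact hx _ ⟨A, hA⟩ rfl⟩
  refine ⟨⟨U, Ultrafilter.of (generate S), fun X hX hs => ⟨hFU X, fun hm => ?_⟩,
    fun i X hX => Ultrafilter.of_le _ (mem_generate_of_mem ⟨i, X, hX, rfl⟩)⟩⟩
  refine (a.ultra X hX hs).resolve_right fun hc => ?_
  obtain ⟨ζ, h1, h2⟩ := Ultrafilter.nonempty_of_mem (inter_mem hm (hFU _ hc))
  exact (mem_sdiff.1 h2).2 h1

theorem Sys.gen (S : Sys N W μ I) (i : I) (X : (I → μ) → Set μ)
    (h : ∀ x x', (∀ i' < i, x i' = x' i') → X x = X x') :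
    ∀ᶠ x in (S.V : Filter (I → μ)), (X x ∈ S.U ↔ x i ∈ X x) := by
  filter_upwards [S.hV i X h, S.hV i (fun x => (X x)ᶜ) fun x x' e => by rw [h x x' e]]
    with x h1 h2
  exact ⟨h1, fun h3 => by_contra fun h4 => h2 (Ultrafilter.compl_mem_iff_notMem.2 h4) h3⟩

/-- The assignment given by a point of the product. -/
def iota (N : ZF) {μ : ZF} {I : Type 1} (x : I → μ) : N ⊕ I → ZF :=
  Sum.elim Subtype.val fun i => (x i).1

theorem PM.iota_mem (h : PM N O W μ) (x : I → μ) (k : N ⊕ I) : iota N x k ∈ (N : Set ZF) := by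
  rcases k with k | i
  · exact k.2
  · exact h.good.trans μ h.hμ _ (x i).2

def SuppI (S : Set I) (P : Set ZF → Set ZF → (Option (N ⊕ I) → ZF) → Prop) : Prop :=
  ∀ M U, Good M → ∀ w w' : Option (N ⊕ I) → ZF, (∀ k, w k ∈ M) → (∀ k, w' k ∈ M) →
    (∀ k, (∀ i, k = some (Sum.inr i) → i ∈ S) → w k = w' k) → (P M U w ↔ P M U w')

variable {P Q : Set ZF → Set ZF → (Option (N ⊕ I) → ZF) → Prop}

theorem SuppI.mono {S T : Set I} (h : SuppI S P) (e : S ⊆ T) : SuppI T P :=
  fun M U hM w w' h1 h2 h3 => h M U hM w w' h1 h2 fun k hk => h3 k fun i hi => e (hk i hi)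

theorem SuppI.inter {S T : Set I} (h : SuppI S P) (h' : SuppI T P) : SuppI (S ∩ T) P := by
  classical
  intro M U hM w w' h1 h2 h3
  have hm : ∀ k, (if ∀ i, k = some (Sum.inr i) → i ∈ S then w k else w' k) ∈ M := fun k => by
    split_ifs
    · exact h1 k
    · exact h2 k
  rw [h M U hM w _ h1 hm fun k hk => by rw [if_pos hk]]
  refine h' M U hM _ w' hm h2 fun k hk => ?_
  split_ifs with hc
  · exact h3 k fun i hi => ⟨hc i hi, hk i hi⟩
  · rfl

theorem Df.suppI (h : Df (Option (N ⊕ I)) P) : ∃ s : Finset I, SuppI (s : Set I) P := by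
  obtain ⟨s, hs⟩ := h.supp
  refine ⟨s.preimage (fun i => some (Sum.inr i)) fun _ _ _ _ e => by simpa using e,
    fun M U hM w w' h1 h2 h3 => hs M U hM w w' h1 h2 fun k hk => h3 k fun i hi => ?_⟩
  simpa [← hi] using hk

theorem Df.update {K : Type u} [DecidableEq K] {P : Set ZF → Set ZF → (K → ZF) → Prop}
    (h : Df K P) (k0 : K) : Df (Option K) fun M U w =>
      P M U (Function.update (fun k => w (some k)) k0 (w none)) :=
  (h.comp fun k => if k = k0 then none else some k).congr fun M U _ w _ => by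
    have : Function.update (fun k => w (some k)) k0 (w none) =
        fun k => w (if k = k0 then none else some k) := by
      funext k; by_cases e : k = k0 <;> simp [e]
    rw [this]

theorem update_mem {K : Type u} [DecidableEq K] {M : Set ZF} {w : K → ZF} (hw : ∀ k, w k ∈ M)
    (k0 : K) {a : ZF} (ha : a ∈ M) (k : K) : Function.update w k0 a k ∈ M := by
  by_cases e : k = k0 <;> simp [e, ha, hw]

open Classical in
/-- The quantifier given by the measure. -/
def QP (h : PM N O W μ) (i : I) (P : Set ZF → Set ZF → (Option (N ⊕ I) → ZF) → Prop)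
    (M U : Set ZF) (w : Option (N ⊕ I) → ZF) : Prop :=
  (w (some (Sum.inl ⟨μ, h.hμ⟩))).sep (fun ζ => P M U (Function.update w (some (Sum.inr i)) ζ)) ∈
    w (some (Sum.inl ⟨W, h.hW⟩))

theorem df_QP (h : PM N O W μ) (i : I) (hP : Df _ P) : Df _ (QP h i P) := by
  classical
  exact Df.memC (hs := DC.sep (hs := (DT.var (some (Sum.inl (⟨μ, h.hμ⟩ : N)))).toDC)
    (R := fun M U w ζ => P M U (Function.update w (some (Sum.inr i)) ζ)) (h := hP.update _))
    (ht := (DT.var (some (Sum.inl (⟨W, h.hW⟩ : N)))).toDC)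

theorem SuppI.update [DecidableEq (Option (N ⊕ I))] {S : Set I} {i : I}
    (hs : SuppI (insert i S) P) {M U : Set ZF}
    (hM : Good M) {w w' : Option (N ⊕ I) → ZF} (h1 : ∀ k, w k ∈ M) (h2 : ∀ k, w' k ∈ M)
    (h3 : ∀ k, (∀ i, k = some (Sum.inr i) → i ∈ S) → w k = w' k) {ζ : ZF} (hζ : ζ ∈ M) :
    P M U (Function.update w (some (Sum.inr i)) ζ) ↔
      P M U (Function.update w' (some (Sum.inr i)) ζ) := by
  refine hs M U hM _ _ (update_mem h1 _ hζ) (update_mem h2 _ hζ) fun k hk => ?_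
  by_cases e : k = some (Sum.inr i)
  · simp [e]
  · rw [Function.update_of_ne e, Function.update_of_ne e]
    refine h3 k fun i' hi' => (hk i' hi').resolve_left ?_
    rintro rfl; exact e hi'

theorem supp_QP (h : PM N O W μ) {S : Set I} {i : I} (hs : SuppI (insert i S) P) :
    SuppI S (QP h i P) := by
  classical
  intro M U hM w w' h1 h2 h3
  unfold QP
  rw [h3 (some (Sum.inl ⟨μ, h.hμ⟩)) (by simp), h3 (some (Sum.inl ⟨W, h.hW⟩)) (by simp),
    sep_congr fun ζ hζ => hs.update hM h1 h2 h3 (hM.trans _ (h2 _) ζ hζ)]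

theorem iota_agree {S : Set I} {x x' : I → μ} (e : ∀ i ∈ S, x i = x' i) (a : ZF)
    (k : Option (N ⊕ I)) (hk : ∀ i, k = some (Sum.inr i) → i ∈ S) :
    ext a (iota N x) k = ext a (iota N x') k := by
  rcases k with _ | k | i
  · rfl
  · rfl
  · exact congrArg Subtype.val (e i (hk i rfl))

/-- Almost everywhere, a predicate is equivalent to its quantified form. -/
theorem Sys.qp (S : Sys N W μ I) (h : PM N O W μ) {T : Set I} {i : I} (hT : ∀ i' ∈ T, i' < i)
    (hP : Df _ P) (hs : SuppI (insert i T) P) (g : (I → μ) → ZF) (hg : ∀ x, g x ∈ N)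
    (hd : ∀ x x', (∀ i' < i, x i' = x' i') → g x = g x') :
    ∀ᶠ x in (S.V : Filter (I → μ)), (QP h i P N O (ext (g x) (iota N x)) ↔ P N O (ext (g x) (iota N x))) := by
  classical
  have hm := fun x => ext_mem (hg x) (h.iota_mem x)
  filter_upwards [S.gen i (fun x => {ζ : μ | P N O
    (Function.update (ext (g x) (iota N x)) (some (Sum.inr i)) ζ.1)}) fun x x' e => by
      ext ζ
      refine hs.update h.good (hm x) (hm x') (fun k hk => ?_) (h.good.trans μ h.hμ _ ζ.2)
      rw [hd x x' e]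
      exact iota_agree (fun i' hi' => e i' (hT i' hi')) _ k hk] with x hx
  have e : Function.update (ext (g x) (iota N x)) (some (Sum.inr i)) (x i).1 =
      ext (g x) (iota N x) := Function.update_eq_self _ _
  simp only [e] at hx
  rw [← hx]
  refine (S.hU _ (h.sepD _ (hP := hP.update (some (Sum.inr i))) _ (hm x) h.hμ) sep_subset).trans ?_
  simp

theorem Sys.red (S : Sys N W μ I) (h : PM N O W μ) {I' : Type v} (r : I' → I' → Prop)
    (M U : Set ZF) (j : ZF → ZF) (c : I' → ZF) (e : I → I') (s : Finset I) :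
    ∀ P, Df (Option (N ⊕ I)) P → SuppI (s : Set I) P → ∃ R, Df (Option N) R ∧
      (∀ a ∈ N, (∀ᶠ x in (S.V : Filter (I → μ)), P N O (ext a (iota N x))) ↔ R N O (ext a Subtype.val)) ∧
      (Real N O W μ r M U j c → (∀ i ∈ s, ∀ i' ∈ s, i' < i → r (e i') (e i)) → ∀ a ∈ N,
        P M U (ext (j a) (Sum.elim (fun k => j k.1) fun i => c (e i))) ↔
          R M U (ext (j a) fun k => j k.1)) := by
  classical
  induction s using Finset.induction_on_max with
  | empty =>
    intro P hP hs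
    let g : Option (N ⊕ I) → Option (Option N) :=
      fun k => k.elim (some none) (Sum.elim (fun a => some (some a)) fun _ => none)
    have key : ∀ M U, Good M → ∀ a ∈ M, ∀ (v : N → ZF) (u : I → ZF), (∀ k, v k ∈ M) →
        (∀ k, u k ∈ M) → (P M U (ext a (Sum.elim v u)) ↔
          P M U fun k => (g k).elim ∅ (ext a v)) := by
      intro M U hM a ha v u hv hu
      refine hs M U hM _ _ (ext_mem ha (by rintro (k | k) <;> simp [hv, hu])) ?_ ?_
      · rintro (_ | k | k)
        · exact ha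
        · exact hv k
        · exact hM.empty
      · rintro (_ | k | k) hk
        · rfl
        · rfl
        · simpa using hk k rfl
    refine ⟨_, hP.compO g, fun a ha => ?_, fun hr _ a ha => ?_⟩
    · have := fun x : I → μ => key N O h.good a ha Subtype.val (fun i => (x i).1) (fun k => k.2)
        fun i => h.iota_mem x (Sum.inr i)
      simp only [iota, this, eventually_const]
    · exact key M U hr.elem.good' _ (hr.elem.map a ha) _ _ (fun k => hr.elem.map _ k.2)
        fun i => hr.cmem _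
  | insert i s hi ih =>
    intro P hP hs
    rw [Finset.coe_insert] at hs
    obtain ⟨R, hR, h1, h2⟩ := ih _ (df_QP h i hP) (supp_QP h hs)
    refine ⟨R, hR, fun a ha => ?_, fun hr he a ha => ?_⟩
    · rw [← h1 a ha]
      exact (eventually_congr (S.qp h hi hP hs (fun _ => a) (fun _ => ha) fun _ _ _ => rfl)).symm
    · rw [← h2 hr (fun i hi i' hi' => he i (by simp [hi]) i' (by simp [hi'])) a ha]
      set w : Option (N ⊕ I) → ZF :=
        ext (j a) (Sum.elim (fun k => j k.1) fun i => c (e i)) with hw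
      have hwm : ∀ k, w k ∈ M := ext_mem (hr.elem.map a ha) (by
        rintro (k | k)
        · exact hr.elem.map _ k.2
        · exact hr.cmem _)
      let w' : Option (N ⊕ I) → ZF :=
        fun k => if ∀ i, k = some (Sum.inr i) → i ∈ s then w k else j μ
      have hwm' : ∀ k, w' k ∈ M := fun k => by
        simp only [w']; split_ifs
        · exact hwm k
        · exact hr.elem.map μ h.hμ
      have ag : ∀ ζ ∈ M, (P M U (Function.update w (some (Sum.inr i)) ζ) ↔
          P M U (Function.update w' (some (Sum.inr i)) ζ)) := fun ζ hζ =>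
        hs.update hr.elem.good' hwm hwm' (fun k hk => (if_pos hk).symm) hζ
      have := hr.genD h.hμ _ (hP := hP.update (some (Sum.inr i))) (e i) w' fun k => by
        simp only [w']
        split_ifs with hk
        · rcases k with _ | k | k
          · exact Or.inl ⟨a, ha, rfl⟩
          · exact Or.inl ⟨k.1, k.2, rfl⟩
          · exact Or.inr ⟨e k, he i (by simp) k (by simp [hk k rfl]) (hi k (hk k rfl)), rfl⟩
        · exact Or.inl ⟨μ, h.hμ, rfl⟩
      simp only [ext_some, ext_none] at this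
      rw [← ag _ (hr.cmem _), show Function.update w (some (Sum.inr i)) (c (e i)) = w from
        Function.update_eq_self _ _] at this
      rw [← this]
      unfold QP
      rw [sep_congr fun ζ hζ => ag ζ (hr.elem.good'.trans _ (hwm _) ζ hζ)]
      rfl

theorem Sys.transfer (S : Sys N W μ I) (h : PM N O W μ) {I' : Type v} {r : I' → I' → Prop}
    {M U : Set ZF} {j : ZF → ZF} {c : I' → ZF} (hr : Real N O W μ r M U j c) (e : I → I')
    {T : Set I} (he : ∀ i ∈ T, ∀ i' ∈ T, i' < i → r (e i') (e i)) (hP : Df _ P) (hs : SuppI T P) :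
    (∀ᶠ x in (S.V : Filter (I → μ)), P N O (ext ∅ (iota N x))) ↔
      P M U (ext (j ∅) (Sum.elim (fun k => j k.1) fun i => c (e i))) := by
  classical
  obtain ⟨s, hs'⟩ := hP.suppI
  obtain ⟨R, hR, h1, h2⟩ := S.red h r M U j c e (s.filter (· ∈ T)) P hP
    ((hs.inter hs').mono fun i hi => by simpa using ⟨hi.2, hi.1⟩)
  rw [h1 _ h.good.empty, h2 hr (fun i hi i' hi' => he i (Finset.mem_filter.1 hi).2 i'
    (Finset.mem_filter.1 hi').2) _ h.good.empty,
    hr.elem.df R _ (ext_mem h.good.empty fun k : N => k.2), comp_ext]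

/-- Definable functions with support in `T`. -/
def Nm (N O : ZF) {μ : ZF} {I : Type 1} (T : Set I) (f : (I → μ) → ZF) : Prop :=
  ∃ P, Df (Option (N ⊕ I)) P ∧ SuppI T P ∧
    ∀ x, f x ∈ (N : Set ZF) ∧ ∀ y ∈ (N : Set ZF), (P N O (ext y (iota N x)) ↔ y = f x)

theorem Nm.de {T : Set I} {f : (I → μ) → ZF} (h : Nm N O T f) :
    DE (N : Set ZF) (O : Set ZF) (iota N) f :=
  let ⟨P, h1, _, h3⟩ := h; ⟨P, h1, h3⟩

theorem DE.nm {f : (I → μ) → ZF} (h : DE (N : Set ZF) (O : Set ZF) (iota N) f) :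
    ∃ s : Finset I, Nm N O (s : Set I) f :=
  let ⟨P, h1, h3⟩ := h; let ⟨s, hs⟩ := h1.suppI; ⟨s, P, h1, hs, h3⟩

theorem Nm.mono {T T' : Set I} {f : (I → μ) → ZF} (h : Nm N O T f) (e : T ⊆ T') : Nm N O T' f :=
  let ⟨P, h1, h2, h3⟩ := h; ⟨P, h1, h2.mono e, h3⟩

theorem Nm.dep (hp : PM N O W μ) {T : Set I} {f : (I → μ) → ZF} (h : Nm N O T f) {x x' : I → μ}
    (e : ∀ i ∈ T, x i = x' i) : f x = f x' := by
  obtain ⟨P, h1, h2, h3⟩ := h
  refine ((h3 x').2 _ (h3 x).1).1 ((h2 N O hp.good _ _ (ext_mem (h3 x).1 (hp.iota_mem x))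
    (ext_mem (h3 x).1 (hp.iota_mem x')) (iota_agree e _)).1 (((h3 x).2 _ (h3 x).1).2 rfl))

theorem SuppI.ext {T : Set I} (hs : SuppI T P) {M U : Set ZF}
    (hM : Good M) {w w' : Option (N ⊕ I) → ZF} (h1 : ∀ k, w k ∈ M) (h2 : ∀ k, w' k ∈ M)
    (h3 : ∀ k, (∀ i, k = some (Sum.inr i) → i ∈ T) → w k = w' k) {y : ZF} (hy : y ∈ M) :
    P M U (ext y fun k => w (some k)) ↔ P M U (ext y fun k => w' (some k)) :=
  hs M U hM _ _ (ext_mem hy fun _ => h1 _) (ext_mem hy fun _ => h2 _) fun k hk => by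
    cases k
    · rfl
    · exact h3 _ hk

theorem Sys.emb (S : Sys N W μ I) (h : PM N O W μ) {I' : Type v} {r : I' → I' → Prop}
    {M U : Set ZF} {j : ZF → ZF} {c : I' → ZF} (hr : Real N O W μ r M U j c) (e : I → I')
    {T : Set I} (he : ∀ i ∈ T, ∀ i' ∈ T, i' < i → r (e i') (e i)) :
    ∃ k : ((I → μ) → ZF) → ZF, (∀ f, Nm N O T f → k f ∈ M) ∧
      ∀ f g, Nm N O T f → Nm N O T g → (∀ᶠ x in (S.V : Filter (I → μ)), f x ∈ g x) → k f ∈ k g := by
  have : ∀ f : (I → μ) → ZF, Nm N O T f → ∃ y ∈ M, ∃ P, Df (Option (N ⊕ I)) P ∧ SuppI T P ∧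
      (∀ x, f x ∈ (N : Set ZF) ∧ ∀ y ∈ (N : Set ZF), (P N O (ext y (iota N x)) ↔ y = f x)) ∧
      P M U (ext y (Sum.elim (fun k => j k.1) fun i => c (e i))) := by
    rintro f ⟨P, h1, h2, h3⟩
    obtain ⟨y, hy, h4⟩ := (S.transfer h hr e he
      (P := fun M U w => ∃ y ∈ M, P M U (ext y fun k => w (some k))) inferInstance
      fun M U hM w w' a b c => exists_congr fun y => and_congr_right fun hy =>
        h2.ext hM a b c hy).1 (Eventually.of_forall fun x =>
          ⟨_, (h3 x).1, ((h3 x).2 _ (h3 x).1).2 rfl⟩)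
    exact ⟨y, hy, P, h1, h2, h3, h4⟩
  choose! k hk P h1 h2 h3 h4 using this
  refine ⟨k, hk, fun f g hf hg hfg => ?_⟩
  have := h1 f hf
  have := h1 g hg
  refine (S.transfer h hr e he (P := fun M U w => ∀ y ∈ M, ∀ y' ∈ M,
    P f M U (ext y fun k => w (some k)) → P g M U (ext y' fun k => w (some k)) → y ∈ y')
    inferInstance fun M U hM w w' a b c => ?_).1 ?_ _ (hk f hf) _ (hk g hg) (h4 f hf) (h4 g hg)
  · refine forall₂_congr fun y hy => forall₂_congr fun y' hy' => ?_
    rw [(h2 f hf).ext hM a b c hy, (h2 g hg).ext hM a b c hy']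
  · filter_upwards [hfg] with x hx y hy y' hy' e1 e2
    rwa [((h3 f hf x).2 y hy).1 e1, ((h3 g hg x).2 y' hy').1 e2]

/-- Normality removes the top generator. -/
theorem Sys.nr (S : Sys N W μ I) (h : PM N O W μ) {T : Set I} {i : I} (hT : ∀ i' ∈ T, i' < i)
    {f : (I → μ) → ZF} (hf : Nm N O (insert i T) f) (hi : ∀ᶠ x in (S.V : Filter (I → μ)), f x ∈ (x i).1) :
    ∃ g, Nm N O T g ∧ ∀ᶠ x in (S.V : Filter (I → μ)), f x = g x := by
  classical
  obtain ⟨P, hP, hs, h3⟩ := hf
  have a := h.ax.1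
  have hQ := df_QP h i hP
  have sQ := supp_QP h hs
  have up : ∀ (x : I → μ) (y : ZF) (ζ : μ), Function.update (ext y (iota N x))
      (some (Sum.inr i)) ζ.1 = ext y (iota N (Function.update x i ζ)) := by
    intro x y ζ
    funext k
    rcases k with _ | k | k
    · simp
    · simp [iota]
    · by_cases e : k = i <;> simp [iota, e]
  have uniq : ∀ x : I → μ, ∀ y ∈ (N : Set ZF), ∀ y' ∈ (N : Set ZF), QP h i P N O (ext y (iota N x)) →
      QP h i P N O (ext y' (iota N x)) → y = y' := by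
    intro x y hy y' hy' h1 h2
    have h4 := a.inter _ h1 _ h2
    have hne : ∀ X ∈ W, ∃ ζ, ζ ∈ X := fun X hX =>
      X.eq_empty_or_nonempty.resolve_left fun e => a.ne (e ▸ hX)
    obtain ⟨ζ, hζ⟩ := hne _ h4
    · simp only [mem_inter, mem_sep] at hζ
      have e1 := hζ.1.2
      have e2 := hζ.2.2
      rw [up x y ⟨ζ, hζ.1.1⟩, (h3 _).2 y hy] at e1
      rw [up x y' ⟨ζ, hζ.1.1⟩, (h3 _).2 y' hy'] at e2
      exact e1.trans e2.symm
  let g : (I → μ) → ZF := fun x =>
    if h : ∃ y ∈ (N : Set ZF), QP h i P N O (ext y (iota N x)) then h.choose else ∅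
  have hg : Nm N O T g := by
    refine ⟨fun M U w => QP h i P M U w ∨ (w none = ∅ ∧
      ¬ ∃ y ∈ M, QP h i P M U (ext y fun k => w (some k))), inferInstance,
      fun M U hM w w' a b c => ?_, fun x => ?_⟩
    · beta_reduce
      rw [sQ M U hM w w' a b c, c none (by simp)]
      exact or_congr_right (and_congr_right fun _ => not_congr (exists_congr fun y =>
        and_congr_right fun hy => sQ.ext hM a b c hy))
    · simp only [g, ext_some, ext_none]
      split_ifs with hc
      · refine ⟨hc.choose_spec.1, fun y hy => ⟨fun h' => ?_, fun h' => Or.inl ?_⟩⟩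
        · exact uniq x y hy _ hc.choose_spec.1 (h'.resolve_right fun h' => h'.2 hc) hc.choose_spec.2
        · exact h' ▸ hc.choose_spec.2
      · exact ⟨h.good.empty, fun y hy => ⟨fun h' => (h'.resolve_left fun h' => hc ⟨y, hy, h'⟩).1,
          fun h' => Or.inr ⟨h', hc⟩⟩⟩
  refine ⟨g, hg, ?_⟩
  have hgN := fun x => (hg.choose_spec.2.2 x).1
  have P1 : Df (Option (N ⊕ I)) fun M U w => ∃ y ∈ w (some (Sum.inr i)),
      P M U (ext y fun k => w (some k)) := inferInstance
  filter_upwards [hi, S.qp h hT hP hs g hgN fun x x' e => hg.dep h fun i' hi' => e i' (hT i' hi'),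
    S.qp h hT P1 (fun M U hM w w' a b c => by
      beta_reduce
      rw [c (some (Sum.inr i)) (by simp)]
      exact exists_congr fun y => and_congr_right fun hy =>
        hs.ext hM a b c (hM.trans _ (b _) y hy)) (fun _ => ∅) (fun _ => h.good.empty)
      fun _ _ _ => rfl] with x h1 h2 h4
  have h5 := h4.2 ⟨f x, h1, ((h3 x).2 _ (h3 x).1).2 rfl⟩
  obtain ⟨z, hz, hzt⟩ := h.ax.2.tr μ h.hμ
  have hm := h.iota_mem x
  have hG := h.sepD (fun M U w => ∃ ζ ∈ w (some (some (Sum.inl ⟨μ, h.hμ⟩))), ∃ y ∈ ζ,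
    w none = pair ζ y ∧ P M U (Function.update (ext y fun k => w (some (some k)))
      (some (Sum.inr i)) ζ)) (hP := Df.exC (h := Df.exC (h := Df.and
        (h' := ((hP.update (some (Sum.inr i))).comp (fun k => k.elim (some none) fun k =>
          k.elim none fun k => some (some (some (some k))))).congr fun M U _ w _ => by
            have : (fun k : Option (N ⊕ I) => w (Option.elim (some k) (some none) fun k =>
              k.elim none fun k => some (some (some (some k))))) =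
              ext (w none) fun k => w (some (some (some (some k)))) := by
              funext k; cases k <;> rfl
            rw [this]; rfl))))
    (ext ∅ (iota N x)) (ext_mem h.good.empty hm) hz
  simp only [ext_some, ext_none] at hG
  have hG' : ∀ ζ ∈ μ, ∀ y, pair ζ y ∈ z.sep (fun b => ∃ ζ ∈ iota N x (Sum.inl ⟨μ, h.hμ⟩),
      ∃ y ∈ ζ, b = pair ζ y ∧ P N O (Function.update (ext y (iota N x))
      (some (Sum.inr i)) ζ)) ↔
      y ∈ ζ ∧ P N O (Function.update (ext y (iota N x)) (some (Sum.inr i)) ζ) := by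
    intro ζ hζ y
    rw [mem_sep]
    constructor
    · rintro ⟨-, ζ', -, y', h1, e, h2⟩
      obtain ⟨rfl, rfl⟩ := pair_inj.1 e
      exact ⟨h1, h2⟩
    · exact fun h' => ⟨hzt (pair_mem_Tr (mem_Tr_of_mem hζ)
        (mem_Tr_of_mem (a.ord.mem_trans h'.1 hζ))), ζ, hζ, y, h'.1, rfl, h'.2⟩
  obtain ⟨b, hb, h6⟩ := a.normal _ hG (by
    refine Eq.mp (congrArg (· ∈ W) ?_) h5
    refine sep_congr fun ζ hζ => Iff.symm ?_
    refine Iff.trans (exists_congr fun y => and_congr_right fun hy =>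
      (?_ : _ ↔ P N O (ext y fun k => Function.update (ext ∅ (iota N x)) (some (Sum.inr i)) ζ
        (some k)))) (by simp)
    rw [hG' ζ hζ y, and_iff_right hy, up x y ⟨ζ, hζ⟩, up x ∅ ⟨ζ, hζ⟩]
    rfl)
  have hbN := h.good.trans μ h.hμ b hb
  have h7 : QP h i P N O (ext b (iota N x)) :=
    a.up _ h6 _ (h.sepD _ (hP := hP.update (some (Sum.inr i))) _ (ext_mem hbN hm) h.hμ)
      (fun ζ hζ => mem_sep.2 ⟨(mem_sep.1 hζ).1, ((hG' ζ (mem_sep.1 hζ).1 b).1 (mem_sep.1 hζ).2).2⟩)
      sep_subset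
  have h8 : QP h i P N O (ext (g x) (iota N x)) := by
    have hc : ∃ y ∈ (N : Set ZF), QP h i P N O (ext y (iota N x)) := ⟨b, hbN, h7⟩
    simp only [g, dif_pos hc]
    exact hc.choose_spec.2
  exact (((h3 x).2 _ (hgN x)).1 (h2.1 h8)).symm

theorem Sys.nr' (S : Sys N W μ I) (h : PM N O W μ) {T : Set I}
    (hT : ∀ i ∈ T, ∀ i' < i, i' ∈ T) (s : Finset I) : ∀ f : (I → μ) → ZF,
    Nm N O (s : Set I) f → (∀ i ∉ T, ∀ᶠ x in (S.V : Filter (I → μ)), f x ∈ (x i).1) →
    ∃ g, ∃ s' : Finset I, (s' : Set I) ⊆ T ∧ Nm N O (s' : Set I) g ∧ ∀ᶠ x in (S.V : Filter (I → μ)), f x = g x := by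
  classical
  induction s using Finset.induction_on_max with
  | empty => exact fun f hf _ => ⟨f, ∅, by simp, hf, Eventually.of_forall fun _ => rfl⟩
  | insert i s hi ih =>
    intro f hf h1
    by_cases hc : i ∈ T
    · refine ⟨f, _, fun i' hi' => ?_, hf, Eventually.of_forall fun _ => rfl⟩
      rcases Finset.mem_insert.1 hi' with rfl | hi'
      · exact hc
      · exact hT i hc i' (hi i' hi')
    · rw [Finset.coe_insert] at hf
      obtain ⟨g, hg, e⟩ := S.nr h hi hf (h1 i hc)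
      obtain ⟨g', s', h2, h3, e'⟩ := ih g hg fun i' hi' => by
        filter_upwards [e, h1 i' hi'] with x e1 e2
        exact e1 ▸ e2
      refine ⟨g', s', h2, h3, ?_⟩
      filter_upwards [e, e'] with x e1 e2
      exact e1.trans e2

end Pool.Agent.MP_477625_lc.H75
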