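import Pool.Agent.MP_477625_lc.H75.Arith

/-! Internal satisfaction relation and internal definition of the levels of `L[W]`. -/

namespace Pool.Agent.MP_477625_lc.H75
open ZFSet Cardinal

universe u v

set_option linter.unusedVariables false
set_option synthInstance.maxSize 100000

noncomputable def SatSet (x W : ZF) : ZF := (prod om (Lst x)).sep fun w =>
  ∃ (φ : Fml) (l : List ZF), w = pair (nat φ.code) (ZL l) ∧ Sat (x : Set ZF) (W : Set ZF) φ (asg l)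

theorem mem_SatSet {x W : ZF} {φ : Fml} {l : List ZF} : pair (nat φ.code) (ZL l) ∈ SatSet x W ↔
    (∀ b ∈ l, b ∈ x) ∧ Sat (x : Set ZF) (W : Set ZF) φ (asg l) := by
  rw [SatSet, mem_sep, pair_mem_prod, ZL_mem_Lst]
  constructor
  · rintro ⟨⟨-, h⟩, ψ, l', e, h'⟩
    obtain ⟨e1, e2⟩ := pair_inj.1 e
    rw [← Fml.code_inj _ _ (nat_inj.1 e1), ← ZL_inj e2] at h'
    exact ⟨h, h'⟩
  · exact fun h => ⟨⟨nat_mem_om _, h.1⟩, φ, l, rfl, h.2⟩

theorem mem_SatSet' {x W a : ZF} {φ : Fml} {l : List ZF} (ha : a ∈ x) (hl : ∀ b ∈ l, b ∈ x) :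
    pair (nat φ.code) (pair a (ZL l)) ∈ SatSet x W ↔
      Sat (x : Set ZF) (W : Set ZF) φ (cons a (asg l)) := by
  rw [← asg_cons]
  exact (mem_SatSet (l := a :: l)).trans (and_iff_right (by simpa [ha] using hl))

theorem all_code {p : ZF → Prop} : (∀ x ∈ om, p x) ↔ ∀ φ : Fml, p (nat φ.code) :=
  all_om.trans ⟨fun h _ => h _, fun h n => by obtain ⟨φ, rfl⟩ := Fml.code_surj n; exact h φ⟩

theorem ex_code {p : ZF → Prop} : (∃ x ∈ om, p x) ↔ ∃ φ : Fml, p (nat φ.code) :=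
  ex_om.trans ⟨fun ⟨n, h⟩ => by obtain ⟨φ, rfl⟩ := Fml.code_surj n; exact ⟨φ, h⟩,
    fun ⟨φ, h⟩ => ⟨_, h⟩⟩

def FStep (S x W n s : ZF) : Prop := ∃ c ∈ om, ∃ i ∈ om, ∃ j ∈ om, N3 RPair i j c ∧
  ((N3 RCd n (nat 0) c ∧ ∃ a ∈ insert ∅ x, ∃ b ∈ insert ∅ x, Look a s i ∧ Look b s j ∧ a ∈ b) ∨
   (N3 RCd n (nat 1) c ∧ ∃ a ∈ insert ∅ x, Look a s i ∧ Look a s j) ∨
   (N3 RCd n (nat 2) c ∧ ∃ a ∈ insert ∅ x, Look a s c ∧ a ∈ W) ∨
   (N3 RCd n (nat 3) c ∧ pair c s ∉ S) ∨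
   (N3 RCd n (nat 4) c ∧ pair i s ∈ S ∧ pair j s ∈ S) ∨
   (N3 RCd n (nat 5) c ∧ ∃ a ∈ x, pair c (pair a s) ∈ S))

def FClause (S x W : ZF) (l : List ZF) : Fml → Prop
  | .mem i j => asg l i ∈ asg l j
  | .eq i j => asg l i = asg l j
  | .pred i => asg l i ∈ W
  | .neg φ => pair (nat φ.code) (ZL l) ∉ S
  | .and φ ψ => pair (nat φ.code) (ZL l) ∈ S ∧ pair (nat ψ.code) (ZL l) ∈ S
  | .ex φ => ∃ a ∈ x, pair (nat φ.code) (ZL (a :: l)) ∈ S

theorem asg_mem_insert {x : ZF} {l : List ZF} (hl : ∀ b ∈ l, b ∈ x) (n : ℕ) :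
    asg l n ∈ insert ∅ x :=
  asg_mem (M := (insert ∅ x : ZF)) (mem_insert _ _) (fun b hb => mem_insert_of_mem _ (hl b hb)) n

theorem six_cases {n c r c' r' : ℕ} (h : n = 6 * c + r) (hr : r < 6) (hr' : r' < 6) :
    n = 6 * c' + r' ↔ c' = c ∧ r' = r := by omega

theorem fstep_iff {S x W : ZF} {l : List ZF} (hl : ∀ b ∈ l, b ∈ x) (φ : Fml) :
    FStep S x W (nat φ.code) (ZL l) ↔ FClause S x W l φ := by
  have hm := asg_mem_insert hl
  simp only [FStep, ex_om, n3_nat, RPair, RCd, look_ZL]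
  cases φ with
  | mem i j =>
    simp only [six_cases (show (Fml.mem i j).code = 6 * Nat.pair i j + 0 from rfl), Nat.ofNat_pos,
      Nat.one_lt_ofNat, Nat.reduceLT]
    simp [FClause, hm]
  | eq i j =>
    simp only [six_cases (show (Fml.eq i j).code = 6 * Nat.pair i j + 1 from rfl), Nat.ofNat_pos,
      Nat.one_lt_ofNat, Nat.reduceLT]
    simp [FClause, hm]
  | pred i =>
    simp only [six_cases (show (Fml.pred i).code = 6 * i + 2 from rfl), Nat.ofNat_pos,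
      Nat.one_lt_ofNat, Nat.reduceLT]
    simp only [FClause]
    constructor
    · rintro ⟨c, a, b, -, h⟩
      simp at h
      obtain ⟨rfl, h⟩ := h
      exact h.2
    · exact fun h => ⟨i, _, _, Nat.pair_unpair i, by simp [hm, h]⟩
  | neg φ =>
    simp only [six_cases (show (Fml.neg φ).code = 6 * φ.code + 3 from rfl), Nat.ofNat_pos,
      Nat.one_lt_ofNat, Nat.reduceLT]
    simp only [FClause]
    constructor
    · rintro ⟨c, a, b, -, h⟩
      simp at h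
      obtain ⟨rfl, h⟩ := h
      exact h
    · exact fun h => ⟨_, _, _, Nat.pair_unpair φ.code, by simp [h]⟩
  | and φ ψ =>
    simp only [six_cases (show (Fml.and φ ψ).code = 6 * Nat.pair φ.code ψ.code + 4 from rfl),
      Nat.ofNat_pos, Nat.one_lt_ofNat, Nat.reduceLT]
    simp [FClause]
  | ex φ =>
    simp only [six_cases (show (Fml.ex φ).code = 6 * φ.code + 5 from rfl), Nat.ofNat_pos,
      Nat.one_lt_ofNat, Nat.reduceLT]
    simp only [FClause]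
    constructor
    · rintro ⟨c, a, b, -, h⟩
      simp at h
      obtain ⟨rfl, h⟩ := h
      exact h
    · exact fun h => ⟨_, _, _, Nat.pair_unpair φ.code, by simpa [ZL] using h⟩

theorem eq_SatSet_iff {S x W : ZF} : S = SatSet x W ↔
    (∀ w ∈ S, ∃ n ∈ om, ∃ s ∈ Lst x, w = pair n s) ∧
      ∀ n ∈ om, ∀ s ∈ Lst x, (pair n s ∈ S ↔ FStep S x W n s) := by
  simp only [all_code, all_Lst]
  constructor
  · rintro rfl
    refine ⟨fun w hw => mem_prod.1 (mem_sep.1 hw).1, fun φ l hl => ?_⟩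
    rw [fstep_iff hl]
    cases φ <;> simp only [FClause, mem_SatSet, Sat, and_iff_right hl]
    · rfl
    · refine exists_congr fun a => and_congr_right fun ha => ?_
      rw [asg_cons, and_iff_right (by simpa using ⟨ha, hl⟩)]
  · rintro ⟨h1, h2⟩
    have key : ∀ (φ : Fml) (l : List ZF), (∀ b ∈ l, b ∈ x) →
        (pair (nat φ.code) (ZL l) ∈ S ↔ Sat (x : Set ZF) (W : Set ZF) φ (asg l)) := by
      intro φ
      induction φ with
      | mem i j => intro l hl; rw [h2 _ l hl, fstep_iff hl]; rfl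
      | eq i j => intro l hl; rw [h2 _ l hl, fstep_iff hl]; rfl
      | pred i => intro l hl; rw [h2 _ l hl, fstep_iff hl]; rfl
      | neg φ ih => intro l hl; rw [h2 _ l hl, fstep_iff hl, FClause, ih l hl]; rfl
      | and φ ψ ih1 ih2 =>
        intro l hl; rw [h2 _ l hl, fstep_iff hl, FClause, ih1 l hl, ih2 l hl]; rfl
      | ex φ ih =>
        intro l hl; rw [h2 _ l hl, fstep_iff hl, FClause]
        refine exists_congr fun a => and_congr_right fun ha => ?_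
        rw [ih _ (by simpa using ⟨ha, hl⟩), asg_cons]
    ext w
    have : ∀ n ∈ om, ∀ s ∈ Lst x, (pair n s ∈ S ↔ pair n s ∈ SatSet x W) := by
      simp only [all_code, all_Lst]
      intro φ l hl
      rw [key φ l hl, mem_SatSet, and_iff_right hl]
    constructor
    · intro hw
      obtain ⟨n, hn, s, hs, rfl⟩ := h1 w hw
      exact (this n hn s hs).1 hw
    · intro hw
      obtain ⟨n, hn, s, hs, rfl⟩ := mem_prod.1 (mem_sep.1 hw).1
      exact (this n hn s hs).2 hw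

def IsSat (S x W : ZF) : Prop := S = SatSet x W

instance Df.isSat {K : Type u} {a s i : Set ZF → Set ZF → (K → ZF) → ZF} [DT K a] [DT K s]
    [DT K i] : Df K fun M U v => IsSat (a M U v) (s M U v) (i M U v) :=
  Df.sub3 (R := fun _ _ => IsSat) (by
    simp only [IsSat, eq_SatSet_iff, FStep]; infer_instance) _ _ _

theorem mk_om_le : #(om : Set ZF) ≤ ℵ₀ := by
  rw [om, coe_range]; exact (Set.countable_range _).le_aleph0

theorem mk_SatSet_le {x W : ZF} {c : Cardinal.{1}} (hc : ℵ₀ ≤ c) (h : #(Lst x : Set ZF) ≤ c) :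
    #(SatSet x W : Set ZF) ≤ c := by
  have : (SatSet x W : Set ZF) ⊆ Set.range fun p : ↥(om : Set ZF) × ↥(Lst x : Set ZF) =>
      pair p.1.1 p.2.1 := fun w hw => by
    obtain ⟨n, hn, s, hs, rfl⟩ := mem_prod.1 (mem_sep.1 hw).1
    exact ⟨(⟨n, hn⟩, ⟨s, hs⟩), rfl⟩
  refine (mk_le_mk_of_subset this).trans (mk_range_le.trans ?_)
  rw [mk_prod, lift_id, lift_id]
  exact (mul_le_mul' (mk_om_le.trans hc) h).trans (mul_eq_self hc).le

/-! The hierarchy -/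

theorem mem_DefSet {U x y : ZF} : y ∈ DefSet U x ↔ ∃ (φ : Fml) (l : List ZF), (∀ b ∈ l, b ∈ x) ∧
    y = x.sep fun a => Sat (x : Set ZF) (U : Set ZF) φ (cons a (asg l)) := by
  rw [DefSet, mem_sep, mem_powerset]
  constructor
  · rintro ⟨-, φ, l, h1, h2⟩
    exact ⟨φ, l, h1, ZFSet.ext fun a => by rw [h2 a, mem_sep]⟩
  · rintro ⟨φ, l, h1, rfl⟩
    exact ⟨sep_subset, φ, l, h1, fun a => mem_sep⟩

theorem mem_LU {U x : ZF} {o : Ordinal.{0}} : x ∈ LU U o ↔ ∃ a < o, x ∈ DefSet U (LU U a) := by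
  rw [LU, mem_iUnion]; simp

theorem LU_mono {U : ZF} {a b : Ordinal.{0}} (h : a ≤ b) : LU U a ⊆ LU U b := fun _ hx => by
  obtain ⟨c, hc, hx⟩ := mem_LU.1 hx
  exact mem_LU.2 ⟨c, hc.trans_le h, hx⟩

theorem LU_sub {U x : ZF} {o : Ordinal.{0}} (h : x ∈ LU U o) : ∃ a < o, x ⊆ LU U a := by
  obtain ⟨c, hc, hx⟩ := mem_LU.1 h
  exact ⟨c, hc, mem_powerset.1 (mem_sep.1 hx).1⟩

theorem rank_lt_of_mem_LU {U : ZF} {o : Ordinal.{0}} : ∀ {x : ZF}, x ∈ LU U o → x.rank < o := by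
  induction o using WellFoundedLT.induction with
  | ind o ih =>
    intro x hx
    obtain ⟨a, ha, h⟩ := LU_sub hx
    exact (rank_le_iff.2 fun y hy => ih a ha (h hy)).trans_lt ha

theorem sat_pred_congr {M U U' N : Set ZF} (hM : M ⊆ N) (h : ∀ X ∈ N, X ∈ U ↔ X ∈ U') (φ : Fml) :
    ∀ v, (∀ n, v n ∈ N) → (Sat M U φ v ↔ Sat M U' φ v) := by
  induction φ with
  | mem i j => intro v _; rfl
  | eq i j => intro v _; rfl
  | pred i => intro v hv; exact h _ (hv i)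
  | neg φ ih => intro v hv; exact not_congr (ih v hv)
  | and φ ψ ih1 ih2 => intro v hv; exact and_congr (ih1 v hv) (ih2 v hv)
  | ex φ ih =>
    intro v hv
    exact exists_congr fun a => and_congr_right fun ha => ih _ (cons_mem (hM ha) hv)

theorem LU_local {W W' : ZF} {N : Set ZF} (h0 : ∅ ∈ N) (h : ∀ X ∈ N, X ∈ W ↔ X ∈ W')
    {o : Ordinal.{0}} : (∀ x ∈ LU W o, x ∈ N) → LU W o = LU W' o := by
  induction o using WellFoundedLT.induction with
  | ind o ih =>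
    intro ho
    ext x
    rw [mem_LU, mem_LU]
    refine exists_congr fun a => and_congr_right fun ha => ?_
    rw [mem_DefSet, mem_DefSet]
    have h1 : ∀ x ∈ LU W a, x ∈ N := fun x hx => ho x (LU_mono ha.le hx)
    rw [← ih a ha h1]
    refine exists_congr fun φ => exists_congr fun l => and_congr_right fun hl => ?_
    have : ((LU W a).sep fun b => Sat (LU W a : Set ZF) (W : Set ZF) φ (cons b (asg l))) =
        (LU W a).sep fun b => Sat (LU W a : Set ZF) (W' : Set ZF) φ (cons b (asg l)) := by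
      ext b
      simp only [mem_sep]
      exact and_congr_right fun hb => sat_pred_congr h1 h φ _
        (cons_mem (h1 b hb) (asg_mem h0 fun b hb => h1 b (hl b hb)))
    rw [this]

/-- A union of levels which misses an element of a level is a lower level. -/
theorem init_eq_LU {U : ZF} {Z : Set ZF} (hZ : ∀ x ∈ Z, ∃ β, x ∈ LU U β ∧ ∀ y ∈ LU U β, y ∈ Z)
    {x : ZF} {β : Ordinal.{0}} (hx : x ∈ LU U β) (hx' : x ∉ Z) :
    ∃ δ ≤ β, Z = (LU U δ : Set ZF) := by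
  have hb : ∀ γ ∈ {γ | ∀ y ∈ LU U γ, y ∈ Z}, γ ≤ β := fun γ hγ => by
    by_contra hc
    exact hx' (hγ x (LU_mono (not_le.1 hc).le hx))
  refine ⟨sSup {γ | ∀ y ∈ LU U γ, y ∈ Z}, csSup_le' hb, Set.ext fun y => ⟨fun hy => ?_,
    fun hy => ?_⟩⟩
  · obtain ⟨γ, h1, h2⟩ := hZ y hy
    exact LU_mono (le_csSup ⟨β, hb⟩ h2) h1
  · obtain ⟨a, ha, hy⟩ := mem_LU.1 hy
    obtain ⟨γ, h1, h2⟩ := (lt_csSup_iff' ⟨β, hb⟩).1 ha
    exact h1 y (mem_LU.2 ⟨a, h2, hy⟩)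

theorem init_total {U : ZF} {Z Z' : Set ZF}
    (hZ : ∀ x ∈ Z, ∃ β, x ∈ LU U β ∧ ∀ y ∈ LU U β, y ∈ Z)
    (hZ' : ∀ x ∈ Z', ∃ β, x ∈ LU U β ∧ ∀ y ∈ LU U β, y ∈ Z') : Z ⊆ Z' ∨ Z' ⊆ Z := by
  by_contra hc
  simp only [not_or, Set.not_subset] at hc
  obtain ⟨⟨x, h1, h2⟩, ⟨x', h1', h2'⟩⟩ := hc
  obtain ⟨β, h3, h4⟩ := hZ x h1
  obtain ⟨β', h3', h4'⟩ := hZ' x' h1'
  rcases le_total β β' with h | h
  · exact h2 (h4' x (LU_mono h h3))
  · exact h2' (h4 x' (LU_mono h h3'))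

def IsDef (M : Set ZF) (W x d : ZF) : Prop := ∃ S ∈ M, IsSat S x W ∧
  (∀ y ∈ d, ∃ n ∈ om, ∃ s ∈ Lst x, y = x.sep fun a => pair n (pair a s) ∈ S) ∧
  ∀ n ∈ om, ∀ s ∈ Lst x, (x.sep fun a => pair n (pair a s) ∈ S) ∈ d

theorem sep_SatSet {x W : ZF} {φ : Fml} {l : List ZF} (hl : ∀ b ∈ l, b ∈ x) (a : ZF)
    (ha : a ⊆ x) : (a.sep fun b => pair (nat φ.code) (pair b (ZL l)) ∈ SatSet x W) =
      a.sep fun b => Sat (x : Set ZF) (W : Set ZF) φ (cons b (asg l)) := by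
  ext b
  simp only [mem_sep]
  exact and_congr_right fun hb => mem_SatSet' (ha hb) hl

theorem isDef_iff {M : Set ZF} {W x d : ZF} :
    IsDef M W x d ↔ SatSet x W ∈ M ∧ d = DefSet W x := by
  simp only [IsDef, IsSat, ex_code, all_code, ex_Lst, all_Lst]
  constructor
  · rintro ⟨_, h0, rfl, h1, h2⟩
    refine ⟨h0, ZFSet.ext fun y => ⟨fun hy => ?_, fun hy => ?_⟩⟩
    · obtain ⟨φ, l, hl, e⟩ := h1 y hy
      exact mem_DefSet.2 ⟨φ, l, hl, e.trans (sep_SatSet hl x subset_rfl)⟩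
    · obtain ⟨φ, l, hl, rfl⟩ := mem_DefSet.1 hy
      rw [← sep_SatSet hl x subset_rfl]; exact h2 φ l hl
  · rintro ⟨h0, rfl⟩
    refine ⟨_, h0, rfl, fun y hy => ?_, fun φ l hl => ?_⟩
    · obtain ⟨φ, l, hl, e⟩ := mem_DefSet.1 hy
      exact ⟨φ, l, hl, e.trans (sep_SatSet hl x subset_rfl).symm⟩
    · rw [sep_SatSet hl x subset_rfl]; exact mem_DefSet.2 ⟨φ, l, hl, rfl⟩

instance Df.isDef {K : Type u} {a s i : Set ZF → Set ZF → (K → ZF) → ZF} [DT K a] [DT K s]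
    [DT K i] : Df K fun M U v => IsDef M (a M U v) (s M U v) (i M U v) :=
  Df.sub3 (R := fun M _ => IsDef M) (by unfold IsDef; infer_instance) _ _ _

def LIn (M : Set ZF) (W α y : ZF) : Prop := ∃ f ∈ M, pair α y ∈ f ∧
  ∀ β ∈ M, ∀ b ∈ M, pair β b ∈ f →
    (∀ γ ∈ β, ∃ b' ∈ M, ∃ d ∈ M, pair γ b' ∈ f ∧ IsDef M W b' d ∧ d ⊆ b) ∧
    ∀ y ∈ b, ∃ γ ∈ β, ∃ b' ∈ M, ∃ d ∈ M, pair γ b' ∈ f ∧ IsDef M W b' d ∧ y ∈ d

instance Df.lIn {K : Type u} {a s i : Set ZF → Set ZF → (K → ZF) → ZF} [DT K a] [DT K s]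
    [DT K i] : Df K fun M U v => LIn M (a M U v) (s M U v) (i M U v) :=
  Df.sub3 (R := fun M _ => LIn M) (by unfold LIn; infer_instance) _ _ _

theorem LIn.sound {M : Set ZF} (hM : Good M) {W y : ZF} {o : Ordinal.{0}}
    (h : LIn M W o.toZFSet y) : y = LU W o := by
  obtain ⟨f, hf, h1, h2⟩ := h
  induction o using WellFoundedLT.induction generalizing y with
  | ind o ih =>
    have hp := hM.trans f hf _ h1
    obtain ⟨h3, h4⟩ := h2 _ (hM.fst hp) _ (hM.snd hp) h1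
    ext z
    rw [mem_LU]
    constructor
    · intro hz
      obtain ⟨γ, hγ, b', -, d, -, e1, e2, e3⟩ := h4 z hz
      obtain ⟨a, ha, rfl⟩ := Ordinal.mem_toZFSet_iff.1 hγ
      rw [(isDef_iff.1 e2).2, ih a ha e1] at e3
      exact ⟨a, ha, e3⟩
    · rintro ⟨a, ha, hz⟩
      obtain ⟨b', -, d, -, e1, e2, e3⟩ := h3 a.toZFSet (by simpa)
      rw [(isDef_iff.1 e2).2, ih a ha e1] at e3
      exact e3 hz

theorem lIn_univ (W : ZF) (o : Ordinal.{0}) : LIn Set.univ W o.toZFSet (LU W o) := by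
  refine ⟨range fun a : Set.Iic o => pair a.1.toZFSet (LU W a), trivial,
    mem_range.2 ⟨⟨o, Set.mem_Iic.2 le_rfl⟩, rfl⟩, fun β _ b _ h => ?_⟩
  obtain ⟨⟨a, ha⟩, e⟩ := mem_range.1 h
  obtain ⟨rfl, rfl⟩ := pair_inj.1 e
  constructor
  · intro γ hγ
    obtain ⟨c, hc, rfl⟩ := Ordinal.mem_toZFSet_iff.1 hγ
    exact ⟨LU W c, trivial, _, trivial, mem_range.2 ⟨⟨c, hc.le.trans ha⟩, rfl⟩,
      isDef_iff.2 ⟨trivial, rfl⟩, fun z hz => mem_LU.2 ⟨c, hc, hz⟩⟩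
  · intro y hy
    obtain ⟨c, hc, hy⟩ := mem_LU.1 hy
    exact ⟨c.toZFSet, by simpa, LU W c, trivial, _, trivial,
      mem_range.2 ⟨⟨c, hc.le.trans ha⟩, rfl⟩, isDef_iff.2 ⟨trivial, rfl⟩, hy⟩

end Pool.Agent.MP_477625_lc.H75
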