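import Pool.Agent.MP_477625_lc.H75.Omega

/-! Transfer maps between equivalent points, and families of definable sets. -/

namespace Pool.Agent.MP_477625_lc.H75
open ZFSet Cardinal

universe u v

set_option linter.unusedVariables false
set_option linter.unusedSectionVars false
set_option synthInstance.maxSize 100000

structure PE (M X : Set ZF) (π : ZF → ZF) : Prop where
  map : ∀ a ∈ X, π a ∈ M
  df : ∀ P, Df ℕ P → ∀ v : ℕ → ZF, (∀ n, v n ∈ X) → (P M ∅ v ↔ P M ∅ fun n => π (v n))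

namespace PE
variable {M X : Set ZF} {π : ZF → ZF}

theorem t1 (H : PE M X π) (R : Set ZF → Set ZF → ZF → Prop)
    [hR : Df ℕ fun M U v => R M U (v 0)]
    {a : ZF} (ha : a ∈ X) :
    R M ∅ a ↔ R M ∅ (π a) :=
  H.df _ hR (fun _ => a)
    (fun _ => ha)

theorem t2 (H : PE M X π) (R : Set ZF → Set ZF → ZF → ZF → Prop)
    [hR : Df ℕ fun M U v => R M U (v 0) (v 1)]
    {a b : ZF} (ha : a ∈ X) (hb : b ∈ X) :
    R M ∅ a b ↔ R M ∅ (π a) (π b) :=
  H.df _ hR (cons a (fun _ => b))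
    (cons_mem ha (fun _ => hb))

theorem t3 (H : PE M X π) (R : Set ZF → Set ZF → ZF → ZF → ZF → Prop)
    [hR : Df ℕ fun M U v => R M U (v 0) (v 1) (v 2)]
    {a b c : ZF} (ha : a ∈ X) (hb : b ∈ X) (hc : c ∈ X) :
    R M ∅ a b c ↔ R M ∅ (π a) (π b) (π c) :=
  H.df _ hR (cons a (cons b (fun _ => c)))
    (cons_mem ha (cons_mem hb (fun _ => hc)))

theorem t4 (H : PE M X π) (R : Set ZF → Set ZF → ZF → ZF → ZF → ZF → Prop)
    [hR : Df ℕ fun M U v => R M U (v 0) (v 1) (v 2) (v 3)]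
    {a b c d : ZF} (ha : a ∈ X) (hb : b ∈ X) (hc : c ∈ X) (hd : d ∈ X) :
    R M ∅ a b c d ↔ R M ∅ (π a) (π b) (π c) (π d) :=
  H.df _ hR (cons a (cons b (cons c (fun _ => d))))
    (cons_mem ha (cons_mem hb (cons_mem hc (fun _ => hd))))

theorem t5 (H : PE M X π) (R : Set ZF → Set ZF → ZF → ZF → ZF → ZF → ZF → Prop)
    [hR : Df ℕ fun M U v => R M U (v 0) (v 1) (v 2) (v 3) (v 4)]
    {a b c d e : ZF} (ha : a ∈ X) (hb : b ∈ X) (hc : c ∈ X) (hd : d ∈ X) (he : e ∈ X) :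
    R M ∅ a b c d e ↔ R M ∅ (π a) (π b) (π c) (π d) (π e) :=
  H.df _ hR (cons a (cons b (cons c (cons d (fun _ => e)))))
    (cons_mem ha (cons_mem hb (cons_mem hc (cons_mem hd (fun _ => he)))))

theorem t6 (H : PE M X π) (R : Set ZF → Set ZF → ZF → ZF → ZF → ZF → ZF → ZF → Prop)
    [hR : Df ℕ fun M U v => R M U (v 0) (v 1) (v 2) (v 3) (v 4) (v 5)]
    {a b c d e f : ZF} (ha : a ∈ X) (hb : b ∈ X) (hc : c ∈ X) (hd : d ∈ X) (he : e ∈ X) (hf : f ∈ X) :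
    R M ∅ a b c d e f ↔ R M ∅ (π a) (π b) (π c) (π d) (π e) (π f) :=
  H.df _ hR (cons a (cons b (cons c (cons d (cons e (fun _ => f))))))
    (cons_mem ha (cons_mem hb (cons_mem hc (cons_mem hd (cons_mem he (fun _ => hf))))))

end PE

theorem PE.setL {M B : Set ZF} {π : ZF → ZF} (h : PE M (dcl M ∅ B) π) (hM : Good M) (hB : B ⊆ M)
    {l : List ZF} (hl : ∀ b ∈ l, b ∈ dcl M ∅ B) : π (setL l) = setL (l.map π) := by
  induction l with
  | nil => exact (h.t1 (fun _ _ a => a = ∅) (empty_mem_dcl hM)).1 rfl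
  | cons a l ih =>
    simp only [List.forall_mem_cons] at hl
    rw [List.map_cons, H75.setL, H75.setL, ← ih hl.2]
    exact (h.t3 (fun _ _ x a b => x = insert a b) (insert_mem_dcl hM hB hl.1
      (setL_mem_dcl hM hB hl.2)) hl.1 (setL_mem_dcl hM hB hl.2)).1 rfl

theorem mem_dcl_list {M U : Set ZF} {l : List ZF} (hB : ∀ b ∈ l, b ∈ M) {a : ZF} (h : a ∈ l) :
    a ∈ dcl M U {b | b ∈ l} := subset_dcl (B := {b | b ∈ l}) hB h

theorem asg_two (a b : ZF) : asg [a, b] = cons a (cons b fun _ => ∅) := by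
  rw [asg_cons, asg_cons, asg_nil]

theorem exists_PE {M : Set ZF} (hM : Good M) {d x x' : ZF} (hd : d ∈ M) (hx : x ∈ M)
    (hx' : x' ∈ M) (h : ∀ (R : Set ZF → Set ZF → ZF → ZF → Prop)
      [hR : Df ℕ fun M U v => R M U (v 0) (v 1)], R M ∅ d x ↔ R M ∅ d x') :
    ∃ π, PE M (dcl M ∅ {b | b ∈ [d, x]}) π ∧ π d = d ∧ π x = x' := by
  have hB : ∀ b ∈ [d, x], b ∈ M := by simp [hd, hx]
  have : ∀ y ∈ dcl M ∅ {b | b ∈ [d, x]}, ∃ φ, ∃ y' ∈ M,
      (∀ a ∈ M, (Sat M ∅ φ (cons a (cons d (cons x fun _ => ∅))) ↔ a = y)) ∧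
      ∀ a ∈ M, (Sat M ∅ φ (cons a (cons d (cons x' fun _ => ∅))) ↔ a = y') := by
    intro y hy
    obtain ⟨φ, hφ⟩ := dcl_asg hM hB hy
    rw [asg_two] at hφ
    obtain ⟨y', h1, h2⟩ := (h fun M U d x => ∃ y ∈ M, ∀ a ∈ M,
      (Sat M U φ (cons a (cons d (cons x fun _ => ∅))) ↔ a = y)).1 ⟨y, dcl_sub hy, hφ⟩
    exact ⟨φ, y', h1, hφ, h2⟩
  choose! F π h1 h2 h3 using this
  have md : d ∈ dcl M ∅ {b | b ∈ [d, x]} := mem_dcl_list hB (by simp)
  have mx : x ∈ dcl M ∅ {b | b ∈ [d, x]} := mem_dcl_list hB (by simp)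
  refine ⟨π, ⟨h1, fun P hP v hv => ?_⟩, ?_, ?_⟩
  · have hι : ∀ (b : Bool) n, cons d (cons (cond b x x') fun _ => ∅) n ∈ M := fun b =>
      cons_mem hd (cons_mem (by cases b <;> assumption) fun _ => hM.empty)
    obtain ⟨Q, hQ, h4⟩ := DE.subst (U := ∅) hM hι (fun n b => cond b (v n) (π (v n)))
      (fun n => ⟨fun M U w => Sat M U (F (v n)) (cons (w none) fun n => w (some n)),
        inferInstance, fun b => by
          cases b
          · exact ⟨h1 _ (hv n), h3 _ (hv n)⟩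
          · exact ⟨dcl_sub (hv n), h2 _ (hv n)⟩⟩) _ (hQ := hP.comp some)
    refine (h4 true ∅ hM.empty).trans (Iff.trans ?_ (h4 false ∅ hM.empty).symm)
    refine h (fun M U d x => Q M U (ext ∅ (cons d (cons x fun _ => ∅))))
      (hR := (hQ.compO fun k => k.elim none (cons (some 0) (cons (some 1) fun _ => none))).congr
        fun M U _ w _ => ?_)
    have : (ext ∅ (cons (w 0) (cons (w 1) fun _ => ∅))) = fun k : Option ℕ =>
        (k.elim none (cons (some 0) (cons (some 1) fun _ => none)) : Option ℕ).elim ∅ w := by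
      funext k
      rcases k with _ | _ | _ | k <;> rfl
    rw [this]
  · exact ((h3 d md d hd).1 ((h fun M U d' x =>
      Sat M U (F d) (cons d' (cons d' (cons x fun _ => ∅)))).1 ((h2 d md d hd).2 rfl))).symm
  · exact ((h3 x mx x' hx').1 ((h fun M U d' x' =>
      Sat M U (F x) (cons x' (cons d' (cons x' fun _ => ∅)))).1 ((h2 x mx x hx).2 rfl))).symm

theorem fin_supp {M U B : Set ZF} (hM : Good M) (hB : B ⊆ M) {y : ZF} (hy : y ∈ dcl M U B) :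
    ∃ l : List ZF, (∀ b ∈ l, b ∈ B) ∧ ∀ B' ⊆ M, (∀ b ∈ l, b ∈ dcl M U B') → y ∈ dcl M U B' :=
  let ⟨φ, l, h1, h2⟩ := dcl_list hM hB hy
  ⟨l, h1, fun _ hB' hl => dcl_of_list hM hB' (dcl_sub hy) φ l hl h2⟩

def Tau (τ : Fml) (M U : Set ZF) (d w q y : ZF) : Prop :=
  Sat M U τ (cons y (cons d (cons w (cons q fun _ => ∅)))) ∧
    ∀ a ∈ M, Sat M U τ (cons a (cons d (cons w (cons q fun _ => ∅)))) → a = y

instance Df.tau {K : Type u} (τ : Fml) {a b c d : Set ZF → Set ZF → (K → ZF) → ZF} [DT K a]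
    [DT K b] [DT K c] [DT K d] :
    Df K fun M U v => Tau τ M U (a M U v) (b M U v) (c M U v) (d M U v) :=
  Df.sub4 (R := Tau τ) (by unfold Tau; infer_instance) _ _ _ _

theorem Tau.dcl {τ : Fml} {M U B : Set ZF} (hM : Good M) (hB : B ⊆ M) {d w q y : ZF}
    (h : Tau τ M U d w q y) (hd : d ∈ dcl M U B) (hw : w ∈ dcl M U B) (hq : q ∈ dcl M U B)
    (hy : y ∈ M) : y ∈ dcl M U B :=
  mem_dcl' hM hB (fun M U v => Sat M U τ fun n => v n) (cons d (cons w (cons q fun _ => ∅)))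
    (cons_mem hd (cons_mem hw (cons_mem hq fun _ => empty_mem_dcl hM))) hy
    fun a ha => ⟨h.2 a ha, fun e => e ▸ h.1⟩

theorem exists_tau {M U : Set ZF} (hM : Good M) {d w q y : ZF} (hB : ∀ b ∈ [d, w, q], b ∈ M)
    (hy : y ∈ dcl M U {b | b ∈ [d, w, q]}) : ∃ τ, Tau τ M U d w q y := by
  obtain ⟨φ, hφ⟩ := dcl_asg hM hB hy
  rw [asg_cons, asg_two] at hφ
  exact ⟨φ, (hφ y (dcl_sub hy)).2 rfl, fun a ha => (hφ a ha).1⟩

noncomputable def entS (d s : ZF) : ZF := d.sep fun b => Ent b s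

instance DC.entS {K : Type u} {a b : Set ZF → Set ZF → (K → ZF) → ZF} [ha : DC K a]
    [hb : DT K b] : DC K fun M U v => entS (a M U v) (b M U v) :=
  have := hb.comp (J := Option K) some
  DC.sep (R := fun M U v c => Ent c (b M U v))

theorem entS_ZL {d : ZF} {l : List ZF} (h : ∀ b ∈ l, b ∈ d) : entS d (ZL l) = setL l := by
  ext b
  rw [entS, mem_sep, ent_ZL, mem_setL]
  exact and_iff_right_of_imp (h b)

theorem Lst_sub_Tr (a : ZF) : Lst a ⊆ Tr a := fun s hs => by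
  obtain ⟨l, hl, rfl⟩ := mem_Lst.1 hs
  exact ZL_mem_Tr fun b hb => mem_Tr_of_mem (hl b hb)

def Enum (M : Set ZF) (d z e : ZF) : Prop :=
  ∀ w ∈ M, w ⊆ Tr d → PrecH M d w z → ∃ b ∈ d, w = sec e b

instance Df.enum {K : Type u} {a b c : Set ZF → Set ZF → (K → ZF) → ZF} [DT K a]
    [DT K b] [DT K c] : Df K fun M U v => Enum M (a M U v) (b M U v) (c M U v) :=
  Df.sub3 (R := fun M _ => Enum M) (by unfold Enum; infer_instance) _ _ _

theorem Ctx.prec {κ c : Cardinal.{0}} {U : ZF} (C : Ctx κ U c) {x y : ZF}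
    (hx : x ⊆ Tr (cardSet c)) (hy : y ⊆ Tr (cardSet c)) :
    PrecH (HC c) (cardSet c) x y ↔ key U x < key U y := precH_iff C.hV C.hU C.hc C.hκ hx hy

theorem Hull.enum {κ c : Cardinal.{0}} {U : ZF} {X : Set ZF} (h : Hull c X) (C : Ctx κ U c)
    {z : ZF} (hz : z ∈ X) (hz' : z ⊆ Tr (cardSet c)) : ∃ e ∈ X, Enum (HC c) (cardSet c) z e := by
  obtain ⟨e, h1, h2⟩ := pred_enum C.hV C.hU C.hc C.hκ hz'
  exact h.tv.df h.good (fun M _ w => Enum M (w (some true)) (w (some false)) (w none))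
    (fun b => cond b (cardSet c) z) (by rintro (_ | _); exacts [hz, h.hd])
    ⟨e, HC.sub_tr h.hc h1, fun w _ hw hp => h2 w hw ((C.prec hw hz').1 hp)⟩

theorem Hull.fam {c : Cardinal.{0}} {X : Set ZF} (h : Hull c X)
    (Q : Set ZF → Set ZF → ZF → ZF → ZF → ZF → ZF → Prop)
    [hQ : Df ℕ fun M U v => Q M U (v 0) (v 1) (v 2) (v 3) (v 4)] {z t : ZF} (hz : z ∈ X)
    (ht : t ∈ X) (hu : ∀ b, ∀ w ∈ HC c, ∀ w' ∈ HC c, Q (HC c) ∅ (cardSet c) z t b w →
      Q (HC c) ∅ (cardSet c) z t b w' → w = w') :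
    ∃ G ∈ X, G ⊆ Tr (cardSet c) ∧ ∀ b ∈ Tr (cardSet c), ∀ w ∈ HC c, w ⊆ Tr (cardSet c) →
      Q (HC c) ∅ (cardSet c) z t b w → sec G b = w := by
  have i : ∀ {K : Type} {a b c d e : Set ZF → Set ZF → (K → ZF) → ZF} [DT K a] [DT K b] [DT K c]
      [DT K d] [DT K e], Df K fun M U v =>
      Q M U (a M U v) (b M U v) (c M U v) (d M U v) (e M U v) := Df.sub5 hQ _ _ _ _ _
  refine h.tv.df (K := ℕ) h.good (fun M U w => w none ⊆ Tr (w (some 0)) ∧ ∀ b ∈ Tr (w (some 0)), ∀ y ∈ M,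
    y ⊆ Tr (w (some 0)) → Q M U (w (some 0)) (w (some 1)) (w (some 2)) b y → sec (w none) b = y)
    (cons (cardSet c) (cons z fun _ => t)) (cons_mem h.hd (cons_mem hz fun _ => ht))
    ⟨(Tr (cardSet c)).sep fun p => ∃ b y, p = pair b y ∧ ∃ w ∈ HC c,
      Q (HC c) ∅ (cardSet c) z t b w ∧ y ∈ w, HC.sub_tr h.hc sep_subset,
      by rw [ext_none]; exact sep_subset,
      fun b hb w hw h1 h2 => ZFSet.ext fun y => ?_⟩
  simp only [ext_none, ext_some, cons_zero, cons_succ] at *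
  rw [mem_sec]
  refine mem_sep.trans ⟨?_, fun h3 => ⟨pair_mem_Tr hb (h1 h3), b, y, rfl, w, hw, h2, h3⟩⟩
  rintro ⟨-, b', y', e, w', hw', h3, h4⟩
  obtain ⟨rfl, rfl⟩ := pair_inj.1 e
  exact hu b w' hw' w hw h3 h2 ▸ h4

end Pool.Agent.MP_477625_lc.H75
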