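import Pool.Agent.MP_477625_lc.H75.Red

/-! The definable ultrapower and its collapse. -/

namespace Pool.Agent.MP_477625_lc.H75
open ZFSet Cardinal Filter

universe u v

set_option linter.unusedVariables false
set_option linter.unusedSectionVars false
set_option synthInstance.maxSize 100000

abbrev FF (N O μ : ZF) (I : Type 1) : Type 1 :=
  {f : (I → μ) → ZF // DE (N : Set ZF) (O : Set ZF) (iota N) f}

variable {N O W μ : ZF} {I : Type 1} [LinearOrder I]

theorem FF.mem (f : FF N O μ I) (x : I → μ) : f.1 x ∈ (N : Set ZF) := (f.2.choose_spec.2 x).1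

theorem mk_nm_le (h : PM N O W μ) (T : Set I) :
    #{f : (I → μ) → ZF | Nm N O T f} ≤ #(Fml × List (N ⊕ T)) := by
  classical
  have : ∀ f : {f : (I → μ) → ZF | Nm N O T f}, ∃ p : Fml × List (N ⊕ T), ∀ x,
      f.1 x ∈ (N : Set ZF) ∧ ∀ y ∈ (N : Set ZF), (Sat N O p.1 (cons y (asg (p.2.map fun k =>
        iota N x (k.map id Subtype.val)))) ↔ y = f.1 x) := by
    rintro ⟨f, P, hP, hs, h3⟩
    let g : Option (N ⊕ I) → Option (Option (N ⊕ T)) := fun k => k.elim (some none)
      (Sum.elim (fun a => some (some (Sum.inl a)))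
        fun i => if h : i ∈ T then some (some (Sum.inr ⟨i, h⟩)) else none)
    obtain ⟨φ, l, hl⟩ := (hP.compO g).toList
    refine ⟨(φ, l), fun x => ⟨(h3 x).1, fun y hy => ?_⟩⟩
    have hm : ∀ k : N ⊕ T, iota N x (k.map id Subtype.val) ∈ (N : Set ZF) :=
      fun k => h.iota_mem x _
    rw [← hl N O h.good _ hm y hy, ← (h3 x).2 y hy]
    refine hs N O h.good _ _ (fun k => ?_) (ext_mem hy (h.iota_mem x)) ?_
    · cases g k
      · exact h.good.empty
      · exact ext_mem hy hm _
    · rintro (_ | k | i) hk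
      · rfl
      · rfl
      · simp [g, hk i rfl]
  choose F hF using this
  refine mk_le_of_injective (f := F) fun f f' e => Subtype.ext (funext fun x => ?_)
  have := ((hF f x).2 _ (hF f x).1).2 rfl
  rw [e] at this
  exact ((hF f' x).2 _ (hF f x).1).1 this

def Sys.E (S : Sys N W μ I) (O : ZF) (f g : FF N O μ I) : Prop :=
  ∀ᶠ x in (S.V : Filter (I → μ)), f.1 x ∈ g.1 x

theorem Sys.wf (S : Sys N W μ I) [WellFoundedLT I] [Nonempty I] (h : EM N O W μ) :
    WellFounded (S.E O) := by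
  classical
  rw [wellFounded_iff_isEmpty_descending_chain]
  refine ⟨fun ⟨f, hf⟩ => ?_⟩
  choose s hs using fun n => (f n).2.nm
  obtain ⟨u, hu⟩ := Set.countable_iff_exists_subset_range.1
    (Set.countable_iUnion fun n => (s n).countable_toSet)
  obtain ⟨M, U, j, c, hr⟩ := h.real (fun n m => u n < u m) (InvImage.wf u wellFounded_lt)
  choose! e he using hu
  obtain ⟨k, -, hk⟩ := S.emb h.pm hr e (T := ⋃ n, (s n : Set I)) fun i hi i' hi' hlt => by
    rwa [he hi, he hi']
  have hn := fun n => (hs n).mono (Set.subset_iUnion (fun n => (s n : Set I)) n)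
  exact (wellFounded_iff_isEmpty_descending_chain.1 ZFSet.mem_wf).false
    ⟨fun n => k (f n).1, fun n => hk _ _ (hn _) (hn _) (hf n)⟩

theorem PM.skolem (h : PM N O W μ) {J : Type u} (Q : Set ZF → Set ZF → (Option J → ZF) → Prop)
    [hQ : Df (Option J) Q] (f : J → FF N O μ I) : ∃ g : FF N O μ I, ∀ x,
      (∃ y ∈ (N : Set ZF), Q N O (ext y fun j => (f j).1 x)) →
        Q N O (ext (g.1 x) fun j => (f j).1 x) := by
  classical
  have key : ∀ x : I → μ, ∃ y ∈ (N : Set ZF), ((∃ y ∈ (N : Set ZF),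
      Q N O (ext y fun j => (f j).1 x)) → Q N O (ext y fun j => (f j).1 x)) ∧
      ∀ z ∈ (N : Set ZF), ((Q N O (ext z fun j => (f j).1 x) ∧ ∀ y' ∈ (N : Set ZF),
        Q N O (ext y' fun j => (f j).1 x) → y' = z ∨ pair z y' ∈ (O : Set ZF)) ∨
        (z = ∅ ∧ ¬ ∃ y' ∈ (N : Set ZF), Q N O (ext y' fun j => (f j).1 x))) ↔ z = y := by
    intro x
    by_cases hc : ∃ y ∈ (N : Set ZF), Q N O (ext y fun j => (f j).1 x)
    · obtain ⟨y, hy, h1, h2⟩ := h.skD Q _ (fun j => (f j).mem x) hc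
      refine ⟨y, hy, fun _ => h1, fun z hz => ⟨fun h3 => ?_, fun e => Or.inl (e ▸ ⟨h1, h2⟩)⟩⟩
      obtain ⟨h3, h4⟩ := h3.resolve_right fun h => h.2 hc
      rcases h2 z hz h3 with e | e
      · exact e
      · rcases h4 y hy h1 with e' | e'
        · exact e'.symm
        · exact absurd e' (h.ax.1.anti y hy z hz e)
    · exact ⟨∅, h.good.empty, fun h => absurd h hc, fun z hz =>
        ⟨fun h3 => (h3.resolve_left fun h3 => hc ⟨z, hz, h3.1⟩).1, fun e => Or.inr ⟨e, hc⟩⟩⟩
  choose g h1 h2 h3 using key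
  exact ⟨⟨g, DE.of_df h.good h.iota_mem (fun j => (f j).1) (fun j => (f j).2)
    (fun M U w => (Q M U w ∧ ∀ y' ∈ M, Q M U (ext y' fun k => w (some k)) →
      y' = w none ∨ pair (w none) y' ∈ U) ∨
      (w none = ∅ ∧ ¬ ∃ y' ∈ M, Q M U (ext y' fun k => w (some k)))) g h1 h3⟩, h2⟩

def PM.cst (h : PM N O W μ) (I : Type 1) [LinearOrder I] (a : ZF) (ha : a ∈ N) : FF N O μ I :=
  ⟨fun _ => a, DE.var (ι := iota N) h.iota_mem (Sum.inl ⟨a, ha⟩)⟩

def PM.prj (h : PM N O W μ) (i : I) : FF N O μ I :=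
  ⟨fun x => (x i).1, DE.var (ι := iota N) h.iota_mem (Sum.inr i)⟩

variable [Small.{0} (FF N O μ I)] (S : Sys N W μ I)

noncomputable def Sys.val (f : FF N O μ I) : ZF := wval (S.E O) f

def Sys.pr (O : ZF) [Small.{0} (FF N O μ I)] : Set ZF :=
  {z | ∃ f : FF N O μ I, S.val f = z ∧ ∀ᶠ x in (S.V : Filter (I → μ)), f.1 x ∈ O}

variable {S} (h : PM N O W μ) (hwf : WellFounded (S.E O))
include hwf

theorem Sys.mem_val {f : FF N O μ I} {z : ZF} : z ∈ S.val f ↔ ∃ g, S.E O g f ∧ S.val g = z :=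
  mem_wval hwf

include h

theorem Sys.val_eq {f g : FF N O μ I} :
    S.val f = S.val g ↔ ∀ᶠ x in (S.V : Filter (I → μ)), f.1 x = g.1 x := by
  constructor
  · induction f using hwf.induction generalizing g with
    | _ f ih =>
      intro e
      by_contra hc
      obtain ⟨k, hk⟩ := h.skolem (fun _ _ w => ¬ (w none ∈ w (some true) ↔ w none ∈ w (some false)))
        fun b => cond b f g
      have h1 : ∀ᶠ x in (S.V : Filter (I → μ)), ¬ (k.1 x ∈ f.1 x ↔ k.1 x ∈ g.1 x) := by
        filter_upwards [Ultrafilter.eventually_not.2 hc] with x hx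
        refine hk x ?_
        by_contra hn
        push Not at hn
        exact hx (ZFSet.ext fun z => ⟨fun hz => (hn z (h.good.trans _ (f.mem x) z hz)).1 hz,
          fun hz => (hn z (h.good.trans _ (g.mem x) z hz)).2 hz⟩)
      by_cases h2 : S.E O k f
      · obtain ⟨k', h3, h4⟩ := (Sys.mem_val hwf).1 (e ▸ (Sys.mem_val hwf).2 ⟨k, h2, rfl⟩)
        obtain ⟨x, a, b, c, d⟩ := (h1.and (h2.and (h3.and (ih k h2 h4.symm)))).exists
        exact a ⟨fun _ => d ▸ c, fun _ => b⟩
      · have h2' := Ultrafilter.eventually_not.2 h2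
        have h3 : S.E O k g := by
          filter_upwards [h1, h2'] with x a b
          tauto
        obtain ⟨k', h4, h5⟩ := (Sys.mem_val hwf).1
          (e ▸ (Sys.mem_val hwf).2 ⟨k, h3, rfl⟩ : S.val k ∈ S.val f)
        obtain ⟨x, a, b, c⟩ := (h2'.and (h4.and (ih k' h4 h5))).exists
        exact a (c ▸ b)
  · intro e
    ext z
    simp only [Sys.mem_val hwf]
    refine exists_congr fun k => and_congr_left fun _ => eventually_congr ?_
    filter_upwards [e] with x hx
    rw [hx]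

theorem Sys.val_mem {f g : FF N O μ I} : S.val f ∈ S.val g ↔ S.E O f g := by
  rw [Sys.mem_val hwf]
  refine ⟨fun ⟨k, h1, h2⟩ => ?_, fun h => ⟨f, h, rfl⟩⟩
  filter_upwards [h1, (Sys.val_eq h hwf).1 h2] with x a b
  exact b ▸ a

theorem Sys.los (φ : Fml) : ∀ v : ℕ → FF N O μ I,
    Sat (Set.range (S.val (O := O))) (S.pr O) φ (fun n => S.val (v n)) ↔
      ∀ᶠ x in (S.V : Filter (I → μ)), Sat N O φ fun n => (v n).1 x := by
  induction φ with
  | mem i j => intro v; exact Sys.val_mem h hwf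
  | eq i j => intro v; exact Sys.val_eq h hwf
  | pred i =>
    intro v
    refine ⟨fun ⟨f, h1, h2⟩ => ?_, fun h => ⟨_, rfl, h⟩⟩
    filter_upwards [h2, (Sys.val_eq h hwf).1 h1] with x a b
    exact (b ▸ a : (v i).1 x ∈ O)
  | neg φ ih => intro v; exact (not_congr (ih v)).trans Ultrafilter.eventually_not.symm
  | and φ ψ ih1 ih2 => intro v; exact (and_congr (ih1 v) (ih2 v)).trans eventually_and.symm
  | ex φ ih =>
    intro v
    have e : ∀ (f : FF N O μ I) (x : I → μ), (fun n => (cons f v n).1 x) =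
      cons (f.1 x) fun n => (v n).1 x := fun f x => comp_cons (fun f : FF N O μ I => f.1 x) f v
    constructor
    · rintro ⟨_, ⟨f, rfl⟩, h1⟩
      rw [← comp_cons, ih] at h1
      filter_upwards [h1] with x hx
      exact ⟨_, f.mem x, e f x ▸ hx⟩
    · intro h1
      obtain ⟨g, hg⟩ := h.skolem (fun M U w => Sat M U φ (cons (w none) fun n => w (some n))) v
      refine ⟨_, ⟨g, rfl⟩, ?_⟩
      rw [← comp_cons, ih]
      filter_upwards [h1] with x hx
      exact (e g x).symm ▸ hg x hx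

theorem Sys.good : Good (Set.range (S.val (O := O))) := by
  have ht : ∀ x ∈ Set.range (S.val (O := O)), ∀ y ∈ x, y ∈ Set.range (S.val (O := O)) := by
    rintro _ ⟨f, rfl⟩ y hy
    obtain ⟨g, -, e⟩ := (Sys.mem_val hwf).1 hy
    exact ⟨g, e⟩
  refine good_of_sat (U := S.pr O) ht ⟨_, h.cst I ∅ h.good.empty, rfl⟩ fun v hv => ?_
  choose F hF using hv
  obtain rfl : v = fun n => S.val (F n) := funext fun n => (hF n).symm
  simp only [Sys.los h hwf]
  exact ⟨Eventually.of_forall fun x => (sat_insF h.good.trans fun n => (F n).mem x).2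
      (h.good.ins _ ((F 0).mem x) _ ((F 1).mem x)),
    Eventually.of_forall fun x => (sat_unF h.good.trans fun n => (F n).mem x).2
      (h.good.un _ ((F 0).mem x) _ ((F 1).mem x))⟩

theorem Sys.losD {K : Type u} (P : Set ZF → Set ZF → (K → ZF) → Prop) [hP : Df K P]
    (v : K → FF N O μ I) : P (Set.range (S.val (O := O))) (S.pr O) (fun k => S.val (v k)) ↔
      ∀ᶠ x in (S.V : Filter (I → μ)), P N O fun k => (v k).1 x := by
  obtain ⟨φ, p, hP⟩ := hP.out
  rw [hP _ _ (Sys.good h hwf) _ fun k => ⟨_, rfl⟩]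
  simp only [fun x => hP N O h.good (fun k => (v k).1 x) fun k => (v k).mem x]
  have e0 : S.val (h.cst I ∅ h.good.empty) = ∅ := (ZFSet.eq_empty _).2 fun y hy => by
    obtain ⟨g, hg, -⟩ := (Sys.mem_val hwf).1 hy
    obtain ⟨x, hx⟩ := hg.exists
    exact notMem_empty _ hx
  have := Sys.los h hwf φ fun n => (p n).elim (h.cst I ∅ h.good.empty) v
  have e1 : (fun n => S.val ((p n).elim (h.cst I ∅ h.good.empty) v)) =
      fun n => (p n).elim ∅ fun k => S.val (v k) := by
    funext n; cases p n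
    · exact e0
    · rfl
  have e2 : ∀ x, (fun n => ((p n).elim (h.cst I ∅ h.good.empty) v).1 x) =
      fun n => (p n).elim ∅ fun k => (v k).1 x := fun x => by
    funext n; cases p n <;> rfl
  simpa only [e1, e2] using this

omit hwf in
open Classical in
noncomputable def Sys.j (S : Sys N W μ I) (a : ZF) : ZF :=
  if ha : a ∈ N then S.val (h.cst I a ha) else ∅

omit hwf in
theorem Sys.j_eq {a : ZF} (ha : a ∈ N) : S.j h a = S.val (h.cst I a ha) := dif_pos ha

theorem Sys.elem : Elem (N : Set ZF) O (Set.range (S.val (O := O))) (S.pr O) (S.j h) where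
  map a ha := ⟨_, (Sys.j_eq h ha).symm⟩
  sat φ v hv := by
    simp only [fun n => Sys.j_eq (S := S) h (hv n), Sys.los h hwf]
    exact (eventually_const (f := (S.V : Filter (I → μ)))).symm
  good := h.good
  good' := Sys.good h hwf

theorem Sys.real : Real N O W μ (· < ·) (Set.range (S.val (O := O))) (S.pr O) (S.j h)
    fun i => S.val (h.prj i) where
  elem := Sys.elem h hwf
  cmem i := ⟨_, rfl⟩
  gen i φ l hl := by
    have : ∀ n, ∃ f : FF N O μ I, S.val f = asg l n ∧
        ∀ x x', (∀ i' < i, x i' = x' i') → f.1 x = f.1 x' := by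
      intro n
      rcases asg_mem (M := {b | (∃ a ∈ N, S.j h a = b) ∨ ∃ i' < i, S.val (h.prj i') = b})
        (Or.inl ⟨∅, h.good.empty, (Sys.elem h hwf).empty⟩) hl n with ⟨a, ha, e⟩ | ⟨i', hi, e⟩
      · exact ⟨_, (Sys.j_eq h ha).symm.trans e, fun _ _ _ => rfl⟩
      · exact ⟨_, e, fun x x' e => congrArg Subtype.val (e i' hi)⟩
    choose F hF hd using this
    obtain e : asg l = fun n => S.val (F n) := funext fun n => (hF n).symm
    rw [e, ← comp_cons, Sys.los h hwf, Sys.j_eq h h.hμ, Sys.j_eq h h.hW]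
    refine (Sys.losD h hwf (fun M U w => (w none).sep (fun ζ => Sat M U φ
      (cons ζ fun n => w (some (some n)))) ∈ w (some none))
      (fun k => k.elim (h.cst I μ h.hμ) fun k => k.elim (h.cst I W h.hW) F)).trans
      (eventually_congr ?_)
    filter_upwards [S.gen i (fun x => {ζ : μ | Sat N O φ (cons ζ.1 fun n => (F n).1 x)})
      fun x x' e => by simp only [fun n => hd n x x' e]] with x hx
    rw [comp_cons (fun f : FF N O μ I => f.1 x)]
    refine Iff.trans ?_ hx
    refine (S.hU _ (h.sepD (fun M U w => Sat M U φ (cons (w none) fun n => w (some n))) _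
      (fun n => (F n).mem x) h.hμ) sep_subset).trans ?_
    simp

theorem Sys.tail (g : FF N O μ I) (i : I)
    (hd : ∀ x x', (∀ i' < i, x i' = x' i') → g.1 x = g.1 x') :
    ∀ᶠ x in (S.V : Filter (I → μ)), g.1 x ∈ μ → g.1 x ∈ (x i).1 := by
  filter_upwards [S.hV i (fun x => {ζ : μ | g.1 x ∈ ζ.1}) fun x x' e => by rw [hd x x' e]]
    with x hx hm
  refine hx ?_
  have := h.ax.1.tail _ hm
  simpa using (S.hU _ (h.good.trans W h.hW _ this) sep_subset).1 this

theorem Sys.fix : ∀ a ∈ μ, S.j h a = a := by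
  intro a
  induction a using ZFSet.inductionOn with
  | h a ih =>
    intro ha
    have haN := h.good.trans μ h.hμ a ha
    ext z
    constructor
    · intro hz
      rw [Sys.j_eq h haN] at hz
      obtain ⟨g, h1, rfl⟩ := (Sys.mem_val hwf).1 hz
      obtain ⟨s, hs⟩ := g.2.nm
      obtain ⟨g', s', h2, h3, h4⟩ := S.nr' h (T := ∅) (by simp) s g.1 hs fun i _ => by
        filter_upwards [h1, Sys.tail h hwf (h.cst I a haN) i fun _ _ _ => rfl] with x a1 a2
        exact (h.ax.1.ord.mem (x i).2).mem_trans a1 (a2 ha)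
      obtain ⟨x, a1, a2⟩ := (h1.and h4).exists
      have : S.val g = S.j h (g.1 x) := by
        rw [Sys.j_eq h (g.mem x), Sys.val_eq h hwf]
        filter_upwards [h4] with x' e
        exact e.trans (((h3.mono h2).dep h (by simp)).trans a2.symm)
      rw [this, ih _ a1 (h.ax.1.ord.mem_trans a1 ha)]
      exact a1
    · intro hz
      rw [← ih z hz (h.ax.1.ord.mem_trans hz ha)]
      exact ((Sys.elem h hwf).mem_iff (h.good.trans a haN z hz) haN).2 hz

theorem Sys.pull (φ : Fml) (v : ℕ → ZF) (hv : ∀ n, v n ∈ Set.range (S.val (O := O))) (η : ZF)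
    (hη : η ∈ μ) :
    (Tr η).sep (fun a => Sat (Set.range (S.val (O := O))) (S.pr O) φ (cons a v)) ∈ N := by
  choose F hF using hv
  obtain rfl : v = fun n => S.val (F n) := funext fun n => (hF n).symm
  obtain ⟨P, hP, h1⟩ := DE.subst h.good h.iota_mem (fun n => (F n).1) (fun n => (F n).2)
    (fun M U w => Sat M U φ (cons (w none) fun n => w (some n)))
  obtain ⟨s, hs⟩ := hP.suppI
  obtain ⟨R, hR, h2, -⟩ := S.red h (I' := Unit) (fun _ _ => False) ∅ ∅ id (fun _ => ∅)
    (fun _ => ⟨⟩) s P hP hs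
  have hηN := h.good.trans μ h.hμ η hη
  obtain ⟨z, hz, hzt⟩ := h.ax.2.tr η hηN
  have := h.sepD (fun M U w => w none ∈ Tr (w (some (⟨η, hηN⟩ : N))) ∧ R M U w) Subtype.val
    (fun k => k.2) hz
  convert this using 1
  ext a
  simp only [mem_sep, ext_none, ext_some]
  refine Iff.trans (and_congr_right fun ha => ?_) ⟨fun h => ⟨hzt h.1, h⟩, fun h => h.2⟩
  have hb : ∀ b ∈ η, b ∈ (N : Set ZF) ∧ S.j h b = b := fun b hb =>
    ⟨h.good.trans η hηN b hb, Sys.fix h hwf b (h.ax.1.ord.mem_trans hb hη)⟩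
  have haN := h.good.tr (fun b h => (hb b h).1) a ha
  rw [← h2 a haN]
  conv_lhs => rw [← (Sys.elem h hwf).fix_Tr hb a ha, Sys.j_eq h haN, ← comp_cons, Sys.los h hwf]
  refine eventually_congr (Eventually.of_forall fun x => ?_)
  rw [← h1 x a haN, comp_cons (fun f : FF N O μ I => f.1 x)]
  rfl

theorem Sys.rank_le {M' U' : Set ZF} {j' : ZF → ZF} {c' : I → ZF}
    (hr : Real N O W μ (· < ·) M' U' j' c') :
    ∀ x ∈ Set.range (S.val (O := O)), ∃ y ∈ M', x.rank ≤ y.rank := by
  obtain ⟨k, h1, h2⟩ := S.emb h hr id (T := Set.univ) fun _ _ _ _ h => h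
  have hn : ∀ f : FF N O μ I, Nm N O Set.univ f.1 := fun f =>
    f.2.nm.choose_spec.mono (Set.subset_univ _)
  rintro _ ⟨f, rfl⟩
  refine ⟨_, h1 _ (hn f), ?_⟩
  induction f using hwf.induction with
  | _ f ih =>
    refine rank_le_iff.2 fun y hy => ?_
    obtain ⟨g, hg, rfl⟩ := (Sys.mem_val hwf).1 hy
    exact (ih g hg).trans_lt (rank_lt_of_mem (h2 _ _ (hn g) (hn f) hg))

end Pool.Agent.MP_477625_lc.H75
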